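import Mathlib

/-!
# Verified numerics for the kernel, part 1: fixed point numbers and first order affine forms

Scale `D = 2 ^ 36`.  Only `Nat` operations are used (the kernel evaluates `Nat.add`, `Nat.sub`,
`Nat.mul`, `Nat.div`, `Nat.mod`, `Nat.pow`, `Nat.log2`, `Nat.ble`, `Nat.beq` with big integers); a
signed number is a pair `(p, q)`, standing for `(p - q) / D`.

An affine form `⟨p, q, r, g⟩` encloses `x` (for noise symbols `ε i ∈ [-1, 1]`) if
`|x * D - ((p - q) + ∑ g i * ε i)| ≤ r`.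
-/

namespace Pool.Agent.Work.NumI

/-- `cond` in a form which the kernel evaluates quickly -/
def cnd {α : Type} (b : Bool) (x y : α) : α := Bool.casesOn (motive := fun _ => α) b y x

theorem cnd_eq {α : Type} (b : Bool) (x y : α) : cnd b x y = cond b x y := by cases b <;> rfl


/-- the scale, as a real number -/
noncomputable def DR : ℝ := 68719476736

lemma DR_pos : 0 < DR := by unfold DR; norm_num
lemma DR_ne : DR ≠ 0 := DR_pos.ne'
lemma DN_cast : ((68719476736 : ℕ) : ℝ) = DR := by unfold DR; norm_num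

lemma ndiv_le (a b : ℕ) : ((a / b : ℕ) : ℝ) ≤ (a : ℝ) / b := Nat.cast_div_le

lemma lt_ndiv (a : ℕ) {b : ℕ} (hb : 0 < b) : (a : ℝ) / b < ((a / b : ℕ) : ℝ) + 1 := by
  have hb' : (0 : ℝ) < b := by exact_mod_cast hb
  rw [div_lt_iff₀ hb']
  exact_mod_cast Nat.lt_succ_mul_div_self' a hb
where
  Nat.lt_succ_mul_div_self' (a : ℕ) {b : ℕ} (hb : 0 < b) : a < (a / b + 1) * b := by
    have := Nat.lt_mul_div_succ a hb
    rwa [mul_comm] at this

/-- truncated differences give a signed normal form -/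
lemma sub_sub_cast (P Q : ℕ) : ((P - Q : ℕ) : ℝ) - ((Q - P : ℕ) : ℝ) = (P : ℝ) - Q := by
  rcases le_total P Q with h | h
  · rw [Nat.sub_eq_zero_of_le h, Nat.cast_sub h]; simp
  · rw [Nat.sub_eq_zero_of_le h, Nat.cast_sub h]; simp

lemma add_sub_cast (P Q : ℕ) : ((P - Q : ℕ) : ℝ) + ((Q - P : ℕ) : ℝ) = |(P : ℝ) - Q| := by
  rcases le_total P Q with h | h
  · have h' : (P : ℝ) ≤ Q := by exact_mod_cast h
    rw [Nat.sub_eq_zero_of_le h, Nat.cast_sub h, abs_of_nonpos (by linarith)]; simp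
  · have h' : (Q : ℝ) ≤ P := by exact_mod_cast h
    rw [Nat.sub_eq_zero_of_le h, Nat.cast_sub h, abs_of_nonneg (by linarith)]; simp

/-- the rounding error of the signed division is at most one unit -/
lemma sdiv_err (P Q : ℕ) {b : ℕ} (hb : 0 < b) :
    |(((P - Q) / b : ℕ) : ℝ) - (((Q - P) / b : ℕ) : ℝ) - ((P : ℝ) - Q) / b| ≤ 1 := by
  have hb' : (0 : ℝ) < b := by exact_mod_cast hb
  rw [← sub_sub_cast P Q, sub_div]
  have h1 := ndiv_le (P - Q) b
  have h2 := lt_ndiv (P - Q) hb
  have h3 := ndiv_le (Q - P) b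
  have h4 := lt_ndiv (Q - P) hb
  rcases le_total P Q with h | h
  · have h0 : P - Q = 0 := Nat.sub_eq_zero_of_le h
    rw [h0] at h1 h2 ⊢
    simp only [Nat.cast_zero, zero_div, Nat.zero_div] at h1 h2 ⊢
    rw [abs_le]; constructor <;> linarith
  · have h0 : Q - P = 0 := Nat.sub_eq_zero_of_le h
    rw [h0] at h3 h4 ⊢
    simp only [Nat.cast_zero, zero_div, Nat.zero_div] at h3 h4 ⊢
    rw [abs_le]; constructor <;> linarith

/-- coefficients of the noise symbols: `z` is a coefficient zero, `c p q` is `p - q` -/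
inductive G where
  | nil : G
  | z : G → G
  | c : ℕ → ℕ → G → G

namespace G

/-- the value of the linear part -/
noncomputable def ev : G → (ℕ → ℝ) → ℝ
  | nil, _ => 0
  | z t, ε => t.ev (fun n => ε (n + 1))
  | c p q t, ε => ((p : ℝ) - q) * ε 0 + t.ev (fun n => ε (n + 1))

/-- sum of the absolute values of the coefficients -/
def nrm : G → ℕ
  | nil => 0
  | z t => t.nrm
  | c p q t => Nat.add (Nat.add p q) t.nrm

/-- number of nonzero coefficients -/
def len : G → ℕ
  | nil => 0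
  | z t => t.len
  | c _ _ t => Nat.add t.len 1

lemma abs_ev_le : ∀ (g : G) {ε : ℕ → ℝ}, (∀ i, |ε i| ≤ 1) → |g.ev ε| ≤ (g.nrm : ℝ)
  | nil, ε, _ => by simp [ev, nrm]
  | z t, ε, h => abs_ev_le t (fun i => h (i + 1))
  | c p q t, ε, h => by
    have ih := abs_ev_le t (fun i => h (i + 1))
    have e : ((c p q t).nrm : ℝ) = (p : ℝ) + q + t.nrm := by
      change ((p + q + t.nrm : ℕ) : ℝ) = _
      push_cast; ring
    rw [e]
    unfold ev
    refine (abs_add_le _ _).trans (add_le_add ?_ ih)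
    rw [abs_mul]
    have h1 : |(p : ℝ) - q| ≤ p + q := by
      have hp : (0 : ℝ) ≤ p := Nat.cast_nonneg _
      have hq : (0 : ℝ) ≤ q := Nat.cast_nonneg _
      rw [abs_le]; constructor <;> linarith
    calc |(p : ℝ) - q| * |ε 0| ≤ |(p : ℝ) - q| * 1 :=
          mul_le_mul_of_nonneg_left (h 0) (abs_nonneg _)
      _ ≤ _ := by rw [mul_one]; exact h1

/-- addition -/
def add : G → G → G
  | nil, h => h
  | z s, nil => z s
  | z s, z t => z (add s t)
  | z s, c p q t => c p q (add s t)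
  | c p q s, nil => c p q s
  | c p q s, z t => c p q (add s t)
  | c p q s, c p' q' t => c (Nat.sub (Nat.add p p') (Nat.add q q')) (Nat.sub (Nat.add q q') (Nat.add p p')) (add s t)

lemma ev_add : ∀ (s t : G) (ε : ℕ → ℝ), (add s t).ev ε = s.ev ε + t.ev ε
  | nil, h, ε => by simp [add, ev]
  | z s, nil, ε => by simp [add, ev]
  | z s, z t, ε => by simp [add, ev, ev_add s t]
  | z s, c p q t, ε => by simp only [add, ev, ev_add s t]; ring
  | c p q s, nil, ε => by simp [add, ev]
  | c p q s, z t, ε => by simp only [add, ev, ev_add s t]; ring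
  | c p q s, c p' q' t, ε => by
    simp only [add, ev, ev_add s t]
    have e : ((Nat.sub (Nat.add p p') (Nat.add q q') : ℕ) : ℝ) - ((Nat.sub (Nat.add q q') (Nat.add p p') : ℕ) : ℝ) =
        ((p : ℝ) - q) + ((p' : ℝ) - q') := by
      have := sub_sub_cast (p + p') (q + q')
      push_cast at this
      change (((p + p') - (q + q') : ℕ) : ℝ) - (((q + q') - (p + p') : ℕ) : ℝ) = _
      rw [this]; ring
    rw [e]; ring

def neg : G → G
  | nil => nil
  | z t => z t.neg
  | c p q t => c q p t.neg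

lemma ev_neg : ∀ (s : G) (ε : ℕ → ℝ), s.neg.ev ε = -s.ev ε
  | nil, ε => by simp [neg, ev]
  | z s, ε => by simp [neg, ev, ev_neg s]
  | c p q s, ε => by simp only [neg, ev, ev_neg s]; ring

/-- multiplication by `(s - t) / D` -/
def scl (s t : ℕ) : G → G
  | nil => nil
  | z u => z (scl s t u)
  | c p q u => c (Nat.div (Nat.sub (Nat.add (Nat.mul p s) (Nat.mul q t)) (Nat.add (Nat.mul p t) (Nat.mul q s))) 68719476736)
      (Nat.div (Nat.sub (Nat.add (Nat.mul p t) (Nat.mul q s)) (Nat.add (Nat.mul p s) (Nat.mul q t))) 68719476736) (scl s t u)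

lemma len_scl (s t : ℕ) : ∀ g : G, (scl s t g).len = g.len
  | nil => rfl
  | z u => len_scl s t u
  | c p q u => by
    change (scl s t u).len + 1 = u.len + 1
    rw [len_scl s t u]

lemma scl_err (s t : ℕ) : ∀ (g : G) {ε : ℕ → ℝ}, (∀ i, |ε i| ≤ 1) →
    |(scl s t g).ev ε - ((s : ℝ) - t) / DR * g.ev ε| ≤ (g.len : ℝ)
  | nil, ε, _ => by simp [scl, ev, len]
  | z u, ε, h => scl_err s t u (fun i => h (i + 1))
  | c p q u, ε, h => by
    have ih := scl_err s t u (fun i => h (i + 1))
    have e : ((c p q u).len : ℝ) = 1 + u.len := by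
      change ((u.len + 1 : ℕ) : ℝ) = _
      push_cast; ring
    rw [e]
    have k := sdiv_err (p * s + q * t) (p * t + q * s) (b := 68719476736) (by norm_num)
    rw [DN_cast] at k
    change |((((p * s + q * t - (p * t + q * s)) / 68719476736 : ℕ) : ℝ) -
      (((p * t + q * s - (p * s + q * t)) / 68719476736 : ℕ) : ℝ)) * ε 0 +
      (scl s t u).ev (fun n => ε (n + 1)) -
      ((s : ℝ) - t) / DR * (((p : ℝ) - q) * ε 0 + u.ev (fun n => ε (n + 1)))| ≤ _
    push_cast at k
    set X := (((p * s + q * t - (p * t + q * s)) / 68719476736 : ℕ) : ℝ)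
    set Y := (((p * t + q * s - (p * s + q * t)) / 68719476736 : ℕ) : ℝ)
    set U := (scl s t u).ev (fun n => ε (n + 1))
    set W := u.ev (fun n => ε (n + 1))
    have e2 : (X - Y) * ε 0 + U - ((s : ℝ) - t) / DR * (((p : ℝ) - q) * ε 0 + W) =
        (X - Y - ((p : ℝ) * s + q * t - (p * t + q * s)) / DR) * ε 0 +
        (U - ((s : ℝ) - t) / DR * W) := by ring
    rw [e2]
    refine (abs_add_le _ _).trans (add_le_add ?_ ih)
    rw [abs_mul]
    calc _ ≤ 1 * |ε 0| := mul_le_mul_of_nonneg_right k (abs_nonneg _)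
      _ ≤ 1 := by rw [one_mul]; exact h 0

/-- `(s - t) / D * g + (s' - t') / D * g'` -/
def lin (s t s' t' : ℕ) : G → G → G
  | nil, h => scl s' t' h
  | z u, nil => z (scl s t u)
  | z u, z v => z (lin s t s' t' u v)
  | z u, c p q v => c (Nat.div (Nat.sub (Nat.add (Nat.mul p s') (Nat.mul q t')) (Nat.add (Nat.mul p t') (Nat.mul q s'))) 68719476736)
      (Nat.div (Nat.sub (Nat.add (Nat.mul p t') (Nat.mul q s')) (Nat.add (Nat.mul p s') (Nat.mul q t'))) 68719476736) (lin s t s' t' u v)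
  | c p q u, nil => scl s t (c p q u)
  | c p q u, z v => c (Nat.div (Nat.sub (Nat.add (Nat.mul p s) (Nat.mul q t)) (Nat.add (Nat.mul p t) (Nat.mul q s))) 68719476736)
      (Nat.div (Nat.sub (Nat.add (Nat.mul p t) (Nat.mul q s)) (Nat.add (Nat.mul p s) (Nat.mul q t))) 68719476736) (lin s t s' t' u v)
  | c p q u, c p' q' v =>
      c (Nat.div (Nat.sub (Nat.add (Nat.add (Nat.mul p s) (Nat.mul q t)) (Nat.add (Nat.mul p' s') (Nat.mul q' t'))) (Nat.add (Nat.add (Nat.mul p t) (Nat.mul q s)) (Nat.add (Nat.mul p' t') (Nat.mul q' s')))) 68719476736)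
        (Nat.div (Nat.sub (Nat.add (Nat.add (Nat.mul p t) (Nat.mul q s)) (Nat.add (Nat.mul p' t') (Nat.mul q' s'))) (Nat.add (Nat.add (Nat.mul p s) (Nat.mul q t)) (Nat.add (Nat.mul p' s') (Nat.mul q' t')))) 68719476736) (lin s t s' t' u v)

/-- one step of the error estimate -/
lemma step_err {P Q : ℕ} {x A B W L : ℝ} {ε0 : ℝ} (h0 : |ε0| ≤ 1)
    (hx : ((P : ℝ) - Q) / DR = x) (ih : |A - B| ≤ L) (hW : W = x * ε0 + B) :
    |((((P - Q) / 68719476736 : ℕ) : ℝ) - (((Q - P) / 68719476736 : ℕ) : ℝ)) * ε0 + A - W| ≤ 1 + L := by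
  have k := sdiv_err P Q (b := 68719476736) (by norm_num)
  rw [DN_cast, hx] at k
  rw [hW]
  set X := (((P - Q) / 68719476736 : ℕ) : ℝ)
  set Y := (((Q - P) / 68719476736 : ℕ) : ℝ)
  have e2 : (X - Y) * ε0 + A - (x * ε0 + B) = (X - Y - x) * ε0 + (A - B) := by ring
  rw [e2]
  refine (abs_add_le _ _).trans (add_le_add ?_ ih)
  rw [abs_mul]
  calc _ ≤ 1 * |ε0| := mul_le_mul_of_nonneg_right k (abs_nonneg _)
    _ ≤ 1 := by rw [one_mul]; exact h0

lemma lin_err (s t s' t' : ℕ) : ∀ (g g' : G) {ε : ℕ → ℝ}, (∀ i, |ε i| ≤ 1) →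
    |(lin s t s' t' g g').ev ε - (((s : ℝ) - t) / DR * g.ev ε + ((s' : ℝ) - t') / DR * g'.ev ε)| ≤
      ((lin s t s' t' g g').len : ℝ)
  | nil, g', ε, h => by
    have := scl_err s' t' g' h
    simp only [lin, ev, mul_zero, zero_add, len_scl]
    exact this
  | z u, nil, ε, h => by
    have := scl_err s t u (fun i => h (i + 1))
    simp only [lin, ev, mul_zero, add_zero, len, len_scl]
    exact this
  | z u, z v, ε, h => lin_err s t s' t' u v (fun i => h (i + 1))
  | z u, c p q v, ε, h => by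
    have ih := lin_err s t s' t' u v (fun i => h (i + 1))
    have e : ((lin s t s' t' (z u) (c p q v)).len : ℝ) = 1 + (lin s t s' t' u v).len := by
      change (((lin s t s' t' u v).len + 1 : ℕ) : ℝ) = _
      push_cast; ring
    rw [e]
    refine step_err (P := p * s' + q * t') (Q := p * t' + q * s')
      (x := ((s' : ℝ) - t') / DR * ((p : ℝ) - q)) (h 0) ?_ ih ?_
    · push_cast; ring
    · simp only [ev]; ring
  | c p q u, nil, ε, h => by
    have := scl_err s t (c p q u) h
    have e : lin s t s' t' (c p q u) nil = scl s t (c p q u) := rfl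
    rw [e, len_scl]
    simpa only [ev, mul_zero, add_zero] using this
  | c p q u, z v, ε, h => by
    have ih := lin_err s t s' t' u v (fun i => h (i + 1))
    have e : ((lin s t s' t' (c p q u) (z v)).len : ℝ) = 1 + (lin s t s' t' u v).len := by
      change (((lin s t s' t' u v).len + 1 : ℕ) : ℝ) = _
      push_cast; ring
    rw [e]
    refine step_err (P := p * s + q * t) (Q := p * t + q * s)
      (x := ((s : ℝ) - t) / DR * ((p : ℝ) - q)) (h 0) ?_ ih ?_
    · push_cast; ring
    · simp only [ev]; ring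
  | c p q u, c p' q' v, ε, h => by
    have ih := lin_err s t s' t' u v (fun i => h (i + 1))
    have e : ((lin s t s' t' (c p q u) (c p' q' v)).len : ℝ) = 1 + (lin s t s' t' u v).len := by
      change (((lin s t s' t' u v).len + 1 : ℕ) : ℝ) = _
      push_cast; ring
    rw [e]
    refine step_err (P := p * s + q * t + (p' * s' + q' * t')) (Q := p * t + q * s + (p' * t' + q' * s'))
      (x := ((s : ℝ) - t) / DR * ((p : ℝ) - q) + ((s' : ℝ) - t') / DR * ((p' : ℝ) - q')) (h 0) ?_ ih ?_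
    · push_cast; ring
    · simp only [ev]; ring

end G

end Pool.Agent.Work.NumI
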