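import Mathlib
import Pool.Agent.Work.NumI.Basic

/-!
# Verified numerics for the kernel, part 2: the ring operations on affine forms
-/

namespace Pool.Agent.Work.NumI

/-- an affine form -/
structure A where
  p : ℕ
  q : ℕ
  r : ℕ
  g : G

namespace A

/-- `a` encloses `x` for the values `ε` of the noise symbols -/
def Encl (a : A) (ε : ℕ → ℝ) (x : ℝ) : Prop :=
  |x * DR - ((a.p : ℝ) - a.q + a.g.ev ε)| ≤ (a.r : ℝ)

/-- total radius -/
def tot (a : A) : ℕ := Nat.add a.g.nrm a.r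

/-- `x * D` is within `tot` of the centre -/
lemma Encl.tot {a : A} {ε : ℕ → ℝ} {x : ℝ} (h : a.Encl ε x) (hε : ∀ i, |ε i| ≤ 1) :
    |x * DR - ((a.p : ℝ) - a.q)| ≤ (a.tot : ℝ) := by
  have h1 := a.g.abs_ev_le hε
  have e : (a.tot : ℝ) = a.g.nrm + a.r := by
    change ((a.g.nrm + a.r : ℕ) : ℝ) = _
    push_cast; ring
  rw [e]
  have e2 : x * DR - ((a.p : ℝ) - a.q) = a.g.ev ε + (x * DR - ((a.p : ℝ) - a.q + a.g.ev ε)) := by ring
  rw [e2]
  exact (abs_add_le _ _).trans (add_le_add h1 h)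

def add (a b : A) : A :=
  ⟨Nat.sub (Nat.add a.p b.p) (Nat.add a.q b.q), Nat.sub (Nat.add a.q b.q) (Nat.add a.p b.p), Nat.add a.r b.r, a.g.add b.g⟩

lemma Encl.add {a b : A} {ε : ℕ → ℝ} {x y : ℝ} (hx : a.Encl ε x) (hy : b.Encl ε y) :
    (a.add b).Encl ε (x + y) := by
  unfold Encl at *
  have k := sub_sub_cast (a.p + b.p) (a.q + b.q)
  change |(x + y) * DR - (((a.p + b.p - (a.q + b.q) : ℕ) : ℝ) - ((a.q + b.q - (a.p + b.p) : ℕ) : ℝ)
    + (a.g.add b.g).ev ε)| ≤ ((a.r + b.r : ℕ) : ℝ)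
  rw [k, G.ev_add]
  push_cast
  have e : (x + y) * DR - ((a.p : ℝ) + b.p - (a.q + b.q) + (a.g.ev ε + b.g.ev ε)) =
      (x * DR - ((a.p : ℝ) - a.q + a.g.ev ε)) + (y * DR - ((b.p : ℝ) - b.q + b.g.ev ε)) := by ring
  rw [e]
  exact (abs_add_le _ _).trans (add_le_add hx hy)

def neg (a : A) : A := ⟨a.q, a.p, a.r, a.g.neg⟩

lemma Encl.neg {a : A} {ε : ℕ → ℝ} {x : ℝ} (hx : a.Encl ε x) : (a.neg).Encl ε (-x) := by
  unfold Encl at *
  change |(-x) * DR - ((a.q : ℝ) - a.p + a.g.neg.ev ε)| ≤ (a.r : ℝ)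
  rw [G.ev_neg]
  have e : (-x) * DR - ((a.q : ℝ) - a.p + -a.g.ev ε) = -(x * DR - ((a.p : ℝ) - a.q + a.g.ev ε)) := by
    ring
  rw [e, abs_neg]
  exact hx

def sub (a b : A) : A := a.add b.neg

lemma Encl.sub {a b : A} {ε : ℕ → ℝ} {x y : ℝ} (hx : a.Encl ε x) (hy : b.Encl ε y) :
    (a.sub b).Encl ε (x - y) := by
  rw [sub_eq_add_neg]
  exact hx.add hy.neg

/-- product -/
def mul (a b : A) : A :=
  let g := G.lin a.p a.q b.p b.q b.g a.g
  let P := Nat.add (Nat.mul a.p b.p) (Nat.mul a.q b.q)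
  let Q := Nat.add (Nat.mul a.p b.q) (Nat.mul a.q b.p)
  ⟨Nat.div (Nat.sub P Q) 68719476736, Nat.div (Nat.sub Q P) 68719476736,
    Nat.add (Nat.add (Nat.div (Nat.add (Nat.add (Nat.mul (Nat.add a.p a.q) b.r) (Nat.mul (Nat.add b.p b.q) a.r)) (Nat.mul a.tot b.tot)) 68719476736) g.len) 2, g⟩

lemma abs_pq (p q : ℕ) : |(p : ℝ) - q| ≤ (p : ℝ) + q := by
  have hp : (0 : ℝ) ≤ p := Nat.cast_nonneg _
  have hq : (0 : ℝ) ≤ q := Nat.cast_nonneg _
  rw [abs_le]; constructor <;> linarith only []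

lemma Encl.mul {a b : A} {ε : ℕ → ℝ} {x y : ℝ} (hε : ∀ i, |ε i| ≤ 1) (hx : a.Encl ε x)
    (hy : b.Encl ε y) : (a.mul b).Encl ε (x * y) := by
  have hD := DR_pos
  have tx := hx.tot hε
  have ty := hy.tot hε
  unfold Encl at hx hy
  have hl := G.lin_err a.p a.q b.p b.q b.g a.g hε
  have k := sdiv_err (a.p * b.p + a.q * b.q) (a.p * b.q + a.q * b.p) (b := 68719476736) (by norm_num)
  rw [DN_cast] at k
  have kr := lt_ndiv ((a.p + a.q) * b.r + (b.p + b.q) * a.r + a.tot * b.tot)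
    (b := 68719476736) (by norm_num)
  rw [DN_cast] at kr
  unfold Encl
  change |x * y * DR - ((((a.p * b.p + a.q * b.q - (a.p * b.q + a.q * b.p)) / 68719476736 : ℕ) : ℝ) -
    (((a.p * b.q + a.q * b.p - (a.p * b.p + a.q * b.q)) / 68719476736 : ℕ) : ℝ) +
    (G.lin a.p a.q b.p b.q b.g a.g).ev ε)| ≤
    ((((a.p + a.q) * b.r + (b.p + b.q) * a.r + a.tot * b.tot) / 68719476736 +
      (G.lin a.p a.q b.p b.q b.g a.g).len + 2 : ℕ) : ℝ)
  push_cast at k kr ⊢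
  set X := (((a.p * b.p + a.q * b.q - (a.p * b.q + a.q * b.p)) / 68719476736 : ℕ) : ℝ)
  set Y := (((a.p * b.q + a.q * b.p - (a.p * b.p + a.q * b.q)) / 68719476736 : ℕ) : ℝ)
  set R := ((((a.p + a.q) * b.r + (b.p + b.q) * a.r + a.tot * b.tot) / 68719476736 : ℕ) : ℝ)
  set L := (G.lin a.p a.q b.p b.q b.g a.g).ev ε
  set n := ((G.lin a.p a.q b.p b.q b.g a.g).len : ℝ)
  set c1 : ℝ := (a.p : ℝ) - a.q with hc1
  set c2 : ℝ := (b.p : ℝ) - b.q with hc2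
  set G1 := a.g.ev ε
  set G2 := b.g.ev ε
  set ρ1 := x * DR - (c1 + G1) with hρ1
  set ρ2 := y * DR - (c2 + G2) with hρ2
  set u1 := x * DR - c1 with hu1
  set u2 := y * DR - c2 with hu2
  have e : x * y * DR - (X - Y + L) =
      -(X - Y - ((a.p : ℝ) * b.p + a.q * b.q - (a.p * b.q + a.q * b.p)) / DR) +
      (-(L - (c1 / DR * G2 + c2 / DR * G1))) + (c1 * ρ2 + c2 * ρ1 + u1 * u2) / DR := by
    rw [hρ1, hρ2, hu1, hu2, hc1, hc2]
    field_simp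
    ring
  rw [e]
  have m1 : |c1 * ρ2| ≤ ((a.p : ℝ) + a.q) * b.r := by
    rw [abs_mul]
    exact mul_le_mul (abs_pq _ _) hy (abs_nonneg _) (by positivity)
  have m2 : |c2 * ρ1| ≤ ((b.p : ℝ) + b.q) * a.r := by
    rw [abs_mul]
    exact mul_le_mul (abs_pq _ _) hx (abs_nonneg _) (by positivity)
  have m3 : |u1 * u2| ≤ (a.tot : ℝ) * b.tot := by
    rw [abs_mul]
    exact mul_le_mul tx ty (abs_nonneg _) (by positivity)
  have m4 : |(c1 * ρ2 + c2 * ρ1 + u1 * u2) / DR| ≤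
      (((a.p : ℝ) + a.q) * b.r + (b.p + b.q) * a.r + a.tot * b.tot) / DR := by
    rw [abs_div, abs_of_pos hD]
    gcongr
    exact (abs_add_three _ _ _).trans (by linarith only [m1, m2, m3])
  have k' : |-(X - Y - ((a.p : ℝ) * b.p + a.q * b.q - (a.p * b.q + a.q * b.p)) / DR)| ≤ 1 := by
    rw [abs_neg]; exact k
  have hl' : |-(L - (c1 / DR * G2 + c2 / DR * G1))| ≤ n := by rw [abs_neg]; exact hl
  refine (abs_add_three _ _ _).trans ?_
  linarith only [kr, m4, k', hl']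

/-- square -/
def sq (a : A) : A :=
  let g := G.scl (Nat.mul 2 a.p) (Nat.mul 2 a.q) a.g
  let t := a.tot
  ⟨Nat.div (Nat.add (Nat.mul 2 (Nat.mul (Nat.add a.p a.q) (Nat.add a.p a.q))) (Nat.mul t t)) 137438953472, 0,
    Nat.add (Nat.add (Nat.div (Nat.add (Nat.mul (Nat.mul 4 (Nat.add a.p a.q)) a.r) (Nat.mul t t)) 137438953472) g.len) 2, g⟩

lemma Encl.sq {a : A} {ε : ℕ → ℝ} {x : ℝ} (hε : ∀ i, |ε i| ≤ 1) (hx : a.Encl ε x)
    (hn : a.p = 0 ∨ a.q = 0) : (a.sq).Encl ε (x ^ 2) := by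
  have hD := DR_pos
  have tx := hx.tot hε
  unfold Encl at hx
  have hl := G.scl_err (2 * a.p) (2 * a.q) a.g hε
  have k1 := ndiv_le (2 * ((a.p + a.q) * (a.p + a.q)) + a.tot * a.tot) 137438953472
  have k2 := lt_ndiv (2 * ((a.p + a.q) * (a.p + a.q)) + a.tot * a.tot) (b := 137438953472) (by norm_num)
  have kr := lt_ndiv (4 * (a.p + a.q) * a.r + a.tot * a.tot) (b := 137438953472) (by norm_num)
  have hDD : ((137438953472 : ℕ) : ℝ) = 2 * DR := by unfold DR; norm_num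
  rw [hDD] at k1 k2 kr
  unfold Encl
  change |x ^ 2 * DR - ((((2 * ((a.p + a.q) * (a.p + a.q)) + a.tot * a.tot) / 137438953472 : ℕ) : ℝ) -
    ((0 : ℕ) : ℝ) + (G.scl (2 * a.p) (2 * a.q) a.g).ev ε)| ≤
    (((4 * (a.p + a.q) * a.r + a.tot * a.tot) / 137438953472 +
      (G.scl (2 * a.p) (2 * a.q) a.g).len + 2 : ℕ) : ℝ)
  rw [G.len_scl]
  push_cast at k1 k2 kr hl ⊢
  set X := (((2 * ((a.p + a.q) * (a.p + a.q)) + a.tot * a.tot) / 137438953472 : ℕ) : ℝ)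
  set R := (((4 * (a.p + a.q) * a.r + a.tot * a.tot) / 137438953472 : ℕ) : ℝ)
  set L := (G.scl (2 * a.p) (2 * a.q) a.g).ev ε
  set n := (a.g.len : ℝ)
  set T := (a.tot : ℝ)
  have hpq : ((a.p : ℝ) + a.q) * (a.p + a.q) = ((a.p : ℝ) - a.q) * (a.p - a.q) := by
    rcases hn with h | h <;> rw [h] <;> push_cast <;> ring
  rw [hpq] at k1 k2
  have hp := abs_pq a.p a.q
  set c1 : ℝ := (a.p : ℝ) - a.q with hc1
  set G1 := a.g.ev ε
  set ρ1 := x * DR - (c1 + G1) with hρ1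
  set u1 := x * DR - c1 with hu1
  have e : x ^ 2 * DR - (X - 0 + L) =
      ((2 * (c1 * c1) + T * T) / (2 * DR) - X) +
      (-(L - ((2 * (a.p : ℝ) - 2 * a.q) / DR * G1))) + (2 * c1 * ρ1) / DR +
      (2 * u1 ^ 2 - T * T) / (2 * DR) := by
    rw [hρ1, hu1, hc1]
    field_simp
    ring
  rw [e]
  have hu : 0 ≤ u1 ^ 2 := sq_nonneg _
  have hu2 : u1 ^ 2 ≤ T * T := by
    have := mul_le_mul tx tx (abs_nonneg _) ((abs_nonneg _).trans tx)
    rw [← abs_mul, abs_of_nonneg (mul_self_nonneg _)] at this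
    nlinarith only [this]
  have m1 : |(2 * c1 * ρ1) / DR| ≤ (4 * ((a.p : ℝ) + a.q) * a.r) / (2 * DR) := by
    rw [abs_div, abs_of_pos hD, div_le_div_iff₀ hD (by positivity)]
    rw [abs_mul, abs_mul]
    have : |c1| * |ρ1| ≤ ((a.p : ℝ) + a.q) * a.r :=
      mul_le_mul hp hx (abs_nonneg _) (by positivity)
    rw [abs_two]
    nlinarith only [hD, this]
  have m2 : |(2 * u1 ^ 2 - T * T) / (2 * DR)| ≤ T * T / (2 * DR) := by
    rw [abs_div, abs_of_pos (by positivity : 0 < 2 * DR)]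
    gcongr
    rw [abs_le]; constructor <;> linarith only [hu, hu2]
  have m3 : |(2 * (c1 * c1) + T * T) / (2 * DR) - X| ≤ 1 := by
    rw [abs_le]; constructor <;> linarith only [k1, k2]
  have m4 : |-(L - ((2 * (a.p : ℝ) - 2 * a.q) / DR * G1))| ≤ n := by rw [abs_neg]; exact hl
  have s1 := abs_add_le (((2 * (c1 * c1) + T * T) / (2 * DR) - X) +
      (-(L - ((2 * (a.p : ℝ) - 2 * a.q) / DR * G1))) + (2 * c1 * ρ1) / DR)
      ((2 * u1 ^ 2 - T * T) / (2 * DR))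
  have s2 := abs_add_three ((2 * (c1 * c1) + T * T) / (2 * DR) - X)
      (-(L - ((2 * (a.p : ℝ) - 2 * a.q) / DR * G1))) ((2 * c1 * ρ1) / DR)
  have s3 : (4 * ((a.p : ℝ) + a.q) * a.r + T * T) / (2 * DR) =
      (4 * ((a.p : ℝ) + a.q) * a.r) / (2 * DR) + T * T / (2 * DR) := by ring
  rw [s3] at kr
  linarith only [kr, m1, m2, m3, m4, s1, s2]

/-- normal form of a centre -/
def nf (a : A) : A := ⟨Nat.sub a.p a.q, Nat.sub a.q a.p, a.r, a.g⟩

lemma Encl.nf {a : A} {ε : ℕ → ℝ} {x : ℝ} (hx : a.Encl ε x) : (a.nf).Encl ε x := by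
  unfold Encl at *
  have := sub_sub_cast a.p a.q
  change |x * DR - (((a.p - a.q : ℕ) : ℝ) - ((a.q - a.p : ℕ) : ℝ) + a.g.ev ε)| ≤ _
  rw [this]
  exact hx

/-- the general rule for a function of one variable: `F = f(c)`, error `e0`; `F' = f'(c)`,
error `e1`; second order remainder at most `k2` -/
def app (a : A) (F1 F2 e0 S1 S2 e1 k2 : ℕ) : A :=
  ⟨F1, F2, Nat.add (Nat.add (Nat.add (Nat.add e0 (Nat.div (Nat.add (Nat.mul (Nat.add S1 S2) a.r) (Nat.mul e1 a.tot)) 68719476736)) k2) a.g.len) 1,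
    G.scl S1 S2 a.g⟩

lemma Encl.app {a : A} {ε : ℕ → ℝ} {x : ℝ} (hε : ∀ i, |ε i| ≤ 1) (hx : a.Encl ε x)
    (f : ℝ → ℝ) (d : ℝ) {F1 F2 e0 S1 S2 e1 k2 : ℕ}
    (h0 : |f (((a.p : ℝ) - a.q) / DR) * DR - ((F1 : ℝ) - F2)| ≤ e0)
    (h1 : |d * DR - ((S1 : ℝ) - S2)| ≤ e1)
    (h2 : ∀ δ : ℝ, |δ| ≤ (a.tot : ℝ) →
      |f (((a.p : ℝ) - a.q + δ) / DR) * DR - f (((a.p : ℝ) - a.q) / DR) * DR - d * δ| ≤ k2) :
    (a.app F1 F2 e0 S1 S2 e1 k2).Encl ε (f x) := by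
  have hD := DR_pos
  have tx := hx.tot hε
  have k2' := h2 _ tx
  have hxx : ((a.p : ℝ) - a.q + (x * DR - (a.p - a.q))) / DR = x := by field_simp; ring
  rw [hxx] at k2'
  have hl := G.scl_err S1 S2 a.g hε
  have kr := lt_ndiv ((S1 + S2) * a.r + e1 * a.tot) (b := 68719476736) (by norm_num)
  rw [DN_cast] at kr
  unfold Encl at hx
  unfold Encl
  change |f x * DR - ((F1 : ℝ) - F2 + (G.scl S1 S2 a.g).ev ε)| ≤
    ((e0 + ((S1 + S2) * a.r + e1 * a.tot) / 68719476736 + k2 + a.g.len + 1 : ℕ) : ℝ)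
  push_cast at kr ⊢
  set R := ((((S1 + S2) * a.r + e1 * a.tot) / 68719476736 : ℕ) : ℝ)
  set L := (G.scl S1 S2 a.g).ev ε
  set n := (a.g.len : ℝ)
  set T := (a.tot : ℝ)
  set c1 : ℝ := (a.p : ℝ) - a.q with hc1
  set G1 := a.g.ev ε
  set ρ1 := x * DR - (c1 + G1) with hρ1
  set u1 := x * DR - c1 with hu1
  set S : ℝ := (S1 : ℝ) - S2 with hS
  have e : f x * DR - ((F1 : ℝ) - F2 + L) =
      (f x * DR - f (c1 / DR) * DR - d * u1) + (f (c1 / DR) * DR - ((F1 : ℝ) - F2)) +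
      (-(L - S / DR * G1)) + ((d * DR - S) * u1 + S * ρ1) / DR := by
    rw [hρ1, hu1]
    field_simp
    ring
  rw [e]
  have m1 : |((d * DR - S) * u1 + S * ρ1) / DR| ≤ (((S1 : ℝ) + S2) * a.r + e1 * T) / DR := by
    rw [abs_div, abs_of_pos hD]
    gcongr
    have a1 : |(d * DR - S) * u1| ≤ e1 * T := by
      rw [abs_mul]; exact mul_le_mul h1 tx (abs_nonneg _) (by positivity)
    have a2 : |S * ρ1| ≤ ((S1 : ℝ) + S2) * a.r := by
      rw [abs_mul]; exact mul_le_mul (abs_pq _ _) hx (abs_nonneg _) (by positivity)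
    exact (abs_add_le _ _).trans (by linarith only [a1, a2])
  have m3 : |-(L - S / DR * G1)| ≤ n := by rw [abs_neg]; exact hl
  have s1 := abs_add_le ((f x * DR - f (c1 / DR) * DR - d * u1) + (f (c1 / DR) * DR - ((F1 : ℝ) - F2)) +
      (-(L - S / DR * G1))) (((d * DR - S) * u1 + S * ρ1) / DR)
  have s2 := abs_add_three (f x * DR - f (c1 / DR) * DR - d * u1) (f (c1 / DR) * DR - ((F1 : ℝ) - F2))
      (-(L - S / DR * G1))
  linarith only [kr, h0, k2', m1, m3, s1, s2]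

end A

end Pool.Agent.Work.NumI
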