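import Mathlib
import Pool.Agent.Work.NumI.Aff

/-!
# Verified numerics for the kernel, part 3: `cos (π x)` and `sin (π x)`
-/

namespace Pool.Agent.Work.NumI

open Finset

/-- `9!`-free Taylor bounds for cosine and sine on `|y| ≤ 4/5`, degree 12. -/
lemma cos_sin_taylor {y : ℝ} (hy : |y| ≤ 4 / 5) :
    |Real.cos y - (1 - y ^ 2 / 2 + y ^ 4 / 24 - y ^ 6 / 720 + y ^ 8 / 40320 - y ^ 10 / 3628800
      + y ^ 12 / 479001600)| ≤ 1 / 70000000000 ∧
    |Real.sin y - (y - y ^ 3 / 6 + y ^ 5 / 120 - y ^ 7 / 5040 + y ^ 9 / 362880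
      - y ^ 11 / 39916800)| ≤ 1 / 70000000000 := by
  have h1 : ‖(y * Complex.I : ℂ)‖ ≤ 1 := by
    rw [norm_mul, Complex.norm_I, mul_one, Complex.norm_real, Real.norm_eq_abs]
    linarith only [hy]
  have h2 := Complex.exp_bound h1 (n := 13) (by norm_num)
  have h3 : ‖(y * Complex.I : ℂ)‖ ^ 13 * ((Nat.succ 13 : ℕ) * ((Nat.factorial 13 : ℕ) * (13 : ℕ) : ℝ)⁻¹)
      ≤ 1 / 70000000000 := by
    rw [norm_mul, Complex.norm_I, mul_one, Complex.norm_real, Real.norm_eq_abs]
    have : |y| ^ 13 ≤ (4 / 5 : ℝ) ^ 13 := by gcongr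
    have e : (Nat.factorial 13 : ℕ) = 6227020800 := by decide
    rw [e]
    push_cast
    nlinarith only [this]
  have h4 := h2.trans h3
  have e1 : Complex.exp (y * Complex.I) = Real.cos y + Real.sin y * Complex.I := by
    rw [Complex.exp_mul_I]; simp
  have hs : ∑ m ∈ range 13, (y * Complex.I : ℂ) ^ m / (m.factorial : ℂ) =
      ((1 - y ^ 2 / 2 + y ^ 4 / 24 - y ^ 6 / 720 + y ^ 8 / 40320 - y ^ 10 / 3628800
      + y ^ 12 / 479001600 : ℝ) : ℂ) + ((y - y ^ 3 / 6 + y ^ 5 / 120 - y ^ 7 / 5040 + y ^ 9 / 362880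
      - y ^ 11 / 39916800 : ℝ) : ℂ) * Complex.I := by
    simp only [sum_range_succ, sum_range_zero, Nat.factorial]
    have I2 : Complex.I ^ 2 = -1 := Complex.I_sq
    have I3 : Complex.I ^ 3 = -Complex.I := by rw [pow_succ, I2]; ring
    have I4 : Complex.I ^ 4 = 1 := Complex.I_pow_four
    have I5 : Complex.I ^ 5 = Complex.I := by rw [pow_succ, I4]; ring
    have I6 : Complex.I ^ 6 = -1 := by rw [pow_succ, I5, ← sq, I2]
    have I7 : Complex.I ^ 7 = -Complex.I := by rw [pow_succ, I6]; ring
    have I8 : Complex.I ^ 8 = 1 := by rw [pow_succ, I7]; rw [neg_mul, ← sq, I2]; ring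
    have I9 : Complex.I ^ 9 = Complex.I := by rw [pow_succ, I8]; ring
    have I10 : Complex.I ^ 10 = -1 := by rw [pow_succ, I9, ← sq, I2]
    have I11 : Complex.I ^ 11 = -Complex.I := by rw [pow_succ, I10]; ring
    have I12 : Complex.I ^ 12 = 1 := by rw [pow_succ, I11]; rw [neg_mul, ← sq, I2]; ring
    simp only [mul_pow, I2, I3, I4, I5, I6, I7, I8, I9, I10, I11, I12]
    push_cast
    ring
  rw [e1, hs] at h4
  set c := (1 - y ^ 2 / 2 + y ^ 4 / 24 - y ^ 6 / 720 + y ^ 8 / 40320 - y ^ 10 / 3628800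
      + y ^ 12 / 479001600 : ℝ)
  set s := (y - y ^ 3 / 6 + y ^ 5 / 120 - y ^ 7 / 5040 + y ^ 9 / 362880
      - y ^ 11 / 39916800 : ℝ)
  have e2 : (Real.cos y : ℂ) + Real.sin y * Complex.I - ((c : ℂ) + (s : ℂ) * Complex.I) =
      ((Real.cos y - c : ℝ) : ℂ) + ((Real.sin y - s : ℝ) : ℂ) * Complex.I := by
    push_cast; ring
  rw [e2] at h4
  constructor
  · refine le_trans ?_ h4
    have := Complex.abs_re_le_norm (((Real.cos y - c : ℝ) : ℂ) + ((Real.sin y - s : ℝ) : ℂ) * Complex.I)
    simpa only [Complex.add_re, Complex.ofReal_re, Complex.mul_re, Complex.I_re, mul_zero,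
      Complex.ofReal_im, Complex.I_im, zero_mul, sub_zero, add_zero] using this
  · refine le_trans ?_ h4
    have := Complex.abs_im_le_norm (((Real.cos y - c : ℝ) : ℂ) + ((Real.sin y - s : ℝ) : ℂ) * Complex.I)
    simpa only [Complex.add_im, Complex.ofReal_re, Complex.mul_im, Complex.I_re, mul_zero,
      Complex.ofReal_im, Complex.I_im, zero_mul, sub_zero, add_zero, zero_add, mul_one] using this


/-- the numerator of the degree 12 polynomial of cosine, `Z = Y ^ 2`, over `12! * D ^ 12` -/
def cosN (Z : ℕ) : ℕ :=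
  Nat.sub 5312452879021523644167342878668926891519915429617346963252719967526930359331948649748578417931730498127901383505799396607174191825394073600 (Nat.mul Z (
  Nat.sub 562477827408399277146112914515523649526097871009581735690292753514741287282168813896310681072350812191110852299980800 (Nat.mul Z (
  Nat.sub 9925776081561085718793981061413509055060944040073784683763756236424434505174946122238944870400 (Nat.mul Z (
  Nat.sub 70062161401257725166390905457392265213114529068077312735268007135150080 (Nat.mul Z (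
  Nat.sub 264932852958543802921444333079062534691047342080 (Nat.mul Z (
  Nat.sub 623352375738793168207872 Z))))))))))

/-- the numerator of `sin y / y`, over `11! * D ^ 10` -/
def sinN (Z : ℕ) : ℕ :=
  Nat.sub 93746304568066546191018819085920608254349645168263622615048792252456881213694802316051780178725135365185142049996800 (Nat.mul Z (
  Nat.sub 3308592027187028572931327020471169685020314680024594894587918745474811501724982040746314956800 (Nat.mul Z (
  Nat.sub 35031080700628862583195452728696132606557264534038656367634003567575040 (Nat.mul Z (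
  Nat.sub 176621901972362535280962888719375023127364894720 (Nat.mul Z (
  Nat.sub 519460313115660973506560 Z))))))))

lemma sub_cast_step {Z C C' i : ℕ} {v : ℝ} (h : i ≤ C') (hZ : Z * C' ≤ C) (hi : (i : ℝ) = v) :
    Nat.sub C (Nat.mul Z i) ≤ C ∧ ((Nat.sub C (Nat.mul Z i) : ℕ) : ℝ) = C - Z * v := by
  have h1 : Z * i ≤ C := (Nat.mul_le_mul_left Z h).trans hZ
  refine ⟨Nat.sub_le _ _, ?_⟩
  change ((C - Z * i : ℕ) : ℝ) = _
  rw [Nat.cast_sub h1, Nat.cast_mul, hi]

lemma sub_cast_base {Z C : ℕ} (hZ : Z ≤ C) : Nat.sub C Z ≤ C ∧ ((Nat.sub C Z : ℕ) : ℝ) = C - Z := by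
  refine ⟨Nat.sub_le _ _, ?_⟩
  change ((C - Z : ℕ) : ℝ) = _
  rw [Nat.cast_sub hZ]


lemma cosN_cast {Z : ℕ} (hZ : Z ≤ 4722366482869645213696) :
    ((cosN Z : ℕ) : ℝ) = 479001600 * DR ^ 12 - Z * (239500800 * DR ^ 10 - Z * (19958400 * DR ^ 8 -
      Z * (665280 * DR ^ 6 - Z * (11880 * DR ^ 4 - Z * (132 * DR ^ 2 - Z))))) := by
  obtain ⟨a1, b1⟩ := sub_cast_base (Z := Z) (C := 623352375738793168207872) (hZ.trans (by norm_num))
  obtain ⟨a2, b2⟩ := sub_cast_step (Z := Z) (C := 264932852958543802921444333079062534691047342080) a1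
    ((Nat.mul_le_mul_right _ hZ).trans (by norm_num)) b1
  obtain ⟨a3, b3⟩ := sub_cast_step (Z := Z) (C := 70062161401257725166390905457392265213114529068077312735268007135150080) a2
    ((Nat.mul_le_mul_right _ hZ).trans (by norm_num)) b2
  obtain ⟨a4, b4⟩ := sub_cast_step (Z := Z) (C := 9925776081561085718793981061413509055060944040073784683763756236424434505174946122238944870400) a3
    ((Nat.mul_le_mul_right _ hZ).trans (by norm_num)) b3
  obtain ⟨a5, b5⟩ := sub_cast_step (Z := Z) (C := 562477827408399277146112914515523649526097871009581735690292753514741287282168813896310681072350812191110852299980800) a4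
    ((Nat.mul_le_mul_right _ hZ).trans (by norm_num)) b4
  obtain ⟨a6, b6⟩ := sub_cast_step (Z := Z) (C := 5312452879021523644167342878668926891519915429617346963252719967526930359331948649748578417931730498127901383505799396607174191825394073600) a5
    ((Nat.mul_le_mul_right _ hZ).trans (by norm_num)) b5
  unfold cosN
  rw [b6]
  unfold DR
  push_cast
  norm_num

lemma sinN_cast {Z : ℕ} (hZ : Z ≤ 4722366482869645213696) :
    ((sinN Z : ℕ) : ℝ) = 39916800 * DR ^ 10 - Z * (6652800 * DR ^ 8 - Z * (332640 * DR ^ 6 -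
      Z * (7920 * DR ^ 4 - Z * (110 * DR ^ 2 - Z)))) := by
  obtain ⟨a1, b1⟩ := sub_cast_base (Z := Z) (C := 519460313115660973506560) (hZ.trans (by norm_num))
  obtain ⟨a2, b2⟩ := sub_cast_step (Z := Z) (C := 176621901972362535280962888719375023127364894720) a1
    ((Nat.mul_le_mul_right _ hZ).trans (by norm_num)) b1
  obtain ⟨a3, b3⟩ := sub_cast_step (Z := Z) (C := 35031080700628862583195452728696132606557264534038656367634003567575040) a2
    ((Nat.mul_le_mul_right _ hZ).trans (by norm_num)) b2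
  obtain ⟨a4, b4⟩ := sub_cast_step (Z := Z) (C := 3308592027187028572931327020471169685020314680024594894587918745474811501724982040746314956800) a3
    ((Nat.mul_le_mul_right _ hZ).trans (by norm_num)) b3
  obtain ⟨a5, b5⟩ := sub_cast_step (Z := Z) (C := 93746304568066546191018819085920608254349645168263622615048792252456881213694802316051780178725135365185142049996800) a4
    ((Nat.mul_le_mul_right _ hZ).trans (by norm_num)) b4
  unfold sinN
  rw [b5]
  unfold DR
  push_cast
  norm_num

/-- fixed point approximation of `π r` -/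
def piN (r : ℕ) : ℕ := Nat.div (Nat.mul 314159265358979323846 r) 100000000000000000000

lemma piN_err {r : ℕ} (hr : (r : ℝ) ≤ 2 * DR) : |Real.pi * r - (piN r : ℝ)| ≤ 2 := by
  have h1 := ndiv_le (314159265358979323846 * r) 100000000000000000000
  have h2 := lt_ndiv (314159265358979323846 * r) (b := 100000000000000000000) (by norm_num)
  have h3 := Real.pi_gt_d20
  have h4 := Real.pi_lt_d20
  have hr0 : (0 : ℝ) ≤ r := Nat.cast_nonneg _
  have h5 : (Real.pi - 3.14159265358979323846) * r ≤ 0.00000000000000000001 * (2 * DR) := by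
    have : Real.pi - 3.14159265358979323846 ≤ 0.00000000000000000001 := by linarith only [h4]
    gcongr
  have h6 : 0 ≤ (Real.pi - 3.14159265358979323846) * r := by
    apply mul_nonneg _ hr0
    linarith only [h3]
  have h7 : (0.00000000000000000001 : ℝ) * (2 * DR) ≤ 0.00001 := by unfold DR; norm_num
  change |Real.pi * r - ((314159265358979323846 * r / 100000000000000000000 : ℕ) : ℝ)| ≤ 2
  push_cast at h1 h2
  rw [abs_le]
  constructor <;> linarith only [h3, h4, h6, h1, h5, h7, h2]

lemma piN_zero : piN 0 = 0 := by decide +kernel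

/-- `cos (π r / D) * D`, `sin (π r / D) * D` for `r ≤ D / 4` -/
def cosC (r : ℕ) : ℕ := Nat.div (cosN (Nat.mul (piN r) (piN r))) 77306363950214634593683045803757368288933000143404161837719147552371292248891384948344470728359454342395494801251325357693337600
def sinC (r : ℕ) : ℕ := Nat.div (Nat.mul (piN r) (sinN (Nat.mul (piN r) (piN r)))) 93746304568066546191018819085920608254349645168263622615048792252456881213694802316051780178725135365185142049996800

lemma scC_spec {r : ℕ} (hr : (r : ℝ) ≤ DR / 4) :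
    |Real.cos (Real.pi * r / DR) * DR - (cosC r : ℝ)| ≤ 4 ∧
    |Real.sin (Real.pi * r / DR) * DR - (sinC r : ℝ)| ≤ 4 := by
  have hD := DR_pos
  have hr0 : (0 : ℝ) ≤ r := Nat.cast_nonneg _
  have hY := piN_err (r := r) (by linarith only [hr, hD])
  set Y := piN r with hYdef
  set y : ℝ := (Y : ℝ) / DR with hy
  have hYy : (Y : ℝ) = y * DR := by rw [hy]; field_simp
  have h0 : |Real.pi * r / DR - y| ≤ 2 / DR := by
    rw [hy, ← sub_div, abs_div, abs_of_pos hD]; gcongr
  have hyb : |y| ≤ 4 / 5 := by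
    have h1 : |Real.pi * r / DR| ≤ Real.pi / 4 := by
      rw [abs_div, abs_mul, abs_of_pos hD, abs_of_pos Real.pi_pos, div_le_iff₀ hD, abs_of_nonneg hr0]
      have := Real.pi_pos
      nlinarith only [hr, this]
    have h2 : |y| ≤ |Real.pi * r / DR| + |Real.pi * r / DR - y| := by
      have := abs_sub_abs_le_abs_sub y (Real.pi * r / DR)
      rw [abs_sub_comm y] at this; linarith only [this]
    have h3 : 2 / DR ≤ 0.001 := by unfold DR; norm_num
    have h4 := Real.pi_lt_d2
    linarith only [h0, h1, h2, h3, h4]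
  have hyn : 0 ≤ y := by rw [hy]; positivity
  have hYD : Y ≤ 68719476736 := by
    have : (Y : ℝ) ≤ ((68719476736 : ℕ) : ℝ) := by
      rw [hYy, DN_cast]
      have := (le_abs_self y).trans hyb
      nlinarith only [hr, hD, this]
    exact_mod_cast this
  have hZ : Y * Y ≤ 4722366482869645213696 :=
    (Nat.mul_le_mul hYD hYD).trans (by norm_num)
  obtain ⟨hc, hs⟩ := cos_sin_taylor hyb
  have lipc : |Real.cos (Real.pi * r / DR) - Real.cos y| ≤ 2 / DR :=
    (Real.abs_cos_sub_cos_le _ _).trans h0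
  have lips : |Real.sin (Real.pi * r / DR) - Real.sin y| ≤ 2 / DR :=
    (Real.abs_sin_sub_sin_le _ _).trans h0
  have tr : (1 : ℝ) / 70000000000 * DR ≤ 1 := by unfold DR; norm_num
  have e2 : 2 / DR * DR = 2 := by field_simp
  constructor
  · have hn := ndiv_le (cosN (Y * Y)) 77306363950214634593683045803757368288933000143404161837719147552371292248891384948344470728359454342395494801251325357693337600
    have hn' := lt_ndiv (cosN (Y * Y)) (b := 77306363950214634593683045803757368288933000143404161837719147552371292248891384948344470728359454342395494801251325357693337600) (by norm_num)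
    have hK : ((77306363950214634593683045803757368288933000143404161837719147552371292248891384948344470728359454342395494801251325357693337600 : ℕ) : ℝ) =
        479001600 * DR ^ 11 := by unfold DR; norm_num
    have e : ((cosN (Y * Y) : ℕ) : ℝ) / ((77306363950214634593683045803757368288933000143404161837719147552371292248891384948344470728359454342395494801251325357693337600 : ℕ) : ℝ) =
        (1 - y ^ 2 / 2 + y ^ 4 / 24 - y ^ 6 / 720 + y ^ 8 / 40320 - y ^ 10 / 3628800
          + y ^ 12 / 479001600) * DR := by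
      rw [hK, cosN_cast hZ]
      push_cast
      rw [hYy]
      field_simp
      ring
    rw [e] at hn hn'
    change |Real.cos (Real.pi * r / DR) * DR - ((cosN (Y * Y) / 77306363950214634593683045803757368288933000143404161837719147552371292248891384948344470728359454342395494801251325357693337600 : ℕ) : ℝ)| ≤ 4
    have a1 := abs_le.1 lipc
    have a2 := abs_le.1 hc
    set P := (1 - y ^ 2 / 2 + y ^ 4 / 24 - y ^ 6 / 720 + y ^ 8 / 40320 - y ^ 10 / 3628800
          + y ^ 12 / 479001600)
    have b1 : (Real.cos (Real.pi * r / DR) - P) * DR ≤ 3 := by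
      have : Real.cos (Real.pi * r / DR) - P ≤ 2 / DR + 1 / 70000000000 := by linarith only [a1, a2, a1.2, a2.2]
      calc _ ≤ (2 / DR + 1 / 70000000000) * DR := by gcongr
        _ ≤ 3 := by rw [add_mul, e2]; linarith only [tr]
    have b2 : -3 ≤ (Real.cos (Real.pi * r / DR) - P) * DR := by
      have : -(2 / DR + 1 / 70000000000) ≤ Real.cos (Real.pi * r / DR) - P := by linarith only [a1, a2, a1.1, a2.1]
      calc (-3 : ℝ) ≤ -(2 / DR + 1 / 70000000000) * DR := by rw [neg_mul, add_mul, e2]; linarith only [tr]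
        _ ≤ _ := by gcongr
    rw [abs_le]
    constructor <;> nlinarith only [hn, b2, hn', b1]
  · have hn := ndiv_le (Y * sinN (Y * Y)) 93746304568066546191018819085920608254349645168263622615048792252456881213694802316051780178725135365185142049996800
    have hn' := lt_ndiv (Y * sinN (Y * Y)) (b := 93746304568066546191018819085920608254349645168263622615048792252456881213694802316051780178725135365185142049996800) (by norm_num)
    have hK : ((93746304568066546191018819085920608254349645168263622615048792252456881213694802316051780178725135365185142049996800 : ℕ) : ℝ) =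
        39916800 * DR ^ 10 := by unfold DR; norm_num
    have e : ((Y * sinN (Y * Y) : ℕ) : ℝ) / ((93746304568066546191018819085920608254349645168263622615048792252456881213694802316051780178725135365185142049996800 : ℕ) : ℝ) =
        (y - y ^ 3 / 6 + y ^ 5 / 120 - y ^ 7 / 5040 + y ^ 9 / 362880
          - y ^ 11 / 39916800) * DR := by
      rw [hK, Nat.cast_mul, sinN_cast hZ]
      push_cast
      rw [hYy]
      field_simp
      ring
    rw [e] at hn hn'
    change |Real.sin (Real.pi * r / DR) * DR - ((Y * sinN (Y * Y) / 93746304568066546191018819085920608254349645168263622615048792252456881213694802316051780178725135365185142049996800 : ℕ) : ℝ)| ≤ 4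
    have a1 := abs_le.1 lips
    have a2 := abs_le.1 hs
    set P := (y - y ^ 3 / 6 + y ^ 5 / 120 - y ^ 7 / 5040 + y ^ 9 / 362880
          - y ^ 11 / 39916800)
    have b1 : (Real.sin (Real.pi * r / DR) - P) * DR ≤ 3 := by
      have : Real.sin (Real.pi * r / DR) - P ≤ 2 / DR + 1 / 70000000000 := by linarith only [a1, a2, a1.2, a2.2]
      calc _ ≤ (2 / DR + 1 / 70000000000) * DR := by gcongr
        _ ≤ 3 := by rw [add_mul, e2]; linarith only [tr]
    have b2 : -3 ≤ (Real.sin (Real.pi * r / DR) - P) * DR := by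
      have : -(2 / DR + 1 / 70000000000) ≤ Real.sin (Real.pi * r / DR) - P := by linarith only [a1, a2, a1.1, a2.1]
      calc (-3 : ℝ) ≤ -(2 / DR + 1 / 70000000000) * DR := by rw [neg_mul, add_mul, e2]; linarith only [tr]
        _ ≤ _ := by gcongr
    rw [abs_le]
    constructor <;> nlinarith only [hn, b2, hn', b1]

/-- `cos` and `sin` as signed numbers -/
structure S4 where
  cp : ℕ
  cq : ℕ
  sp : ℕ
  sq : ℕ

def S4.Good (s : S4) (θ : ℝ) : Prop :=
  |Real.cos θ * DR - ((s.cp : ℝ) - s.cq)| ≤ 4 ∧ |Real.sin θ * DR - ((s.sp : ℝ) - s.sq)| ≤ 4 ∧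
  (s.cp = 0 ∨ s.cq = 0) ∧ (s.sp = 0 ∨ s.sq = 0)

/-- a quarter turn -/
def S4.rot (s : S4) : S4 := ⟨s.sq, s.sp, s.cp, s.cq⟩
def S4.conj (s : S4) : S4 := ⟨s.cp, s.cq, s.sq, s.sp⟩

lemma S4.Good.rot {s : S4} {θ : ℝ} (h : s.Good θ) : s.rot.Good (θ + Real.pi / 2) := by
  obtain ⟨h1, h2, h3, h4⟩ := h
  refine ⟨?_, ?_, h4.symm, h3⟩
  · rw [Real.cos_add_pi_div_two]
    change |(-Real.sin θ) * DR - ((s.sq : ℝ) - s.sp)| ≤ 4
    rw [← abs_neg]
    convert h2 using 2
    ring
  · rw [Real.sin_add_pi_div_two]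
    exact h1

lemma S4.Good.conj {s : S4} {θ : ℝ} (h : s.Good θ) : s.conj.Good (-θ) := by
  obtain ⟨h1, h2, h3, h4⟩ := h
  refine ⟨?_, ?_, h3, h4.symm⟩
  · rw [Real.cos_neg]
    exact h1
  · rw [Real.sin_neg]
    change |(-Real.sin θ) * DR - ((s.sq : ℝ) - s.sp)| ≤ 4
    rw [← abs_neg]
    convert h2 using 2
    ring

/-- first quadrant -/
def scQ (b : ℕ) : S4 :=
  cnd (Nat.ble b 17179869184) ⟨cosC b, 0, sinC b, 0⟩
    ⟨sinC (Nat.sub 34359738368 b), 0, cosC (Nat.sub 34359738368 b), 0⟩

lemma scQ_good {b : ℕ} (hb : b ≤ 34359738368) : (scQ b).Good (Real.pi * b / DR) := by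
  have hD := DR_pos
  unfold scQ
  simp only [cnd_eq]
  rcases hle : Nat.ble b 17179869184 with _ | _
  · have h1 : 17179869184 < b := by
      by_contra hc
      rw [Nat.ble_eq_true_of_le (not_lt.1 hc)] at hle
      exact absurd hle (by decide)
    have h2 : ((34359738368 - b : ℕ) : ℝ) = DR / 2 - b := by
      rw [Nat.cast_sub hb]
      unfold DR; norm_num
    have h3 : ((34359738368 - b : ℕ) : ℝ) ≤ DR / 4 := by
      rw [h2]
      have : ((17179869184 : ℕ) : ℝ) ≤ b := by exact_mod_cast h1.le
      have h4 : ((17179869184 : ℕ) : ℝ) = DR / 4 := by unfold DR; norm_num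
      rw [h4] at this
      linarith only [this]
    obtain ⟨h5, h6⟩ := scC_spec h3
    have h7 : Real.pi * ((34359738368 - b : ℕ) : ℝ) / DR = Real.pi / 2 - Real.pi * b / DR := by
      rw [h2]; field_simp
    rw [h7, Real.cos_pi_div_two_sub] at h5
    rw [h7, Real.sin_pi_div_two_sub] at h6
    change S4.Good ⟨sinC (34359738368 - b), 0, cosC (34359738368 - b), 0⟩ _
    refine ⟨?_, ?_, Or.inr rfl, Or.inr rfl⟩
    · simpa using h6
    · simpa using h5
  · have h1 : b ≤ 17179869184 := Nat.le_of_ble_eq_true hle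
    have h3 : (b : ℝ) ≤ DR / 4 := by
      have : (b : ℝ) ≤ ((17179869184 : ℕ) : ℝ) := by exact_mod_cast h1
      have h4 : ((17179869184 : ℕ) : ℝ) = DR / 4 := by unfold DR; norm_num
      rw [h4] at this
      linarith only [this]
    obtain ⟨h5, h6⟩ := scC_spec h3
    change S4.Good ⟨cosC b, 0, sinC b, 0⟩ _
    refine ⟨?_, ?_, Or.inr rfl, Or.inr rfl⟩
    · simpa using h5
    · simpa using h6

/-- `h` quarter turns, `h < 4` -/
def S4.rots (s : S4) (h : ℕ) : S4 :=
  cnd (Nat.beq h 0) s (cnd (Nat.beq h 1) s.rot (cnd (Nat.beq h 2) s.rot.rot s.rot.rot.rot))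

/-- `cos (π m / D)` and `sin (π m / D)` for a natural number `m` -/
def scN (m : ℕ) : S4 :=
  (scQ (Nat.mod m 34359738368)).rots (Nat.mod (Nat.div m 34359738368) 4)

lemma scN_good (m : ℕ) : (scN m).Good (Real.pi * m / DR) := by
  have hD := DR_pos
  have hb : m % 34359738368 ≤ 34359738368 := (Nat.mod_lt _ (by norm_num)).le
  have h0 := scQ_good hb
  set b := m % 34359738368 with hbdef
  set h := m / 34359738368 % 4 with hhdef
  have hh : h < 4 := Nat.mod_lt _ (by norm_num)
  have hm : m = b + h * 34359738368 + (m / 34359738368 / 4) * 137438953472 := by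
    have e1 := Nat.div_add_mod m 34359738368
    have e2 := Nat.div_add_mod (m / 34359738368) 4
    omega
  have hm' : Real.pi * m / DR = Real.pi * b / DR + h * (Real.pi / 2) +
      ((m / 34359738368 / 4 : ℕ) : ℝ) * (2 * Real.pi) := by
    have : (m : ℝ) = b + h * (DR / 2) + ((m / 34359738368 / 4 : ℕ) : ℝ) * (2 * DR) := by
      have e1 : ((34359738368 : ℕ) : ℝ) = DR / 2 := by unfold DR; norm_num
      have e2 : ((137438953472 : ℕ) : ℝ) = 2 * DR := by unfold DR; norm_num
      rw [← e1, ← e2]
      exact_mod_cast hm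
    rw [this]; field_simp
  have hgood : ∀ (s : S4) (θ : ℝ) (n : ℕ), s.Good θ → s.Good (θ + n * (2 * Real.pi)) := by
    intro s θ n hs
    unfold S4.Good at *
    rwa [Real.cos_add_nat_mul_two_pi, Real.sin_add_nat_mul_two_pi]
  rw [hm']
  apply hgood
  change ((scQ b).rots h).Good _
  unfold S4.rots
  simp only [cnd_eq]
  interval_cases h
  · simpa using h0
  · have := h0.rot
    have e : Real.pi * b / DR + ((1 : ℕ) : ℝ) * (Real.pi / 2) =
        Real.pi * b / DR + Real.pi / 2 := by push_cast; ring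
    rw [e]; exact this
  · have := h0.rot.rot
    have e : Real.pi * b / DR + ((2 : ℕ) : ℝ) * (Real.pi / 2) =
        Real.pi * b / DR + Real.pi / 2 + Real.pi / 2 := by push_cast; ring
    rw [e]; exact this
  · have := h0.rot.rot.rot
    have e : Real.pi * b / DR + ((3 : ℕ) : ℝ) * (Real.pi / 2) =
        Real.pi * b / DR + Real.pi / 2 + Real.pi / 2 + Real.pi / 2 := by push_cast; ring
    rw [e]; exact this

/-- the signed version (`p = 0` or `q = 0`) -/
def scS (p q : ℕ) : S4 := cnd (Nat.beq q 0) (scN p) (scN q).conj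

lemma scS_good {p q : ℕ} (h : p = 0 ∨ q = 0) : (scS p q).Good (Real.pi * (((p : ℝ) - q) / DR)) := by
  unfold scS
  simp only [cnd_eq]
  rcases hq : Nat.beq q 0 with _ | _
  · have hq0 : q ≠ 0 := fun h0 => by rw [h0] at hq; exact absurd hq (by decide)
    have hp : p = 0 := h.resolve_right hq0
    rw [hp]
    have := (scN_good q).conj
    have e : Real.pi * ((((0 : ℕ) : ℝ) - q) / DR) = -(Real.pi * q / DR) := by push_cast; ring
    rw [e]; exact this
  · have hq0 : q = 0 := Nat.eq_of_beq_eq_true hq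
    rw [hq0]
    have := scN_good p
    have e : Real.pi * (((p : ℝ) - ((0 : ℕ) : ℝ)) / DR) = Real.pi * p / DR := by push_cast; ring
    rw [e]; exact this

lemma piN_signed {s t : ℕ} {x : ℝ} (h : s = 0 ∨ t = 0) (hx : |x * DR - ((s : ℝ) - t)| ≤ 4)
    (hx1 : |x| ≤ 1) : |(Real.pi * x) * DR - ((piN s : ℝ) - piN t)| ≤ 20 := by
  have hD := DR_pos
  have hD4 : (4 : ℝ) ≤ DR := by unfold DR; norm_num
  have hxD : |x * DR| ≤ DR := by
    rw [abs_mul, abs_of_pos hD]
    nlinarith only [hx1, hD]
  have hst : |(s : ℝ) - t| ≤ 2 * DR := by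
    have e : (s : ℝ) - t = x * DR - (x * DR - ((s : ℝ) - t)) := by ring
    rw [e]
    exact (abs_sub _ _).trans (by linarith only [hx, hD4, hxD])
  have hpi : |Real.pi * (x * DR - ((s : ℝ) - t))| ≤ 13 := by
    rw [abs_mul, abs_of_pos Real.pi_pos]
    have := Real.pi_lt_d2
    have := Real.pi_pos
    nlinarith [abs_nonneg (x * DR - ((s : ℝ) - t))]
  rcases h with h | h
  · rw [h] at hst hpi ⊢
    rw [piN_zero]
    have ht : (t : ℝ) ≤ 2 * DR := by simpa using hst
    have h3 := piN_err ht
    have e : Real.pi * x * DR - (((0 : ℕ) : ℝ) - (piN t : ℝ)) =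
        Real.pi * (x * DR - (((0 : ℕ) : ℝ) - t)) - (Real.pi * t - piN t) := by push_cast; ring
    rw [e]
    exact (abs_sub _ _).trans (by linarith only [hpi, h3])
  · rw [h] at hst hpi ⊢
    rw [piN_zero]
    have ht : (s : ℝ) ≤ 2 * DR := by simpa using hst
    have h3 := piN_err ht
    have e : Real.pi * x * DR - ((piN s : ℝ) - ((0 : ℕ) : ℝ)) =
        Real.pi * (x * DR - ((s : ℝ) - ((0 : ℕ) : ℝ))) + (Real.pi * s - piN s) := by push_cast; ring
    rw [e]
    exact (abs_add_le _ _).trans (by linarith only [hpi, h3])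

/-- Taylor's formula with a Lipschitz derivative -/
lemma second_order_pos {f f' : ℝ → ℝ} {a t M : ℝ} (ht : 0 ≤ t) (hf : ∀ x, HasDerivAt f (f' x) x)
    (hL : ∀ x y, |f' x - f' y| ≤ M * |x - y|) : |f (a + t) - f a - f' a * t| ≤ M * t ^ 2 / 2 := by
  have key := image_norm_le_of_norm_deriv_right_le_deriv_boundary
    (f := fun s => f (a + s) - f a - f' a * s) (f' := fun s => f' (a + s) - f' a)
    (a := 0) (b := t) (B := fun s => M * s ^ 2 / 2) (B' := fun s => M * s)
  have h1 : ∀ s, HasDerivAt (fun s => f (a + s) - f a - f' a * s) (f' (a + s) - f' a) s := by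
    intro s
    have := (((hf (a + s)).comp_const_add a s).sub_const (f a)).sub
      ((hasDerivAt_id s).const_mul (f' a))
    exact this.congr_deriv (by simp)
  have h2 := key (fun s _ => (h1 s).continuousAt.continuousWithinAt)
    (fun s _ => (h1 s).hasDerivWithinAt) (by simp)
    (fun s => by
      have := ((hasDerivAt_pow 2 s).const_mul M).div_const 2
      refine this.congr_deriv ?_
      push_cast
      ring)
    (fun s hs => by
      rw [Real.norm_eq_abs]
      have := hL (a + s) a
      rwa [add_sub_cancel_left, abs_of_nonneg hs.1] at this)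
    (Set.right_mem_Icc.2 ht)
  simpa [Real.norm_eq_abs] using h2

lemma second_order {f f' : ℝ → ℝ} {M : ℝ} (a t : ℝ) (hf : ∀ x, HasDerivAt f (f' x) x)
    (hL : ∀ x y, |f' x - f' y| ≤ M * |x - y|) : |f (a + t) - f a - f' a * t| ≤ M * t ^ 2 / 2 := by
  rcases le_total 0 t with h | h
  · exact second_order_pos h hf hL
  · have h1 := second_order_pos (f := fun x => f (-x)) (f' := fun x => -f' (-x)) (a := -a) (t := -t)
      (M := M) (by linarith only [h]) (fun x => by
        have := (hf (-x)).scomp x (hasDerivAt_neg x)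
        exact this.congr_deriv (by simp)) (fun x y => by
        have := hL (-y) (-x)
        have e : -y - -x = x - y := by ring
        rw [e] at this
        convert this using 2
        ring)
    have e1 : -(-a + -t) = a + t := by ring
    simp only [neg_neg, e1, neg_mul_neg, even_two, Even.neg_pow] at h1
    exact h1

lemma cos_second (a t : ℝ) : |Real.cos (a + t) - Real.cos a - -Real.sin a * t| ≤ 1 * t ^ 2 / 2 :=
  second_order a t (f' := fun x => -Real.sin x) Real.hasDerivAt_cos (fun x y => by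
    rw [one_mul, neg_sub_neg, abs_sub_comm]; exact Real.abs_sin_sub_sin_le _ _)

lemma sin_second (a t : ℝ) : |Real.sin (a + t) - Real.sin a - Real.cos a * t| ≤ 1 * t ^ 2 / 2 :=
  second_order a t Real.hasDerivAt_sin (fun x y => by
    rw [one_mul]; exact Real.abs_cos_sub_cos_le _ _)

lemma pi_sq_lt : Real.pi ^ 2 ≤ 10 := by
  have h1 := Real.pi_lt_d2
  have h2 := Real.pi_pos
  nlinarith only [h1, h2]

/-- from second order in the angle to fixed point units -/
lemma pi_remainder {f f' : ℝ → ℝ} (h : ∀ a t, |f (a + t) - f a - f' a * t| ≤ 1 * t ^ 2 / 2)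
    {c δ : ℝ} {T : ℕ} (hδ : |δ| ≤ (T : ℝ)) :
    |f (Real.pi * ((c + δ) / DR)) * DR - f (Real.pi * (c / DR)) * DR -
      (Real.pi * f' (Real.pi * (c / DR))) * δ| ≤ ((Nat.add (Nat.div (Nat.mul 5 (Nat.mul T T)) 68719476736) 1 : ℕ) : ℝ) := by
  have hD := DR_pos
  have h1 := h (Real.pi * (c / DR)) (Real.pi * (δ / DR))
  have e1 : Real.pi * (c / DR) + Real.pi * (δ / DR) = Real.pi * ((c + δ) / DR) := by ring
  rw [e1] at h1
  have k := lt_ndiv (5 * (T * T)) (b := 68719476736) (by norm_num)
  rw [DN_cast] at k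
  change _ ≤ ((5 * (T * T) / 68719476736 + 1 : ℕ) : ℝ)
  push_cast at k ⊢
  have e2 : f (Real.pi * ((c + δ) / DR)) * DR - f (Real.pi * (c / DR)) * DR -
      (Real.pi * f' (Real.pi * (c / DR))) * δ =
      (f (Real.pi * ((c + δ) / DR)) - f (Real.pi * (c / DR)) -
        f' (Real.pi * (c / DR)) * (Real.pi * (δ / DR))) * DR := by
    field_simp
  rw [e2, abs_mul, abs_of_pos hD]
  refine le_trans (mul_le_mul_of_nonneg_right h1 hD.le) ?_
  refine le_trans ?_ k.le
  have e3 : 1 * (Real.pi * (δ / DR)) ^ 2 / 2 * DR = Real.pi ^ 2 * (δ ^ 2) / 2 / DR := by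
    field_simp
  rw [e3]
  have h3 : δ ^ 2 ≤ (T : ℝ) * T := by
    rw [← sq, ← sq_abs δ]; gcongr
  have h4 := pi_sq_lt
  gcongr
  nlinarith only [h3, h4, sq_nonneg δ, sq_nonneg Real.pi]

namespace A

def cosPi (a : A) : A :=
  let n := a.nf
  let s := scS n.p n.q
  let T := n.tot
  n.app s.cp s.cq 4 (piN s.sq) (piN s.sp) 20 (Nat.add (Nat.div (Nat.mul 5 (Nat.mul T T)) 68719476736) 1)

def sinPi (a : A) : A :=
  let n := a.nf
  let s := scS n.p n.q
  let T := n.tot
  n.app s.sp s.sq 4 (piN s.cp) (piN s.cq) 20 (Nat.add (Nat.div (Nat.mul 5 (Nat.mul T T)) 68719476736) 1)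

lemma nf_normal (a : A) : a.nf.p = 0 ∨ a.nf.q = 0 := by
  change a.p - a.q = 0 ∨ a.q - a.p = 0
  omega

lemma Encl.cosPi {a : A} {ε : ℕ → ℝ} {x : ℝ} (hε : ∀ i, |ε i| ≤ 1) (hx : a.Encl ε x) :
    (a.cosPi).Encl ε (Real.cos (Real.pi * x)) := by
  have hg := scS_good (nf_normal a)
  refine hx.nf.app hε (fun x => Real.cos (Real.pi * x))
    (Real.pi * -Real.sin (Real.pi * (((a.nf.p : ℝ) - a.nf.q) / DR))) ?_ ?_ ?_
  · exact_mod_cast hg.1
  · have h1 := hg.2.1
    have := piN_signed (s := (scS a.nf.p a.nf.q).sq) (t := (scS a.nf.p a.nf.q).sp)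
      (x := -Real.sin (Real.pi * (((a.nf.p : ℝ) - a.nf.q) / DR))) hg.2.2.2.symm
      (by rw [← abs_neg]; convert h1 using 2; ring)
      (by rw [abs_neg]; exact Real.abs_sin_le_one _)
    exact_mod_cast this
  · intro δ hδ
    exact pi_remainder (f := Real.cos) (f' := fun x => -Real.sin x) cos_second hδ

lemma Encl.sinPi {a : A} {ε : ℕ → ℝ} {x : ℝ} (hε : ∀ i, |ε i| ≤ 1) (hx : a.Encl ε x) :
    (a.sinPi).Encl ε (Real.sin (Real.pi * x)) := by
  have hg := scS_good (nf_normal a)
  refine hx.nf.app hε (fun x => Real.sin (Real.pi * x))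
    (Real.pi * Real.cos (Real.pi * (((a.nf.p : ℝ) - a.nf.q) / DR))) ?_ ?_ ?_
  · exact_mod_cast hg.2.1
  · have := piN_signed (s := (scS a.nf.p a.nf.q).cp) (t := (scS a.nf.p a.nf.q).cq)
      (x := Real.cos (Real.pi * (((a.nf.p : ℝ) - a.nf.q) / DR))) hg.2.2.1
      hg.1 (Real.abs_cos_le_one _)
    exact_mod_cast this
  · intro δ hδ
    exact pi_remainder (f := Real.sin) (f' := Real.cos) sin_second hδ

end A

end Pool.Agent.Work.NumI
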