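import Mathlib
import Pool.Agent.Work.NumI.Trig

/-!
# Verified numerics for the kernel, part 6: `arctan`
-/

namespace Pool.Agent.Work.NumI

/-- a guess for `arctan (m / D) / π * D`, `m ≤ D` -/
def atG0 (m : ℕ) : ℕ :=
  let w := Nat.div (Nat.mul m m) 68719476736
  Nat.div (Nat.mul m (Nat.sub 21871157691 (Nat.div (Nat.mul w (Nat.sub 7225000600 (Nat.div (Nat.mul w (Nat.sub 3940420234 (Nat.div (Nat.mul w (Nat.sub 1862206803 (Nat.div (Nat.mul w 455748828) 68719476736))) 68719476736))) 68719476736))) 68719476736))) 68719476736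

def atG (m : ℕ) : ℕ :=
  cnd (Nat.ble m 68719476736) (atG0 m) (Nat.sub 34359738368 (atG0 (Nat.div 4722366482869645213696 m)))

/-- `arctan (m / D) * D` up to `13`, if the checks succeed -/
def atN (m : ℕ) : Option (ℕ × ℕ) :=
  let G := atG m
  let s := scN G
  let NP := Nat.add (Nat.mul m s.cp) (Nat.mul 68719476736 s.sq)
  let NQ := Nat.add (Nat.mul m s.cq) (Nat.mul 68719476736 s.sp)
  let DP := Nat.add (Nat.mul 68719476736 s.cp) (Nat.mul m s.sp)
  let DQ := Nat.add (Nat.mul 68719476736 s.cq) (Nat.mul m s.sq)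
  let Den := Nat.sub DP DQ
  let ZP := Nat.div (Nat.mul (Nat.sub NP NQ) 68719476736) Den
  let ZQ := Nat.div (Nat.mul (Nat.sub NQ NP) 68719476736) Den
  cnd (Nat.ble G 34359738368)
    (cnd (Nat.ble (Nat.add (Nat.mul 68719476736 (Nat.add 68719476736 m)) (Nat.mul 8 (Nat.add 68719476736 m))) (Nat.mul 2 Den))
      (cnd (Nat.ble (Nat.add ZP ZQ) 4194304) (some (Nat.add (piN G) ZP, ZQ)) none) none) none

lemma arctan_sub_self (z : ℝ) : |Real.arctan z - z| ≤ |z| ^ 3 := by
  have pos : ∀ t : ℝ, 0 ≤ t → |Real.arctan t - t| ≤ t ^ 3 := by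
    intro t ht
    have h1 : ∀ s : ℝ, HasDerivAt (fun s => Real.arctan s - s) (1 / (1 + s ^ 2) - 1) s := fun s =>
      (Real.hasDerivAt_arctan s).sub (hasDerivAt_id s)
    have key := image_norm_le_of_norm_deriv_right_le_deriv_boundary
      (f := fun s => Real.arctan s - s) (f' := fun s => 1 / (1 + s ^ 2) - 1)
      (a := 0) (b := t) (B := fun s => s ^ 3) (B' := fun s => 3 * s ^ 2)
    have h2 := key (fun s _ => (h1 s).continuousAt.continuousWithinAt)
      (fun s _ => (h1 s).hasDerivWithinAt) (by simp)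
      (fun s => by simpa using hasDerivAt_pow 3 s)
      (fun s hs => by
        rw [Real.norm_eq_abs]
        have e : 1 / (1 + s ^ 2) - 1 = -(s ^ 2 / (1 + s ^ 2)) := by
          field_simp
          ring
        rw [e, abs_neg, abs_of_nonneg (by positivity), div_le_iff₀ (by positivity)]
        nlinarith only [sq_nonneg s, sq_nonneg (s ^ 2)])
      (Set.right_mem_Icc.2 ht)
    simpa [Real.norm_eq_abs] using h2
  rcases le_total 0 z with h | h
  · rw [abs_of_nonneg h]; exact pos z h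
  · have := pos (-z) (by linarith only [h])
    rw [Real.arctan_neg] at this
    rw [abs_of_nonpos h, ← abs_neg]
    convert this using 2
    ring

/-- the correction formula -/
lemma arctan_correction {v θ : ℝ} (hv : 0 ≤ v) (h0 : 0 ≤ θ) (h1 : θ ≤ Real.pi / 2)
    (hd : 0 < Real.cos θ + v * Real.sin θ) :
    Real.arctan v - θ = Real.arctan ((v * Real.cos θ - Real.sin θ) / (Real.cos θ + v * Real.sin θ)) := by
  set α := Real.arctan v with hα
  have hcα : 0 < Real.cos α := Real.cos_arctan_pos v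
  have hvα : v = Real.sin α / Real.cos α := by
    rw [← Real.tan_eq_sin_div_cos, hα, Real.tan_arctan]
  have hα0 : 0 ≤ α := Real.arctan_nonneg.2 hv
  have hα1 : α < Real.pi / 2 := Real.arctan_lt_pi_div_two v
  have e1 : v * Real.cos θ - Real.sin θ = Real.sin (α - θ) / Real.cos α := by
    rw [Real.sin_sub, hvα]; field_simp
  have e2 : Real.cos θ + v * Real.sin θ = Real.cos (α - θ) / Real.cos α := by
    rw [Real.cos_sub, hvα]; field_simp
  rw [e2] at hd
  have hcd : 0 < Real.cos (α - θ) := by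
    have := mul_pos hd hcα
    rwa [div_mul_cancel₀ _ hcα.ne'] at this
  have hgt : -(Real.pi / 2) < α - θ := by
    rcases lt_or_eq_of_le (by linarith only [h1, hα0] : -(Real.pi / 2) ≤ α - θ) with h | h
    · exact h
    · rw [← h, Real.cos_neg, Real.cos_pi_div_two] at hcd
      exact absurd hcd (lt_irrefl _)
  rw [e1, e2, div_div_div_cancel_right₀ hcα.ne', ← Real.tan_eq_sin_div_cos, Real.arctan_tan hgt (by linarith only [h0, hα1])]

lemma atN_spec {m : ℕ} {r : ℕ × ℕ} (h : atN m = some r) :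
    |Real.arctan ((m : ℝ) / DR) * DR - ((r.1 : ℝ) - r.2)| ≤ 13 := by
  have hD := DR_pos
  unfold atN at h
  simp only [cnd_eq] at h
  set G := atG m
  have hgood := scN_good G
  set s := scN G
  rcases h1 : Nat.ble G 34359738368 with _ | _
  · rw [h1] at h; exact absurd h (by simp)
  rw [h1, cond_true] at h
  set NP := Nat.add (Nat.mul m s.cp) (Nat.mul 68719476736 s.sq) with hNP
  set NQ := Nat.add (Nat.mul m s.cq) (Nat.mul 68719476736 s.sp) with hNQ
  set DP := Nat.add (Nat.mul 68719476736 s.cp) (Nat.mul m s.sp) with hDP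
  set DQ := Nat.add (Nat.mul 68719476736 s.cq) (Nat.mul m s.sq) with hDQ
  set Den := Nat.sub DP DQ with hDen
  rcases h2 : Nat.ble (Nat.add (Nat.mul 68719476736 (Nat.add 68719476736 m)) (Nat.mul 8 (Nat.add 68719476736 m))) (Nat.mul 2 Den) with _ | _
  · rw [h2] at h; exact absurd h (by simp)
  rw [h2, cond_true] at h
  set ZP := Nat.div (Nat.mul (Nat.sub NP NQ) 68719476736) Den with hZP
  set ZQ := Nat.div (Nat.mul (Nat.sub NQ NP) 68719476736) Den with hZQ
  rcases h3 : Nat.ble (Nat.add ZP ZQ) 4194304 with _ | _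
  · rw [h3] at h; exact absurd h (by simp)
  rw [h3, cond_true] at h
  have h := Option.some.inj h
  rw [← h]
  obtain ⟨gc, gs, -, -⟩ := hgood
  have hG : (G : ℝ) ≤ DR / 2 := by
    have := Nat.le_of_ble_eq_true h1
    have h16 : ((34359738368 : ℕ) : ℝ) = DR / 2 := by unfold DR; norm_num
    rw [← h16]; exact_mod_cast this
  set θ := Real.pi * G / DR with hθ
  have hθ0 : 0 ≤ θ := by rw [hθ]; positivity
  have hθ1 : θ ≤ Real.pi / 2 := by
    rw [hθ, div_le_iff₀ hD]
    have := Real.pi_pos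
    nlinarith only [hG, this]
  have h2' := Nat.le_of_ble_eq_true h2
  have hDenpos : 0 < Den := by
    by_contra hc
    have : Den = 0 := by omega
    rw [this] at h2'
    change 68719476736 * (68719476736 + m) + 8 * (68719476736 + m) ≤ 2 * 0 at h2'
    omega
  have hDPQ : DQ ≤ DP := by
    by_contra hc
    have : Den = 0 := Nat.sub_eq_zero_of_le (not_le.1 hc).le
    omega
  have hDenr : (Den : ℝ) = DR * ((s.cp : ℝ) - s.cq) + m * ((s.sp : ℝ) - s.sq) := by
    have e0 : (Den : ℝ) = (DP : ℝ) - DQ := Nat.cast_sub hDPQ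
    have e1 : (DP : ℝ) = DR * s.cp + m * s.sp := by
      change ((68719476736 * s.cp + m * s.sp : ℕ) : ℝ) = _
      rw [Nat.cast_add, Nat.cast_mul, Nat.cast_mul, DN_cast]
    have e2 : (DQ : ℝ) = DR * s.cq + m * s.sq := by
      change ((68719476736 * s.cq + m * s.sq : ℕ) : ℝ) = _
      rw [Nat.cast_add, Nat.cast_mul, Nat.cast_mul, DN_cast]
    rw [e0, e1, e2]; ring
  have hNr : (NP : ℝ) - NQ = m * ((s.cp : ℝ) - s.cq) - DR * ((s.sp : ℝ) - s.sq) := by
    have e1 : (NP : ℝ) = m * s.cp + DR * s.sq := by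
      change ((m * s.cp + 68719476736 * s.sq : ℕ) : ℝ) = _
      rw [Nat.cast_add, Nat.cast_mul, Nat.cast_mul, DN_cast]
    have e2 : (NQ : ℝ) = m * s.cq + DR * s.sp := by
      change ((m * s.cq + 68719476736 * s.sp : ℕ) : ℝ) = _
      rw [Nat.cast_add, Nat.cast_mul, Nat.cast_mul, DN_cast]
    rw [e1, e2]; ring
  have h2r : DR * (DR + m) + 8 * (DR + m) ≤ 2 * Den := by
    have : ((68719476736 * (68719476736 + m) + 8 * (68719476736 + m) : ℕ) : ℝ) ≤ ((2 * Den : ℕ) : ℝ) := by
      exact_mod_cast h2'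
    rw [Nat.cast_add, Nat.cast_mul, Nat.cast_mul, Nat.cast_mul, Nat.cast_add, DN_cast] at this
    exact_mod_cast this
  have hm0 : (0 : ℝ) ≤ m := Nat.cast_nonneg _
  set v : ℝ := (m : ℝ) / DR with hv
  have hv0 : 0 ≤ v := by rw [hv]; positivity
  have hmv : (m : ℝ) = v * DR := by rw [hv]; field_simp
  set C := Real.cos θ
  set S := Real.sin θ
  set c : ℝ := (s.cp : ℝ) - s.cq
  set t : ℝ := (s.sp : ℝ) - s.sq
  have gc' := abs_le.1 gc
  have gs' := abs_le.1 gs
  set Dt := C + v * S with hDt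
  set Nt := v * C - S with hNt
  -- errors of numerator and denominator
  have eD : |Dt * (DR * DR) - Den| ≤ 4 * (DR + m) := by
    have e : Dt * (DR * DR) - Den = DR * (C * DR - c) + m * (S * DR - t) := by
      rw [hDenr, hDt, hmv]; ring
    rw [e]
    refine (abs_add_le _ _).trans ?_
    rw [abs_mul, abs_mul, abs_of_pos hD, abs_of_nonneg hm0]
    nlinarith only [hD, gc, gs]
  have eN : |Nt * (DR * DR) - ((NP : ℝ) - NQ)| ≤ 4 * (DR + m) := by
    have e : Nt * (DR * DR) - ((NP : ℝ) - NQ) = m * (C * DR - c) - DR * (S * DR - t) := by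
      rw [hNr, hNt, hmv]; ring
    rw [e]
    refine (abs_sub _ _).trans ?_
    rw [abs_mul, abs_mul, abs_of_pos hD, abs_of_nonneg hm0]
    nlinarith only [hD, gc, gs]
  have hDtpos : DR * (DR + m) / 2 ≤ Dt * (DR * DR) := by
    have := (abs_le.1 eD).1
    linarith only [h2r, this]
  have hDt0 : 0 < Dt := by
    have : 0 < DR * (DR + m) / 2 := by positivity
    have h5 := this.trans_le hDtpos
    by_contra hc
    have := mul_nonpos_of_nonpos_of_nonneg (not_lt.1 hc) (by positivity : 0 ≤ DR * DR)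
    linarith only [h5, this]
  have hDenR : (0 : ℝ) < Den := by exact_mod_cast hDenpos
  set z : ℝ := ((NP : ℝ) - NQ) / Den with hz
  have hzerr : |(ZP : ℝ) - ZQ - z * DR| ≤ 1 := by
    have k := sdiv_err (NP * 68719476736) (NQ * 68719476736) (b := Den) hDenpos
    have e1 : NP * 68719476736 - NQ * 68719476736 = (NP - NQ) * 68719476736 := (Nat.sub_mul _ _ _).symm
    have e2 : NQ * 68719476736 - NP * 68719476736 = (NQ - NP) * 68719476736 := (Nat.sub_mul _ _ _).symm
    rw [e1, e2, Nat.cast_mul, Nat.cast_mul, DN_cast] at k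
    have e3 : ((NP : ℝ) * DR - NQ * DR) / Den = z * DR := by rw [hz]; ring
    rw [e3] at k
    exact k
  have hZsmall : |(ZP : ℝ) - ZQ| ≤ 4194304 := by
    have h4 := Nat.le_of_ble_eq_true h3
    have h5 : (ZP : ℝ) + ZQ ≤ 4194304 := by
      have : ZP + ZQ ≤ 4194304 := h4
      exact_mod_cast this
    exact (A.abs_pq _ _).trans h5
  have hzD : |z * DR| ≤ 4194305 := by
    have e : z * DR = ((ZP : ℝ) - ZQ) - ((ZP : ℝ) - ZQ - z * DR) := by ring
    rw [e]
    exact (abs_sub _ _).trans (by linarith only [hzerr, hZsmall])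
  have hz1 : |z| ≤ 1 / 16000 := by
    rw [abs_mul, abs_of_pos hD] at hzD
    have : DR * (1 / 16000) ≥ 4194305 := by unfold DR; norm_num
    nlinarith only [hD, hzD, this]
  set zt : ℝ := Nt / Dt with hzt
  have hzz : |zt - z| * DR ≤ 8 * (1 + |z|) := by
    have e : zt - z = ((Nt * (DR * DR) - ((NP : ℝ) - NQ)) - z * (Dt * (DR * DR) - Den)) /
        (Dt * (DR * DR)) := by
      rw [hzt, eq_div_iff (by positivity), hz]
      field_simp
      ring
    rw [e, abs_div, abs_of_pos (by positivity : 0 < Dt * (DR * DR)), div_mul_eq_mul_div,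
      div_le_iff₀ (by positivity)]
    have h6 : |(Nt * (DR * DR) - ((NP : ℝ) - NQ)) - z * (Dt * (DR * DR) - Den)| ≤
        4 * (DR + m) * (1 + |z|) := by
      refine (abs_sub _ _).trans ?_
      rw [abs_mul]
      have := mul_le_mul_of_nonneg_left eD (abs_nonneg z)
      nlinarith only [eN, this]
    calc _ ≤ 4 * (DR + m) * (1 + |z|) * DR := by gcongr
      _ = 8 * (1 + |z|) * (DR * (DR + m) / 2) := by ring
      _ ≤ _ := by gcongr
  have hzt1 : |zt| ≤ 1 / 15000 := by
    have h7 : |zt - z| ≤ 1 / 1000000 := by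
      have h8 : 8 * (1 + |z|) ≤ 1 / 1000000 * DR := by
        have : (9 : ℝ) ≤ 1 / 1000000 * DR := by unfold DR; norm_num
        nlinarith only [hz1, this]
      exact le_of_mul_le_mul_right (hzz.trans h8) hD
    have e : zt = z + (zt - z) := by ring
    rw [e]
    refine (abs_add_le _ _).trans ?_
    linarith only [hz1, h7]
  have hcorr := arctan_correction hv0 hθ0 hθ1 hDt0
  have hat := arctan_sub_self zt
  have hcube : |zt| ^ 3 * DR ≤ 1 := by
    calc |zt| ^ 3 * DR ≤ (1 / 15000) ^ 3 * DR := by gcongr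
      _ ≤ 1 := by unfold DR; norm_num
  have hpi := piN_err (r := G) (by linarith only [hD, hG])
  have hθD : θ * DR = Real.pi * G := by rw [hθ]; field_simp
  have e : Real.arctan v * DR - (((Nat.add (piN G) ZP : ℕ) : ℝ) - ZQ) =
      (Real.arctan zt - zt) * DR + (zt - z) * DR + -((ZP : ℝ) - ZQ - z * DR) +
      (Real.pi * G - piN G) := by
    have e1 : ((Nat.add (piN G) ZP : ℕ) : ℝ) = (piN G : ℝ) + ZP := by
      change ((piN G + ZP : ℕ) : ℝ) = _
      push_cast; ring
    rw [e1, ← hθD, hzt, hNt, hDt, ← hcorr]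
    ring
  rw [e]
  have b1 : |(Real.arctan zt - zt) * DR| ≤ 1 := by
    rw [abs_mul, abs_of_pos hD]
    exact (mul_le_mul_of_nonneg_right hat hD.le).trans hcube
  have b2 : |(zt - z) * DR| ≤ 9 := by
    rw [abs_mul, abs_of_pos hD]
    refine hzz.trans ?_
    linarith only [hz1]
  have b3 : |-((ZP : ℝ) - ZQ - z * DR)| ≤ 1 := by rw [abs_neg]; exact hzerr
  refine (abs_add_le _ _).trans ?_
  have := abs_add_three ((Real.arctan zt - zt) * DR) ((zt - z) * DR) (-((ZP : ℝ) - ZQ - z * DR))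
  linarith only [hpi, b1, b2, b3, this]

lemma arctan_lip (x y : ℝ) : |1 / (1 + x ^ 2) - 1 / (1 + y ^ 2)| ≤ 1 * |x - y| := by
  have e : 1 / (1 + x ^ 2) - 1 / (1 + y ^ 2) = -(((x + y) / ((1 + x ^ 2) * (1 + y ^ 2))) * (x - y)) := by
    have h1 : 1 + x ^ 2 ≠ 0 := by positivity
    have h2 : 1 + y ^ 2 ≠ 0 := by positivity
    field_simp
    ring
  rw [e, abs_neg, abs_mul]
  gcongr
  rw [abs_div, abs_of_pos (by positivity : 0 < (1 + x ^ 2) * (1 + y ^ 2)), div_le_one (by positivity)]
  rw [abs_le]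
  constructor <;> nlinarith only [sq_nonneg (x - 1), sq_nonneg (x + 1), sq_nonneg (y - 1), sq_nonneg (y + 1),
    sq_nonneg (x * y), sq_nonneg x, sq_nonneg y]

namespace A

def atan (a : A) : Option A :=
  let n := a.nf
  let m := Nat.add n.p n.q
  let T := n.tot
  let d := Nat.div 324518553658426726783156020576256 (Nat.add 4722366482869645213696 (Nat.mul m m))
  let k := Nat.add (Nat.div (Nat.mul T T) 137438953472) 1
  match atN m with
  | none => none
  | some r => cond (Nat.beq n.q 0) (some (n.app r.1 r.2 13 d 0 1 k)) (some (n.app r.2 r.1 13 d 0 1 k))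

lemma Encl.atan {a b : A} {ε : ℕ → ℝ} {x : ℝ} (hε : ∀ i, |ε i| ≤ 1) (hx : a.Encl ε x)
    (h : a.atan = some b) : b.Encl ε (Real.arctan x) := by
  have hD := DR_pos
  have hn := nf_normal a
  have hx := hx.nf
  unfold A.atan at h
  set n := a.nf
  simp only at h
  set m := Nat.add n.p n.q with hm
  rcases hr : atN m with _ | r
  · rw [hr] at h; exact absurd h (by simp)
  rw [hr] at h
  have hs := atN_spec hr
  have hDD : ((4722366482869645213696 : ℕ) : ℝ) = DR * DR := by unfold DR; norm_num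
  have hDDD : ((324518553658426726783156020576256 : ℕ) : ℝ) = DR * DR * DR := by unfold DR; norm_num
  have hd : |1 / (1 + (((n.p : ℝ) - n.q) / DR) ^ 2) * DR -
      (((Nat.div 324518553658426726783156020576256 (Nat.add 4722366482869645213696 (Nat.mul m m)) : ℕ) : ℝ) - ((0 : ℕ) : ℝ))| ≤ ((1 : ℕ) : ℝ) := by
    have k1 := ndiv_le 324518553658426726783156020576256 (4722366482869645213696 + m * m)
    have k2 := lt_ndiv 324518553658426726783156020576256 (b := 4722366482869645213696 + m * m) (by positivity)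
    rw [hDDD, Nat.cast_add, hDD, Nat.cast_mul] at k1 k2
    have hmm : (m : ℝ) * m = ((n.p : ℝ) - n.q) ^ 2 := by
      have e1 : (m : ℝ) = n.p + n.q := by
        rw [hm]
        change ((n.p + n.q : ℕ) : ℝ) = _
        push_cast; ring
      rw [e1]
      rcases hn with h0 | h0 <;> rw [h0] <;> push_cast <;> ring
    rw [hmm] at k1 k2
    have e : 1 / (1 + (((n.p : ℝ) - n.q) / DR) ^ 2) * DR =
        DR * DR * DR / (DR * DR + ((n.p : ℝ) - n.q) ^ 2) := by
      have : DR * DR + ((n.p : ℝ) - n.q) ^ 2 ≠ 0 := by positivity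
      have : 1 + (((n.p : ℝ) - n.q) / DR) ^ 2 ≠ 0 := by positivity
      field_simp
    change |1 / (1 + (((n.p : ℝ) - n.q) / DR) ^ 2) * DR -
      (((324518553658426726783156020576256 / (4722366482869645213696 + m * m) : ℕ) : ℝ) - ((0 : ℕ) : ℝ))| ≤ ((1 : ℕ) : ℝ)
    rw [e, Nat.cast_zero, sub_zero, Nat.cast_one, abs_le]
    constructor <;> linarith only [k1, k2]
  have hk : ∀ δ : ℝ, |δ| ≤ (n.tot : ℝ) →
      |Real.arctan (((n.p : ℝ) - n.q + δ) / DR) * DR - Real.arctan (((n.p : ℝ) - n.q) / DR) * DR -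
        1 / (1 + (((n.p : ℝ) - n.q) / DR) ^ 2) * δ| ≤
      ((Nat.add (Nat.div (Nat.mul n.tot n.tot) 137438953472) 1 : ℕ) : ℝ) := by
    intro δ hδ
    have k := lt_ndiv (n.tot * n.tot) (b := 137438953472) (by norm_num)
    have h2D : ((137438953472 : ℕ) : ℝ) = 2 * DR := by unfold DR; norm_num
    rw [h2D] at k
    change _ ≤ ((n.tot * n.tot / 137438953472 + 1 : ℕ) : ℝ)
    push_cast at k ⊢
    refine le_trans ?_ k.le
    have h1 := second_order (f := Real.arctan) (f' := fun x => 1 / (1 + x ^ 2))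
      (((n.p : ℝ) - n.q) / DR) (δ / DR) Real.hasDerivAt_arctan arctan_lip
    rw [← add_div] at h1
    have e : Real.arctan (((n.p : ℝ) - n.q + δ) / DR) * DR - Real.arctan (((n.p : ℝ) - n.q) / DR) * DR -
        1 / (1 + (((n.p : ℝ) - n.q) / DR) ^ 2) * δ =
        (Real.arctan (((n.p : ℝ) - n.q + δ) / DR) - Real.arctan (((n.p : ℝ) - n.q) / DR) -
        1 / (1 + (((n.p : ℝ) - n.q) / DR) ^ 2) * (δ / DR)) * DR := by
      field_simp
    rw [e, abs_mul, abs_of_pos hD]
    refine (mul_le_mul_of_nonneg_right h1 hD.le).trans ?_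
    have h3 : δ ^ 2 ≤ (n.tot : ℝ) * n.tot := by
      rw [← pow_two, ← sq_abs δ]; gcongr
    have e2 : 1 * (δ / DR) ^ 2 / 2 * DR = δ ^ 2 / (2 * DR) := by field_simp
    rw [e2]
    gcongr
  rcases hq : Nat.beq n.q 0 with _ | _
  · simp only [hq, cond_false] at h
    have hq0 : n.q ≠ 0 := fun h0 => by rw [h0] at hq; exact absurd hq (by decide)
    have hp : n.p = 0 := hn.resolve_right hq0
    have h := Option.some.inj h
    rw [← h]
    refine hx.app hε Real.arctan _ ?_ hd hk
    have e : (m : ℝ) / DR = -(((n.p : ℝ) - n.q) / DR) := by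
      rw [hm]
      change (((n.p + n.q : ℕ) : ℝ) / DR) = _
      rw [hp]; push_cast; ring
    rw [e, Real.arctan_neg] at hs
    rw [← abs_neg]
    have : -(Real.arctan (((n.p : ℝ) - n.q) / DR) * DR - ((r.2 : ℝ) - r.1)) =
        -Real.arctan (((n.p : ℝ) - n.q) / DR) * DR - ((r.1 : ℝ) - r.2) := by ring
    rw [this]
    exact_mod_cast hs
  · simp only [hq, cond_true] at h
    have hq0 : n.q = 0 := Nat.eq_of_beq_eq_true hq
    have h := Option.some.inj h
    rw [← h]
    refine hx.app hε Real.arctan _ ?_ hd hk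
    have e : (m : ℝ) / DR = (((n.p : ℝ) - n.q) / DR) := by
      rw [hm]
      change (((n.p + n.q : ℕ) : ℝ) / DR) = _
      rw [hq0]; push_cast; ring
    rw [e] at hs
    exact_mod_cast hs

end A

end Pool.Agent.Work.NumI
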