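import Mathlib

/-!
# Verified numerics for the kernel, part 8: real and imaginary part of `log (2 sin π(x + i t))`,
analytic part
-/

namespace Pool.Agent.Work.NumI

/-- `log |2 sin π(x + i t)|` -/
noncomputable def lnA (x t : ℝ) : ℝ :=
  Real.log (4 * (Real.sin (Real.pi * x) ^ 2 + Real.sinh (Real.pi * t) ^ 2)) / 2

/-- `arg sin π(x + i t)` -/
noncomputable def lnB (x t : ℝ) : ℝ :=
  Real.arctan (Real.cos (Real.pi * x) * Real.sinh (Real.pi * t) /
    (Real.sin (Real.pi * x) * Real.cosh (Real.pi * t)))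

/-- `|sin π(x + i t)|^2` -/
noncomputable def MM (x t : ℝ) : ℝ := Real.sin (Real.pi * x) ^ 2 + Real.sinh (Real.pi * t) ^ 2

/-- real part of `cot` and minus the imaginary part of `cot` -/
noncomputable def PP (x t : ℝ) : ℝ := Real.sin (Real.pi * x) * Real.cos (Real.pi * x) / MM x t
noncomputable def QQ (x t : ℝ) : ℝ := Real.sinh (Real.pi * t) * Real.cosh (Real.pi * t) / MM x t

lemma MM_pos {x t : ℝ} (h : 0 < Real.sin (Real.pi * x)) : 0 < MM x t := by
  unfold MM; positivity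

lemma hasDerivAt_line {f f' : ℝ → ℝ} (hf : ∀ y, HasDerivAt f (f' y) y) (x a τ : ℝ) :
    HasDerivAt (fun τ => f (Real.pi * (x + τ * a))) (f' (Real.pi * (x + τ * a)) * (Real.pi * a)) τ := by
  have h1 : HasDerivAt (fun τ : ℝ => Real.pi * (x + τ * a)) (Real.pi * a) τ := by
    have := (((hasDerivAt_id τ).mul_const a).const_add x).const_mul Real.pi
    simpa using this
  exact (hf _).comp τ h1

lemma lnA_line {x t a b τ : ℝ} (h : 0 < Real.sin (Real.pi * (x + τ * a))) :
    HasDerivAt (fun τ => lnA (x + τ * a) (t + τ * b))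
      (Real.pi * (a * PP (x + τ * a) (t + τ * b) + b * QQ (x + τ * a) (t + τ * b))) τ := by
  have hM := MM_pos (t := t + τ * b) h
  have h1 := hasDerivAt_line Real.hasDerivAt_sin x a τ
  have h2 := hasDerivAt_line Real.hasDerivAt_sinh t b τ
  have h3 := ((h1.pow 2).add (h2.pow 2)).const_mul 4
  have h4 := (h3.log (by
    have : 4 * MM (x + τ * a) (t + τ * b) ≠ 0 := by positivity
    exact this)).div_const 2
  refine h4.congr_deriv ?_
  change _ / (4 * MM (x + τ * a) (t + τ * b)) / 2 = _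
  unfold PP QQ
  field_simp
  ring

lemma lnB_line {x t a b τ : ℝ} (h : 0 < Real.sin (Real.pi * (x + τ * a))) :
    HasDerivAt (fun τ => lnB (x + τ * a) (t + τ * b))
      (Real.pi * (b * PP (x + τ * a) (t + τ * b) - a * QQ (x + τ * a) (t + τ * b))) τ := by
  have hM := MM_pos (t := t + τ * b) h
  have h1 := hasDerivAt_line Real.hasDerivAt_sin x a τ
  have h1' := hasDerivAt_line (f' := fun y => -Real.sin y) Real.hasDerivAt_cos x a τ
  have h2 := hasDerivAt_line Real.hasDerivAt_sinh t b τ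
  have h2' := hasDerivAt_line Real.hasDerivAt_cosh t b τ
  have hch := Real.cosh_pos (Real.pi * (t + τ * b))
  have h3 := (h1'.mul h2).div (h1.mul h2') (mul_pos h hch).ne'
  have h4 := h3.arctan
  refine h4.congr_deriv ?_
  have e1 := Real.sin_sq_add_cos_sq (Real.pi * (x + τ * a))
  have e2 := Real.cosh_sq (Real.pi * (t + τ * b))
  unfold PP QQ
  have hMM : MM (x + τ * a) (t + τ * b) =
    Real.sin (Real.pi * (x + τ * a)) ^ 2 + Real.sinh (Real.pi * (t + τ * b)) ^ 2 := rfl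
  set s := Real.sin (Real.pi * (x + τ * a))
  set c := Real.cos (Real.pi * (x + τ * a))
  set sh := Real.sinh (Real.pi * (t + τ * b))
  set ch := Real.cosh (Real.pi * (t + τ * b))
  set M := MM (x + τ * a) (t + τ * b)
  have e3 : 1 + (c * sh / (s * ch)) ^ 2 = M / (s * ch) ^ 2 := by
    rw [eq_div_iff (by positivity), hMM]
    have : c ^ 2 = 1 - s ^ 2 := by linarith only [e1]
    field_simp
    rw [e2, this]
    ring
  change 1 / (1 + (c * sh / (s * ch)) ^ 2) * (((-s * (Real.pi * a) * sh + c * (ch * (Real.pi * b))) *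
    (s * ch) - c * sh * (c * (Real.pi * a) * ch + s * (sh * (Real.pi * b)))) / (s * ch) ^ 2) =
    Real.pi * (b * (s * c / M) - a * (sh * ch / M))
  rw [e3]
  have hc2 : c ^ 2 = 1 - s ^ 2 := by linarith only [e1]
  have hs0 : s ≠ 0 := h.ne'
  field_simp
  have e4 : s * ch * (-(s * a * sh) + ch * c * b) - sh * c * (ch * a * c + s * sh * b) =
    s * c * b * (ch ^ 2 - sh ^ 2) - ch * a * sh * (s ^ 2 + c ^ 2) := by ring
  rw [e4, e1, e2]
  ring

/-- `cot π(x + i t)` -/
noncomputable def ct (x t : ℝ) : ℂ :=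
  Complex.cos (Real.pi * x + Real.pi * t * Complex.I) / Complex.sin (Real.pi * x + Real.pi * t * Complex.I)

lemma sin_re_im (x t : ℝ) : Complex.sin (Real.pi * x + Real.pi * t * Complex.I) =
    ((Real.sin (Real.pi * x) * Real.cosh (Real.pi * t) : ℝ) : ℂ) +
      ((Real.cos (Real.pi * x) * Real.sinh (Real.pi * t) : ℝ) : ℂ) * Complex.I := by
  rw [Complex.sin_add, Complex.sin_mul_I, Complex.cos_mul_I]
  push_cast
  ring

lemma cos_re_im (x t : ℝ) : Complex.cos (Real.pi * x + Real.pi * t * Complex.I) =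
    ((Real.cos (Real.pi * x) * Real.cosh (Real.pi * t) : ℝ) : ℂ) -
      ((Real.sin (Real.pi * x) * Real.sinh (Real.pi * t) : ℝ) : ℂ) * Complex.I := by
  rw [Complex.cos_add, Complex.sin_mul_I, Complex.cos_mul_I]
  push_cast
  ring

lemma sin_normSq (x t : ℝ) :
    ‖Complex.sin (Real.pi * x + Real.pi * t * Complex.I)‖ ^ 2 = MM x t := by
  rw [sin_re_im, ← Complex.normSq_eq_norm_sq, Complex.normSq_add_mul_I]
  unfold MM
  have e1 := Real.sin_sq_add_cos_sq (Real.pi * x)
  have e2 := Real.cosh_sq (Real.pi * t)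
  have e3 : Real.cos (Real.pi * x) ^ 2 = 1 - Real.sin (Real.pi * x) ^ 2 := by linarith only [e1]
  rw [mul_pow, mul_pow, e2, e3]
  ring

lemma ct_eq {x t : ℝ} (h : 0 < Real.sin (Real.pi * x)) :
    ct x t = (PP x t : ℂ) - (QQ x t : ℂ) * Complex.I := by
  have hM := MM_pos (t := t) h
  have hsin : Complex.sin (Real.pi * x + Real.pi * t * Complex.I) ≠ 0 := by
    intro h0
    have := sin_normSq x t
    rw [h0] at this
    simp at this
    linarith only [hM, this]
  unfold ct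
  rw [div_eq_iff hsin]
  rw [cos_re_im, sin_re_im]
  have e1 := Real.sin_sq_add_cos_sq (Real.pi * x)
  have e2 := Real.cosh_sq (Real.pi * t)
  unfold PP QQ
  have hMM : MM x t = Real.sin (Real.pi * x) ^ 2 + Real.sinh (Real.pi * t) ^ 2 := rfl
  set s := Real.sin (Real.pi * x)
  set c := Real.cos (Real.pi * x)
  set sh := Real.sinh (Real.pi * t)
  set ch := Real.cosh (Real.pi * t)
  set M := MM x t
  have hM0 : M ≠ 0 := hM.ne'
  have r1 : c * ch = s * c / M * (s * ch) + sh * ch / M * (c * sh) := by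
    field_simp
    rw [hMM]
  have r2 : -(s * sh) = s * c / M * (c * sh) - sh * ch / M * (s * ch) := by
    field_simp
    have hc2 : c ^ 2 = 1 - s ^ 2 := by linarith only [e1]
    rw [hMM, hc2, e2]
    ring
  have r1' : ((c * ch : ℝ) : ℂ) = ((s * c / M * (s * ch) + sh * ch / M * (c * sh) : ℝ) : ℂ) := by
    rw [r1]
  have r2' : ((-(s * sh) : ℝ) : ℂ) = ((s * c / M * (c * sh) - sh * ch / M * (s * ch) : ℝ) : ℂ) := by
    rw [r2]
  have e3 : ((c * ch : ℝ) : ℂ) - ((s * sh : ℝ) : ℂ) * Complex.I =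
      ((c * ch : ℝ) : ℂ) + ((-(s * sh) : ℝ) : ℂ) * Complex.I := by push_cast; ring
  rw [e3, r1', r2']
  push_cast
  have hI : Complex.I ^ 2 = -1 := Complex.I_sq
  ring_nf
  rw [hI]
  ring

/-- second order remainder -/
lemma ct_diff {x t a b L2 : ℝ} (hL : 0 < L2)
    (hs : ∀ τ ∈ Set.Icc (0 : ℝ) 1, 0 < Real.sin (Real.pi * (x + τ * a)))
    (hM : ∀ τ ∈ Set.Icc (0 : ℝ) 1, L2 ≤ MM (x + τ * a) (t + τ * b)) :
    ∀ τ ∈ Set.Icc (0 : ℝ) 1, ‖ct (x + τ * a) (t + τ * b) - ct x t‖ ≤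
      ‖((Real.pi * a : ℝ) : ℂ) + ((Real.pi * b : ℝ) : ℂ) * Complex.I‖ / L2 * τ := by
  have hsin : ∀ τ ∈ Set.Icc (0 : ℝ) 1,
      Complex.sin (Real.pi * ((x + τ * a : ℝ) : ℂ) + Real.pi * ((t + τ * b : ℝ) : ℂ) * Complex.I) ≠ 0 := by
    intro τ hτ h0
    have := sin_normSq (x + τ * a) (t + τ * b)
    rw [h0] at this
    simp at this
    have := hM τ hτ
    linarith
  set w : ℂ := ((Real.pi * a : ℝ) : ℂ) + ((Real.pi * b : ℝ) : ℂ) * Complex.I with hw
  have hd : ∀ τ ∈ Set.Icc (0 : ℝ) 1, HasDerivAt (fun τ : ℝ => ct (x + τ * a) (t + τ * b))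
      (-w / Complex.sin (Real.pi * ((x + τ * a : ℝ) : ℂ) + Real.pi * ((t + τ * b : ℝ) : ℂ) * Complex.I) ^ 2)
      τ := by
    intro τ hτ
    have hz : HasDerivAt (fun τ : ℝ => (Real.pi * ((x + τ * a : ℝ) : ℂ) +
        Real.pi * ((t + τ * b : ℝ) : ℂ) * Complex.I)) w τ := by
      have h1 : HasDerivAt (fun τ : ℝ => (τ : ℂ)) 1 τ := Complex.ofRealCLM.hasDerivAt
      have h2 := ((h1.mul_const (a : ℂ)).const_add (x : ℂ)).const_mul (Real.pi : ℂ)
      have h3 := (((h1.mul_const (b : ℂ)).const_add (t : ℂ)).const_mul (Real.pi : ℂ)).mul_const Complex.I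
      have h4 := h2.add h3
      refine (h4.congr_deriv ?_).congr_of_eventuallyEq ?_
      · rw [hw]; push_cast; ring
      · refine Filter.Eventually.of_forall fun τ => ?_
        simp only [Pi.add_apply]
        push_cast; ring
    have hc := (Complex.hasDerivAt_cos _).comp τ hz
    have hs' := (Complex.hasDerivAt_sin _).comp τ hz
    have hq := hc.div hs' (hsin τ hτ)
    refine hq.congr_deriv ?_
    have := hsin τ hτ
    simp only [Function.comp]
    rw [div_left_inj' (pow_ne_zero 2 this)]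
    have h1 := Complex.sin_sq_add_cos_sq (Real.pi * ((x + τ * a : ℝ) : ℂ) +
        Real.pi * ((t + τ * b : ℝ) : ℂ) * Complex.I)
    linear_combination (-w) * h1
  intro τ hτ
  have key := norm_image_sub_le_of_norm_deriv_le_segment' (a := 0) (b := 1)
    (f := fun τ : ℝ => ct (x + τ * a) (t + τ * b)) (C := ‖w‖ / L2)
    (fun τ hτ => (hd τ hτ).hasDerivWithinAt) (fun τ hτ => by
      have hτ' : τ ∈ Set.Icc (0 : ℝ) 1 := ⟨hτ.1, hτ.2.le⟩
      rw [norm_div, norm_neg, norm_pow]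
      have h1 := sin_normSq (x + τ * a) (t + τ * b)
      rw [h1]
      have := hM τ hτ'
      gcongr) τ hτ
  simpa using key

lemma ln_second {x t a b L2 : ℝ} (hL : 0 < L2)
    (hs : ∀ τ ∈ Set.Icc (0 : ℝ) 1, 0 < Real.sin (Real.pi * (x + τ * a)))
    (hM : ∀ τ ∈ Set.Icc (0 : ℝ) 1, L2 ≤ MM (x + τ * a) (t + τ * b)) :
    |lnA (x + a) (t + b) - lnA x t - Real.pi * (a * PP x t + b * QQ x t)| ≤
      Real.pi ^ 2 * (a ^ 2 + b ^ 2) / L2 / 2 ∧
    |lnB (x + a) (t + b) - lnB x t - Real.pi * (b * PP x t - a * QQ x t)| ≤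
      Real.pi ^ 2 * (a ^ 2 + b ^ 2) / L2 / 2 := by
  have hct := ct_diff hL hs hM
  set w : ℂ := ((Real.pi * a : ℝ) : ℂ) + ((Real.pi * b : ℝ) : ℂ) * Complex.I with hw
  have hw2 : ‖w‖ ^ 2 = Real.pi ^ 2 * (a ^ 2 + b ^ 2) := by
    rw [hw, ← Complex.normSq_eq_norm_sq, Complex.normSq_add_mul_I]; ring
  have h0 : (0 : ℝ) ∈ Set.Icc (0 : ℝ) 1 := ⟨le_rfl, zero_le_one⟩
  have hs0 : 0 < Real.sin (Real.pi * x) := by simpa using hs 0 h0
  have hprod : ∀ τ ∈ Set.Icc (0 : ℝ) 1, ‖w * (ct (x + τ * a) (t + τ * b) - ct x t)‖ ≤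
      Real.pi ^ 2 * (a ^ 2 + b ^ 2) / L2 * τ := by
    intro τ hτ
    rw [norm_mul]
    calc ‖w‖ * ‖ct (x + τ * a) (t + τ * b) - ct x t‖ ≤ ‖w‖ * (‖w‖ / L2 * τ) :=
          mul_le_mul_of_nonneg_left (hct τ hτ) (norm_nonneg _)
      _ = ‖w‖ ^ 2 / L2 * τ := by ring
      _ = _ := by rw [hw2]
  have hform : ∀ τ ∈ Set.Icc (0 : ℝ) 1, w * (ct (x + τ * a) (t + τ * b) - ct x t) =
      ((Real.pi * (a * PP (x + τ * a) (t + τ * b) + b * QQ (x + τ * a) (t + τ * b)) -
        Real.pi * (a * PP x t + b * QQ x t) : ℝ) : ℂ) +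
      ((Real.pi * (b * PP (x + τ * a) (t + τ * b) - a * QQ (x + τ * a) (t + τ * b)) -
        Real.pi * (b * PP x t - a * QQ x t) : ℝ) : ℂ) * Complex.I := by
    intro τ hτ
    rw [ct_eq (hs τ hτ), ct_eq hs0, hw]
    push_cast
    have hI : Complex.I ^ 2 = -1 := Complex.I_sq
    ring_nf
    rw [hI]
    ring
  constructor
  · have key := image_norm_le_of_norm_deriv_right_le_deriv_boundary
      (f := fun τ => lnA (x + τ * a) (t + τ * b) - lnA x t - τ * (Real.pi * (a * PP x t + b * QQ x t)))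
      (f' := fun τ => Real.pi * (a * PP (x + τ * a) (t + τ * b) + b * QQ (x + τ * a) (t + τ * b)) -
        Real.pi * (a * PP x t + b * QQ x t))
      (a := 0) (b := 1) (B := fun τ => Real.pi ^ 2 * (a ^ 2 + b ^ 2) / L2 * τ ^ 2 / 2)
      (B' := fun τ => Real.pi ^ 2 * (a ^ 2 + b ^ 2) / L2 * τ)
    have hd : ∀ τ ∈ Set.Icc (0 : ℝ) 1, HasDerivAt
        (fun τ => lnA (x + τ * a) (t + τ * b) - lnA x t - τ * (Real.pi * (a * PP x t + b * QQ x t)))
        (Real.pi * (a * PP (x + τ * a) (t + τ * b) + b * QQ (x + τ * a) (t + τ * b)) -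
        Real.pi * (a * PP x t + b * QQ x t)) τ := fun τ hτ => by
      have := ((lnA_line (t := t) (b := b) (hs τ hτ)).sub_const (lnA x t)).sub
        ((hasDerivAt_id τ).mul_const (Real.pi * (a * PP x t + b * QQ x t)))
      exact this.congr_deriv (by simp)
    have h2 := key (fun τ hτ => (hd τ hτ).continuousAt.continuousWithinAt)
      (fun τ hτ => (hd τ ⟨hτ.1, hτ.2.le⟩).hasDerivWithinAt) (by simp)
      (fun τ => by
        have := ((hasDerivAt_pow 2 τ).const_mul (Real.pi ^ 2 * (a ^ 2 + b ^ 2) / L2)).div_const 2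
        refine this.congr_deriv ?_
        push_cast
        ring)
      (fun τ hτ => by
        have hτ' : τ ∈ Set.Icc (0 : ℝ) 1 := ⟨hτ.1, hτ.2.le⟩
        have h3 := hprod τ hτ'
        rw [hform τ hτ'] at h3
        refine le_trans ?_ h3
        have := Complex.abs_re_le_norm (((Real.pi * (a * PP (x + τ * a) (t + τ * b) +
          b * QQ (x + τ * a) (t + τ * b)) - Real.pi * (a * PP x t + b * QQ x t) : ℝ) : ℂ) +
          ((Real.pi * (b * PP (x + τ * a) (t + τ * b) - a * QQ (x + τ * a) (t + τ * b)) -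
          Real.pi * (b * PP x t - a * QQ x t) : ℝ) : ℂ) * Complex.I)
        simp only [Complex.add_re, Complex.ofReal_re, Complex.mul_re, Complex.I_re, mul_zero,
          Complex.ofReal_im, Complex.I_im, zero_mul, sub_zero, add_zero] at this
        rw [Real.norm_eq_abs]
        exact this)
      (Set.right_mem_Icc.2 zero_le_one)
    simpa [Real.norm_eq_abs] using h2
  · have key := image_norm_le_of_norm_deriv_right_le_deriv_boundary
      (f := fun τ => lnB (x + τ * a) (t + τ * b) - lnB x t - τ * (Real.pi * (b * PP x t - a * QQ x t)))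
      (f' := fun τ => Real.pi * (b * PP (x + τ * a) (t + τ * b) - a * QQ (x + τ * a) (t + τ * b)) -
        Real.pi * (b * PP x t - a * QQ x t))
      (a := 0) (b := 1) (B := fun τ => Real.pi ^ 2 * (a ^ 2 + b ^ 2) / L2 * τ ^ 2 / 2)
      (B' := fun τ => Real.pi ^ 2 * (a ^ 2 + b ^ 2) / L2 * τ)
    have hd : ∀ τ ∈ Set.Icc (0 : ℝ) 1, HasDerivAt
        (fun τ => lnB (x + τ * a) (t + τ * b) - lnB x t - τ * (Real.pi * (b * PP x t - a * QQ x t)))
        (Real.pi * (b * PP (x + τ * a) (t + τ * b) - a * QQ (x + τ * a) (t + τ * b)) -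
        Real.pi * (b * PP x t - a * QQ x t)) τ := fun τ hτ => by
      have := ((lnB_line (t := t) (b := b) (hs τ hτ)).sub_const (lnB x t)).sub
        ((hasDerivAt_id τ).mul_const (Real.pi * (b * PP x t - a * QQ x t)))
      exact this.congr_deriv (by simp)
    have h2 := key (fun τ hτ => (hd τ hτ).continuousAt.continuousWithinAt)
      (fun τ hτ => (hd τ ⟨hτ.1, hτ.2.le⟩).hasDerivWithinAt) (by simp)
      (fun τ => by
        have := ((hasDerivAt_pow 2 τ).const_mul (Real.pi ^ 2 * (a ^ 2 + b ^ 2) / L2)).div_const 2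
        refine this.congr_deriv ?_
        push_cast
        ring)
      (fun τ hτ => by
        have hτ' : τ ∈ Set.Icc (0 : ℝ) 1 := ⟨hτ.1, hτ.2.le⟩
        have h3 := hprod τ hτ'
        rw [hform τ hτ'] at h3
        refine le_trans ?_ h3
        have := Complex.abs_im_le_norm (((Real.pi * (a * PP (x + τ * a) (t + τ * b) +
          b * QQ (x + τ * a) (t + τ * b)) - Real.pi * (a * PP x t + b * QQ x t) : ℝ) : ℂ) +
          ((Real.pi * (b * PP (x + τ * a) (t + τ * b) - a * QQ (x + τ * a) (t + τ * b)) -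
          Real.pi * (b * PP x t - a * QQ x t) : ℝ) : ℂ) * Complex.I)
        simp only [Complex.add_im, Complex.ofReal_re, Complex.mul_im, Complex.I_re, mul_zero,
          Complex.ofReal_im, Complex.I_im, zero_mul, zero_add, mul_one, add_zero] at this
        rw [Real.norm_eq_abs]
        exact this)
      (Set.right_mem_Icc.2 zero_le_one)
    simpa [Real.norm_eq_abs] using h2

end Pool.Agent.Work.NumI
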