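import Mathlib
import Pool.Agent.Work.NumI.Trig

/-!
# Verified numerics for the kernel, part 4: `exp`, `cosh`, `sinh`
-/

namespace Pool.Agent.Work.NumI

open Finset

noncomputable def SR : ℝ := 281474976710656

lemma SR_pos : 0 < SR := by unfold SR; norm_num
lemma SR_DR : SR = 4096 * DR := by unfold SR DR; norm_num
lemma SN_cast : ((281474976710656 : ℕ) : ℝ) = SR := by unfold SR; norm_num

lemma exp_taylor {r : ℝ} (h0 : 0 ≤ r) (h1 : r ≤ 1 / 4) :
    (1 + r + r ^ 2 / 2 + r ^ 3 / 6 + r ^ 4 / 24 + r ^ 5 / 120 + r ^ 6 / 720 + r ^ 7 / 5040 +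
      r ^ 8 / 40320 + r ^ 9 / 362880) ≤ Real.exp r ∧
    Real.exp r ≤ (1 + r + r ^ 2 / 2 + r ^ 3 / 6 + r ^ 4 / 24 + r ^ 5 / 120 + r ^ 6 / 720 +
      r ^ 7 / 5040 + r ^ 8 / 40320 + r ^ 9 / 362880) + 3 / 10000000000000 := by
  have e : ∑ m ∈ range 10, r ^ m / (m.factorial : ℝ) =
      (1 + r + r ^ 2 / 2 + r ^ 3 / 6 + r ^ 4 / 24 + r ^ 5 / 120 + r ^ 6 / 720 + r ^ 7 / 5040 +
      r ^ 8 / 40320 + r ^ 9 / 362880) := by
    simp only [sum_range_succ, sum_range_zero, Nat.factorial]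
    push_cast
    ring
  constructor
  · rw [← e]
    exact Real.sum_le_exp_of_nonneg h0 10
  · have h2 := Real.exp_bound' h0 (by linarith only [h1] : r ≤ 1) (n := 10) (by norm_num)
    rw [e] at h2
    refine h2.trans ?_
    have h3 : r ^ 10 ≤ (1 / 4 : ℝ) ^ 10 := by gcongr
    have e2 : (Nat.factorial 10 : ℕ) = 3628800 := by decide
    rw [e2]
    push_cast
    nlinarith only [h3]

/-- Horner numerator of the degree 9 Taylor polynomial at `m / M`, `M = 64 D`, over `9! M ^ 9` -/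
def expN (m : ℕ) : ℕ :=
  Nat.add 223409375133556697133622157367814290274802121663539082607266823602073242444389184166718889665197471683373580705039646720 (Nat.mul m (
  Nat.add 50797410752592599495442790923292316227798919877281851451531752809858799638366050241238301547400049385799680 (Nat.mul m (
  Nat.add 5774996992908268054571043526640587086580912896042929270553458173919670984829059562029931560960 (Nat.mul m (
  Nat.add 437694097317055218701098323332840291685360542036121332069149667549911630038958080 (Nat.mul m (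
  Nat.add 24880028906696635357383134040267139635338966288379727533830968442880 (Nat.mul m (
  Nat.add 1131412723529894508709873391138314201968522242549612544 (Nat.mul m (
  Nat.add 42875578232038246396385200536402794643456 (Nat.mul m (
  Nat.add 1392682544196052809261514752 (Nat.mul m (
  Nat.add 39582418599936 m))))))))))))))))

def sqLo (a : ℕ) : ℕ := Nat.div (Nat.mul a a) 281474976710656
def sqHi (a : ℕ) : ℕ := Nat.add (Nat.div (Nat.mul a a) 281474976710656) 1

def exp0 (m : ℕ) : ℕ := Nat.div (Nat.mul 281474976710656 (expN m)) 223409375133556697133622157367814290274802121663539082607266823602073242444389184166718889665197471683373580705039646720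

/-- lower and upper bound of `exp (m / D) * D` -/
def expLo (m : ℕ) : ℕ := Nat.div (sqLo (sqLo (sqLo (sqLo (sqLo (sqLo (exp0 m))))))) 4096
def expHi (m : ℕ) : ℕ := Nat.add (Nat.div (sqHi (sqHi (sqHi (sqHi (sqHi (sqHi (Nat.add (exp0 m) 90))))))) 4096) 1

lemma sqLo_spec {a : ℕ} {x : ℝ} (h : (a : ℝ) ≤ Real.exp x * SR) :
    (sqLo a : ℝ) ≤ Real.exp (2 * x) * SR := by
  have hS := SR_pos
  change ((a * a / 281474976710656 : ℕ) : ℝ) ≤ _
  refine (ndiv_le _ _).trans ?_
  rw [SN_cast, two_mul, Real.exp_add, div_le_iff₀ hS]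
  push_cast
  have h0' : (0 : ℝ) ≤ a := Nat.cast_nonneg _
  calc (a : ℝ) * a ≤ (Real.exp x * SR) * (Real.exp x * SR) := by gcongr
    _ = _ := by ring

lemma sqHi_spec {a : ℕ} {x : ℝ} (h : Real.exp x * SR ≤ (a : ℝ)) :
    Real.exp (2 * x) * SR ≤ (sqHi a : ℝ) := by
  have hS := SR_pos
  have h1 := lt_ndiv (a * a) (b := 281474976710656) (by norm_num)
  have h2 : Real.exp (2 * x) * SR ≤ ((a * a : ℕ) : ℝ) / ((281474976710656 : ℕ) : ℝ) := by
    rw [SN_cast, two_mul, Real.exp_add, le_div_iff₀ hS]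
    push_cast
    have : 0 ≤ Real.exp x * SR := by positivity
    have haa : (0 : ℝ) ≤ a := this.trans h
    calc Real.exp x * Real.exp x * SR * SR = (Real.exp x * SR) * (Real.exp x * SR) := by ring
      _ ≤ (a : ℝ) * a := by gcongr
  change _ ≤ ((a * a / 281474976710656 + 1 : ℕ) : ℝ)
  push_cast at h1 h2 ⊢
  linarith only [h1, h2]

lemma expN_real (m : ℕ) :
    ((281474976710656 * expN m : ℕ) : ℝ) / ((223409375133556697133622157367814290274802121663539082607266823602073242444389184166718889665197471683373580705039646720 : ℕ) : ℝ) =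
    (1 + ((m : ℝ) / (64 * DR)) + ((m : ℝ) / (64 * DR)) ^ 2 / 2 + ((m : ℝ) / (64 * DR)) ^ 3 / 6 +
      ((m : ℝ) / (64 * DR)) ^ 4 / 24 + ((m : ℝ) / (64 * DR)) ^ 5 / 120 +
      ((m : ℝ) / (64 * DR)) ^ 6 / 720 + ((m : ℝ) / (64 * DR)) ^ 7 / 5040 +
      ((m : ℝ) / (64 * DR)) ^ 8 / 40320 + ((m : ℝ) / (64 * DR)) ^ 9 / 362880) * SR := by
  have e : expN m = 223409375133556697133622157367814290274802121663539082607266823602073242444389184166718889665197471683373580705039646720 + m * (50797410752592599495442790923292316227798919877281851451531752809858799638366050241238301547400049385799680 + m * (5774996992908268054571043526640587086580912896042929270553458173919670984829059562029931560960 + m * (437694097317055218701098323332840291685360542036121332069149667549911630038958080 + m * (24880028906696635357383134040267139635338966288379727533830968442880 + m * (1131412723529894508709873391138314201968522242549612544 + m * (42875578232038246396385200536402794643456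 + m * (1392682544196052809261514752 + m * (39582418599936 + m)))))))) := rfl
  rw [e]
  unfold DR SR
  push_cast
  field_simp
  ring

lemma exp_spec {m : ℕ} (h1 : (m : ℝ) ≤ 16 * DR) :
    (expLo m : ℝ) ≤ Real.exp ((m : ℝ) / DR) * DR ∧
    Real.exp ((m : ℝ) / DR) * DR ≤ (expHi m : ℝ) := by
  have hD := DR_pos
  have hS := SR_pos
  set r : ℝ := (m : ℝ) / (64 * DR) with hr
  have hr0 : 0 ≤ r := by rw [hr]; positivity
  have hr1 : r ≤ 1 / 4 := by
    rw [hr, div_le_iff₀ (by positivity)]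
    linarith only [h1]
  obtain ⟨t1, t2⟩ := exp_taylor hr0 hr1
  have hN := expN_real m
  rw [← hr] at hN
  set P := (1 + r + r ^ 2 / 2 + r ^ 3 / 6 + r ^ 4 / 24 + r ^ 5 / 120 + r ^ 6 / 720 + r ^ 7 / 5040 +
      r ^ 8 / 40320 + r ^ 9 / 362880)
  have q1 := ndiv_le (281474976710656 * expN m) 223409375133556697133622157367814290274802121663539082607266823602073242444389184166718889665197471683373580705039646720
  have q2 := lt_ndiv (281474976710656 * expN m) (b := 223409375133556697133622157367814290274802121663539082607266823602073242444389184166718889665197471683373580705039646720) (by norm_num)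
  rw [hN] at q1 q2
  have hE : Real.exp ((m : ℝ) / DR) = Real.exp (2 * (2 * (2 * (2 * (2 * (2 * r)))))) := by
    congr 1; rw [hr]; field_simp; ring
  have hA : exp0 m = 281474976710656 * expN m / 223409375133556697133622157367814290274802121663539082607266823602073242444389184166718889665197471683373580705039646720 := rfl
  rw [← hA] at q1 q2
  have l0 : ((exp0 m : ℕ) : ℝ) ≤ Real.exp r * SR := q1.trans (by gcongr)
  have u0 : Real.exp r * SR ≤ ((exp0 m + 90 : ℕ) : ℝ) := by
    have : (3 / 10000000000000 : ℝ) * SR ≤ 85 := by unfold SR; norm_num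
    have h5 : Real.exp r * SR ≤ (P + 3 / 10000000000000) * SR := by gcongr
    push_cast
    nlinarith only [q2, this, h5]
  constructor
  · have l6 := sqLo_spec (sqLo_spec (sqLo_spec (sqLo_spec (sqLo_spec (sqLo_spec l0)))))
    change ((sqLo (sqLo (sqLo (sqLo (sqLo (sqLo (exp0 m)))))) / 4096 : ℕ) : ℝ) ≤ _
    refine (ndiv_le _ _).trans ?_
    rw [hE, div_le_iff₀ (by norm_num)]
    rw [SR_DR] at l6
    push_cast
    linarith only [l6]
  · have v6 := sqHi_spec (sqHi_spec (sqHi_spec (sqHi_spec (sqHi_spec (sqHi_spec u0)))))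
    change _ ≤ ((sqHi (sqHi (sqHi (sqHi (sqHi (sqHi (exp0 m + 90)))))) / 4096 + 1 : ℕ) : ℝ)
    have := lt_ndiv (sqHi (sqHi (sqHi (sqHi (sqHi (sqHi (exp0 m + 90))))))) (b := 4096) (by norm_num)
    rw [hE]
    rw [SR_DR] at v6
    push_cast at this ⊢
    rw [div_lt_iff₀ (by norm_num)] at this
    linarith only [v6, this]

/-- bounds of `exp (m / D) * D` and of `exp (-m / D) * D` -/
structure E4 where
  a : ℕ
  b : ℕ
  c : ℕ
  d : ℕ

def E4.Good (s : E4) (x : ℝ) : Prop :=
  (s.a : ℝ) ≤ Real.exp x * DR ∧ Real.exp x * DR ≤ s.b ∧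
  (s.c : ℝ) ≤ Real.exp (-x) * DR ∧ Real.exp (-x) * DR ≤ s.d

def ex4 (m : ℕ) : E4 :=
  ⟨expLo m, expHi m, Nat.div 4722366482869645213696 (expHi m), Nat.add (Nat.div 4722366482869645213696 (expLo m)) 1⟩

lemma ex4_good {m : ℕ} (h1 : (m : ℝ) ≤ 16 * DR) (h2 : 0 < expLo m) : (ex4 m).Good ((m : ℝ) / DR) := by
  have hD := DR_pos
  obtain ⟨l, u⟩ := exp_spec h1
  have hlo : (0 : ℝ) < (expLo m : ℝ) := by exact_mod_cast h2
  have hhi : (0 : ℝ) < (expHi m : ℝ) := lt_of_lt_of_le (by positivity) u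
  have hDD : ((4722366482869645213696 : ℕ) : ℝ) = DR * DR := by unfold DR; norm_num
  have hmul : Real.exp ((m : ℝ) / DR) * Real.exp (-((m : ℝ) / DR)) = 1 := by
    rw [← Real.exp_add]; simp
  have hmul2 : (Real.exp ((m : ℝ) / DR) * DR) * (Real.exp (-((m : ℝ) / DR)) * DR) = DR * DR := by
    calc _ = (Real.exp ((m : ℝ) / DR) * Real.exp (-((m : ℝ) / DR))) * (DR * DR) := by ring
      _ = _ := by rw [hmul, one_mul]
  refine ⟨l, u, ?_, ?_⟩
  · change ((4722366482869645213696 / expHi m : ℕ) : ℝ) ≤ _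
    refine (ndiv_le _ _).trans ?_
    rw [hDD, div_le_iff₀ hhi, ← hmul2, mul_comm]
    gcongr
  · change _ ≤ ((4722366482869645213696 / expLo m + 1 : ℕ) : ℝ)
    have := lt_ndiv 4722366482869645213696 (b := expLo m) h2
    rw [hDD] at this
    push_cast
    refine le_trans ?_ this.le
    rw [le_div_iff₀ hlo, ← hmul2, mul_comm]
    gcongr

lemma exp_second {t : ℝ} (ht : |t| ≤ 1) :
    |Real.exp t - 1 - t| ≤ t ^ 2 / 2 + |t| ^ 3 * (2 / 9) := by
  have h := Real.exp_bound ht (n := 3) (by norm_num)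
  have e : ∑ m ∈ range 3, t ^ m / (m.factorial : ℝ) = 1 + t + t ^ 2 / 2 := by
    simp [sum_range_succ, Nat.factorial]
  have e3 : |t| ^ 3 * ((Nat.succ 3 : ℕ) / ((Nat.factorial 3 : ℕ) * (3 : ℕ)) : ℝ) = |t| ^ 3 * (2 / 9) := by
    norm_num [Nat.factorial]
  rw [e, e3] at h
  have hc : Real.exp t - (1 + t + t ^ 2 / 2) = Real.exp t - 1 - t - t ^ 2 / 2 := by ring
  rw [hc] at h
  have b1 := abs_le.1 h
  have hn := sq_nonneg t
  rw [abs_le]; constructor <;> linarith only [b1, hn, b1.1, b1.2]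

/-- second order term `U * (T ^ 2 / 2 + 2 T ^ 3 / 9)`, in fixed point -/
def k2e (U T : ℕ) : ℕ := Nat.add (Nat.div (Nat.mul U (Nat.mul (Nat.mul T T) (Nat.add 618475290624 (Nat.mul 4 T)))) 5841333965851681082096808370372608) 1

lemma k2e_spec {U T : ℕ} {W δ : ℝ} (_hW0 : 0 ≤ W) (hW : W ≤ U) (hδ : |δ| ≤ (T : ℝ)) :
    W * ((δ / DR) ^ 2 / 2 + |δ / DR| ^ 3 * (2 / 9)) ≤ (k2e U T : ℝ) := by
  have hD := DR_pos
  have k := lt_ndiv (U * (T * T * (618475290624 + 4 * T))) (b := 5841333965851681082096808370372608) (by norm_num)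
  have hK : ((5841333965851681082096808370372608 : ℕ) : ℝ) = 18 * DR ^ 3 := by unfold DR; norm_num
  have h9 : ((618475290624 : ℕ) : ℝ) = 9 * DR := by unfold DR; norm_num
  change _ ≤ ((U * (T * T * (618475290624 + 4 * T)) / 5841333965851681082096808370372608 + 1 : ℕ) : ℝ)
  rw [hK] at k
  rw [Nat.cast_mul, Nat.cast_mul, Nat.cast_mul, Nat.cast_add, h9] at k
  push_cast
  refine le_trans ?_ k.le
  have e : W * ((δ / DR) ^ 2 / 2 + |δ / DR| ^ 3 * (2 / 9)) =
      W * (|δ| * |δ| * (9 * DR + 4 * |δ|)) / (18 * DR ^ 3) := by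
    have e2 : |δ / DR| = |δ| / DR := by rw [abs_div, abs_of_pos hD]
    have e3 : (δ / DR) ^ 2 = (|δ| / DR) ^ 2 := by rw [div_pow, div_pow, sq_abs]
    rw [e2, e3]
    field_simp
    ring
  rw [e]
  have h0 := abs_nonneg δ
  push_cast
  gcongr

namespace A

def exp (a : A) : Option A :=
  let n := a.nf
  let m := Nat.add n.p n.q
  let T := n.tot
  let s := ex4 m
  cond (Nat.ble m 1099511627776) (cond (Nat.ble 1 s.a) (cond (Nat.ble T 68719476736)
    (cond (Nat.beq n.q 0)
      (some (n.app s.a 0 (Nat.sub s.b s.a) s.a 0 (Nat.sub s.b s.a) (k2e s.b T)))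
      (some (n.app s.c 0 (Nat.sub s.d s.c) s.c 0 (Nat.sub s.d s.c) (k2e s.d T)))) none) none) none

lemma exp_app {n : A} {ε : ℕ → ℝ} {x : ℝ} (hε : ∀ i, |ε i| ≤ 1) (hx : n.Encl ε x) {lo hi : ℕ}
    (h1 : (lo : ℝ) ≤ Real.exp (((n.p : ℝ) - n.q) / DR) * DR)
    (h2 : Real.exp (((n.p : ℝ) - n.q) / DR) * DR ≤ (hi : ℝ)) (hT : (n.tot : ℝ) ≤ DR) :
    (n.app lo 0 (Nat.sub hi lo) lo 0 (Nat.sub hi lo) (k2e hi n.tot)).Encl ε (Real.exp x) := by
  have hD := DR_pos
  have hle : lo ≤ hi := by exact_mod_cast h1.trans h2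
  have hsub : ((Nat.sub hi lo : ℕ) : ℝ) = (hi : ℝ) - lo := Nat.cast_sub hle
  have hb : |Real.exp (((n.p : ℝ) - n.q) / DR) * DR - ((lo : ℝ) - ((0 : ℕ) : ℝ))| ≤
      ((Nat.sub hi lo : ℕ) : ℝ) := by
    rw [hsub, Nat.cast_zero, sub_zero, abs_le]; constructor <;> linarith only [h1, h2]
  refine hx.app hε Real.exp (Real.exp (((n.p : ℝ) - n.q) / DR)) hb hb ?_
  intro δ hδ
  have ht : |δ / DR| ≤ 1 := by
    rw [abs_div, abs_of_pos hD, div_le_one hD]; exact hδ.trans hT
  have h3 := exp_second ht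
  have e : Real.exp (((n.p : ℝ) - n.q + δ) / DR) * DR - Real.exp (((n.p : ℝ) - n.q) / DR) * DR -
      Real.exp (((n.p : ℝ) - n.q) / DR) * δ =
      (Real.exp (((n.p : ℝ) - n.q) / DR) * DR) * (Real.exp (δ / DR) - 1 - δ / DR) := by
    rw [add_div, Real.exp_add]
    field_simp
  rw [e, abs_mul, abs_of_nonneg (by positivity : 0 ≤ Real.exp (((n.p : ℝ) - n.q) / DR) * DR)]
  refine le_trans ?_ (k2e_spec (by positivity) h2 hδ)
  gcongr

lemma Encl.exp {a b : A} {ε : ℕ → ℝ} {x : ℝ} (hε : ∀ i, |ε i| ≤ 1) (hx : a.Encl ε x)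
    (h : a.exp = some b) : b.Encl ε (Real.exp x) := by
  have hn := nf_normal a
  have hx := hx.nf
  unfold A.exp at h
  set n := a.nf
  simp only at h
  rcases h1 : Nat.ble (Nat.add n.p n.q) 1099511627776 with _ | _
  · rw [h1] at h; exact absurd h (by simp)
  rw [h1, cond_true] at h
  rcases h2 : Nat.ble 1 (ex4 (Nat.add n.p n.q)).a with _ | _
  · rw [h2] at h; exact absurd h (by simp)
  rw [h2, cond_true] at h
  rcases h3 : Nat.ble n.tot 68719476736 with _ | _
  · rw [h3] at h; exact absurd h (by simp)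
  rw [h3, cond_true] at h
  have hm : (((Nat.add n.p n.q : ℕ)) : ℝ) ≤ 16 * DR := by
    have := Nat.le_of_ble_eq_true h1
    have h16 : ((1099511627776 : ℕ) : ℝ) = 16 * DR := by unfold DR; norm_num
    rw [← h16]; exact_mod_cast this
  have hlo : 0 < expLo (Nat.add n.p n.q) := Nat.le_of_ble_eq_true h2
  have hT : (n.tot : ℝ) ≤ DR := by
    rw [← DN_cast]; exact_mod_cast Nat.le_of_ble_eq_true h3
  obtain ⟨g1, g2, g3, g4⟩ := ex4_good hm hlo
  rcases hq : Nat.beq n.q 0 with _ | _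
  · rw [hq, cond_false] at h
    have hq0 : n.q ≠ 0 := fun h0 => by rw [h0] at hq; exact absurd hq (by decide)
    have hp : n.p = 0 := hn.resolve_right hq0
    have e : -(((Nat.add n.p n.q : ℕ) : ℝ) / DR) = ((n.p : ℝ) - n.q) / DR := by
      change -(((n.p + n.q : ℕ) : ℝ) / DR) = _
      rw [hp]; push_cast; ring
    rw [e] at g3 g4
    have h := Option.some.inj h
    rw [← h]
    exact exp_app hε hx g3 g4 hT
  · rw [hq, cond_true] at h
    have hq0 : n.q = 0 := Nat.eq_of_beq_eq_true hq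
    have e : (((Nat.add n.p n.q : ℕ) : ℝ) / DR) = ((n.p : ℝ) - n.q) / DR := by
      change (((n.p + n.q : ℕ) : ℝ) / DR) = _
      rw [hq0]; push_cast; ring
    rw [e] at g1 g2
    have h := Option.some.inj h
    rw [← h]
    exact exp_app hε hx g1 g2 hT

/-- `cosh` and `sinh` at `m / D`, lower bounds and errors -/
def chsh (s : E4) : E4 :=
  ⟨Nat.div (Nat.add s.a s.c) 2, Nat.sub (Nat.add (Nat.div (Nat.add s.b s.d) 2) 1) (Nat.div (Nat.add s.a s.c) 2),
   Nat.div (Nat.sub s.a s.d) 2, Nat.sub (Nat.add (Nat.div (Nat.sub s.b s.c) 2) 1) (Nat.div (Nat.sub s.a s.d) 2)⟩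

lemma chsh_good {s : E4} {x : ℝ} (hx : 0 ≤ x) (h : s.Good x) :
    |Real.cosh x * DR - (chsh s).a| ≤ (chsh s).b ∧ |Real.sinh x * DR - (chsh s).c| ≤ (chsh s).d ∧
    Real.cosh x * DR ≤ (((Nat.add (chsh s).a (chsh s).b : ℕ)) : ℝ) := by
  have hD := DR_pos
  obtain ⟨h1, h2, h3, h4⟩ := h
  have c1 : (((s.a + s.c) / 2 : ℕ) : ℝ) ≤ Real.cosh x * DR := by
    refine (ndiv_le _ _).trans ?_
    rw [Real.cosh_eq]; push_cast; linarith only [h1, h3]
  have c2 : Real.cosh x * DR ≤ (((s.b + s.d) / 2 + 1 : ℕ) : ℝ) := by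
    have := lt_ndiv (s.b + s.d) (b := 2) (by norm_num)
    rw [Real.cosh_eq]; push_cast at this ⊢; linarith only [h2, h4, this]
  have c3 : (s.a + s.c) / 2 ≤ (s.b + s.d) / 2 + 1 := by exact_mod_cast c1.trans c2
  have s0 : 0 ≤ Real.sinh x * DR := mul_nonneg (Real.sinh_nonneg_iff.2 hx) hD.le
  have s1 : (((s.a - s.d) / 2 : ℕ) : ℝ) ≤ Real.sinh x * DR := by
    refine (ndiv_le _ _).trans ?_
    rcases le_total s.d s.a with hh | hh
    · rw [Nat.cast_sub hh, Real.sinh_eq]; push_cast; linarith only [h1, h4]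
    · rw [Nat.sub_eq_zero_of_le hh]; simpa using s0
  have s2 : Real.sinh x * DR ≤ (((s.b - s.c) / 2 + 1 : ℕ) : ℝ) := by
    have h5 := lt_ndiv (s.b - s.c) (b := 2) (by norm_num)
    have h6 : (s.b : ℝ) - s.c ≤ ((s.b - s.c : ℕ) : ℝ) := by
      rcases le_total s.c s.b with hh | hh
      · rw [Nat.cast_sub hh]
      · rw [Nat.sub_eq_zero_of_le hh]
        have : (s.b : ℝ) ≤ s.c := by exact_mod_cast hh
        push_cast; linarith only [this]
    rw [Real.sinh_eq]; push_cast at h5 ⊢; linarith only [h2, h3, h5, h6]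
  have s3 : (s.a - s.d) / 2 ≤ (s.b - s.c) / 2 + 1 := by exact_mod_cast s1.trans s2
  have ea : ((chsh s).b : ℝ) = (((s.b + s.d) / 2 + 1 : ℕ) : ℝ) - (((s.a + s.c) / 2 : ℕ) : ℝ) :=
    Nat.cast_sub c3
  have eb : ((chsh s).d : ℝ) = (((s.b - s.c) / 2 + 1 : ℕ) : ℝ) - (((s.a - s.d) / 2 : ℕ) : ℝ) :=
    Nat.cast_sub s3
  have fa : ((chsh s).a : ℝ) = (((s.a + s.c) / 2 : ℕ) : ℝ) := rfl
  have fc : ((chsh s).c : ℝ) = (((s.a - s.d) / 2 : ℕ) : ℝ) := rfl
  refine ⟨?_, ?_, ?_⟩
  · rw [ea, fa, abs_le]; constructor <;> linarith only [c1, c2]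
  · rw [eb, fc, abs_le]; constructor <;> linarith only [s1, s2]
  · change _ ≤ (((chsh s).a + (chsh s).b : ℕ) : ℝ)
    rw [Nat.cast_add, ea, fa]; linarith only [c2]

lemma cosh_remainder {c δ : ℝ} (ht : |δ / DR| ≤ 1) :
    |Real.cosh ((c + δ) / DR) * DR - Real.cosh (c / DR) * DR - Real.sinh (c / DR) * δ| ≤
      (Real.cosh (c / DR) * DR) * ((δ / DR) ^ 2 / 2 + |δ / DR| ^ 3 * (2 / 9)) ∧
    |Real.sinh ((c + δ) / DR) * DR - Real.sinh (c / DR) * DR - Real.cosh (c / DR) * δ| ≤
      (Real.cosh (c / DR) * DR) * ((δ / DR) ^ 2 / 2 + |δ / DR| ^ 3 * (2 / 9)) := by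
  have hD := DR_pos
  have h1 := exp_second ht
  have h2 := exp_second (t := -(δ / DR)) (by rwa [abs_neg])
  rw [abs_neg] at h2
  have e0 : (-(δ / DR)) ^ 2 = (δ / DR) ^ 2 := by ring
  rw [e0] at h2
  set B := (δ / DR) ^ 2 / 2 + |δ / DR| ^ 3 * (2 / 9)
  have eE : Real.exp ((c + δ) / DR) = Real.exp (c / DR) * Real.exp (δ / DR) := by
    rw [← Real.exp_add, add_div]
  have eE' : Real.exp (-((c + δ) / DR)) = Real.exp (-(c / DR)) * Real.exp (-(δ / DR)) := by
    rw [← Real.exp_add, add_div]; ring_nf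
  have hδ : δ = (δ / DR) * DR := by field_simp
  have hA := Real.exp_pos (c / DR)
  have hB := Real.exp_pos (-(c / DR))
  constructor
  · have e : Real.cosh ((c + δ) / DR) * DR - Real.cosh (c / DR) * DR - Real.sinh (c / DR) * δ =
        (Real.exp (c / DR) * DR / 2) * (Real.exp (δ / DR) - 1 - δ / DR) +
        (Real.exp (-(c / DR)) * DR / 2) * (Real.exp (-(δ / DR)) - 1 - -(δ / DR)) := by
      rw [Real.cosh_eq, Real.cosh_eq, Real.sinh_eq, eE, eE']
      nth_rewrite 3 [hδ]
      ring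
    rw [e]
    refine (abs_add_le _ _).trans ?_
    rw [abs_mul, abs_mul, abs_of_pos (by positivity : 0 < Real.exp (c / DR) * DR / 2),
      abs_of_pos (by positivity : 0 < Real.exp (-(c / DR)) * DR / 2), Real.cosh_eq]
    have a1 := mul_le_mul_of_nonneg_left h1 (by positivity : 0 ≤ Real.exp (c / DR) * DR / 2)
    have a2 := mul_le_mul_of_nonneg_left h2 (by positivity : 0 ≤ Real.exp (-(c / DR)) * DR / 2)
    refine (add_le_add a1 a2).trans (le_of_eq ?_)
    ring
  · have e : Real.sinh ((c + δ) / DR) * DR - Real.sinh (c / DR) * DR - Real.cosh (c / DR) * δ =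
        (Real.exp (c / DR) * DR / 2) * (Real.exp (δ / DR) - 1 - δ / DR) +
        -((Real.exp (-(c / DR)) * DR / 2) * (Real.exp (-(δ / DR)) - 1 - -(δ / DR))) := by
      rw [Real.cosh_eq, Real.sinh_eq, Real.sinh_eq, eE, eE']
      nth_rewrite 3 [hδ]
      ring
    rw [e]
    refine (abs_add_le _ _).trans ?_
    rw [abs_neg, abs_mul, abs_mul, abs_of_pos (by positivity : 0 < Real.exp (c / DR) * DR / 2),
      abs_of_pos (by positivity : 0 < Real.exp (-(c / DR)) * DR / 2), Real.cosh_eq]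
    have a1 := mul_le_mul_of_nonneg_left h1 (by positivity : 0 ≤ Real.exp (c / DR) * DR / 2)
    have a2 := mul_le_mul_of_nonneg_left h2 (by positivity : 0 ≤ Real.exp (-(c / DR)) * DR / 2)
    refine (add_le_add a1 a2).trans (le_of_eq ?_)
    ring

/-- common part of `cosh` and `sinh`; `b = true` for `cosh` -/
def hyp (b : Bool) (a : A) : Option A :=
  let n := a.nf
  let m := Nat.add n.p n.q
  let T := n.tot
  let s := ex4 m
  let h := chsh s
  let k := k2e (Nat.add h.a h.b) T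
  cond (Nat.ble m 1099511627776) (cond (Nat.ble 1 s.a) (cond (Nat.ble T 68719476736)
    (cond (Nat.beq n.q 0)
      (cond b (some (n.app h.a 0 h.b h.c 0 h.d k)) (some (n.app h.c 0 h.d h.a 0 h.b k)))
      (cond b (some (n.app h.a 0 h.b 0 h.c h.d k)) (some (n.app 0 h.c h.d h.a 0 h.b k))))
      none) none) none

lemma Encl.hyp {a c : A} {b : Bool} {ε : ℕ → ℝ} {x : ℝ} (hε : ∀ i, |ε i| ≤ 1) (hx : a.Encl ε x)
    (h : a.hyp b = some c) : c.Encl ε (cond b (Real.cosh x) (Real.sinh x)) := by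
  have hD := DR_pos
  have hn := nf_normal a
  have hx := hx.nf
  unfold A.hyp at h
  set n := a.nf
  simp only at h
  rcases h1 : Nat.ble (Nat.add n.p n.q) 1099511627776 with _ | _
  · rw [h1] at h; exact absurd h (by simp)
  rw [h1, cond_true] at h
  rcases h2 : Nat.ble 1 (ex4 (Nat.add n.p n.q)).a with _ | _
  · rw [h2] at h; exact absurd h (by simp)
  rw [h2, cond_true] at h
  rcases h3 : Nat.ble n.tot 68719476736 with _ | _
  · rw [h3] at h; exact absurd h (by simp)
  rw [h3, cond_true] at h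
  have hm : (((Nat.add n.p n.q : ℕ)) : ℝ) ≤ 16 * DR := by
    have := Nat.le_of_ble_eq_true h1
    have h16 : ((1099511627776 : ℕ) : ℝ) = 16 * DR := by unfold DR; norm_num
    rw [← h16]; exact_mod_cast this
  have hlo : 0 < expLo (Nat.add n.p n.q) := Nat.le_of_ble_eq_true h2
  have hT : (n.tot : ℝ) ≤ DR := by
    rw [← DN_cast]; exact_mod_cast Nat.le_of_ble_eq_true h3
  obtain ⟨g1, g2, g3⟩ := chsh_good (by positivity) (ex4_good hm hlo)
  have htt : ∀ δ : ℝ, |δ| ≤ (n.tot : ℝ) → |δ / DR| ≤ 1 := by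
    intro δ hδ
    rw [abs_div, abs_of_pos hD, div_le_one hD]; exact hδ.trans hT
  set s := ex4 (Nat.add n.p n.q)
  rcases hq : Nat.beq n.q 0 with _ | _
  · rw [hq, cond_false] at h
    have hq0 : n.q ≠ 0 := fun h0 => by rw [h0] at hq; exact absurd hq (by decide)
    have hp : n.p = 0 := hn.resolve_right hq0
    have e : ((Nat.add n.p n.q : ℕ) : ℝ) / DR = -(((n.p : ℝ) - n.q) / DR) := by
      change (((n.p + n.q : ℕ) : ℝ) / DR) = _
      rw [hp]; push_cast; ring
    rw [e, Real.cosh_neg] at g1 g3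
    rw [e, Real.sinh_neg] at g2
    have g2' : |Real.sinh (((n.p : ℝ) - n.q) / DR) * DR - (((0 : ℕ) : ℝ) - ((chsh s).c : ℝ))| ≤
        (chsh s).d := by
      rw [← abs_neg]; convert g2 using 2; push_cast; ring
    cases b
    · rw [cond_false] at h ⊢
      have h := Option.some.inj h
      rw [← h]
      refine hx.app hε Real.sinh (Real.cosh (((n.p : ℝ) - n.q) / DR)) g2' (by simpa using g1) ?_
      intro δ hδ
      exact (cosh_remainder (htt δ hδ)).2.trans (k2e_spec (by positivity) g3 hδ)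
    · rw [cond_true] at h ⊢
      have h := Option.some.inj h
      rw [← h]
      refine hx.app hε Real.cosh (Real.sinh (((n.p : ℝ) - n.q) / DR)) (by simpa using g1) g2' ?_
      intro δ hδ
      exact (cosh_remainder (htt δ hδ)).1.trans (k2e_spec (by positivity) g3 hδ)
  · rw [hq, cond_true] at h
    have hq0 : n.q = 0 := Nat.eq_of_beq_eq_true hq
    have e : (((Nat.add n.p n.q : ℕ) : ℝ) / DR) = ((n.p : ℝ) - n.q) / DR := by
      change (((n.p + n.q : ℕ) : ℝ) / DR) = _
      rw [hq0]; push_cast; ring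
    rw [e] at g1 g2 g3
    cases b
    · rw [cond_false] at h ⊢
      have h := Option.some.inj h
      rw [← h]
      refine hx.app hε Real.sinh (Real.cosh (((n.p : ℝ) - n.q) / DR)) (by simpa using g2)
        (by simpa using g1) ?_
      intro δ hδ
      exact (cosh_remainder (htt δ hδ)).2.trans (k2e_spec (by positivity) g3 hδ)
    · rw [cond_true] at h ⊢
      have h := Option.some.inj h
      rw [← h]
      refine hx.app hε Real.cosh (Real.sinh (((n.p : ℝ) - n.q) / DR)) (by simpa using g1)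
        (by simpa using g2) ?_
      intro δ hδ
      exact (cosh_remainder (htt δ hδ)).1.trans (k2e_spec (by positivity) g3 hδ)

end A

end Pool.Agent.Work.NumI
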