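import Mathlib
import Pool.Agent.Work.NumI.Exp

/-!
# Verified numerics for the kernel, part 5: `log` and the inverse
-/

namespace Pool.Agent.Work.NumI

open Finset

/-- `∑ W ^ i / (2 i + 1)`, numerator over `45045 * S ^ 12`, `S = 2 ^ 40`, `W = U ^ 2` -/
def logN (W : ℕ) : ℕ :=
  Nat.add 140619163448983870062584047216033176242445603336343625490450725246324869975136342358319188412494995840894404112363761328325454064473540811621840977920 (Nat.mul W (
  Nat.add 38772481919474932473683626367625223293060532479330791045152350238457824044582870537364124979501269539010086127170803613040640 (Nat.mul W (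
  Nat.add 19243107206611478932296750550881495000455765041911084804452897844870377509557790715156865441211613184 (Nat.mul W (
  Nat.add 11369660861848903160868519417280680649349858876394607995512535905318008258560 (Nat.mul W (
  Nat.add 7314815694841169105609442587744996513377942377594880 (Nat.mul W (
  Nat.add 4950551231321906470421790720 (Nat.mul W 3465)))))))))))

/-- lower bound of `2 artanh (a / b) * D` -/
def logC (a b : ℕ) : ℕ :=
  let U := Nat.div (Nat.mul 1099511627776 a) b
  Nat.div (Nat.mul (Nat.mul 2 U) (logN (Nat.mul U U))) 2249906615183741921001344755456530819879129653381498007847211603941197919602181477733107014599919933454310465797820181253207265031576652985949455646720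

lemma artanh_bounds {v : ℝ} (h0 : 0 ≤ v) (h1 : v ≤ 3 / 17) :
    2 * (v + v ^ 3 / 3 + v ^ 5 / 5 + v ^ 7 / 7 + v ^ 9 / 9 + v ^ 11 / 11 + v ^ 13 / 13) ≤
      Real.log ((1 + v) / (1 - v)) ∧
    Real.log ((1 + v) / (1 - v)) ≤
      2 * (v + v ^ 3 / 3 + v ^ 5 / 5 + v ^ 7 / 7 + v ^ 9 / 9 + v ^ 11 / 11 + v ^ 13 / 13) +
      1 / 70000000000 := by
  have k1 := Real.sum_range_le_log_div h0 (by linarith only [h1] : v < 1) 7
  have k2 := Real.log_div_le_sum_range_add h0 (by linarith only [h1] : v < 1) 7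
  have e : ∑ i ∈ range 7, v ^ (2 * i + 1) / (2 * (i : ℝ) + 1) =
      (v + v ^ 3 / 3 + v ^ 5 / 5 + v ^ 7 / 7 + v ^ 9 / 9 + v ^ 11 / 11 + v ^ 13 / 13) := by
    simp only [sum_range_succ, sum_range_zero]
    norm_num
  rw [e] at k1 k2
  have h3 : v ^ (2 * 7 + 1) / (1 - v ^ 2) ≤ 1 / 140000000000 := by
    have a1 : v ^ (2 * 7 + 1) ≤ (3 / 17 : ℝ) ^ (2 * 7 + 1) := by gcongr
    have a2 : v ^ 2 ≤ (3 / 17 : ℝ) ^ 2 := by gcongr
    rw [div_le_iff₀ (by nlinarith only [a2])]
    nlinarith only [a1, a2]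
  constructor <;> linarith only [k1, k2, h3]

lemma logN_cast (U : ℕ) :
    ((2 * U * logN (U * U) : ℕ) : ℝ) / ((2249906615183741921001344755456530819879129653381498007847211603941197919602181477733107014599919933454310465797820181253207265031576652985949455646720 : ℕ) : ℝ) =
      2 * (((U : ℝ) / (16 * DR)) + ((U : ℝ) / (16 * DR)) ^ 3 / 3 + ((U : ℝ) / (16 * DR)) ^ 5 / 5 +
        ((U : ℝ) / (16 * DR)) ^ 7 / 7 + ((U : ℝ) / (16 * DR)) ^ 9 / 9 +
        ((U : ℝ) / (16 * DR)) ^ 11 / 11 + ((U : ℝ) / (16 * DR)) ^ 13 / 13) * DR := by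
  have e : logN (U * U) = 140619163448983870062584047216033176242445603336343625490450725246324869975136342358319188412494995840894404112363761328325454064473540811621840977920 + U * U * (38772481919474932473683626367625223293060532479330791045152350238457824044582870537364124979501269539010086127170803613040640 + U * U * (19243107206611478932296750550881495000455765041911084804452897844870377509557790715156865441211613184 + U * U * (11369660861848903160868519417280680649349858876394607995512535905318008258560 + U * U * (7314815694841169105609442587744996513377942377594880 + U * U * (4950551231321906470421790720 + U * U * 3465))))) := rfl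
  rw [e]
  unfold DR
  push_cast
  field_simp
  ring

lemma logC_spec {a b : ℕ} (hb : 0 < b) (hab : 17 * a ≤ 3 * b) :
    (logC a b : ℝ) ≤ Real.log (((b : ℝ) + a) / (b - a)) * DR ∧
    Real.log (((b : ℝ) + a) / (b - a)) * DR ≤ (logC a b : ℝ) + 3 := by
  have hD := DR_pos
  have hb' : (0 : ℝ) < b := by exact_mod_cast hb
  have ha' : (0 : ℝ) ≤ a := Nat.cast_nonneg _
  have hab' : 17 * (a : ℝ) ≤ 3 * b := by exact_mod_cast hab
  set u : ℝ := (a : ℝ) / b with hu
  have hu0 : 0 ≤ u := by rw [hu]; positivity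
  have hu1 : u ≤ 3 / 17 := by rw [hu, div_le_iff₀ hb']; linarith only [hab']
  have hS : ((1099511627776 : ℕ) : ℝ) = 16 * DR := by unfold DR; norm_num
  have q1 := ndiv_le (1099511627776 * a) b
  have q2 := lt_ndiv (1099511627776 * a) hb
  set U := 1099511627776 * a / b with hU
  have hq : ((1099511627776 * a : ℕ) : ℝ) / (b : ℝ) = u * (16 * DR) := by
    rw [Nat.cast_mul, hS, hu]; ring
  rw [hq] at q1 q2
  set v : ℝ := (U : ℝ) / (16 * DR) with hv
  have hv0 : 0 ≤ v := by rw [hv]; positivity
  have hvu : v ≤ u := by rw [hv, div_le_iff₀ (by positivity)]; exact q1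
  have huv : u ≤ v + 1 / (16 * DR) := by
    rw [hv, ← add_div, le_div_iff₀ (by positivity)]; exact q2.le
  have hv1 := hvu.trans hu1
  obtain ⟨k1, k2⟩ := artanh_bounds hv0 hv1
  have n1 := ndiv_le (2 * U * logN (U * U)) 2249906615183741921001344755456530819879129653381498007847211603941197919602181477733107014599919933454310465797820181253207265031576652985949455646720
  have n2 := lt_ndiv (2 * U * logN (U * U)) (b := 2249906615183741921001344755456530819879129653381498007847211603941197919602181477733107014599919933454310465797820181253207265031576652985949455646720) (by norm_num)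
  rw [logN_cast, ← hv] at n1 n2
  have hl : logC a b = 2 * U * logN (U * U) / 2249906615183741921001344755456530819879129653381498007847211603941197919602181477733107014599919933454310465797820181253207265031576652985949455646720 := rfl
  rw [← hl] at n1 n2
  set P := 2 * (v + v ^ 3 / 3 + v ^ 5 / 5 + v ^ 7 / 7 + v ^ 9 / 9 + v ^ 11 / 11 + v ^ 13 / 13)
  have hba : ((b : ℝ) + a) / (b - a) = (1 + u) / (1 - u) := by
    have : (b : ℝ) - a ≠ 0 := by nlinarith only [hb', hab']
    have h1u : 1 - u ≠ 0 := by linarith only [hu1]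
    rw [div_eq_div_iff this h1u, hu]
    field_simp
  rw [hba]
  have hpos : 0 < (1 + v) / (1 - v) := div_pos (by linarith only [hv0]) (by linarith only [hu1, hvu])
  have hmono : Real.log ((1 + v) / (1 - v)) ≤ Real.log ((1 + u) / (1 - u)) := by
    apply Real.log_le_log hpos
    apply div_le_div₀ (by linarith only [hu0]) (by linarith only [hvu]) (by linarith only [hu1]) (by linarith only [hvu])
  have hup : Real.log ((1 + u) / (1 - u)) ≤ Real.log ((1 + v) / (1 - v)) + 3 * (u - v) := by
    have hposu : 0 < (1 + u) / (1 - u) := div_pos (by linarith only [hu0]) (by linarith only [hu1])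
    have h5 : Real.log ((1 + u) / (1 - u)) - Real.log ((1 + v) / (1 - v)) =
        Real.log (((1 + u) / (1 - u)) / ((1 + v) / (1 - v))) := (Real.log_div hposu.ne' hpos.ne').symm
    have h6 := Real.log_le_sub_one_of_pos (div_pos hposu hpos)
    have h7 : ((1 + u) / (1 - u)) / ((1 + v) / (1 - v)) - 1 ≤ 3 * (u - v) := by
      have d1 : 0 < 1 - u := by linarith only [hu1]
      have d2 : 0 < 1 + v := by linarith only [hv0]
      have d3 : 0 < 1 - v := by linarith only [hu1, hvu]
      have e1 : ((1 + u) / (1 - u)) / ((1 + v) / (1 - v)) - 1 =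
          2 * (u - v) / ((1 - u) * (1 + v)) := by
        field_simp
        ring
      rw [e1, div_le_iff₀ (by positivity)]
      have d4 : (2 / 3 : ℝ) ≤ (1 - u) * (1 + v) := by nlinarith only [hu0, hu1, hv0, hvu, d1]
      nlinarith only [hvu, d4]
    linarith only [h5, h6, h7]
  constructor
  · refine n1.trans ?_
    gcongr
    exact k1.trans hmono
  · have h8 : 3 * (u - v) * DR ≤ 1 / 5 := by
      have : u - v ≤ 1 / (16 * DR) := by linarith only [huv]
      calc 3 * (u - v) * DR ≤ 3 * (1 / (16 * DR)) * DR := by gcongr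
        _ = 3 / 16 := by field_simp
        _ ≤ 1 / 5 := by norm_num
    have h9 : (1 : ℝ) / 70000000000 * DR ≤ 1 := by unfold DR; norm_num
    have h10 : Real.log ((1 + u) / (1 - u)) * DR ≤ (P + 1 / 70000000000 + 3 * (u - v)) * DR := by
      gcongr
      linarith only [k2, hup]
    linarith only [n2, h8, h9, h10]

/-- bounds of `log 2` -/
lemma log_two_bounds : (195103586505167 : ℝ) ≤ Real.log 2 * SR ∧ Real.log 2 * SR ≤ 195103586505169 := by
  have k1 := Real.sum_range_le_log_div (x := 1 / 3) (by norm_num) (by norm_num) 16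
  have k2 := Real.log_div_le_sum_range_add (x := 1 / 3) (by norm_num) (by norm_num) 16
  have e : ((1 : ℝ) + 1 / 3) / (1 - 1 / 3) = 2 := by norm_num
  rw [e] at k1 k2
  simp only [sum_range_succ, sum_range_zero] at k1 k2
  unfold SR
  norm_num at k1 k2
  constructor
  · linarith only [k1]
  · linarith only [k2]

/-- one step of the binary search of `lg2` -/
def l2s (k P m e : ℕ) (c : ℕ → ℕ → ℕ) : ℕ :=
  c (Nat.shiftRight m (Nat.mul k (Nat.sub 1 (Nat.sub P m))))
    (Nat.add e (Nat.mul k (Nat.sub 1 (Nat.sub P m))))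

/-- `Nat.log2` for numbers below `2 ^ 256` (the kernel evaluates `Nat.log2` slowly) -/
def lg2 (m : ℕ) : ℕ :=
  l2s 128 340282366920938463463374607431768211456 m 0 fun m e =>
  l2s 64 18446744073709551616 m e fun m e =>
  l2s 32 4294967296 m e fun m e =>
  l2s 16 65536 m e fun m e =>
  l2s 8 256 m e fun m e =>
  l2s 4 16 m e fun m e =>
  l2s 2 4 m e fun m e =>
  l2s 1 2 m e fun _ e => e

lemma l2s_spec {M : ℕ} (k : ℕ) {P m e : ℕ} {c : ℕ → ℕ → ℕ} {r : ℕ} (hP : P = 2 ^ k)
    (h0 : m = M / 2 ^ e) (h1 : 1 ≤ m) (h2 : m < 2 ^ (2 * k))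
    (hc : ∀ m' e', m' = M / 2 ^ e' → 1 ≤ m' → m' < 2 ^ k → c m' e' = r) :
    l2s k P m e c = r := by
  unfold l2s
  rcases lt_or_ge m P with hb | hb
  · have e1 : Nat.mul k (Nat.sub 1 (Nat.sub P m)) = 0 := by
      change k * (1 - (P - m)) = 0
      have : 1 - (P - m) = 0 := by omega
      rw [this, mul_zero]
    rw [e1]
    exact hc m e h0 h1 (hP ▸ hb)
  · have e1 : Nat.mul k (Nat.sub 1 (Nat.sub P m)) = k := by
      change k * (1 - (P - m)) = k
      have : 1 - (P - m) = 1 := by omega
      rw [this, mul_one]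
    rw [e1]
    have h3 : 2 ^ k ≤ m := hP ▸ hb
    have h4 : Nat.shiftRight m k = m / 2 ^ k := Nat.shiftRight_eq_div_pow m k
    refine hc _ _ ?_ ?_ ?_
    · rw [h4, h0, Nat.div_div_eq_div_mul, ← pow_add]
      rfl
    · rw [h4]
      exact (Nat.one_le_div_iff (by positivity)).2 h3
    · rw [h4, Nat.div_lt_iff_lt_mul (by positivity), ← pow_add, ← two_mul]
      exact h2

lemma lg2_eq {m : ℕ} (h0 : m ≠ 0) (h : m < 2 ^ 256) : lg2 m = Nat.log2 m := by
  unfold lg2
  refine l2s_spec (M := m) 128 (by norm_num) (by simp) (Nat.one_le_iff_ne_zero.2 h0) h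
    fun m1 e1 a1 b1 c1 => ?_
  refine l2s_spec (M := m) 64 (by norm_num) a1 b1 c1 fun m2 e2 a2 b2 c2 => ?_
  refine l2s_spec (M := m) 32 (by norm_num) a2 b2 c2 fun m3 e3 a3 b3 c3 => ?_
  refine l2s_spec (M := m) 16 (by norm_num) a3 b3 c3 fun m4 e4 a4 b4 c4 => ?_
  refine l2s_spec (M := m) 8 (by norm_num) a4 b4 c4 fun m5 e5 a5 b5 c5 => ?_
  refine l2s_spec (M := m) 4 (by norm_num) a5 b5 c5 fun m6 e6 a6 b6 c6 => ?_
  refine l2s_spec (M := m) 2 (by norm_num) a6 b6 c6 fun m7 e7 a7 b7 c7 => ?_
  refine l2s_spec (M := m) 1 (by norm_num) a7 b7 c7 fun m8 e a8 b8 c8 => ?_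
  have h8 : m / 2 ^ e = 1 := by omega
  have h9 : 2 ^ e ≤ m := (Nat.one_le_div_iff (by positivity)).1 h8.ge
  have h10 : m < 2 ^ (e + 1) := by
    have h11 : m / 2 ^ e < 2 := by omega
    rw [Nat.div_lt_iff_lt_mul (by positivity)] at h11
    rw [pow_succ]
    omega
  refine le_antisymm ((Nat.le_log2 h0).2 h9) ?_
  have := (Nat.log2_lt h0).2 h10
  omega

attribute [irreducible] lg2

/-- signed `(p - q)` with `|log (m / D) * D - (p - q)| ≤ 6` -/
def logM (m : ℕ) : ℕ × ℕ :=
  let e := lg2 m
  let p := Nat.pow 2 e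
  cnd (Nat.ble (Nat.mul 7 p) (Nat.mul 5 m))
    (let V := logC (Nat.sub (Nat.mul 2 p) m) (Nat.add (Nat.mul 2 p) m)
     let L := Nat.div (Nat.mul (Nat.add e 1) 195103586505167) 4096
     (Nat.sub L (Nat.add V 1714777615768), Nat.sub (Nat.add V 1714777615768) L))
    (let V := logC (Nat.sub m p) (Nat.add m p)
     let L := Nat.add (Nat.div (Nat.mul e 195103586505167) 4096) V
     (Nat.sub L 1714777615768, Nat.sub 1714777615768 L))


lemma logM_spec {m : ℕ} (hm : 0 < m) (hm2 : m < 2 ^ 200) :
    |Real.log ((m : ℝ) / DR) * DR - (((logM m).1 : ℝ) - (logM m).2)| ≤ 6 := by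
  have hD := DR_pos
  have hS := SR_pos
  have h0 : m ≠ 0 := hm.ne'
  have h1 := Nat.log2_self_le h0
  have h2 := Nat.lt_log2_self (n := m)
  have he400 : Nat.log2 m < 400 := lt_trans ((Nat.log2_lt h0).2 hm2) (by norm_num)
  unfold logM
  simp only [lg2_eq h0 (lt_trans hm2 (by norm_num)), cnd_eq]
  set e := Nat.log2 m
  have hpow : Nat.pow 2 e = 2 ^ e := rfl
  rw [hpow]
  set p : ℕ := 2 ^ e with hp
  have hp0 : 0 < p := by positivity
  have hp0' : (0 : ℝ) < p := by exact_mod_cast hp0
  have hm' : (0 : ℝ) < m := by exact_mod_cast hm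
  have hm2p : m < 2 * p := by rw [pow_succ] at h2; omega
  have hpr : (p : ℝ) = 2 ^ e := by rw [hp]; push_cast; rfl
  obtain ⟨l1, l2⟩ := log_two_bounds
  have hK : |36 * (Real.log 2 * DR) - 1714777615768| ≤ 3 / 2 := by
    rw [SR_DR] at l1 l2
    rw [abs_le]; constructor <;> linarith only [l1, l2]
  have hE : ∀ k : ℕ, k ≤ 400 →
      |(k : ℝ) * (Real.log 2 * DR) - ((k * 195103586505167 / 4096 : ℕ) : ℝ)| ≤ 3 / 2 := by
    intro k hk
    have a1 := ndiv_le (k * 195103586505167) 4096
    have a2 := lt_ndiv (k * 195103586505167) (b := 4096) (by norm_num)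
    have hk' : (k : ℝ) ≤ 400 := by exact_mod_cast hk
    have hk0 : (0 : ℝ) ≤ k := Nat.cast_nonneg _
    push_cast at a1 a2
    rw [SR_DR] at l1 l2
    have b1 : (k : ℝ) * (Real.log 2 * DR) ≤ k * 195103586505169 / 4096 := by
      rw [le_div_iff₀ (by norm_num)]; nlinarith only [l2]
    have b2 : (k : ℝ) * 195103586505167 / 4096 ≤ (k : ℝ) * (Real.log 2 * DR) := by
      rw [div_le_iff₀ (by norm_num)]; nlinarith only [l1]
    rw [abs_le]; constructor <;> linarith only [a1, b2, hk', a2, b1]
  have h36 : DR = 2 ^ 36 := by unfold DR; norm_num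
  rcases hb : Nat.ble (Nat.mul 7 p) (Nat.mul 5 m) with _ | _
  · simp only [cond_false]
    have h7 : 5 * m < 7 * p := by
      by_contra hc
      have := Nat.ble_eq_true_of_le (not_lt.1 hc)
      change Nat.ble (7 * p) (5 * m) = false at hb
      rw [hb] at this; exact absurd this (by decide)
    have hsp : ((m - p : ℕ) : ℝ) = m - p := Nat.cast_sub h1
    obtain ⟨c1, c2⟩ := logC_spec (a := m - p) (b := m + p) (by omega) (by omega)
    have hlog : Real.log (((m + p : ℕ) + ((m - p : ℕ) : ℝ)) / (((m + p : ℕ) : ℝ) - ((m - p : ℕ) : ℝ))) =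
        Real.log m - e * Real.log 2 := by
      rw [hsp]
      push_cast
      have e1 : ((m : ℝ) + p + (m - p)) / (m + p - (m - p)) = m / p := by
        have : (m : ℝ) + p - (m - p) = 2 * p := by ring
        rw [this]
        have : (m : ℝ) + p + (m - p) = 2 * m := by ring
        rw [this, mul_div_mul_left _ _ (by norm_num)]
      rw [e1, Real.log_div hm'.ne' hp0'.ne', hpr, Real.log_pow]
    rw [hlog] at c1 c2
    have c : Real.log ((m : ℝ) / DR) * DR = (Real.log m - e * Real.log 2) * DR +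
        e * (Real.log 2 * DR) - 36 * (Real.log 2 * DR) := by
      rw [Real.log_div hm'.ne' hD.ne', h36, Real.log_pow]
      push_cast; ring
    have k := sub_sub_cast (e * 195103586505167 / 4096 + logC (m - p) (m + p)) 1714777615768
    change |_ - (((e * 195103586505167 / 4096 + logC (m - p) (m + p) - 1714777615768 : ℕ) : ℝ) -
      ((1714777615768 - (e * 195103586505167 / 4096 + logC (m - p) (m + p)) : ℕ) : ℝ))| ≤ _
    rw [k, c]
    have hEe := abs_le.1 (hE e he400.le)
    have hKK := abs_le.1 hK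
    push_cast
    rw [abs_le]
    constructor
    · linarith only [c1, hEe, hKK, hEe.1, hEe.2, hKK.1, hKK.2]
    · linarith only [c2, hEe, hKK, hEe.1, hEe.2, hKK.1, hKK.2]
  · simp only [cond_true]
    have h7 : 7 * p ≤ 5 * m := Nat.le_of_ble_eq_true hb
    have hsp : ((2 * p - m : ℕ) : ℝ) = 2 * p - m := by rw [Nat.cast_sub hm2p.le]; push_cast; ring
    obtain ⟨c1, c2⟩ := logC_spec (a := 2 * p - m) (b := 2 * p + m) (by omega) (by omega)
    have hlog : Real.log (((2 * p + m : ℕ) + ((2 * p - m : ℕ) : ℝ)) /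
        (((2 * p + m : ℕ) : ℝ) - ((2 * p - m : ℕ) : ℝ))) =
        ((e + 1 : ℕ) : ℝ) * Real.log 2 - Real.log m := by
      rw [hsp]
      push_cast
      have e1 : (2 * (p : ℝ) + m + (2 * p - m)) / (2 * p + m - (2 * p - m)) = 2 * p / m := by
        have : 2 * (p : ℝ) + m - (2 * p - m) = 2 * m := by ring
        rw [this]
        have : 2 * (p : ℝ) + m + (2 * p - m) = 2 * (2 * p) := by ring
        rw [this, mul_div_mul_left _ _ (by norm_num)]
      rw [e1, Real.log_div (by positivity) hm'.ne', Real.log_mul (by norm_num) hp0'.ne', hpr, Real.log_pow]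
      ring
    rw [hlog] at c1 c2
    have c : Real.log ((m : ℝ) / DR) * DR = -((((e + 1 : ℕ) : ℝ) * Real.log 2 - Real.log m) * DR) +
        ((e + 1 : ℕ) : ℝ) * (Real.log 2 * DR) - 36 * (Real.log 2 * DR) := by
      rw [Real.log_div hm'.ne' hD.ne', h36, Real.log_pow]
      push_cast; ring
    have k := sub_sub_cast ((e + 1) * 195103586505167 / 4096)
      (logC (2 * p - m) (2 * p + m) + 1714777615768)
    change |_ - ((((e + 1) * 195103586505167 / 4096 - (logC (2 * p - m) (2 * p + m) + 1714777615768) : ℕ) : ℝ) -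
      (((logC (2 * p - m) (2 * p + m) + 1714777615768) - (e + 1) * 195103586505167 / 4096 : ℕ) : ℝ))| ≤ _
    rw [k, c]
    have hEe := abs_le.1 (hE (e + 1) (by omega))
    have hKK := abs_le.1 hK
    push_cast at hEe c1 c2 ⊢
    rw [abs_le]
    constructor
    · linarith only [hKK, hEe, c2, hEe.1, hEe.2, hKK.1, hKK.2]
    · linarith only [hKK, hEe, c1, hEe.1, hEe.2, hKK.1, hKK.2]

/-- the remainder of the logarithm -/
lemma log_second {t : ℝ} (ht : |t| < 1) : |Real.log (1 + t) - t| ≤ t ^ 2 / (2 * (1 - |t|)) := by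
  have h1t : 0 < 1 + t := by have := (abs_lt.1 ht).1; linarith only [this]
  have hup : Real.log (1 + t) ≤ t := by
    have := Real.log_le_sub_one_of_pos h1t
    linarith only [this]
  rw [abs_of_nonpos (by linarith only [hup])]
  rcases le_total 0 t with h | h
  · rw [abs_of_nonneg h] at ht ⊢
    have h2 := Real.le_log_one_add_of_nonneg h
    have h3 : t - 2 * t / (t + 2) ≤ t ^ 2 / (2 * (1 - t)) := by
      have e : t - 2 * t / (t + 2) = t ^ 2 / (t + 2) := by field_simp; ring
      rw [e]
      apply div_le_div_of_nonneg_left (sq_nonneg t) (by linarith only [ht]) (by linarith only [h])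
    linarith only [h2, h3]
  · rw [abs_of_nonpos h] at ht ⊢
    have hs : 0 ≤ Real.log (1 + t)⁻¹ := by
      rw [Real.log_inv]
      linarith only [hup, h]
    have h4 := Real.self_le_sinh_iff.2 hs
    rw [Real.sinh_log (inv_pos.2 h1t), Real.log_inv, inv_inv] at h4
    have e : ((1 + t)⁻¹ - (1 + t)) / 2 + t = t ^ 2 / (2 * (1 - -t)) := by
      have : 1 - -t = 1 + t := by ring
      rw [this]
      field_simp
      ring
    linarith only [h4, e]

namespace A

/-- logarithm of a positive number -/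
def log (a : A) : Option A :=
  let n := a.nf
  let T := n.tot
  let l := logM n.p
  cond (Nat.ble (Nat.add T 1) n.p) (cond (Nat.ble n.p 1267650600228229401496703205376)
    (some (n.app l.1 l.2 6 (Nat.div 4722366482869645213696 n.p) 0 1
      (Nat.add (Nat.div (Nat.mul 68719476736 (Nat.mul T T)) (Nat.mul (Nat.mul 2 n.p) (Nat.sub n.p T))) 1))) none) none

lemma Encl.log {a b : A} {ε : ℕ → ℝ} {x : ℝ} (hε : ∀ i, |ε i| ≤ 1) (hx : a.Encl ε x)
    (h : a.log = some b) : b.Encl ε (Real.log x) := by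
  have hD := DR_pos
  have hn := nf_normal a
  have hx := hx.nf
  unfold A.log at h
  set n := a.nf
  simp only at h
  rcases h1 : Nat.ble (Nat.add n.tot 1) n.p with _ | _
  · rw [h1] at h; exact absurd h (by simp)
  rw [h1, cond_true] at h
  rcases h2 : Nat.ble n.p 1267650600228229401496703205376 with _ | _
  · rw [h2] at h; exact absurd h (by simp)
  rw [h2, cond_true] at h
  have h := Option.some.inj h
  rw [← h]
  have hTp : n.tot < n.p := Nat.le_of_ble_eq_true h1
  have hp0 : 0 < n.p := by omega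
  have hq : n.q = 0 := hn.resolve_left (by omega)
  have hpB : n.p < 2 ^ 200 := lt_of_le_of_lt (Nat.le_of_ble_eq_true h2) (by norm_num)
  have hp0' : (0 : ℝ) < n.p := by exact_mod_cast hp0
  have hTp' : (n.tot : ℝ) < n.p := by exact_mod_cast hTp
  have hc : ((n.p : ℝ) - n.q) = n.p := by rw [hq]; simp
  refine hx.app hε Real.log (DR / n.p) ?_ ?_ ?_
  · rw [hc]
    exact_mod_cast logM_spec hp0 hpB
  · have k1 := ndiv_le 4722366482869645213696 n.p
    have k2 := lt_ndiv 4722366482869645213696 hp0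
    have hDD : ((4722366482869645213696 : ℕ) : ℝ) = DR * DR := by unfold DR; norm_num
    rw [hDD] at k1 k2
    have e : DR / n.p * DR = DR * DR / n.p := by ring
    change |DR / n.p * DR - (((4722366482869645213696 / n.p : ℕ) : ℝ) - ((0 : ℕ) : ℝ))| ≤ ((1 : ℕ) : ℝ)
    rw [e, Nat.cast_zero, sub_zero, Nat.cast_one, abs_le]
    constructor <;> linarith only [k1, k2]
  · intro δ hδ
    rw [hc]
    have ht : |δ / n.p| < 1 := by
      rw [abs_div, abs_of_pos hp0', div_lt_one hp0']; linarith only [hTp', hδ]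
    have h3 := log_second ht
    have h1t : 0 < 1 + δ / n.p := by have := (abs_lt.1 ht).1; linarith only [this]
    have e : Real.log (((n.p : ℝ) + δ) / DR) * DR - Real.log ((n.p : ℝ) / DR) * DR - DR / n.p * δ =
        (Real.log (1 + δ / n.p) - δ / n.p) * DR := by
      have e1 : ((n.p : ℝ) + δ) / DR = (n.p / DR) * (1 + δ / n.p) := by field_simp
      rw [e1, Real.log_mul (by positivity) h1t.ne']
      ring
    rw [e, abs_mul, abs_of_pos hD]
    have k := lt_ndiv (68719476736 * (n.tot * n.tot)) (b := 2 * n.p * (n.p - n.tot))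
      (Nat.mul_pos (by omega) (by omega))
    change _ ≤ ((68719476736 * (n.tot * n.tot) / (2 * n.p * (n.p - n.tot)) + 1 : ℕ) : ℝ)
    have hsub : ((n.p - n.tot : ℕ) : ℝ) = n.p - n.tot := Nat.cast_sub hTp.le
    rw [Nat.cast_add, Nat.cast_one]
    refine le_trans ?_ k.le
    rw [Nat.cast_mul, DN_cast, Nat.cast_mul, Nat.cast_mul, Nat.cast_mul, hsub]
    have hd : 0 < (n.p : ℝ) - n.tot := by linarith only [hTp']
    have hT0 : (0 : ℝ) ≤ n.tot := Nat.cast_nonneg _
    calc |Real.log (1 + δ / n.p) - δ / n.p| * DR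
        ≤ (δ / n.p) ^ 2 / (2 * (1 - |δ / n.p|)) * DR := by gcongr
      _ ≤ ((n.tot : ℝ) / n.p) ^ 2 / (2 * (1 - (n.tot : ℝ) / n.p)) * DR := by
          have g1 : |δ / n.p| ≤ (n.tot : ℝ) / n.p := by
            rw [abs_div, abs_of_pos hp0']; gcongr
          have g2 : (δ / n.p) ^ 2 ≤ ((n.tot : ℝ) / n.p) ^ 2 := by
            rw [← sq_abs]; gcongr
          have g3 : 0 < 1 - (n.tot : ℝ) / n.p := by
            rw [sub_pos, div_lt_one hp0']; exact hTp'
          gcongr
      _ = DR * ((n.tot : ℝ) * n.tot) / (((2 : ℕ) : ℝ) * n.p * (n.p - n.tot)) := by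
          push_cast
          field_simp

/-- inverse of a positive number -/
def inv0 (n : A) : Option A :=
  let T := n.tot
  cond (Nat.ble (Nat.add T 1) n.p)
    (some (n.app (Nat.div 4722366482869645213696 n.p) 0 1 0 (Nat.div 324518553658426726783156020576256 (Nat.mul n.p n.p)) 1
      (Nat.add (Nat.div (Nat.mul 4722366482869645213696 (Nat.mul T T)) (Nat.mul (Nat.mul n.p n.p) (Nat.sub n.p T))) 1))) none

lemma Encl.inv0 {n b : A} {ε : ℕ → ℝ} {x : ℝ} (hε : ∀ i, |ε i| ≤ 1) (hx : n.Encl ε x)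
    (hn : n.p = 0 ∨ n.q = 0) (h : n.inv0 = some b) : b.Encl ε (x⁻¹) := by
  have hD := DR_pos
  unfold A.inv0 at h
  simp only at h
  rcases h1 : Nat.ble (Nat.add n.tot 1) n.p with _ | _
  · rw [h1] at h; exact absurd h (by simp)
  rw [h1, cond_true] at h
  have h := Option.some.inj h
  rw [← h]
  have hTp : n.tot < n.p := Nat.le_of_ble_eq_true h1
  have hp0 : 0 < n.p := by omega
  have hq : n.q = 0 := hn.resolve_left (by omega)
  have hp0' : (0 : ℝ) < n.p := by exact_mod_cast hp0
  have hTp' : (n.tot : ℝ) < n.p := by exact_mod_cast hTp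
  have hc : ((n.p : ℝ) - n.q) = n.p := by rw [hq]; simp
  have hDD : ((4722366482869645213696 : ℕ) : ℝ) = DR * DR := by unfold DR; norm_num
  have hDDD : ((324518553658426726783156020576256 : ℕ) : ℝ) = DR * DR * DR := by unfold DR; norm_num
  refine hx.app hε (fun x => x⁻¹) (-(DR * DR / (n.p * n.p))) ?_ ?_ ?_
  · have k1 := ndiv_le 4722366482869645213696 n.p
    have k2 := lt_ndiv 4722366482869645213696 hp0
    rw [hDD] at k1 k2
    have e : (((n.p : ℝ) - n.q) / DR)⁻¹ * DR = DR * DR / n.p := by rw [hc]; field_simp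
    change |(((n.p : ℝ) - n.q) / DR)⁻¹ * DR - (((4722366482869645213696 / n.p : ℕ) : ℝ) - ((0 : ℕ) : ℝ))| ≤
      ((1 : ℕ) : ℝ)
    rw [e, Nat.cast_zero, sub_zero, Nat.cast_one, abs_le]
    constructor <;> linarith only [k1, k2]
  · have k1 := ndiv_le 324518553658426726783156020576256 (n.p * n.p)
    have k2 := lt_ndiv 324518553658426726783156020576256 (b := n.p * n.p) (Nat.mul_pos hp0 hp0)
    rw [hDDD] at k1 k2
    push_cast at k1 k2
    have e : -(DR * DR / (n.p * n.p)) * DR = -(DR * DR * DR / (n.p * n.p)) := by ring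
    change |-(DR * DR / (n.p * n.p)) * DR - (((0 : ℕ) : ℝ) - ((324518553658426726783156020576256 / (n.p * n.p) : ℕ) : ℝ))| ≤ ((1 : ℕ) : ℝ)
    rw [e, Nat.cast_zero, zero_sub, Nat.cast_one, abs_le]
    constructor <;> linarith only [k2, k1]
  · intro δ hδ
    rw [hc]
    have hδ' := abs_le.1 hδ
    have hpd : 0 < (n.p : ℝ) + δ := by linarith only [hTp', hδ', hδ'.1]
    have e : (((n.p : ℝ) + δ) / DR)⁻¹ * DR - ((n.p : ℝ) / DR)⁻¹ * DR - -(DR * DR / (n.p * n.p)) * δ =
        DR * DR * (δ ^ 2) / (n.p * n.p * (n.p + δ)) := by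
      field_simp
      ring
    rw [e, abs_of_nonneg (by positivity)]
    have k := lt_ndiv (4722366482869645213696 * (n.tot * n.tot)) (b := n.p * n.p * (n.p - n.tot))
      (Nat.mul_pos (Nat.mul_pos hp0 hp0) (by omega))
    change _ ≤ ((4722366482869645213696 * (n.tot * n.tot) / (n.p * n.p * (n.p - n.tot)) + 1 : ℕ) : ℝ)
    have hsub : ((n.p - n.tot : ℕ) : ℝ) = n.p - n.tot := Nat.cast_sub hTp.le
    rw [Nat.cast_add, Nat.cast_one]
    refine le_trans ?_ k.le
    rw [Nat.cast_mul, hDD, Nat.cast_mul, Nat.cast_mul, Nat.cast_mul, hsub]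
    have hd : 0 < (n.p : ℝ) - n.tot := by linarith only [hTp']
    have g2 : δ ^ 2 ≤ (n.tot : ℝ) * n.tot := by
      rw [← pow_two, ← sq_abs δ]; gcongr
    have g3 : (n.p : ℝ) - n.tot ≤ n.p + δ := by linarith only [hδ', hδ'.1]
    gcongr

/-- inverse of a nonzero number -/
def inv (a : A) : Option A :=
  let n := a.nf
  cond (Nat.beq n.q 0) n.inv0 (match n.neg.inv0 with
    | some b => some b.neg
    | none => none)

lemma Encl.inv {a b : A} {ε : ℕ → ℝ} {x : ℝ} (hε : ∀ i, |ε i| ≤ 1) (hx : a.Encl ε x)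
    (h : a.inv = some b) : b.Encl ε (x⁻¹) := by
  have hn := nf_normal a
  have hx := hx.nf
  unfold A.inv at h
  set n := a.nf
  simp only at h
  rcases hq : Nat.beq n.q 0 with _ | _
  · rw [hq, cond_false] at h
    rcases h1 : n.neg.inv0 with _ | c
    · rw [h1] at h; exact absurd h (by simp)
    · rw [h1] at h
      have h := Option.some.inj h
      have := (Encl.inv0 hε hx.neg (by exact hn.symm) h1).neg
      rw [← h]
      have e : x⁻¹ = -(-x)⁻¹ := by rw [inv_neg, neg_neg]
      rw [e]
      exact this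
  · rw [hq, cond_true] at h
    exact Encl.inv0 hε hx hn h

end A

end Pool.Agent.Work.NumI
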