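import Mathlib
import Pool.Agent.Work.NumI.LnSin
import Pool.Agent.Work.NumI.Atan
import Pool.Agent.Work.NumI.Log

/-!
# Verified numerics for the kernel, part 9: the nodes `lnA` and `lnB`
-/

namespace Pool.Agent.Work.NumI

lemma piN_err' {r : ℕ} (hr : r ≤ 1152921504606846976) : |Real.pi * r - (piN r : ℝ)| ≤ 2 := by
  have h1 := ndiv_le (314159265358979323846 * r) 100000000000000000000
  have h2 := lt_ndiv (314159265358979323846 * r) (b := 100000000000000000000) (by norm_num)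
  have h3 := Real.pi_gt_d20
  have h4 := Real.pi_lt_d20
  have hr0 : (0 : ℝ) ≤ r := Nat.cast_nonneg _
  have hr' : (r : ℝ) ≤ 1152921504606846976 := by exact_mod_cast hr
  have h5 : (Real.pi - 3.14159265358979323846) * r ≤ 0.00000000000000000001 * 1152921504606846976 := by
    have : Real.pi - 3.14159265358979323846 ≤ 0.00000000000000000001 := by linarith only [h4]
    gcongr
  have h6 : 0 ≤ (Real.pi - 3.14159265358979323846) * r := by
    apply mul_nonneg _ hr0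
    linarith only [h3]
  change |Real.pi * r - ((314159265358979323846 * r / 100000000000000000000 : ℕ) : ℝ)| ≤ 2
  push_cast at h1 h2
  rw [abs_le]
  constructor <;> linarith only [h3, h4, h6, h1, h5, h2]

namespace A

/-- a function of two variables -/
def app2 (X T : A) (r2 T2 F1 F2 e0 S1p S1q e1 S2p S2q e2 k2 : ℕ) : A :=
  let g := G.lin S1p S1q S2p S2q X.g T.g
  ⟨F1, F2, Nat.add (Nat.add (Nat.add (Nat.add e0 (Nat.div (Nat.add (Nat.add (Nat.add (Nat.mul (Nat.add S1p S1q) X.r) (Nat.mul e1 X.tot)) (Nat.mul (Nat.add S2p S2q) r2)) (Nat.mul e2 T2)) 68719476736)) k2) g.len) 1, g⟩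

lemma app2_spec {X T : A} {ε : ℕ → ℝ} {x t : ℝ} (hε : ∀ i, |ε i| ≤ 1) {c1 c2 : ℝ} {r2 T2 : ℕ}
    (hx : |x * DR - (c1 + X.g.ev ε)| ≤ X.r) (hx' : |x * DR - c1| ≤ X.tot)
    (ht : |t * DR - (c2 + T.g.ev ε)| ≤ r2) (ht' : |t * DR - c2| ≤ T2)
    (f : ℝ → ℝ → ℝ) (d1 d2 : ℝ) {F1 F2 e0 S1p S1q e1 S2p S2q e2 k2 : ℕ}
    (h0 : |f (c1 / DR) (c2 / DR) * DR - ((F1 : ℝ) - F2)| ≤ e0)
    (h1 : |d1 * DR - ((S1p : ℝ) - S1q)| ≤ e1) (h2 : |d2 * DR - ((S2p : ℝ) - S2q)| ≤ e2)
    (h3 : ∀ a b : ℝ, |a| ≤ (X.tot : ℝ) → |b| ≤ (T2 : ℝ) →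
      |f ((c1 + a) / DR) ((c2 + b) / DR) * DR - f (c1 / DR) (c2 / DR) * DR - (d1 * a + d2 * b)| ≤ k2) :
    (app2 X T r2 T2 F1 F2 e0 S1p S1q e1 S2p S2q e2 k2).Encl ε (f x t) := by
  have hD := DR_pos
  have k2' := h3 _ _ hx' ht'
  have hxx : (c1 + (x * DR - c1)) / DR = x := by field_simp; ring
  have htt : (c2 + (t * DR - c2)) / DR = t := by field_simp; ring
  rw [hxx, htt] at k2'
  have hl := G.lin_err S1p S1q S2p S2q X.g T.g hε
  have kr := lt_ndiv ((S1p + S1q) * X.r + e1 * X.tot + (S2p + S2q) * r2 + e2 * T2)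
    (b := 68719476736) (by norm_num)
  rw [DN_cast] at kr
  unfold Encl
  change |f x t * DR - ((F1 : ℝ) - F2 + (G.lin S1p S1q S2p S2q X.g T.g).ev ε)| ≤
    ((e0 + ((S1p + S1q) * X.r + e1 * X.tot + (S2p + S2q) * r2 + e2 * T2) / 68719476736 + k2 +
      (G.lin S1p S1q S2p S2q X.g T.g).len + 1 : ℕ) : ℝ)
  push_cast at kr ⊢
  set R := ((((S1p + S1q) * X.r + e1 * X.tot + (S2p + S2q) * r2 + e2 * T2) / 68719476736 : ℕ) : ℝ)
  set L := (G.lin S1p S1q S2p S2q X.g T.g).ev ε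
  set n := ((G.lin S1p S1q S2p S2q X.g T.g).len : ℝ)
  set T1 := (X.tot : ℝ)
  set G1 := X.g.ev ε
  set G2 := T.g.ev ε
  set ρ1 := x * DR - (c1 + G1) with hρ1
  set u1 := x * DR - c1 with hu1
  set ρ2 := t * DR - (c2 + G2) with hρ2
  set u2 := t * DR - c2 with hu2
  set S1 : ℝ := (S1p : ℝ) - S1q with hS1
  set S2 : ℝ := (S2p : ℝ) - S2q with hS2
  have e : f x t * DR - ((F1 : ℝ) - F2 + L) =
      (f x t * DR - f (c1 / DR) (c2 / DR) * DR - (d1 * u1 + d2 * u2)) +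
      (f (c1 / DR) (c2 / DR) * DR - ((F1 : ℝ) - F2)) +
      (-(L - (S1 / DR * G1 + S2 / DR * G2))) +
      ((d1 * DR - S1) * u1 + S1 * ρ1 + ((d2 * DR - S2) * u2 + S2 * ρ2)) / DR := by
    rw [hρ1, hu1, hρ2, hu2]
    field_simp
    ring
  rw [e]
  have m1 : |((d1 * DR - S1) * u1 + S1 * ρ1 + ((d2 * DR - S2) * u2 + S2 * ρ2)) / DR| ≤
      (((S1p : ℝ) + S1q) * X.r + e1 * T1 + (S2p + S2q) * r2 + e2 * T2) / DR := by
    rw [abs_div, abs_of_pos hD]
    gcongr
    have a1 : |(d1 * DR - S1) * u1| ≤ e1 * T1 := by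
      rw [abs_mul]; exact mul_le_mul h1 hx' (abs_nonneg _) (by positivity)
    have a2 : |S1 * ρ1| ≤ ((S1p : ℝ) + S1q) * X.r := by
      rw [abs_mul]; exact mul_le_mul (abs_pq _ _) hx (abs_nonneg _) (by positivity)
    have a3 : |(d2 * DR - S2) * u2| ≤ e2 * T2 := by
      rw [abs_mul]; exact mul_le_mul h2 ht' (abs_nonneg _) (by positivity)
    have a4 : |S2 * ρ2| ≤ ((S2p : ℝ) + S2q) * r2 := by
      rw [abs_mul]; exact mul_le_mul (abs_pq _ _) ht (abs_nonneg _) (by positivity)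
    have b1 := abs_add_le ((d1 * DR - S1) * u1) (S1 * ρ1)
    have b2 := abs_add_le ((d2 * DR - S2) * u2) (S2 * ρ2)
    have b3 := abs_add_le ((d1 * DR - S1) * u1 + S1 * ρ1) ((d2 * DR - S2) * u2 + S2 * ρ2)
    linarith only [a1, a2, a3, a4, b1, b2, b3]
  have m3 : |-(L - (S1 / DR * G1 + S2 / DR * G2))| ≤ n := by rw [abs_neg]; exact hl
  have s1 := abs_add_le ((f x t * DR - f (c1 / DR) (c2 / DR) * DR - (d1 * u1 + d2 * u2)) +
      (f (c1 / DR) (c2 / DR) * DR - ((F1 : ℝ) - F2)) +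
      (-(L - (S1 / DR * G1 + S2 / DR * G2))))
      (((d1 * DR - S1) * u1 + S1 * ρ1 + ((d2 * DR - S2) * u2 + S2 * ρ2)) / DR)
  have s2 := abs_add_three (f x t * DR - f (c1 / DR) (c2 / DR) * DR - (d1 * u1 + d2 * u2))
      (f (c1 / DR) (c2 / DR) * DR - ((F1 : ℝ) - F2))
      (-(L - (S1 / DR * G1 + S2 / DR * G2)))
  linarith only [h0, kr, k2', m1, m3, s1, s2]

end A

/-- quotient estimate -/
lemma quot_err {n N m M en em : ℝ} (hM : |M - m| ≤ em) (hN : |N - n| ≤ en) (hm : em < m) :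
    |N / M - n / m| ≤ (en + |n| / m * em) / (m - em) := by
  have hem : 0 ≤ em := (abs_nonneg _).trans hM
  have hm0 : 0 < m := by linarith only [hm, hem]
  have hMm := (abs_le.1 hM).1
  have hMpos : 0 < M := by linarith only [hm, hMm]
  have e : N / M - n / m = ((N - n) - n / m * (M - m)) / M := by
    field_simp
    ring
  rw [e, abs_div, abs_of_pos hMpos]
  have h1 : |(N - n) - n / m * (M - m)| ≤ en + |n| / m * em := by
    refine (abs_sub _ _).trans ?_
    rw [abs_mul, abs_div, abs_of_pos hm0]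
    gcongr
  have h0 : 0 ≤ en + |n| / m * em := (abs_nonneg _).trans h1
  gcongr
  linarith only [hMm]

/-- basic numbers at the centre -/
structure LS where
  s : ℕ
  cp : ℕ
  cq : ℕ
  sh : ℕ
  esh : ℕ
  ch : ℕ
  ech : ℕ
  m : ℕ

/-- `LS` is correct for the point `(x, t)`, `t ≥ 0` -/
structure LS.Good (l : LS) (x t : ℝ) : Prop where
  s : |Real.sin (Real.pi * x) * DR - l.s| ≤ 4
  c : |Real.cos (Real.pi * x) * DR - ((l.cp : ℝ) - l.cq)| ≤ 4
  n : l.cp = 0 ∨ l.cq = 0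
  sh : |Real.sinh (Real.pi * t) * DR - l.sh| ≤ l.esh
  ch : |Real.cosh (Real.pi * t) * DR - l.ch| ≤ l.ech
  m : Real.pi * t * DR = l.m
  t0 : 0 ≤ t

def lsD (X T : A) : Option LS :=
  let s4 := scS X.p X.q
  let m := piN (Nat.add T.p T.q)
  let h := A.chsh (ex4 m)
  cnd (Nat.ble (Nat.add T.p T.q) 1152921504606846976)
    (cnd (Nat.ble m 1099511627776)
      (cnd (Nat.ble 1 (expLo m))
        (cnd (Nat.ble (Nat.add 9 (Nat.mul 4 X.tot)) s4.sp)
          (some ⟨s4.sp, s4.cp, s4.cq, h.c, h.d, h.a, h.b, m⟩) none) none) none) none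

def LS.M (l : LS) : ℕ := Nat.div (Nat.add (Nat.mul l.s l.s) (Nat.mul l.sh l.sh)) 68719476736
def LS.eM (l : LS) : ℕ := Nat.add 12 (Nat.div (Nat.add (Nat.mul (Nat.mul 2 l.sh) l.esh) (Nat.mul l.esh l.esh)) 68719476736)

lemma abs_mul_sub {a b A B ea eb : ℝ} (ha : |A - a| ≤ ea) (hb : |B - b| ≤ eb) :
    |A * B - a * b| ≤ ea * (|b| + eb) + |a| * eb := by
  have e : A * B - a * b = (A - a) * (b + (B - b)) + a * (B - b) := by ring
  rw [e]
  refine (abs_add_le _ _).trans ?_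
  rw [abs_mul, abs_mul]
  have h1 : |b + (B - b)| ≤ |b| + eb := (abs_add_le _ _).trans (by linarith only [hb])
  have hea : 0 ≤ ea := (abs_nonneg _).trans ha
  gcongr

lemma LS.Good.M {l : LS} {x t : ℝ} (h : l.Good x t) : |MM x t * DR - l.M| ≤ l.eM := by
  have hD := DR_pos
  have h1 := abs_mul_sub h.s h.s
  have h2 := abs_mul_sub h.sh h.sh
  have a1 := ndiv_le (l.s * l.s + l.sh * l.sh) 68719476736
  have a2 := lt_ndiv (l.s * l.s + l.sh * l.sh) (b := 68719476736) (by norm_num)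
  have a3 := lt_ndiv (2 * l.sh * l.esh + l.esh * l.esh) (b := 68719476736) (by norm_num)
  rw [DN_cast] at a1 a2 a3
  have hM : (l.M : ℝ) = (((l.s * l.s + l.sh * l.sh) / 68719476736 : ℕ) : ℝ) := rfl
  have heM : (l.eM : ℝ) = 12 + (((2 * l.sh * l.esh + l.esh * l.esh) / 68719476736 : ℕ) : ℝ) := by
    change ((12 + (2 * l.sh * l.esh + l.esh * l.esh) / 68719476736 : ℕ) : ℝ) = _
    push_cast; ring
  rw [hM, heM]
  push_cast at a1 a2 a3
  set u := (((l.s * l.s + l.sh * l.sh) / 68719476736 : ℕ) : ℝ)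
  set v := (((2 * l.sh * l.esh + l.esh * l.esh) / 68719476736 : ℕ) : ℝ)
  have hs0 : (0 : ℝ) ≤ l.s := Nat.cast_nonneg _
  have hsh0 : (0 : ℝ) ≤ l.sh := Nat.cast_nonneg _
  rw [abs_of_nonneg hs0] at h1
  rw [abs_of_nonneg hsh0] at h2
  have hs1 : (l.s : ℝ) ≤ DR + 4 := by
    have := (abs_le.1 h.s).1
    have h3 : Real.sin (Real.pi * x) * DR ≤ DR := by
      have := Real.sin_le_one (Real.pi * x)
      nlinarith only [hD, this]
    linarith
  have e : MM x t * DR - u =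
      (Real.sin (Real.pi * x) * DR * (Real.sin (Real.pi * x) * DR) - l.s * l.s) / DR +
      (Real.sinh (Real.pi * t) * DR * (Real.sinh (Real.pi * t) * DR) - l.sh * l.sh) / DR +
      (((l.s : ℝ) * l.s + l.sh * l.sh) / DR - u) := by
    unfold MM
    field_simp
    ring
  rw [e]
  have b1 : |(Real.sin (Real.pi * x) * DR * (Real.sin (Real.pi * x) * DR) - l.s * l.s) / DR| ≤ 9 := by
    rw [abs_div, abs_of_pos hD, div_le_iff₀ hD]
    have : (100 : ℝ) ≤ DR := by unfold DR; norm_num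
    linarith only [h1, hs1, this]
  have b2 : |(Real.sinh (Real.pi * t) * DR * (Real.sinh (Real.pi * t) * DR) - l.sh * l.sh) / DR| ≤
      (2 * l.sh * l.esh + l.esh * l.esh) / DR := by
    rw [abs_div, abs_of_pos hD]
    gcongr
    linarith only [h2]
  have b3 : |((l.s : ℝ) * l.s + l.sh * l.sh) / DR - u| ≤ 1 := by
    rw [abs_le]; constructor <;> linarith only [a1, a2]
  refine (abs_add_three _ _ _).trans ?_
  linarith only [a3, b1, b2, b3]

/-- the value `lnA`, `(p, q, error)` -/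
structure R3 where
  p : ℕ
  q : ℕ
  e : ℕ

def R3.Good (r : R3) (v : ℝ) : Prop := |v * DR - ((r.p : ℝ) - r.q)| ≤ r.e

def LS.vA (l : LS) : R3 :=
  let M := l.M
  let eM := l.eM
  let g := logM (Nat.mul 4 M)
  ⟨Nat.div g.1 2, Nat.div g.2 2, Nat.add 5 (Nat.div (Nat.mul 68719476736 eM) (Nat.mul 2 (Nat.sub M eM)))⟩

lemma LS.Good.vA {l : LS} {x t : ℝ} (h : l.Good x t) (h1 : l.eM < l.M) (h2 : l.M ≤ 2 ^ 100) :
    (l.vA).Good (lnA x t) := by
  have hD := DR_pos
  have hM := h.M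
  have hMpos : 0 < l.M := by omega
  have hlog := logM_spec (m := 4 * l.M) (by omega) (by
    have : (2 : ℕ) ^ 200 = 2 ^ 100 * 2 ^ 100 := by norm_num
    have h3 : (4 : ℕ) < 2 ^ 100 := by norm_num
    nlinarith only [h2])
  unfold R3.Good
  have k := lt_ndiv (68719476736 * l.eM) (b := 2 * (l.M - l.eM)) (by omega)
  have hsub : ((l.M - l.eM : ℕ) : ℝ) = l.M - l.eM := Nat.cast_sub h1.le
  rw [Nat.cast_mul, DN_cast, Nat.cast_mul, hsub] at k
  have p1 := ndiv_le (logM (4 * l.M)).1 2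
  have p2 := lt_ndiv (logM (4 * l.M)).1 (b := 2) (by norm_num)
  have q1 := ndiv_le (logM (4 * l.M)).2 2
  have q2 := lt_ndiv (logM (4 * l.M)).2 (b := 2) (by norm_num)
  change |lnA x t * DR - ((((logM (4 * l.M)).1 / 2 : ℕ) : ℝ) - (((logM (4 * l.M)).2 / 2 : ℕ) : ℝ))| ≤
    ((5 + 68719476736 * l.eM / (2 * (l.M - l.eM)) : ℕ) : ℝ)
  rw [Nat.cast_add]
  push_cast at k p1 p2 q1 q2 hlog ⊢
  set u := ((68719476736 * l.eM / (2 * (l.M - l.eM)) : ℕ) : ℝ)
  have hMr : (0 : ℝ) < l.M := by exact_mod_cast hMpos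
  have h1r : (l.eM : ℝ) < l.M := by exact_mod_cast h1
  have hM' := abs_le.1 hM
  have hMt : 0 < MM x t * DR := by linarith only [h1r, hM']
  have hMt0 : 0 < MM x t := pos_of_mul_pos_left hMt hD.le
  -- difference of the logarithms
  have hl1 : Real.log (4 * MM x t) - Real.log (4 * l.M / DR) ≤ l.eM / (l.M - l.eM) := by
    rw [← Real.log_div (by positivity) (by positivity)]
    refine (Real.log_le_sub_one_of_pos (by positivity)).trans ?_
    have e : 4 * MM x t / (4 * l.M / DR) - 1 = (MM x t * DR - l.M) / l.M := by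
      field_simp
    rw [e]
    calc (MM x t * DR - l.M) / l.M ≤ l.eM / l.M := by gcongr; exact hM'.2
      _ ≤ l.eM / (l.M - l.eM) := by
        apply div_le_div_of_nonneg_left (Nat.cast_nonneg _) (by linarith only [h1r])
        have : (0 : ℝ) ≤ l.eM := Nat.cast_nonneg _
        linarith only []
  have hl2 : Real.log (4 * l.M / DR) - Real.log (4 * MM x t) ≤ l.eM / (l.M - l.eM) := by
    rw [← Real.log_div (by positivity) (by positivity)]
    refine (Real.log_le_sub_one_of_pos (by positivity)).trans ?_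
    have e : (4 * l.M / DR) / (4 * MM x t) - 1 = (l.M - MM x t * DR) / (MM x t * DR) := by
      field_simp
    rw [e]
    have : 0 < (l.M : ℝ) - l.eM := by linarith only [h1r]
    calc (l.M - MM x t * DR) / (MM x t * DR) ≤ l.eM / (MM x t * DR) := by
          gcongr; linarith only [hM', hM'.1]
      _ ≤ l.eM / (l.M - l.eM) := by
        apply div_le_div_of_nonneg_left (Nat.cast_nonneg _) (by linarith only [h1r])
        linarith only [hM', hM'.1]
  have hAA : lnA x t = Real.log (4 * MM x t) / 2 := rfl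
  rw [hAA]
  have hE : (l.eM : ℝ) / (l.M - l.eM) * DR / 2 ≤ u + 1 := by
    refine le_trans (le_of_eq ?_) k.le
    have : (l.M : ℝ) - l.eM ≠ 0 := by linarith only [h1r]
    field_simp
  have hlog' := abs_le.1 hlog
  rw [abs_le]
  constructor
  · nlinarith only [hD, p1, q2, hl2, hE, hlog']
  · nlinarith only [hD, p2, q1, hl1, hE, hlog']


/-- `π P = π s c / M` -/
def LS.vU (l : LS) : R3 :=
  let M := l.M
  let eM := l.eM
  let rp := Nat.div (Nat.mul l.s l.cp) M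
  let rq := Nat.div (Nat.mul l.s l.cq) M
  ⟨piN rp, piN rq, Nat.add (Nat.mul 4 (Nat.add (Nat.div (Nat.add (Nat.add 549755813888 48) (Nat.mul (Nat.add (Nat.add rp rq) 1) eM)) (Nat.sub M eM)) 2)) 2⟩

/-- `π Q = π sh ch / M` -/
def LS.vW (l : LS) : R3 :=
  let M := l.M
  let eM := l.eM
  let r := Nat.div (Nat.mul l.sh l.ch) M
  ⟨piN r, 0, Nat.add (Nat.mul 4 (Nat.add (Nat.div (Nat.add (Nat.add (Nat.mul l.esh (Nat.add l.ch l.ech)) (Nat.mul l.sh l.ech)) (Nat.mul (Nat.add r 1) eM)) (Nat.sub M eM)) 2)) 2⟩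

/-- checks -/
def LS.ok (l : LS) : Bool :=
  cnd (Nat.ble (Nat.add l.eM 1) l.M) (cnd (Nat.ble l.M 1267650600228229401496703205376)
    (cnd (Nat.ble (Nat.div (Nat.mul l.s (Nat.add l.cp l.cq)) l.M) 1152921504606846976)
      (Nat.ble (Nat.div (Nat.mul l.sh l.ch) l.M) 1152921504606846976) false) false) false

lemma LS.ok_spec {l : LS} (h : l.ok = true) : l.eM < l.M ∧ l.M ≤ 2 ^ 100 ∧
    l.s * (l.cp + l.cq) / l.M ≤ 1152921504606846976 ∧ l.sh * l.ch / l.M ≤ 1152921504606846976 := by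
  unfold LS.ok at h
  simp only [cnd_eq] at h
  rcases h1 : Nat.ble (Nat.add l.eM 1) l.M with _ | _
  · rw [h1] at h; exact absurd h (by simp)
  rw [h1, cond_true] at h
  rcases h2 : Nat.ble l.M 1267650600228229401496703205376 with _ | _
  · rw [h2] at h; exact absurd h (by simp)
  rw [h2, cond_true] at h
  rcases h3 : Nat.ble (Nat.div (Nat.mul l.s (Nat.add l.cp l.cq)) l.M) 1152921504606846976 with _ | _
  · rw [h3] at h; exact absurd h (by simp)
  rw [h3, cond_true] at h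
  refine ⟨Nat.le_of_ble_eq_true h1, ?_, Nat.le_of_ble_eq_true h3, Nat.le_of_ble_eq_true h⟩
  have : (2 : ℕ) ^ 100 = 1267650600228229401496703205376 := by norm_num
  rw [this]
  exact Nat.le_of_ble_eq_true h2

lemma LS.Good.sle {l : LS} {x t : ℝ} (h : l.Good x t) : (l.s : ℝ) ≤ DR + 4 := by
  have hD := DR_pos
  have := (abs_le.1 h.s).1
  have h3 : Real.sin (Real.pi * x) * DR ≤ DR := by
    have := Real.sin_le_one (Real.pi * x)
    nlinarith only [hD, this]
  linarith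

lemma LS.Good.cle {l : LS} {x t : ℝ} (h : l.Good x t) : |(l.cp : ℝ) - l.cq| ≤ DR + 4 := by
  have hD := DR_pos
  have h3 : |Real.cos (Real.pi * x) * DR| ≤ DR := by
    rw [abs_mul, abs_of_pos hD]
    have := Real.abs_cos_le_one (Real.pi * x)
    nlinarith only [hD, this]
  have e : (l.cp : ℝ) - l.cq = Real.cos (Real.pi * x) * DR -
    (Real.cos (Real.pi * x) * DR - ((l.cp : ℝ) - l.cq)) := by ring
  rw [e]
  exact (abs_sub _ _).trans (by linarith only [h, h3, h.c])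

lemma pi_scale {v rp rq e : ℝ} {Rp Rq : ℕ} (h : |v * DR - (rp - rq)| ≤ e)
    (hp : |Real.pi * rp - (piN Rp : ℝ)| ≤ 2) (hq : |Real.pi * rq - (piN Rq : ℝ)| ≤ 2)
    (h0 : rp = 0 ∧ piN Rp = 0 ∨ rq = 0 ∧ piN Rq = 0) :
    |Real.pi * v * DR - ((piN Rp : ℝ) - piN Rq)| ≤ 4 * e + 2 := by
  have he : 0 ≤ e := (abs_nonneg _).trans h
  have h1 : |Real.pi * (v * DR - (rp - rq))| ≤ 4 * e := by
    rw [abs_mul, abs_of_pos Real.pi_pos]
    have := Real.pi_lt_d2
    have := Real.pi_pos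
    nlinarith [abs_nonneg (v * DR - (rp - rq))]
  have e1 : Real.pi * v * DR - ((piN Rp : ℝ) - piN Rq) =
      Real.pi * (v * DR - (rp - rq)) + ((Real.pi * rp - piN Rp) - (Real.pi * rq - piN Rq)) := by ring
  rw [e1]
  refine (abs_add_le _ _).trans (add_le_add h1 ?_)
  rcases h0 with ⟨a, b⟩ | ⟨a, b⟩
  · rw [a, b]
    have e2 : Real.pi * 0 - ((0 : ℕ) : ℝ) - (Real.pi * rq - piN Rq) = -(Real.pi * rq - piN Rq) := by
      push_cast; ring
    rw [e2, abs_neg]
    exact hq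
  · rw [a, b]
    simpa using hp

lemma LS.Good.vU {l : LS} {x t : ℝ} (h : l.Good x t) (hok : l.ok = true) :
    (l.vU).Good (Real.pi * PP x t) := by
  have hD := DR_pos
  obtain ⟨h1, h2, h3, h4⟩ := LS.ok_spec hok
  have hM := h.M
  have hMpos : 0 < l.M := by omega
  have hMr : (0 : ℝ) < l.M := by exact_mod_cast hMpos
  have h1r : (l.eM : ℝ) < l.M := by exact_mod_cast h1
  have hsub : ((l.M - l.eM : ℕ) : ℝ) = l.M - l.eM := Nat.cast_sub h1.le
  have hprod := abs_mul_sub h.s h.c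
  have hs0 : (0 : ℝ) ≤ l.s := Nat.cast_nonneg _
  rw [abs_of_nonneg hs0] at hprod
  have hen : 4 * (|(l.cp : ℝ) - l.cq| + 4) + l.s * 4 ≤ 8 * DR + 48 := by
    linarith only [h, h.sle, h.cle]
  have hq := quot_err (N := Real.sin (Real.pi * x) * DR * (Real.cos (Real.pi * x) * DR))
    (n := (l.s : ℝ) * ((l.cp : ℝ) - l.cq)) (M := MM x t * DR) (m := l.M) (en := 8 * DR + 48)
    (em := l.eM) hM (hprod.trans hen) h1r
  have eP : Real.sin (Real.pi * x) * DR * (Real.cos (Real.pi * x) * DR) / (MM x t * DR) =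
      PP x t * DR := by
    unfold PP
    have : MM x t * DR ≠ 0 := by
      have := (abs_le.1 hM).1
      have : 0 < MM x t * DR := by linarith only [h1r, this]
      exact this.ne'
    have hMM0 : MM x t ≠ 0 := left_ne_zero_of_mul this
    field_simp
  rw [eP] at hq
  -- the rounded quotient
  have p1 := ndiv_le (l.s * l.cp) l.M
  have p2 := lt_ndiv (l.s * l.cp) hMpos
  have q1 := ndiv_le (l.s * l.cq) l.M
  have q2 := lt_ndiv (l.s * l.cq) hMpos
  push_cast at p1 p2 q1 q2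
  set rp := l.s * l.cp / l.M with hrp
  set rq := l.s * l.cq / l.M with hrq
  have hrpz : l.cp = 0 → rp = 0 := fun h0 => by rw [hrp, h0]; simp
  have hrqz : l.cq = 0 → rq = 0 := fun h0 => by rw [hrq, h0]; simp
  have hr1 : |(l.s : ℝ) * ((l.cp : ℝ) - l.cq) / l.M - ((rp : ℝ) - rq)| ≤ 1 := by
    have e : (l.s : ℝ) * ((l.cp : ℝ) - l.cq) / l.M = (l.s : ℝ) * l.cp / l.M - (l.s : ℝ) * l.cq / l.M := by
      ring
    rw [e]
    rcases h.n with h0 | h0
    · rw [hrpz h0, h0]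
      simp only [Nat.cast_zero, mul_zero, zero_div, zero_sub]
      rw [abs_le]
      constructor <;> linarith only [q2, q1]
    · rw [hrqz h0, h0]
      simp only [Nat.cast_zero, mul_zero, zero_div, sub_zero]
      rw [abs_le]
      constructor <;> linarith only [p1, p2]
  have hn : |(l.s : ℝ) * ((l.cp : ℝ) - l.cq)| / l.M ≤ (rp : ℝ) + rq + 1 := by
    have : |(l.s : ℝ) * ((l.cp : ℝ) - l.cq)| / l.M = |(l.s : ℝ) * ((l.cp : ℝ) - l.cq) / l.M| := by
      rw [abs_div, abs_of_pos hMr]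
    rw [this]
    have e : (l.s : ℝ) * ((l.cp : ℝ) - l.cq) / l.M = ((rp : ℝ) - rq) +
      ((l.s : ℝ) * ((l.cp : ℝ) - l.cq) / l.M - ((rp : ℝ) - rq)) := by ring
    rw [e]
    exact (abs_add_le _ _).trans (add_le_add (A.abs_pq _ _) hr1)
  have k := lt_ndiv (549755813888 + 48 + (rp + rq + 1) * l.eM) (b := l.M - l.eM) (by omega)
  have h8 : ((549755813888 : ℕ) : ℝ) = 8 * DR := by unfold DR; norm_num
  rw [Nat.cast_add, Nat.cast_add, h8, Nat.cast_mul, hsub] at k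
  push_cast at k
  have hd : 0 < (l.M : ℝ) - l.eM := by linarith only [h1r]
  have heM0 : (0 : ℝ) ≤ l.eM := Nat.cast_nonneg _
  have hfin : |PP x t * DR - ((rp : ℝ) - rq)| ≤
      (((549755813888 + 48 + (rp + rq + 1) * l.eM) / (l.M - l.eM) : ℕ) : ℝ) + 2 := by
    have e : PP x t * DR - ((rp : ℝ) - rq) =
      (PP x t * DR - (l.s : ℝ) * ((l.cp : ℝ) - l.cq) / l.M) +
      ((l.s : ℝ) * ((l.cp : ℝ) - l.cq) / l.M - ((rp : ℝ) - rq)) := by ring
    rw [e]
    refine (abs_add_le _ _).trans ?_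
    have h5 : (8 * DR + 48 + |(l.s : ℝ) * ((l.cp : ℝ) - l.cq)| / l.M * l.eM) / (l.M - l.eM) ≤
        (8 * DR + 48 + ((rp : ℝ) + rq + 1) * l.eM) / (l.M - l.eM) := by gcongr
    linarith only [hq, hr1, k, h5]
  have hrle : rp ≤ 1152921504606846976 ∧ rq ≤ 1152921504606846976 := by
    have a1 : rp ≤ l.s * (l.cp + l.cq) / l.M :=
      Nat.div_le_div_right (Nat.mul_le_mul_left _ (Nat.le_add_right _ _))
    have a2 : rq ≤ l.s * (l.cp + l.cq) / l.M :=
      Nat.div_le_div_right (Nat.mul_le_mul_left _ (Nat.le_add_left _ _))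
    exact ⟨a1.trans h3, a2.trans h3⟩
  have hps := pi_scale hfin (piN_err' hrle.1) (piN_err' hrle.2) (by
    rcases h.n with h0 | h0
    · left; rw [hrpz h0]; exact ⟨Nat.cast_zero, piN_zero⟩
    · right; rw [hrqz h0]; exact ⟨Nat.cast_zero, piN_zero⟩)
  unfold R3.Good
  change |Real.pi * PP x t * DR - ((piN rp : ℝ) - piN rq)| ≤
    ((4 * ((549755813888 + 48 + (rp + rq + 1) * l.eM) / (l.M - l.eM) + 2) + 2 : ℕ) : ℝ)
  rw [Nat.cast_add, Nat.cast_mul, Nat.cast_add]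
  exact_mod_cast hps

lemma LS.Good.vW {l : LS} {x t : ℝ} (h : l.Good x t) (hok : l.ok = true) :
    (l.vW).Good (Real.pi * QQ x t) := by
  have hD := DR_pos
  obtain ⟨h1, h2, h3, h4⟩ := LS.ok_spec hok
  have hM := h.M
  have hMpos : 0 < l.M := by omega
  have hMr : (0 : ℝ) < l.M := by exact_mod_cast hMpos
  have h1r : (l.eM : ℝ) < l.M := by exact_mod_cast h1
  have hsub : ((l.M - l.eM : ℕ) : ℝ) = l.M - l.eM := Nat.cast_sub h1.le
  have hprod := abs_mul_sub h.sh h.ch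
  have hs0 : (0 : ℝ) ≤ l.sh := Nat.cast_nonneg _
  have hc0 : (0 : ℝ) ≤ l.ch := Nat.cast_nonneg _
  rw [abs_of_nonneg hs0, abs_of_nonneg hc0] at hprod
  have hq := quot_err (N := Real.sinh (Real.pi * t) * DR * (Real.cosh (Real.pi * t) * DR))
    (n := (l.sh : ℝ) * l.ch) (M := MM x t * DR) (m := l.M)
    (em := l.eM) hM hprod h1r
  rw [abs_of_nonneg (mul_nonneg hs0 hc0)] at hq
  have eP : Real.sinh (Real.pi * t) * DR * (Real.cosh (Real.pi * t) * DR) / (MM x t * DR) =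
      QQ x t * DR := by
    unfold QQ
    have : MM x t * DR ≠ 0 := by
      have := (abs_le.1 hM).1
      have : 0 < MM x t * DR := by linarith only [h1r, this]
      exact this.ne'
    have hMM0 : MM x t ≠ 0 := left_ne_zero_of_mul this
    field_simp
  rw [eP] at hq
  have p1 := ndiv_le (l.sh * l.ch) l.M
  have p2 := lt_ndiv (l.sh * l.ch) hMpos
  push_cast at p1 p2
  set r := l.sh * l.ch / l.M with hr
  have k := lt_ndiv (l.esh * (l.ch + l.ech) + l.sh * l.ech + (r + 1) * l.eM) (b := l.M - l.eM)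
    (by omega)
  rw [Nat.cast_add, Nat.cast_add, Nat.cast_mul, Nat.cast_mul, Nat.cast_mul, Nat.cast_add, hsub] at k
  push_cast at k
  have hd : 0 < (l.M : ℝ) - l.eM := by linarith only [h1r]
  have heM0 : (0 : ℝ) ≤ l.eM := Nat.cast_nonneg _
  have hfin : |QQ x t * DR - ((r : ℝ) - ((0 : ℕ) : ℝ))| ≤
      (((l.esh * (l.ch + l.ech) + l.sh * l.ech + (r + 1) * l.eM) / (l.M - l.eM) : ℕ) : ℝ) + 2 := by
    have e : QQ x t * DR - ((r : ℝ) - ((0 : ℕ) : ℝ)) =
      (QQ x t * DR - (l.sh : ℝ) * l.ch / l.M) + ((l.sh : ℝ) * l.ch / l.M - r) := by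
        push_cast; ring
    rw [e]
    refine (abs_add_le _ _).trans ?_
    have h5 : (l.esh * ((l.ch : ℝ) + l.ech) + l.sh * l.ech + (l.sh : ℝ) * l.ch / l.M * l.eM) /
        (l.M - l.eM) ≤
        (l.esh * ((l.ch : ℝ) + l.ech) + l.sh * l.ech + ((r : ℝ) + 1) * l.eM) / (l.M - l.eM) := by
      gcongr
    have h6 : |(l.sh : ℝ) * l.ch / l.M - r| ≤ 1 := by rw [abs_le]; constructor <;> linarith only [p1, p2]
    linarith only [hq, k, h5, h6]
  have hps := pi_scale (Rq := 0) hfin (piN_err' h4) (by rw [piN_zero]; simp)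
    (by right; exact ⟨Nat.cast_zero, piN_zero⟩)
  unfold R3.Good
  change |Real.pi * QQ x t * DR - ((piN r : ℝ) - ((0 : ℕ) : ℝ))| ≤
    ((4 * ((l.esh * (l.ch + l.ech) + l.sh * l.ech + (r + 1) * l.eM) / (l.M - l.eM) + 2) + 2 : ℕ) : ℝ)
  rw [piN_zero] at hps
  rw [Nat.cast_add, Nat.cast_mul, Nat.cast_add]
  exact_mod_cast hps


/-- the quotient `|c| sh / (s ch)` -/
def LS.bv (l : LS) : ℕ := Nat.div (Nat.mul (Nat.mul (Nat.add l.cp l.cq) l.sh) 68719476736) (Nat.mul l.s l.ch)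
def LS.ed (l : LS) : ℕ := Nat.add (Nat.mul 4 (Nat.add l.ch l.ech)) (Nat.mul l.s l.ech)
def LS.en (l : LS) : ℕ := Nat.add (Nat.mul 4 (Nat.add l.sh l.esh)) (Nat.mul (Nat.add l.cp l.cq) l.esh)
def LS.eb (l : LS) : ℕ := Nat.div (Nat.add (Nat.mul 68719476736 l.en) (Nat.mul (Nat.add l.bv 1) l.ed)) (Nat.sub (Nat.mul l.s l.ch) l.ed)

/-- the value `lnB` -/
def LS.vB (l : LS) : Option R3 :=
  cnd (Nat.ble (Nat.add l.ed 1) (Nat.mul l.s l.ch))
    (match atN l.bv with
      | none => none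
      | some r => cnd (Nat.beq l.cq 0) (some ⟨r.1, r.2, Nat.add 15 l.eb⟩) (some ⟨r.2, r.1, Nat.add 15 l.eb⟩)) none

lemma LS.bv_spec (l : LS) (h : 0 < l.s * l.ch) :
    (l.bv : ℝ) ≤ ((l.cp : ℝ) + l.cq) * l.sh * DR / ((l.s : ℝ) * l.ch) ∧
    ((l.cp : ℝ) + l.cq) * l.sh * DR / ((l.s : ℝ) * l.ch) < l.bv + 1 := by
  have v1 := ndiv_le ((l.cp + l.cq) * l.sh * 68719476736) (l.s * l.ch)
  have v2 := lt_ndiv ((l.cp + l.cq) * l.sh * 68719476736) h
  have hvv : l.bv = (l.cp + l.cq) * l.sh * 68719476736 / (l.s * l.ch) := rfl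
  rw [← hvv] at v1 v2
  rw [Nat.cast_mul, DN_cast] at v1 v2
  push_cast at v1 v2
  exact ⟨v1, v2⟩

lemma LS.ed_cast (l : LS) : (l.ed : ℝ) = 4 * ((l.ch : ℝ) + l.ech) + l.s * l.ech := by
  have : l.ed = 4 * (l.ch + l.ech) + l.s * l.ech := rfl
  rw [this]; push_cast; ring

lemma LS.en_cast (l : LS) : (l.en : ℝ) = 4 * ((l.sh : ℝ) + l.esh) + ((l.cp : ℝ) + l.cq) * l.esh := by
  have : l.en = 4 * (l.sh + l.esh) + (l.cp + l.cq) * l.esh := rfl
  rw [this]; push_cast; ring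

lemma LS.eb_spec (l : LS) (h : l.ed < l.s * l.ch) :
    (DR * (l.en : ℝ) + ((l.bv : ℝ) + 1) * l.ed) / ((l.s : ℝ) * l.ch - l.ed) < l.eb + 1 := by
  have k := lt_ndiv (68719476736 * l.en + (l.bv + 1) * l.ed) (b := l.s * l.ch - l.ed) (by omega)
  have hsub : ((l.s * l.ch - l.ed : ℕ) : ℝ) = (l.s : ℝ) * l.ch - l.ed := by
    rw [Nat.cast_sub h.le]; push_cast; ring
  have hvv : l.eb = (68719476736 * l.en + (l.bv + 1) * l.ed) / (l.s * l.ch - l.ed) := rfl
  rw [hsub, ← hvv, Nat.cast_add, Nat.cast_mul, DN_cast] at k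
  push_cast at k
  exact k

lemma arctan_sub_le (x y : ℝ) : |Real.arctan x - Real.arctan y| ≤ |x - y| := by
  have h := Convex.norm_image_sub_le_of_norm_hasDerivWithin_le (f := Real.arctan)
    (f' := fun x => 1 / (1 + x ^ 2)) (C := 1) (s := Set.univ) (x := y) (y := x)
    (fun x _ => (Real.hasDerivAt_arctan x).hasDerivWithinAt) (fun x _ => by
      rw [Real.norm_eq_abs, abs_of_nonneg (by positivity), div_le_one (by positivity)]
      nlinarith only [sq_nonneg x]) convex_univ (Set.mem_univ _) (Set.mem_univ _)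
  simpa [Real.norm_eq_abs] using h

/-- the argument of the arctangent, up to the sign `σ` of the cosine -/
lemma LS.Good.arg {l : LS} {x t : ℝ} (h : l.Good x t) (h1 : l.ed < l.s * l.ch) {σ : ℝ}
    (hσ : σ * ((l.cp : ℝ) - l.cq) = (l.cp : ℝ) + l.cq) (hσ1 : |σ| = 1) :
    |σ * (Real.cos (Real.pi * x) * Real.sinh (Real.pi * t) /
      (Real.sin (Real.pi * x) * Real.cosh (Real.pi * t))) * DR - l.bv| ≤ l.eb + 2 := by
  have hD := DR_pos
  have hs0 : (0 : ℝ) ≤ l.s := Nat.cast_nonneg _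
  have hc0 : (0 : ℝ) ≤ l.ch := Nat.cast_nonneg _
  have hsh0 : (0 : ℝ) ≤ l.sh := Nat.cast_nonneg _
  have hdenpos : 0 < l.s * l.ch := by omega
  have hd := abs_mul_sub h.s h.ch
  have hn := abs_mul_sub h.c h.sh
  rw [abs_of_nonneg hc0, abs_of_nonneg hs0] at hd
  rw [abs_of_nonneg hsh0] at hn
  have hed := l.ed_cast
  have hen := l.en_cast
  rw [← hed] at hd
  have h1r : (l.ed : ℝ) < l.s * l.ch := by exact_mod_cast h1
  have hq := quot_err hd hn h1r
  have eQ : Real.cos (Real.pi * x) * DR * (Real.sinh (Real.pi * t) * DR) /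
      (Real.sin (Real.pi * x) * DR * (Real.cosh (Real.pi * t) * DR)) =
      Real.cos (Real.pi * x) * Real.sinh (Real.pi * t) /
      (Real.sin (Real.pi * x) * Real.cosh (Real.pi * t)) := by
    have : Real.sin (Real.pi * x) * DR * (Real.cosh (Real.pi * t) * DR) ≠ 0 := by
      have := (abs_le.1 hd).1
      have : 0 < Real.sin (Real.pi * x) * DR * (Real.cosh (Real.pi * t) * DR) := by linarith only [h1r, this]
      exact this.ne'
    have hs1 : Real.sin (Real.pi * x) ≠ 0 := left_ne_zero_of_mul (left_ne_zero_of_mul this)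
    have hch := Real.cosh_pos (Real.pi * t)
    field_simp
  rw [eQ] at hq
  set vt := Real.cos (Real.pi * x) * Real.sinh (Real.pi * t) /
      (Real.sin (Real.pi * x) * Real.cosh (Real.pi * t))
  obtain ⟨v1, v2⟩ := l.bv_spec hdenpos
  have k := l.eb_spec h1
  have hden : (0 : ℝ) < (l.s : ℝ) * l.ch := by exact_mod_cast hdenpos
  have hpos : 0 < (l.s : ℝ) * l.ch - l.ed := by linarith only [h1r]
  have habs := A.abs_pq l.cp l.cq
  have hesh : (0 : ℝ) ≤ l.esh := Nat.cast_nonneg _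
  have hed0 : (0 : ℝ) ≤ l.ed := Nat.cast_nonneg _
  have e1 : σ * vt * DR - l.bv = σ * (vt - ((l.cp : ℝ) - l.cq) * l.sh / ((l.s : ℝ) * l.ch)) * DR +
      (((l.cp : ℝ) + l.cq) * l.sh * DR / ((l.s : ℝ) * l.ch) - l.bv) := by
    rw [← hσ]; ring
  rw [e1]
  refine (abs_add_le _ _).trans ?_
  rw [abs_mul, abs_mul, hσ1, one_mul, abs_of_pos hD]
  have a1 : |((l.cp : ℝ) + l.cq) * l.sh * DR / ((l.s : ℝ) * l.ch) - l.bv| ≤ 1 := by
    rw [abs_le]; constructor <;> linarith only [v1, v2]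
  have a2 : |vt - ((l.cp : ℝ) - l.cq) * l.sh / ((l.s : ℝ) * l.ch)| * DR ≤
      (DR * (l.en : ℝ) + ((l.bv : ℝ) + 1) * l.ed) / ((l.s : ℝ) * l.ch - l.ed) := by
    refine (mul_le_mul_of_nonneg_right hq hD.le).trans ?_
    rw [div_mul_eq_mul_div]
    have b1 : |((l.cp : ℝ) - l.cq) * l.sh| / ((l.s : ℝ) * l.ch) * DR ≤ (l.bv : ℝ) + 1 := by
      refine le_trans ?_ v2.le
      rw [abs_mul, abs_of_nonneg hsh0, div_mul_eq_mul_div]
      gcongr
    have b2 : (4 * ((l.sh : ℝ) + l.esh) + |(l.cp : ℝ) - l.cq| * l.esh +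
        |((l.cp : ℝ) - l.cq) * l.sh| / ((l.s : ℝ) * l.ch) * l.ed) * DR =
        DR * (4 * ((l.sh : ℝ) + l.esh) + |(l.cp : ℝ) - l.cq| * l.esh) +
        (|((l.cp : ℝ) - l.cq) * l.sh| / ((l.s : ℝ) * l.ch) * DR) * l.ed := by ring
    rw [b2, hen]
    gcongr
  linarith only [k, a1, a2]

lemma LS.Good.vB {l : LS} {x t : ℝ} (h : l.Good x t) {r : R3} (hr : l.vB = some r) :
    r.Good (lnB x t) := by
  have hD := DR_pos
  unfold LS.vB at hr
  simp only [cnd_eq] at hr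
  rcases h1 : Nat.ble (Nat.add l.ed 1) (Nat.mul l.s l.ch) with _ | _
  · rw [h1] at hr; exact absurd hr (by simp)
  rw [h1, cond_true] at hr
  have h1' : l.ed < l.s * l.ch := Nat.le_of_ble_eq_true h1
  rcases ha : atN l.bv with _ | w
  · rw [ha] at hr; exact absurd hr (by simp)
  rw [ha] at hr
  simp only at hr
  have hat := atN_spec ha
  have hv0 : (l.bv : ℝ) / DR * DR = l.bv := by field_simp
  have hB : lnB x t = Real.arctan (Real.cos (Real.pi * x) * Real.sinh (Real.pi * t) /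
      (Real.sin (Real.pi * x) * Real.cosh (Real.pi * t))) := rfl
  unfold R3.Good
  rw [hB]
  have hE : ((Nat.add 15 l.eb : ℕ) : ℝ) = 15 + l.eb := by
    change ((15 + l.eb : ℕ) : ℝ) = _
    push_cast; ring
  rcases hq0 : Nat.beq l.cq 0 with _ | _
  · rw [hq0, cond_false] at hr
    have hr := Option.some.inj hr
    have hcq : l.cq ≠ 0 := fun h0 => by rw [h0] at hq0; exact absurd hq0 (by decide)
    have hcp : l.cp = 0 := h.n.resolve_right hcq
    have hm := h.arg h1' (σ := -1) (by rw [hcp]; push_cast; ring) (by simp)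
    rw [← hr, hE]
    set vt := Real.cos (Real.pi * x) * Real.sinh (Real.pi * t) /
      (Real.sin (Real.pi * x) * Real.cosh (Real.pi * t))
    have a3 := arctan_sub_le (-1 * vt) ((l.bv : ℝ) / DR)
    have a4 : |-1 * vt - (l.bv : ℝ) / DR| * DR = |-1 * vt * DR - l.bv| := by
      nth_rewrite 2 [← hv0]
      rw [← sub_mul, abs_mul, abs_of_pos hD]
    have e1 : Real.arctan vt * DR - ((w.2 : ℝ) - w.1) =
        -((Real.arctan (-1 * vt) - Real.arctan ((l.bv : ℝ) / DR)) * DR) -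
        (Real.arctan ((l.bv : ℝ) / DR) * DR - ((w.1 : ℝ) - w.2)) := by
      rw [neg_one_mul, Real.arctan_neg]; ring
    rw [e1]
    refine (abs_sub _ _).trans ?_
    rw [abs_neg, abs_mul, abs_of_pos hD]
    have a5 := mul_le_mul_of_nonneg_right a3 hD.le
    linarith only [hat, hm, a4, a5]
  · rw [hq0, cond_true] at hr
    have hr := Option.some.inj hr
    have hcq : l.cq = 0 := Nat.eq_of_beq_eq_true hq0
    have hm := h.arg h1' (σ := 1) (by rw [hcq]; push_cast; ring) (by simp)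
    rw [← hr, hE]
    set vt := Real.cos (Real.pi * x) * Real.sinh (Real.pi * t) /
      (Real.sin (Real.pi * x) * Real.cosh (Real.pi * t))
    have a3 := arctan_sub_le (1 * vt) ((l.bv : ℝ) / DR)
    have a4 : |1 * vt - (l.bv : ℝ) / DR| * DR = |1 * vt * DR - l.bv| := by
      nth_rewrite 2 [← hv0]
      rw [← sub_mul, abs_mul, abs_of_pos hD]
    have e1 : Real.arctan vt * DR - ((w.1 : ℝ) - w.2) =
        (Real.arctan (1 * vt) - Real.arctan ((l.bv : ℝ) / DR)) * DR +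
        (Real.arctan ((l.bv : ℝ) / DR) * DR - ((w.1 : ℝ) - w.2)) := by
      rw [one_mul]; ring
    rw [e1]
    refine (abs_add_le _ _).trans ?_
    rw [abs_mul, abs_of_pos hD]
    have a5 := mul_le_mul_of_nonneg_right a3 hD.le
    linarith only [hat, hm, a4, a5]

end Pool.Agent.Work.NumI
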