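import Mathlib
import Pool.Agent.Work.NumI.LnNode

/-!
# Verified numerics for the kernel, part 10: affine forms for `lnA` and `lnB`
-/

namespace Pool.Agent.Work.NumI

lemma lsD_spec {X T : A} (hX : X.p = 0 ∨ X.q = 0) {l : LS} (h : lsD X T = some l) :
    l.Good (((X.p : ℝ) - X.q) / DR) ((l.m : ℝ) / (Real.pi * DR)) ∧
    |((T.p : ℝ) + T.q) - (l.m : ℝ) / Real.pi| ≤ 1 ∧ 9 + 4 * X.tot ≤ l.s := by
  have hD := DR_pos
  have hpi := Real.pi_pos
  unfold lsD at h
  simp only [cnd_eq] at h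
  rcases h1 : Nat.ble (Nat.add T.p T.q) 1152921504606846976 with _ | _
  · rw [h1] at h; exact absurd h (by simp)
  rw [h1, cond_true] at h
  rcases h2 : Nat.ble (piN (Nat.add T.p T.q)) 1099511627776 with _ | _
  · rw [h2] at h; exact absurd h (by simp)
  rw [h2, cond_true] at h
  rcases h3 : Nat.ble 1 (expLo (piN (Nat.add T.p T.q))) with _ | _
  · rw [h3] at h; exact absurd h (by simp)
  rw [h3, cond_true] at h
  rcases h4 : Nat.ble (Nat.add 9 (Nat.mul 4 X.tot)) (scS X.p X.q).sp with _ | _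
  · rw [h4] at h; exact absurd h (by simp)
  rw [h4, cond_true] at h
  have h := Option.some.inj h
  have h4' : 9 + 4 * X.tot ≤ (scS X.p X.q).sp := Nat.le_of_ble_eq_true h4
  obtain ⟨gc, gs, gn, gn'⟩ := scS_good hX
  have hsq : (scS X.p X.q).sq = 0 := gn'.resolve_left (by omega)
  have hm16 : ((piN (Nat.add T.p T.q) : ℕ) : ℝ) ≤ 16 * DR := by
    have := Nat.le_of_ble_eq_true h2
    have h16 : ((1099511627776 : ℕ) : ℝ) = 16 * DR := by unfold DR; norm_num
    rw [← h16]; exact_mod_cast this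
  obtain ⟨g1, g2, g3⟩ := A.chsh_good (by positivity) (ex4_good hm16 (Nat.le_of_ble_eq_true h3))
  have hperr := piN_err' (r := Nat.add T.p T.q) (Nat.le_of_ble_eq_true h1)
  have hl : l.m = piN (Nat.add T.p T.q) := by rw [← h]
  have harg : Real.pi * ((l.m : ℝ) / (Real.pi * DR)) = ((piN (Nat.add T.p T.q) : ℕ) : ℝ) / DR := by
    rw [hl]; field_simp
  refine ⟨⟨?_, ?_, ?_, ?_, ?_, ?_, ?_⟩, ?_, ?_⟩
  · rw [← h]
    change |_ - (((scS X.p X.q).sp : ℕ) : ℝ)| ≤ 4
    rw [hsq] at gs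
    simpa using gs
  · rw [← h]; exact gc
  · rw [← h]; exact gn
  · rw [harg, ← h]; exact g2
  · rw [harg, ← h]; exact g1
  · rw [harg, hl]; field_simp
  · positivity
  · have e : ((Nat.add T.p T.q : ℕ) : ℝ) = (T.p : ℝ) + T.q := by
      change ((T.p + T.q : ℕ) : ℝ) = _
      push_cast; ring
    rw [e, ← hl] at hperr
    have e2 : ((T.p : ℝ) + T.q) - (l.m : ℝ) / Real.pi =
        (Real.pi * ((T.p : ℝ) + T.q) - l.m) / Real.pi := by field_simp
    rw [e2, abs_div, abs_of_pos hpi, div_le_one hpi]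
    have := Real.pi_gt_three
    linarith only [hperr, this]
  · rw [← h]; exact h4'

/-- second order term -/
def lnK (X T : A) (l : LS) : ℕ :=
  let T2 := Nat.add T.tot 1
  let L1 := Nat.sub l.s (Nat.add 4 (Nat.mul 4 X.tot))
  let Lu := Nat.sub l.m (Nat.mul 4 T2)
  Nat.add (Nat.div (Nat.mul 343597383680 (Nat.add (Nat.mul X.tot X.tot) (Nat.mul T2 T2))) (Nat.add (Nat.mul L1 L1) (Nat.mul Lu Lu))) 1

lemma abs_le_abs_sinh (y : ℝ) : |y| ≤ |Real.sinh y| := by
  rcases le_total 0 y with h | h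
  · rw [abs_of_nonneg h, abs_of_nonneg (Real.sinh_nonneg_iff.2 h)]
    exact Real.self_le_sinh_iff.2 h
  · have := Real.self_le_sinh_iff.2 (by linarith only [h] : 0 ≤ -y)
    rw [Real.sinh_neg] at this
    rw [abs_of_nonpos h, abs_of_nonpos (Real.sinh_nonpos_iff.2 h)]
    exact this

lemma lnK_spec {X T : A} {l : LS} {x t σ : ℝ} (h : l.Good x t) (hσ : σ = 1 ∨ σ = -1)
    (hs : 9 + 4 * X.tot ≤ l.s) {a b : ℝ} (ha : |a| ≤ (X.tot : ℝ)) (hb : |b| ≤ ((T.tot + 1 : ℕ) : ℝ)) :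
    |lnA (x + a / DR) (σ * t + b / DR) - lnA x (σ * t) -
      Real.pi * (a / DR * PP x (σ * t) + b / DR * QQ x (σ * t))| * DR ≤ lnK X T l ∧
    |lnB (x + a / DR) (σ * t + b / DR) - lnB x (σ * t) -
      Real.pi * (b / DR * PP x (σ * t) - a / DR * QQ x (σ * t))| * DR ≤ lnK X T l := by
  have hD := DR_pos
  have hpi := Real.pi_pos
  have hpi2 := Real.pi_lt_d2
  set T2 := T.tot + 1 with hT2
  set L1 := l.s - (4 + 4 * X.tot) with hL1
  set Lu := l.m - 4 * T2 with hLu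
  have hL1r : (L1 : ℝ) = l.s - (4 + 4 * X.tot) := by
    rw [hL1, Nat.cast_sub (by omega)]; push_cast; ring
  have hL1pos : 0 < L1 := by omega
  have hL1pos' : (0 : ℝ) < L1 := by exact_mod_cast hL1pos
  have hab : ∀ c : ℝ, ∀ τ ∈ Set.Icc (0 : ℝ) 1, |τ * c| ≤ |c| := by
    intro c τ hτ
    rw [abs_mul, abs_of_nonneg hτ.1]
    have := abs_nonneg c
    nlinarith only [hτ, this, hτ.2]
  have hsin : ∀ τ ∈ Set.Icc (0 : ℝ) 1, (L1 : ℝ) / DR ≤ Real.sin (Real.pi * (x + τ * (a / DR))) := by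
    intro τ hτ
    have h1 := Real.abs_sin_sub_sin_le (Real.pi * (x + τ * (a / DR))) (Real.pi * x)
    have h2 : |Real.pi * (x + τ * (a / DR)) - Real.pi * x| ≤ 4 * X.tot / DR := by
      have e : Real.pi * (x + τ * (a / DR)) - Real.pi * x = Real.pi * (τ * a) / DR := by ring
      rw [e, abs_div, abs_of_pos hD, abs_mul, abs_of_pos hpi]
      have := (hab a τ hτ).trans ha
      gcongr
      linarith only [hpi2]
    have h3 := (abs_le.1 (h1.trans h2)).1
    have h4 := (abs_le.1 h.s).2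
    have h5 : ((l.s : ℝ) - 4) / DR ≤ Real.sin (Real.pi * x) := by
      rw [div_le_iff₀ hD]
      have := (abs_le.1 h.s).1
      linarith only [this]
    have e : (L1 : ℝ) / DR = ((l.s : ℝ) - 4) / DR - 4 * X.tot / DR := by rw [hL1r]; ring
    rw [e]; linarith only [h3, h5]
  have hsinh : ∀ τ ∈ Set.Icc (0 : ℝ) 1, (Lu : ℝ) / DR ≤ |Real.sinh (Real.pi * (σ * t + τ * (b / DR)))| := by
    intro τ hτ
    refine le_trans ?_ (abs_le_abs_sinh _)
    have h1 : Real.pi * (σ * t + τ * (b / DR)) = (σ * (Real.pi * t * DR) + Real.pi * (τ * b)) / DR := by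
      field_simp
    rw [h1, h.m, abs_div, abs_of_pos hD]
    gcongr
    rcases le_total l.m (4 * T2) with hle | hle
    · rw [hLu, Nat.sub_eq_zero_of_le hle]; simp
    · rw [hLu, Nat.cast_sub hle]
      have h2 : |Real.pi * (τ * b)| ≤ 4 * T2 := by
        rw [abs_mul, abs_of_pos hpi]
        have := (hab b τ hτ).trans hb
        have := abs_nonneg (τ * b)
        nlinarith
      have h3 : |σ * (l.m : ℝ)| = l.m := by
        rcases hσ with h0 | h0 <;> rw [h0] <;> simp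
      have h4 := abs_sub_abs_le_abs_sub (σ * (l.m : ℝ)) (-(Real.pi * (τ * b)))
      rw [abs_neg, sub_neg_eq_add, h3] at h4
      push_cast
      linarith only [h2, h4]
  have hLL : 0 < ((L1 : ℝ) ^ 2 + (Lu : ℝ) ^ 2) / DR ^ 2 := by positivity
  have key := ln_second (x := x) (t := σ * t) (a := a / DR) (b := b / DR)
    (L2 := ((L1 : ℝ) ^ 2 + (Lu : ℝ) ^ 2) / DR ^ 2) hLL
    (fun τ hτ => lt_of_lt_of_le (by positivity) (hsin τ hτ)) (fun τ hτ => by
      unfold MM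
      have h1 := hsin τ hτ
      have h2 := hsinh τ hτ
      have h3 : ((L1 : ℝ) / DR) ^ 2 ≤ Real.sin (Real.pi * (x + τ * (a / DR))) ^ 2 := by gcongr
      have h4 : ((Lu : ℝ) / DR) ^ 2 ≤ Real.sinh (Real.pi * (σ * t + τ * (b / DR))) ^ 2 := by
        rw [← sq_abs (Real.sinh _)]; gcongr
      have e : ((L1 : ℝ) ^ 2 + (Lu : ℝ) ^ 2) / DR ^ 2 = ((L1 : ℝ) / DR) ^ 2 + ((Lu : ℝ) / DR) ^ 2 := by
        ring
      rw [e]; linarith only [h3, h4])
  have kk : Real.pi ^ 2 * ((a / DR) ^ 2 + (b / DR) ^ 2) / (((L1 : ℝ) ^ 2 + (Lu : ℝ) ^ 2) / DR ^ 2) / 2 * DR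
      ≤ lnK X T l := by
    have k := lt_ndiv (343597383680 * (X.tot * X.tot + T2 * T2)) (b := L1 * L1 + Lu * Lu)
      (by positivity)
    have h5 : ((343597383680 : ℕ) : ℝ) = 5 * DR := by unfold DR; norm_num
    rw [Nat.cast_mul, h5] at k
    push_cast at k
    have hK : (lnK X T l : ℝ) =
        (((343597383680 * (X.tot * X.tot + T2 * T2)) / (L1 * L1 + Lu * Lu) : ℕ) : ℝ) + 1 := by
      change (((343597383680 * (X.tot * X.tot + T2 * T2)) / (L1 * L1 + Lu * Lu) + 1 : ℕ) : ℝ) = _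
      push_cast; ring
    rw [hK]
    refine le_trans ?_ k.le
    have e : Real.pi ^ 2 * ((a / DR) ^ 2 + (b / DR) ^ 2) / (((L1 : ℝ) ^ 2 + (Lu : ℝ) ^ 2) / DR ^ 2) / 2 * DR
        = (Real.pi ^ 2 * (a ^ 2 + b ^ 2) / 2 * DR) / ((L1 : ℝ) * L1 + Lu * Lu) := by
      have : (L1 : ℝ) * L1 + Lu * Lu ≠ 0 := by positivity
      have : (L1 : ℝ) ^ 2 + Lu ^ 2 ≠ 0 := by positivity
      field_simp
    rw [e]
    have ha2 : a ^ 2 ≤ (X.tot : ℝ) * X.tot := by rw [← pow_two, ← sq_abs a]; gcongr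
    have hb2 : b ^ 2 ≤ (T2 : ℝ) * T2 := by rw [← pow_two, ← sq_abs b]; gcongr
    have hp := pi_sq_lt
    have h6 : Real.pi ^ 2 * (a ^ 2 + b ^ 2) / 2 * DR ≤ 5 * DR * ((X.tot : ℝ) * X.tot + T2 * T2) := by
      have h7 : Real.pi ^ 2 * (a ^ 2 + b ^ 2) ≤ 10 * ((X.tot : ℝ) * X.tot + T2 * T2) :=
        mul_le_mul hp (by linarith only [ha2, hb2]) (by positivity) (by norm_num)
      nlinarith only [hD, h7]
    exact div_le_div_of_nonneg_right h6 (by positivity)
  constructor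
  · exact (mul_le_mul_of_nonneg_right key.1 hD.le).trans kk
  · exact (mul_le_mul_of_nonneg_right key.2 hD.le).trans kk

lemma PP_neg (x t : ℝ) : PP x (-t) = PP x t := by
  unfold PP MM; rw [mul_neg, Real.sinh_neg, neg_sq]
lemma QQ_neg (x t : ℝ) : QQ x (-t) = -QQ x t := by
  unfold QQ MM; rw [mul_neg, Real.sinh_neg, Real.cosh_neg, neg_sq]; ring
lemma lnA_neg (x t : ℝ) : lnA x (-t) = lnA x t := by
  unfold lnA; rw [mul_neg, Real.sinh_neg, neg_sq]
lemma lnB_neg (x t : ℝ) : lnB x (-t) = -lnB x t := by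
  unfold lnB
  rw [mul_neg, Real.sinh_neg, Real.cosh_neg, ← Real.arctan_neg]
  congr 1; ring

namespace A

/-- `lnA` of affine forms -/
def lnA (a b : A) : Option A :=
  let X := a.nf
  let T := b.nf
  match lsD X T with
  | none => none
  | some l =>
    let v := l.vA
    let u := l.vU
    let w := l.vW
    cond l.ok (cond (Nat.beq T.q 0)
      (some (app2 X T (Nat.add T.r 1) (Nat.add T.tot 1) v.p v.q v.e u.p u.q u.e w.p w.q w.e (lnK X T l)))
      (some (app2 X T (Nat.add T.r 1) (Nat.add T.tot 1) v.p v.q v.e u.p u.q u.e w.q w.p w.e (lnK X T l)))) none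

/-- `lnB` of affine forms -/
def lnB (a b : A) : Option A :=
  let X := a.nf
  let T := b.nf
  match lsD X T with
  | none => none
  | some l =>
    let u := l.vU
    let w := l.vW
    cond l.ok (match l.vB with
      | none => none
      | some v => cond (Nat.beq T.q 0)
        (some (app2 X T (Nat.add T.r 1) (Nat.add T.tot 1) v.p v.q v.e w.q w.p w.e u.p u.q u.e (lnK X T l)))
        (some (app2 X T (Nat.add T.r 1) (Nat.add T.tot 1) v.q v.p v.e w.p w.q w.e u.p u.q u.e (lnK X T l)))) none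

end A

lemma R3.Good.neg {r : R3} {v : ℝ} (h : r.Good v) : R3.Good ⟨r.q, r.p, r.e⟩ (-v) := by
  unfold R3.Good at *
  change |(-v) * DR - ((r.q : ℝ) - r.p)| ≤ r.e
  rw [← abs_neg]
  convert h using 2
  ring

/-- the common frame of the two nodes -/
lemma ln_frame {a b : A} {ε : ℕ → ℝ} {x t : ℝ} (hε : ∀ i, |ε i| ≤ 1) (hx : a.Encl ε x)
    (ht : b.Encl ε t) {l : LS} (hl : lsD a.nf b.nf = some l) {σ : ℝ}
    (hσ : σ = 1 ∧ b.nf.q = 0 ∨ σ = -1 ∧ b.nf.p = 0) :
    |x * DR - ((((a.nf.p : ℝ) - a.nf.q) / DR) * DR + a.nf.g.ev ε)| ≤ a.nf.r ∧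
    |x * DR - (((a.nf.p : ℝ) - a.nf.q) / DR) * DR| ≤ a.nf.tot ∧
    |t * DR - (σ * ((l.m : ℝ) / (Real.pi * DR)) * DR + b.nf.g.ev ε)| ≤ ((Nat.add b.nf.r 1 : ℕ) : ℝ) ∧
    |t * DR - σ * ((l.m : ℝ) / (Real.pi * DR)) * DR| ≤ ((Nat.add b.nf.tot 1 : ℕ) : ℝ) := by
  have hD := DR_pos
  have hpi := Real.pi_pos
  have hx := hx.nf
  have ht := ht.nf
  obtain ⟨-, hm, -⟩ := lsD_spec (A.nf_normal a) hl
  have e1 : (((a.nf.p : ℝ) - a.nf.q) / DR) * DR = (a.nf.p : ℝ) - a.nf.q := by field_simp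
  have e2 : σ * ((l.m : ℝ) / (Real.pi * DR)) * DR = σ * ((l.m : ℝ) / Real.pi) := by field_simp
  have hc : |((b.nf.p : ℝ) - b.nf.q) - σ * ((l.m : ℝ) / Real.pi)| ≤ 1 := by
    rcases hσ with ⟨h1, h2⟩ | ⟨h1, h2⟩
    · rw [h1, h2]
      rw [h2] at hm
      simpa using hm
    · rw [h1, h2]
      rw [h2] at hm
      rw [← abs_neg]
      convert hm using 2
      push_cast; ring
  have t1 := hx.tot hε
  have t2 := ht.tot hε
  unfold A.Encl at hx ht
  rw [e1, e2]
  refine ⟨hx, t1, ?_, ?_⟩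
  · have e : t * DR - (σ * ((l.m : ℝ) / Real.pi) + b.nf.g.ev ε) =
        (t * DR - ((b.nf.p : ℝ) - b.nf.q + b.nf.g.ev ε)) +
        (((b.nf.p : ℝ) - b.nf.q) - σ * ((l.m : ℝ) / Real.pi)) := by ring
    rw [e]
    change _ ≤ ((b.nf.r + 1 : ℕ) : ℝ)
    push_cast
    exact (abs_add_le _ _).trans (add_le_add ht hc)
  · have e : t * DR - σ * ((l.m : ℝ) / Real.pi) =
        (t * DR - ((b.nf.p : ℝ) - b.nf.q)) +
        (((b.nf.p : ℝ) - b.nf.q) - σ * ((l.m : ℝ) / Real.pi)) := by ring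
    rw [e]
    change _ ≤ ((b.nf.tot + 1 : ℕ) : ℝ)
    push_cast
    exact (abs_add_le _ _).trans (add_le_add t2 hc)

theorem A.Encl.lnA {a b c : A} {ε : ℕ → ℝ} {x t : ℝ} (hε : ∀ i, |ε i| ≤ 1) (hx : a.Encl ε x)
    (ht : b.Encl ε t) (h : a.lnA b = some c) : c.Encl ε (NumI.lnA x t) := by
  have hD := DR_pos
  unfold A.lnA at h
  simp only at h
  rcases hl : lsD a.nf b.nf with _ | l
  · rw [hl] at h; exact absurd h (by simp)
  rw [hl] at h
  simp only at h
  rcases hok : l.ok with _ | _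
  · rw [hok] at h; exact absurd h (by simp)
  rw [hok, cond_true] at h
  obtain ⟨hg, -, hs⟩ := lsD_spec (A.nf_normal a) hl
  obtain ⟨o1, o2, -, -⟩ := LS.ok_spec hok
  have gA := hg.vA o1 o2
  have gU := hg.vU hok
  have gW := hg.vW hok
  set x0 := ((a.nf.p : ℝ) - a.nf.q) / DR with hx0
  set t0 := (l.m : ℝ) / (Real.pi * DR) with ht0
  have hDx : ∀ y z : ℝ, (y * DR + z) / DR = y + z / DR := by intro y z; field_simp
  have hDx' : ∀ y : ℝ, y * DR / DR = y := by intro y; field_simp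
  rcases hq : Nat.beq b.nf.q 0 with _ | _
  · rw [hq, cond_false] at h
    have hq0 : b.nf.q ≠ 0 := fun h0 => by rw [h0] at hq; exact absurd hq (by decide)
    have hp : b.nf.p = 0 := (A.nf_normal b).resolve_right hq0
    obtain ⟨f1, f2, f3, f4⟩ := ln_frame hε hx ht hl (σ := -1) (Or.inr ⟨rfl, hp⟩)
    have h := Option.some.inj h
    rw [← h]
    refine A.app2_spec hε f1 f2 f3 f4 NumI.lnA (Real.pi * PP x0 t0) (-(Real.pi * QQ x0 t0)) ?_ gU
      gW.neg ?_
    · rw [hDx', hDx', neg_one_mul, lnA_neg]; exact gA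
    · intro u v hu hv
      have k := (lnK_spec (T := b.nf) hg (Or.inr rfl : (-1 : ℝ) = 1 ∨ (-1 : ℝ) = -1) hs hu hv).1
      rw [hDx, hDx, hDx', hDx']
      have e : NumI.lnA (x0 + u / DR) (-1 * t0 + v / DR) * DR - NumI.lnA x0 (-1 * t0) * DR -
          (Real.pi * PP x0 t0 * u + -(Real.pi * QQ x0 t0) * v) =
          (NumI.lnA (x0 + u / DR) (-1 * t0 + v / DR) - NumI.lnA x0 (-1 * t0) -
          Real.pi * (u / DR * PP x0 (-1 * t0) + v / DR * QQ x0 (-1 * t0))) * DR := by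
        rw [neg_one_mul, PP_neg, QQ_neg]
        field_simp
      rw [e, abs_mul, abs_of_pos hD]
      exact k
  · rw [hq, cond_true] at h
    have hq0 : b.nf.q = 0 := Nat.eq_of_beq_eq_true hq
    obtain ⟨f1, f2, f3, f4⟩ := ln_frame hε hx ht hl (σ := 1) (Or.inl ⟨rfl, hq0⟩)
    have h := Option.some.inj h
    rw [← h]
    refine A.app2_spec hε f1 f2 f3 f4 NumI.lnA (Real.pi * PP x0 t0) (Real.pi * QQ x0 t0) ?_ gU
      gW ?_
    · rw [hDx', hDx', one_mul]; exact gA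
    · intro u v hu hv
      have k := (lnK_spec (T := b.nf) hg (Or.inl rfl : (1 : ℝ) = 1 ∨ (1 : ℝ) = -1) hs hu hv).1
      rw [hDx, hDx, hDx', hDx']
      have e : NumI.lnA (x0 + u / DR) (1 * t0 + v / DR) * DR - NumI.lnA x0 (1 * t0) * DR -
          (Real.pi * PP x0 t0 * u + Real.pi * QQ x0 t0 * v) =
          (NumI.lnA (x0 + u / DR) (1 * t0 + v / DR) - NumI.lnA x0 (1 * t0) -
          Real.pi * (u / DR * PP x0 (1 * t0) + v / DR * QQ x0 (1 * t0))) * DR := by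
        rw [one_mul]
        field_simp
      rw [e, abs_mul, abs_of_pos hD]
      exact k

theorem A.Encl.lnB {a b c : A} {ε : ℕ → ℝ} {x t : ℝ} (hε : ∀ i, |ε i| ≤ 1) (hx : a.Encl ε x)
    (ht : b.Encl ε t) (h : a.lnB b = some c) : c.Encl ε (NumI.lnB x t) := by
  have hD := DR_pos
  unfold A.lnB at h
  simp only at h
  rcases hl : lsD a.nf b.nf with _ | l
  · rw [hl] at h; exact absurd h (by simp)
  rw [hl] at h
  simp only at h
  rcases hok : l.ok with _ | _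
  · rw [hok] at h; exact absurd h (by simp)
  rw [hok, cond_true] at h
  rcases hb : l.vB with _ | v
  · rw [hb] at h; exact absurd h (by simp)
  rw [hb] at h
  simp only at h
  obtain ⟨hg, -, hs⟩ := lsD_spec (A.nf_normal a) hl
  have gB := hg.vB hb
  have gU := hg.vU hok
  have gW := hg.vW hok
  set x0 := ((a.nf.p : ℝ) - a.nf.q) / DR with hx0
  set t0 := (l.m : ℝ) / (Real.pi * DR) with ht0
  have hDx : ∀ y z : ℝ, (y * DR + z) / DR = y + z / DR := by intro y z; field_simp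
  have hDx' : ∀ y : ℝ, y * DR / DR = y := by intro y; field_simp
  rcases hq : Nat.beq b.nf.q 0 with _ | _
  · rw [hq, cond_false] at h
    have hq0 : b.nf.q ≠ 0 := fun h0 => by rw [h0] at hq; exact absurd hq (by decide)
    have hp : b.nf.p = 0 := (A.nf_normal b).resolve_right hq0
    obtain ⟨f1, f2, f3, f4⟩ := ln_frame hε hx ht hl (σ := -1) (Or.inr ⟨rfl, hp⟩)
    have h := Option.some.inj h
    rw [← h]
    refine A.app2_spec hε f1 f2 f3 f4 NumI.lnB (Real.pi * QQ x0 t0) (Real.pi * PP x0 t0) ?_ gW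
      gU ?_
    · rw [hDx', hDx', neg_one_mul, lnB_neg]; exact gB.neg
    · intro u v hu hv
      have k := (lnK_spec (T := b.nf) hg (Or.inr rfl : (-1 : ℝ) = 1 ∨ (-1 : ℝ) = -1) hs hu hv).2
      rw [hDx, hDx, hDx', hDx']
      have e : NumI.lnB (x0 + u / DR) (-1 * t0 + v / DR) * DR - NumI.lnB x0 (-1 * t0) * DR -
          (Real.pi * QQ x0 t0 * u + Real.pi * PP x0 t0 * v) =
          (NumI.lnB (x0 + u / DR) (-1 * t0 + v / DR) - NumI.lnB x0 (-1 * t0) -
          Real.pi * (v / DR * PP x0 (-1 * t0) - u / DR * QQ x0 (-1 * t0))) * DR := by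
        rw [neg_one_mul, PP_neg, QQ_neg]
        field_simp
        ring
      rw [e, abs_mul, abs_of_pos hD]
      exact k
  · rw [hq, cond_true] at h
    have hq0 : b.nf.q = 0 := Nat.eq_of_beq_eq_true hq
    obtain ⟨f1, f2, f3, f4⟩ := ln_frame hε hx ht hl (σ := 1) (Or.inl ⟨rfl, hq0⟩)
    have h := Option.some.inj h
    rw [← h]
    refine A.app2_spec hε f1 f2 f3 f4 NumI.lnB (-(Real.pi * QQ x0 t0)) (Real.pi * PP x0 t0) ?_
      gW.neg gU ?_
    · rw [hDx', hDx', one_mul]; exact gB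
    · intro u v hu hv
      have k := (lnK_spec (T := b.nf) hg (Or.inl rfl : (1 : ℝ) = 1 ∨ (1 : ℝ) = -1) hs hu hv).2
      rw [hDx, hDx, hDx', hDx']
      have e : NumI.lnB (x0 + u / DR) (1 * t0 + v / DR) * DR - NumI.lnB x0 (1 * t0) * DR -
          (-(Real.pi * QQ x0 t0) * u + Real.pi * PP x0 t0 * v) =
          (NumI.lnB (x0 + u / DR) (1 * t0 + v / DR) - NumI.lnB x0 (1 * t0) -
          Real.pi * (v / DR * PP x0 (1 * t0) - u / DR * QQ x0 (1 * t0))) * DR := by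
        rw [one_mul]
        field_simp
        ring
      rw [e, abs_mul, abs_of_pos hD]
      exact k

end Pool.Agent.Work.NumI
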