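import Mathlib
import Pool.Agent.Work.NumI.LnAff

/-!
# Verified numerics for the kernel, part 7: expressions, boxes and the bisection checker

* `E` is a type of expressions in real variables `var 0, var 1, ...` with rational constants, `π`,
  `+ - * neg ⁻¹ ^2`, `cos (π x)`, `sin (π x)`, `exp`, `log`, `cosh`, `sinh`, `arctan`,
  `lnA x t = log |2 sin π(x + i t)|`, `lnB x t = arg sin π(x + i t)` (`0 < x < 1`) and `let`
  (`lt a b` adds the value of `a` as the next variable, for shared subexpressions of `b`).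
* `E.val e xs` is the value at the point `xs : List ℝ`.
* `chk es fuel vs : Bool` bisects the box `vs : List V` until on every piece one of the expressions
  `es` is positive; `chk_sound` says that then at every point of the box one of the `es` is positive.
-/

namespace Pool.Agent.Work.NumI

/-- look-up -/
def lkR : List ℝ → ℕ → ℝ
  | [], _ => 0
  | x :: _, 0 => x
  | _ :: t, n + 1 => lkR t n

@[simp] lemma lkR_zero (x : ℝ) (t : List ℝ) : lkR (x :: t) 0 = x := rfl
@[simp] lemma lkR_succ (x : ℝ) (t : List ℝ) (n : ℕ) : lkR (x :: t) (n + 1) = lkR t n := rfl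
@[simp] lemma lkR_one (x y : ℝ) (t : List ℝ) : lkR (x :: y :: t) 1 = y := rfl

def lkA : List A → ℕ → A
  | [], _ => ⟨0, 0, 0, G.nil⟩
  | x :: _, 0 => x
  | _ :: t, n + 1 => lkA t n

/-- expressions -/
inductive E where
  | var : ℕ → E
  | q : ℤ → ℕ → E
  | pi : E
  | add : E → E → E
  | sub : E → E → E
  | mul : E → E → E
  | neg : E → E
  | inv : E → E
  | sq : E → E
  | cosPi : E → E
  | sinPi : E → E
  | exp : E → E
  | log : E → E
  | cosh : E → E
  | sinh : E → E
  | atan : E → E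
  | lnA : E → E → E
  | lnB : E → E → E
  | lt : E → E → E

namespace E

/-- the real value -/
noncomputable def val : E → List ℝ → ℝ
  | var i, xs => lkR xs i
  | q n d, _ => (n : ℝ) / d
  | pi, _ => Real.pi
  | add a b, xs => a.val xs + b.val xs
  | sub a b, xs => a.val xs - b.val xs
  | mul a b, xs => a.val xs * b.val xs
  | neg a, xs => -a.val xs
  | inv a, xs => (a.val xs)⁻¹
  | sq a, xs => (a.val xs) ^ 2
  | cosPi a, xs => Real.cos (Real.pi * a.val xs)
  | sinPi a, xs => Real.sin (Real.pi * a.val xs)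
  | exp a, xs => Real.exp (a.val xs)
  | log a, xs => Real.log (a.val xs)
  | cosh a, xs => Real.cosh (a.val xs)
  | sinh a, xs => Real.sinh (a.val xs)
  | atan a, xs => Real.arctan (a.val xs)
  | lnA a b, xs => NumI.lnA (a.val xs) (b.val xs)
  | lnB a b, xs => NumI.lnB (a.val xs) (b.val xs)
  | lt a b, xs => b.val (xs ++ [a.val xs])

end E

namespace A

/-- a rational constant -/
def cst : ℤ → ℕ → A
  | Int.ofNat k, d => ⟨Nat.div (Nat.mul k 68719476736) d, 0, 1, G.nil⟩
  | Int.negSucc k, d => ⟨0, Nat.div (Nat.mul (Nat.add k 1) 68719476736) d, 1, G.nil⟩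

lemma cst_aux (k d : ℕ) : |(k : ℝ) / d * DR - ((k * 68719476736 / d : ℕ) : ℝ)| ≤ 1 := by
  rcases Nat.eq_zero_or_pos d with h | h
  · rw [h]; simp
  · have h1 := ndiv_le (k * 68719476736) d
    have h2 := lt_ndiv (k * 68719476736) h
    rw [Nat.cast_mul, DN_cast] at h1 h2
    have e : (k : ℝ) / d * DR = k * DR / d := by ring
    rw [e, abs_le]
    constructor <;> linarith only [h1, h2]

lemma Encl_cst (n : ℤ) (d : ℕ) (ε : ℕ → ℝ) : (A.cst n d).Encl ε ((n : ℝ) / d) := by
  rcases n with k | k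
  · have := cst_aux k d
    change |((Int.ofNat k : ℤ) : ℝ) / d * DR -
      (((k * 68719476736 / d : ℕ) : ℝ) - ((0 : ℕ) : ℝ) + 0)| ≤ ((1 : ℕ) : ℝ)
    simpa using this
  · have := cst_aux (k + 1) d
    change |((Int.negSucc k : ℤ) : ℝ) / d * DR -
      (((0 : ℕ) : ℝ) - (((k + 1) * 68719476736 / d : ℕ) : ℝ) + 0)| ≤ ((1 : ℕ) : ℝ)
    rw [← abs_neg]
    have e : -(((Int.negSucc k : ℤ) : ℝ) / d * DR -
      (((0 : ℕ) : ℝ) - (((k + 1) * 68719476736 / d : ℕ) : ℝ) + 0)) =
      ((k + 1 : ℕ) : ℝ) / d * DR - (((k + 1) * 68719476736 / d : ℕ) : ℝ) := by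
      rw [Int.cast_negSucc]; push_cast; ring
    rw [e]
    simpa using this

/-- the constant `π` -/
def pi : A := ⟨215888603272, 0, 2, G.nil⟩

lemma Encl_pi (ε : ℕ → ℝ) : (A.pi).Encl ε Real.pi := by
  have h3 := Real.pi_gt_d20
  have h4 := Real.pi_lt_d20
  change |Real.pi * DR - (((215888603272 : ℕ) : ℝ) - ((0 : ℕ) : ℝ) + 0)| ≤ ((2 : ℕ) : ℝ)
  unfold DR
  push_cast
  rw [abs_le]
  constructor <;> linarith only [h3, h4]

/-- square, normalised -/
def sqn (a : A) : A := a.nf.sq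

end A

def op2 (f : A → A → A) (x y : Option A) : Option A :=
  match x with
  | none => none
  | some a => match y with
    | none => none
    | some b => some (f a b)

def op3 (f : A → A → Option A) (x y : Option A) : Option A :=
  match x with
  | none => none
  | some a => match y with
    | none => none
    | some b => f a b

def op1 (f : A → A) (x : Option A) : Option A :=
  match x with
  | none => none
  | some a => some (f a)

def op0 (f : A → Option A) (x : Option A) : Option A :=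
  match x with
  | none => none
  | some a => f a

/-- evaluation with affine forms -/
def E.ev : E → List A → Option A
  | E.var i, xs => some (lkA xs i)
  | E.q n d, _ => some (A.cst n d)
  | E.pi, _ => some A.pi
  | E.add a b, xs => op2 A.add (a.ev xs) (b.ev xs)
  | E.sub a b, xs => op2 A.sub (a.ev xs) (b.ev xs)
  | E.mul a b, xs => op2 A.mul (a.ev xs) (b.ev xs)
  | E.neg a, xs => op1 A.neg (a.ev xs)
  | E.inv a, xs => op0 A.inv (a.ev xs)
  | E.sq a, xs => op1 A.sqn (a.ev xs)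
  | E.cosPi a, xs => op1 A.cosPi (a.ev xs)
  | E.sinPi a, xs => op1 A.sinPi (a.ev xs)
  | E.exp a, xs => op0 A.exp (a.ev xs)
  | E.log a, xs => op0 A.log (a.ev xs)
  | E.cosh a, xs => op0 (A.hyp true) (a.ev xs)
  | E.sinh a, xs => op0 (A.hyp false) (a.ev xs)
  | E.atan a, xs => op0 A.atan (a.ev xs)
  | E.lnA a b, xs => op3 A.lnA (a.ev xs) (b.ev xs)
  | E.lnB a b, xs => op3 A.lnB (a.ev xs) (b.ev xs)
  | E.lt a b, xs => match a.ev xs with
    | none => none
    | some c => b.ev (xs ++ [c])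

lemma op2_some {f : A → A → A} {x y : Option A} {c : A} (h : op2 f x y = some c) :
    ∃ a b, x = some a ∧ y = some b ∧ c = f a b := by
  unfold op2 at h
  rcases x with _ | a
  · simp at h
  · rcases y with _ | b
    · simp at h
    · exact ⟨a, b, rfl, rfl, (Option.some.inj h).symm⟩

lemma op3_some {f : A → A → Option A} {x y : Option A} {c : A} (h : op3 f x y = some c) :
    ∃ a b, x = some a ∧ y = some b ∧ f a b = some c := by
  unfold op3 at h
  rcases x with _ | a
  · simp at h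
  · rcases y with _ | b
    · simp at h
    · exact ⟨a, b, rfl, rfl, h⟩

lemma op1_some {f : A → A} {x : Option A} {c : A} (h : op1 f x = some c) :
    ∃ a, x = some a ∧ c = f a := by
  unfold op1 at h
  rcases x with _ | a
  · simp at h
  · exact ⟨a, rfl, (Option.some.inj h).symm⟩

lemma op0_some {f : A → Option A} {x : Option A} {c : A} (h : op0 f x = some c) :
    ∃ a, x = some a ∧ f a = some c := by
  unfold op0 at h
  rcases x with _ | a
  · simp at h
  · exact ⟨a, rfl, h⟩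

lemma Encl_lk {ε : ℕ → ℝ} : ∀ {as : List A} {xs : List ℝ}, List.Forall₂ (fun a x => a.Encl ε x) as xs →
    ∀ i, (lkA as i).Encl ε (lkR xs i)
  | _, _, List.Forall₂.nil, i => by
    unfold lkA lkR A.Encl
    simp [G.ev]
  | _, _, List.Forall₂.cons h t, 0 => h
  | _, _, List.Forall₂.cons h t, i + 1 => Encl_lk t i

theorem E.ev_sound {ε : ℕ → ℝ} (hε : ∀ i, |ε i| ≤ 1) : ∀ (e : E) {as : List A} {xs : List ℝ} {c : A},
    List.Forall₂ (fun a x => a.Encl ε x) as xs → e.ev as = some c → c.Encl ε (e.val xs)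
  | E.var i, as, xs, c, h, he => by
    have := Option.some.inj he
    rw [← this]; exact Encl_lk h i
  | E.q n d, as, xs, c, h, he => by
    have := Option.some.inj he
    rw [← this]; exact A.Encl_cst n d ε
  | E.pi, as, xs, c, h, he => by
    have := Option.some.inj he
    rw [← this]; exact A.Encl_pi ε
  | E.add a b, as, xs, c, h, he => by
    obtain ⟨u, v, hu, hv, rfl⟩ := op2_some he
    exact (E.ev_sound hε a h hu).add (E.ev_sound hε b h hv)
  | E.sub a b, as, xs, c, h, he => by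
    obtain ⟨u, v, hu, hv, rfl⟩ := op2_some he
    exact (E.ev_sound hε a h hu).sub (E.ev_sound hε b h hv)
  | E.mul a b, as, xs, c, h, he => by
    obtain ⟨u, v, hu, hv, rfl⟩ := op2_some he
    exact (E.ev_sound hε a h hu).mul hε (E.ev_sound hε b h hv)
  | E.neg a, as, xs, c, h, he => by
    obtain ⟨u, hu, rfl⟩ := op1_some he
    exact (E.ev_sound hε a h hu).neg
  | E.inv a, as, xs, c, h, he => by
    obtain ⟨u, hu, hc⟩ := op0_some he
    exact (E.ev_sound hε a h hu).inv hε hc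
  | E.sq a, as, xs, c, h, he => by
    obtain ⟨u, hu, rfl⟩ := op1_some he
    exact ((E.ev_sound hε a h hu).nf).sq hε (A.nf_normal u)
  | E.cosPi a, as, xs, c, h, he => by
    obtain ⟨u, hu, rfl⟩ := op1_some he
    exact (E.ev_sound hε a h hu).cosPi hε
  | E.sinPi a, as, xs, c, h, he => by
    obtain ⟨u, hu, rfl⟩ := op1_some he
    exact (E.ev_sound hε a h hu).sinPi hε
  | E.exp a, as, xs, c, h, he => by
    obtain ⟨u, hu, hc⟩ := op0_some he
    exact (E.ev_sound hε a h hu).exp hε hc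
  | E.log a, as, xs, c, h, he => by
    obtain ⟨u, hu, hc⟩ := op0_some he
    exact (E.ev_sound hε a h hu).log hε hc
  | E.cosh a, as, xs, c, h, he => by
    obtain ⟨u, hu, hc⟩ := op0_some he
    exact (E.ev_sound hε a h hu).hyp hε hc
  | E.sinh a, as, xs, c, h, he => by
    obtain ⟨u, hu, hc⟩ := op0_some he
    exact (E.ev_sound hε a h hu).hyp hε hc
  | E.atan a, as, xs, c, h, he => by
    obtain ⟨u, hu, hc⟩ := op0_some he
    exact (E.ev_sound hε a h hu).atan hε hc
  | E.lnA a b, as, xs, c, h, he => by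
    obtain ⟨u, v, hu, hv, hc⟩ := op3_some he
    exact (E.ev_sound hε a h hu).lnA hε (E.ev_sound hε b h hv) hc
  | E.lnB a b, as, xs, c, h, he => by
    obtain ⟨u, v, hu, hv, hc⟩ := op3_some he
    exact (E.ev_sound hε a h hu).lnB hε (E.ev_sound hε b h hv) hc
  | E.lt a b, as, xs, c, h, he => by
    unfold E.ev at he
    rcases ha : a.ev as with _ | u
    · rw [ha] at he; exact absurd he (by simp)
    · rw [ha] at he
      have h1 := E.ev_sound hε a h ha
      have h2 : List.Forall₂ (fun a x => a.Encl ε x) (as ++ [u]) (xs ++ [a.val xs]) :=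
        List.rel_append h (List.Forall₂.cons h1 List.Forall₂.nil)
      exact E.ev_sound hε b h2 he

/-! ### boxes -/

/-- a range `[p - q + a, p - q + b] / D` of a variable; `k` is a weight for the choice of the
variable to bisect -/
structure V where
  p : ℕ
  q : ℕ
  a : ℕ
  b : ℕ
  k : ℕ

def V.Mem (v : V) (x : ℝ) : Prop :=
  (v.p : ℝ) - v.q + v.a ≤ x * DR ∧ x * DR ≤ (v.p : ℝ) - v.q + v.b

def G.sh : ℕ → G → G
  | 0, g => g
  | n + 1, g => G.z (G.sh n g)

lemma G.ev_sh : ∀ (n : ℕ) (g : G) (ε : ℕ → ℝ), (G.sh n g).ev ε = g.ev (fun i => ε (i + n))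
  | 0, g, ε => rfl
  | n + 1, g, ε => by
    have := G.ev_sh n g (fun i => ε (i + 1))
    simp only [G.sh, G.ev, this]
    congr 1

def V.aff (i : ℕ) (v : V) : A :=
  let m := Nat.div (Nat.add v.a v.b) 2
  ⟨Nat.sub (Nat.add v.p m) v.q, Nat.sub v.q (Nat.add v.p m), 0, G.sh i (G.c (Nat.sub v.b m) 0 G.nil)⟩

def mkEnv : ℕ → List V → List A
  | _, [] => []
  | i, v :: t => V.aff i v :: mkEnv (i + 1) t

noncomputable def V.noise (v : V) (x : ℝ) : ℝ :=
  (x * DR - ((v.p : ℝ) - v.q + ((v.a + v.b) / 2 : ℕ))) / ((v.b - (v.a + v.b) / 2 : ℕ) : ℝ)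

lemma V.noise_spec {v : V} {x : ℝ} (h : v.Mem x) : |v.noise x| ≤ 1 ∧
    ((v.b - (v.a + v.b) / 2 : ℕ) : ℝ) * v.noise x =
      x * DR - ((v.p : ℝ) - v.q + ((v.a + v.b) / 2 : ℕ)) := by
  obtain ⟨h1, h2⟩ := h
  have hab : v.a ≤ v.b := by
    have : (v.a : ℝ) ≤ v.b := by linarith only [h1, h2]
    exact_mod_cast this
  set m := (v.a + v.b) / 2 with hm
  have hmb : m ≤ v.b := by omega
  have hma : v.a ≤ m := by omega
  have hmm : 2 * m ≤ v.a + v.b := by omega
  have c1 : ((v.b - m : ℕ) : ℝ) = v.b - m := Nat.cast_sub hmb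
  have c2 : 2 * (m : ℝ) ≤ v.a + v.b := by exact_mod_cast hmm
  have c3 : (v.a : ℝ) ≤ m := by exact_mod_cast hma
  have hb : |x * DR - ((v.p : ℝ) - v.q + m)| ≤ ((v.b - m : ℕ) : ℝ) := by
    rw [c1, abs_le]; constructor <;> linarith only [h1, c2, h2]
  unfold V.noise
  rcases Nat.eq_zero_or_pos (v.b - m) with h0 | h0
  · rw [h0, Nat.cast_zero] at hb
    have : |x * DR - ((v.p : ℝ) - v.q + m)| = 0 := le_antisymm hb (abs_nonneg _)
    rw [abs_eq_zero] at this
    rw [← hm, h0, this]; simp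
  · have h0' : (0 : ℝ) < ((v.b - m : ℕ) : ℝ) := by exact_mod_cast h0
    rw [← hm]
    constructor
    · rw [abs_div, abs_of_pos h0', div_le_one h0']; exact hb
    · rw [mul_div_cancel₀]; exact h0'.ne'

lemma V.aff_spec {v : V} {x : ℝ} (h : v.Mem x) {ε : ℕ → ℝ} {i : ℕ} (hi : ε i = v.noise x) :
    (V.aff i v).Encl ε x := by
  obtain ⟨-, h2⟩ := V.noise_spec h
  have k := sub_sub_cast (v.p + (v.a + v.b) / 2) v.q
  unfold V.aff A.Encl
  change |x * DR - (((v.p + (v.a + v.b) / 2 - v.q : ℕ) : ℝ) - ((v.q - (v.p + (v.a + v.b) / 2) : ℕ) : ℝ) +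
    (G.sh i (G.c (v.b - (v.a + v.b) / 2) 0 G.nil)).ev ε)| ≤ ((0 : ℕ) : ℝ)
  rw [k, G.ev_sh]
  simp only [G.ev, zero_add, hi, Nat.cast_zero, sub_zero, add_zero]
  rw [h2]
  push_cast
  have e : x * DR - ((v.p : ℝ) + ((v.a + v.b) / 2 : ℕ) - v.q +
      (x * DR - ((v.p : ℝ) - v.q + ((v.a + v.b) / 2 : ℕ)))) = 0 := by ring
  rw [e]; simp

noncomputable def eps : List V → List ℝ → ℕ → ℝ
  | v :: _, x :: _, 0 => v.noise x
  | _ :: vs, _ :: xs, n + 1 => eps vs xs n
  | _, _, _ => 0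

lemma eps_le : ∀ {vs : List V} {xs : List ℝ}, List.Forall₂ V.Mem vs xs → ∀ i, |eps vs xs i| ≤ 1
  | _, _, List.Forall₂.nil, i => by unfold eps; simp
  | _, _, List.Forall₂.cons h t, 0 => by unfold eps; exact (V.noise_spec h).1
  | _, _, List.Forall₂.cons h t, i + 1 => by unfold eps; exact eps_le t i

lemma mkEnv_spec : ∀ {vs : List V} {xs : List ℝ} {ε : ℕ → ℝ} {i : ℕ}, List.Forall₂ V.Mem vs xs →
    (∀ n, ε (n + i) = eps vs xs n) → List.Forall₂ (fun a x => a.Encl ε x) (mkEnv i vs) xs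
  | _, _, ε, i, List.Forall₂.nil, hε => List.Forall₂.nil
  | v :: vs, x :: xs, ε, i, List.Forall₂.cons h t, hε => by
    refine List.Forall₂.cons (V.aff_spec h ?_) (mkEnv_spec t ?_)
    · have := hε 0
      rw [zero_add] at this
      rw [this]; rfl
    · intro n
      have := hε (n + 1)
      rw [← Nat.add_assoc, Nat.add_right_comm]
      rw [this]; rfl

/-! ### the checker -/

def posA (a : A) : Bool := Nat.ble (Nat.add (Nat.add a.q a.tot) 1) a.p

lemma posA_spec {a : A} {ε : ℕ → ℝ} {x : ℝ} (hε : ∀ i, |ε i| ≤ 1) (h : a.Encl ε x)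
    (hp : posA a = true) : 0 < x := by
  have h1 := h.tot hε
  have h2 := Nat.le_of_ble_eq_true hp
  have h3 : ((a.q + a.tot + 1 : ℕ) : ℝ) ≤ a.p := by exact_mod_cast h2
  push_cast at h3
  have h4 := (abs_le.1 h1).1
  have h5 : 0 < x * DR := by linarith only [h3, h4]
  exact (mul_pos_iff_of_pos_right DR_pos).1 h5

def posO : Option A → Bool
  | none => false
  | some a => posA a

def tryE (env : List A) : List E → Bool
  | [] => false
  | e :: es => cond (posO (e.ev env)) true (tryE env es)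

lemma tryE_spec {env : List A} {ε : ℕ → ℝ} {xs : List ℝ} (hε : ∀ i, |ε i| ≤ 1)
    (henv : List.Forall₂ (fun a x => a.Encl ε x) env xs) :
    ∀ {es : List E}, tryE env es = true → ∃ e ∈ es, 0 < e.val xs
  | [], h => absurd h (by simp [tryE])
  | e :: es, h => by
    unfold tryE at h
    rcases h1 : posO (e.ev env) with _ | _
    · rw [h1, cond_false] at h
      obtain ⟨e', he', hp⟩ := tryE_spec hε henv h
      exact ⟨e', List.mem_cons_of_mem _ he', hp⟩
    · rcases h2 : e.ev env with _ | c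
      · rw [h2] at h1; exact absurd h1 (by simp [posO])
      · rw [h2] at h1
        exact ⟨e, List.mem_cons_self, posA_spec hε (E.ev_sound hε e henv h2) h1⟩

def V.left (v : V) : V := ⟨v.p, v.q, v.a, Nat.div (Nat.add v.a v.b) 2, v.k⟩
def V.right (v : V) : V := ⟨v.p, v.q, Nat.div (Nat.add v.a v.b) 2, v.b, v.k⟩

lemma V.split {v : V} {x : ℝ} (h : v.Mem x) : v.left.Mem x ∨ v.right.Mem x := by
  rcases le_total (x * DR) ((v.p : ℝ) - v.q + (((v.a + v.b) / 2 : ℕ) : ℝ)) with h1 | h1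
  · left; exact ⟨h.1, h1⟩
  · right; exact ⟨h1, h.2⟩

def setL : ℕ → List V → List V
  | _, [] => []
  | 0, v :: t => v.left :: t
  | i + 1, v :: t => v :: setL i t

def setR : ℕ → List V → List V
  | _, [] => []
  | 0, v :: t => v.right :: t
  | i + 1, v :: t => v :: setR i t

lemma set_split : ∀ {i : ℕ} {vs : List V} {xs : List ℝ}, List.Forall₂ V.Mem vs xs →
    List.Forall₂ V.Mem (setL i vs) xs ∨ List.Forall₂ V.Mem (setR i vs) xs
  | i, _, _, List.Forall₂.nil => by
    left; cases i <;> exact List.Forall₂.nil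
  | 0, _, _, List.Forall₂.cons h t => by
    rcases V.split h with h1 | h1
    · left; exact List.Forall₂.cons h1 t
    · right; exact List.Forall₂.cons h1 t
  | i + 1, _, _, List.Forall₂.cons h t => by
    rcases set_split (i := i) t with h1 | h1
    · left; exact List.Forall₂.cons h h1
    · right; exact List.Forall₂.cons h h1

/-- index of the variable with the largest score `|g i| + k / 16 * width` -/
def best : List V → G → ℕ → ℕ → ℕ → ℕ
  | [], _, _, bi, _ => bi
  | v :: t, G.nil, i, bi, bs =>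
    let s := Nat.div (Nat.mul (Nat.sub v.b v.a) v.k) 16
    cond (Nat.ble s bs) (best t G.nil (Nat.add i 1) bi bs) (best t G.nil (Nat.add i 1) i s)
  | v :: t, G.z g, i, bi, bs =>
    let s := Nat.div (Nat.mul (Nat.sub v.b v.a) v.k) 16
    cond (Nat.ble s bs) (best t g (Nat.add i 1) bi bs) (best t g (Nat.add i 1) i s)
  | v :: t, G.c p q g, i, bi, bs =>
    let s := Nat.add (Nat.div (Nat.mul (Nat.sub v.b v.a) v.k) 16) (Nat.add p q)
    cond (Nat.ble s bs) (best t g (Nat.add i 1) bi bs) (best t g (Nat.add i 1) i s)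

def gradO : Option A → G
  | none => G.nil
  | some a => a.g

def grad1 (env : List A) : List E → G
  | [] => G.nil
  | e :: _ => gradO (e.ev env)

/-- the checker: bisect until one of the expressions is positive -/
def chk (es : List E) : ℕ → List V → Bool
  | 0, _ => false
  | n + 1, vs =>
    cond (tryE (mkEnv 0 vs) es) true
      (cond (chk es n (setL (best vs (grad1 (mkEnv 0 vs) es) 0 0 0) vs))
        (chk es n (setR (best vs (grad1 (mkEnv 0 vs) es) 0 0 0) vs)) false)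

theorem chk_sound {es : List E} : ∀ {n : ℕ} {vs : List V}, chk es n vs = true →
    ∀ {xs : List ℝ}, List.Forall₂ V.Mem vs xs → ∃ e ∈ es, 0 < e.val xs
  | 0, vs, h, xs, hx => absurd h (by simp [chk])
  | n + 1, vs, h, xs, hx => by
    unfold chk at h
    rcases h1 : tryE (mkEnv 0 vs) es with _ | _
    · rw [h1, cond_false] at h
      set i := best vs (grad1 (mkEnv 0 vs) es) 0 0 0
      rcases h2 : chk es n (setL i vs) with _ | _
      · rw [h2] at h; exact absurd h (by simp)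
      · rw [h2, cond_true] at h
        rcases set_split (i := i) hx with h3 | h3
        · exact chk_sound h2 h3
        · exact chk_sound h h3
    · have he := eps_le hx
      exact tryE_spec he (mkEnv_spec hx (fun n => rfl)) h1

/-! ### interface -/

/-- the range `[lo / N, hi / N]` -/
def V.of (N : ℕ) (lo hi : ℤ) (k : ℕ := 4) : V :=
  let l := (lo * 68719476736) / (N : ℤ)
  let h := -((-(hi * 68719476736)) / (N : ℤ))
  ⟨l.toNat, (-l).toNat, 0, (h - l).toNat, k⟩

lemma V.of_mem {N : ℕ} (hN : 0 < N) {lo hi : ℤ} {k : ℕ} {x : ℝ} (h1 : (lo : ℝ) / N ≤ x)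
    (h2 : x ≤ (hi : ℝ) / N) : (V.of N lo hi k).Mem x := by
  have hD := DR_pos
  have hN' : (0 : ℤ) < N := by exact_mod_cast hN
  have hNr : (0 : ℝ) < N := by exact_mod_cast hN
  set l := (lo * 68719476736) / (N : ℤ) with hl
  set h := -((-(hi * 68719476736)) / (N : ℤ)) with hh
  have a1 : l * N ≤ lo * 68719476736 := Int.ediv_mul_le _ hN'.ne'
  have a2 : hi * 68719476736 ≤ h * N := by
    have := Int.ediv_mul_le (-(hi * 68719476736)) hN'.ne'
    rw [hh]; linarith only [this]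
  have b1 : (l : ℝ) * N ≤ lo * DR := by
    have : ((l * N : ℤ) : ℝ) ≤ ((lo * 68719476736 : ℤ) : ℝ) := by exact_mod_cast a1
    unfold DR; push_cast at this; exact this
  have b2 : (hi : ℝ) * DR ≤ h * N := by
    have : ((hi * 68719476736 : ℤ) : ℝ) ≤ ((h * N : ℤ) : ℝ) := by exact_mod_cast a2
    unfold DR; push_cast at this; exact this
  have c1 : (l : ℝ) ≤ x * DR := by
    rw [div_le_iff₀ hNr] at h1
    have : (l : ℝ) * N ≤ (x * DR) * N := by nlinarith only [b1, h1, hD]
    exact le_of_mul_le_mul_right this hNr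
  have c2 : x * DR ≤ (h : ℝ) := by
    rw [le_div_iff₀ hNr] at h2
    have : (x * DR) * N ≤ (h : ℝ) * N := by nlinarith only [b2, h2, hD]
    exact le_of_mul_le_mul_right this hNr
  have hlh : l ≤ h := by exact_mod_cast c1.trans c2
  have e1 : ((l.toNat : ℕ) : ℝ) - (((-l).toNat : ℕ) : ℝ) = l := by
    have : ((l.toNat : ℕ) : ℤ) - (((-l).toNat : ℕ) : ℤ) = l := by omega
    exact_mod_cast this
  have e2 : (((h - l).toNat : ℕ) : ℝ) = h - l := by
    have : (((h - l).toNat : ℕ) : ℤ) = h - l := by omega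
    exact_mod_cast this
  change ((l.toNat : ℕ) : ℝ) - (((-l).toNat : ℕ) : ℝ) + ((0 : ℕ) : ℝ) ≤ x * DR ∧
    x * DR ≤ ((l.toNat : ℕ) : ℝ) - (((-l).toNat : ℕ) : ℝ) + (((h - l).toNat : ℕ) : ℝ)
  rw [e1, e2, Nat.cast_zero]
  constructor <;> linarith only [c1, c2]

/-- the range between two rational numbers -/
def V.ofQ (lo hi : ℚ) (k : ℕ := 4) : V := V.of (lo.den * hi.den) (lo.num * hi.den) (hi.num * lo.den) k

lemma V.ofQ_mem {lo hi : ℚ} {k : ℕ} {x : ℝ} (h1 : (lo : ℝ) ≤ x) (h2 : x ≤ (hi : ℝ)) :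
    (V.ofQ lo hi k).Mem x := by
  have hl : (0 : ℝ) < lo.den := by exact_mod_cast lo.pos
  have hh : (0 : ℝ) < hi.den := by exact_mod_cast hi.pos
  apply V.of_mem (Nat.mul_pos lo.pos hi.pos)
  · refine le_trans (le_of_eq ?_) h1
    rw [Rat.cast_def lo]
    push_cast
    rw [div_eq_div_iff (by positivity) (by positivity)]
    ring
  · refine le_trans h2 (le_of_eq ?_)
    rw [Rat.cast_def hi]
    push_cast
    rw [div_eq_div_iff (by positivity) (by positivity)]
    ring

/-- the result for boxes `Fin n → ℚ × ℚ` -/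
theorem chk_box {n : ℕ} {es : List E} {fuel : ℕ} {b : Fin n → ℚ × ℚ} {k : ℕ}
    (h : chk es fuel (List.ofFn fun i => V.ofQ (b i).1 (b i).2 k) = true)
    {x : Fin n → ℝ} (hx : ∀ i, ((b i).1 : ℝ) ≤ x i ∧ x i ≤ ((b i).2 : ℝ)) :
    ∃ e ∈ es, 0 < e.val (List.ofFn x) := by
  refine chk_sound h ?_
  rw [List.forall₂_iff_get]
  refine ⟨by simp, fun i h1 h2 => ?_⟩
  simp only [List.get_eq_getElem, List.getElem_ofFn]
  exact V.ofQ_mem (hx _).1 (hx _).2

theorem chk1 {es : List E} {fuel N : ℕ} {l1 h1 : ℤ} {k1 : ℕ}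
    (h : chk es fuel [V.of N l1 h1 k1] = true) (hN : 0 < N) {x : ℝ}
    (a1 : (l1 : ℝ) / N ≤ x) (b1 : x ≤ (h1 : ℝ) / N) : ∃ e ∈ es, 0 < e.val [x] :=
  chk_sound h (List.Forall₂.cons (V.of_mem hN a1 b1) List.Forall₂.nil)

theorem chk2 {es : List E} {fuel N : ℕ} {l1 h1 l2 h2 : ℤ} {k1 k2 : ℕ}
    (h : chk es fuel [V.of N l1 h1 k1, V.of N l2 h2 k2] = true) (hN : 0 < N) {x y : ℝ}
    (a1 : (l1 : ℝ) / N ≤ x) (b1 : x ≤ (h1 : ℝ) / N)
    (a2 : (l2 : ℝ) / N ≤ y) (b2 : y ≤ (h2 : ℝ) / N) : ∃ e ∈ es, 0 < e.val [x, y] :=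
  chk_sound h (List.Forall₂.cons (V.of_mem hN a1 b1) (List.Forall₂.cons (V.of_mem hN a2 b2)
    List.Forall₂.nil))

theorem chk3 {es : List E} {fuel N : ℕ} {l1 h1 l2 h2 l3 h3 : ℤ} {k1 k2 k3 : ℕ}
    (h : chk es fuel [V.of N l1 h1 k1, V.of N l2 h2 k2, V.of N l3 h3 k3] = true) (hN : 0 < N)
    {x y z : ℝ} (a1 : (l1 : ℝ) / N ≤ x) (b1 : x ≤ (h1 : ℝ) / N)
    (a2 : (l2 : ℝ) / N ≤ y) (b2 : y ≤ (h2 : ℝ) / N)
    (a3 : (l3 : ℝ) / N ≤ z) (b3 : z ≤ (h3 : ℝ) / N) : ∃ e ∈ es, 0 < e.val [x, y, z] :=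
  chk_sound h (List.Forall₂.cons (V.of_mem hN a1 b1) (List.Forall₂.cons (V.of_mem hN a2 b2)
    (List.Forall₂.cons (V.of_mem hN a3 b3) List.Forall₂.nil)))

theorem chk4 {es : List E} {fuel N : ℕ} {l1 h1 l2 h2 l3 h3 l4 h4 : ℤ} {k1 k2 k3 k4 : ℕ}
    (h : chk es fuel [V.of N l1 h1 k1, V.of N l2 h2 k2, V.of N l3 h3 k3, V.of N l4 h4 k4] = true)
    (hN : 0 < N) {x y z w : ℝ} (a1 : (l1 : ℝ) / N ≤ x) (b1 : x ≤ (h1 : ℝ) / N)
    (a2 : (l2 : ℝ) / N ≤ y) (b2 : y ≤ (h2 : ℝ) / N)
    (a3 : (l3 : ℝ) / N ≤ z) (b3 : z ≤ (h3 : ℝ) / N)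
    (a4 : (l4 : ℝ) / N ≤ w) (b4 : w ≤ (h4 : ℝ) / N) : ∃ e ∈ es, 0 < e.val [x, y, z, w] :=
  chk_sound h (List.Forall₂.cons (V.of_mem hN a1 b1) (List.Forall₂.cons (V.of_mem hN a2 b2)
    (List.Forall₂.cons (V.of_mem hN a3 b3) (List.Forall₂.cons (V.of_mem hN a4 b4)
      List.Forall₂.nil))))

theorem pos_of_chk {e : E} {xs : List ℝ} (h : ∃ e' ∈ [e], 0 < e'.val xs) :
    0 < e.val xs := by
  obtain ⟨e', he, hp⟩ := h
  simp only [List.mem_singleton] at he
  rwa [he] at hp

end Pool.Agent.Work.NumI
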