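import Mathlib
import Pool.Agent.Work.NumI.Expr

/-!
# Verified numerics for the kernel, part 8: fast affine forms

`F` is an affine form with exactly four noise symbols, a plain structure: the operations are
straight-line code, so the kernel evaluates them much faster than the operations of `A` (lists of
coefficients).  `F.toA` is compatible with all operations (by `rfl`), hence the soundness theorem
of `E.ev` can be used.  `E.evR` is the evaluation by the recursor of `E`.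
-/

namespace Pool.Agent.Work.NumI

/-- an affine form with four noise symbols -/
structure F where
  p : ℕ
  q : ℕ
  r : ℕ
  a0 : ℕ
  b0 : ℕ
  a1 : ℕ
  b1 : ℕ
  a2 : ℕ
  b2 : ℕ
  a3 : ℕ
  b3 : ℕ

namespace F

def toA (f : F) : A := ⟨f.p, f.q, f.r, G.c f.a0 f.b0 (G.c f.a1 f.b1 (G.c f.a2 f.b2 (G.c f.a3 f.b3 G.nil)))⟩

def tot (f : F) : ℕ :=
  Nat.add (Nat.add (Nat.add f.a0 f.b0) (Nat.add (Nat.add f.a1 f.b1) (Nat.add (Nat.add f.a2 f.b2)
    (Nat.add f.a3 f.b3)))) f.r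

lemma tot_eq (f : F) : f.tot = f.toA.tot := rfl

def add (a b : F) : F :=
  let P := Nat.add a.p b.p
  let Q := Nat.add a.q b.q
  let P0 := Nat.add a.a0 b.a0
  let Q0 := Nat.add a.b0 b.b0
  let P1 := Nat.add a.a1 b.a1
  let Q1 := Nat.add a.b1 b.b1
  let P2 := Nat.add a.a2 b.a2
  let Q2 := Nat.add a.b2 b.b2
  let P3 := Nat.add a.a3 b.a3
  let Q3 := Nat.add a.b3 b.b3
  ⟨Nat.sub P Q, Nat.sub Q P, Nat.add a.r b.r, Nat.sub P0 Q0, Nat.sub Q0 P0, Nat.sub P1 Q1,
    Nat.sub Q1 P1, Nat.sub P2 Q2, Nat.sub Q2 P2, Nat.sub P3 Q3, Nat.sub Q3 P3⟩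

lemma toA_add (a b : F) : (a.add b).toA = a.toA.add b.toA := rfl

def neg (a : F) : F := ⟨a.q, a.p, a.r, a.b0, a.a0, a.b1, a.a1, a.b2, a.a2, a.b3, a.a3⟩

lemma toA_neg (a : F) : a.neg.toA = a.toA.neg := rfl

def sub (a b : F) : F :=
  let P := Nat.add a.p b.q
  let Q := Nat.add a.q b.p
  let P0 := Nat.add a.a0 b.b0
  let Q0 := Nat.add a.b0 b.a0
  let P1 := Nat.add a.a1 b.b1
  let Q1 := Nat.add a.b1 b.a1
  let P2 := Nat.add a.a2 b.b2
  let Q2 := Nat.add a.b2 b.a2
  let P3 := Nat.add a.a3 b.b3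
  let Q3 := Nat.add a.b3 b.a3
  ⟨Nat.sub P Q, Nat.sub Q P, Nat.add a.r b.r, Nat.sub P0 Q0, Nat.sub Q0 P0, Nat.sub P1 Q1,
    Nat.sub Q1 P1, Nat.sub P2 Q2, Nat.sub Q2 P2, Nat.sub P3 Q3, Nat.sub Q3 P3⟩

lemma toA_sub (a b : F) : (a.sub b).toA = a.toA.sub b.toA := rfl

/-- the linear part of a product or of a function of two variables: coefficients
`(s - t) / D * a + (s' - t') / D * b` -/
def lin (s t s' t' : ℕ) (a b : F) (p q r : ℕ) : F :=
  let P0 := Nat.add (Nat.add (Nat.mul a.a0 s) (Nat.mul a.b0 t)) (Nat.add (Nat.mul b.a0 s') (Nat.mul b.b0 t'))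
  let Q0 := Nat.add (Nat.add (Nat.mul a.a0 t) (Nat.mul a.b0 s)) (Nat.add (Nat.mul b.a0 t') (Nat.mul b.b0 s'))
  let P1 := Nat.add (Nat.add (Nat.mul a.a1 s) (Nat.mul a.b1 t)) (Nat.add (Nat.mul b.a1 s') (Nat.mul b.b1 t'))
  let Q1 := Nat.add (Nat.add (Nat.mul a.a1 t) (Nat.mul a.b1 s)) (Nat.add (Nat.mul b.a1 t') (Nat.mul b.b1 s'))
  let P2 := Nat.add (Nat.add (Nat.mul a.a2 s) (Nat.mul a.b2 t)) (Nat.add (Nat.mul b.a2 s') (Nat.mul b.b2 t'))
  let Q2 := Nat.add (Nat.add (Nat.mul a.a2 t) (Nat.mul a.b2 s)) (Nat.add (Nat.mul b.a2 t') (Nat.mul b.b2 s'))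
  let P3 := Nat.add (Nat.add (Nat.mul a.a3 s) (Nat.mul a.b3 t)) (Nat.add (Nat.mul b.a3 s') (Nat.mul b.b3 t'))
  let Q3 := Nat.add (Nat.add (Nat.mul a.a3 t) (Nat.mul a.b3 s)) (Nat.add (Nat.mul b.a3 t') (Nat.mul b.b3 s'))
  ⟨p, q, r, Nat.div (Nat.sub P0 Q0) 68719476736, Nat.div (Nat.sub Q0 P0) 68719476736,
    Nat.div (Nat.sub P1 Q1) 68719476736, Nat.div (Nat.sub Q1 P1) 68719476736,
    Nat.div (Nat.sub P2 Q2) 68719476736, Nat.div (Nat.sub Q2 P2) 68719476736,
    Nat.div (Nat.sub P3 Q3) 68719476736, Nat.div (Nat.sub Q3 P3) 68719476736⟩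

/-- the linear part of a function of one variable -/
def scl (s t : ℕ) (a : F) (p q r : ℕ) : F :=
  let P0 := Nat.add (Nat.mul a.a0 s) (Nat.mul a.b0 t)
  let Q0 := Nat.add (Nat.mul a.a0 t) (Nat.mul a.b0 s)
  let P1 := Nat.add (Nat.mul a.a1 s) (Nat.mul a.b1 t)
  let Q1 := Nat.add (Nat.mul a.a1 t) (Nat.mul a.b1 s)
  let P2 := Nat.add (Nat.mul a.a2 s) (Nat.mul a.b2 t)
  let Q2 := Nat.add (Nat.mul a.a2 t) (Nat.mul a.b2 s)
  let P3 := Nat.add (Nat.mul a.a3 s) (Nat.mul a.b3 t)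
  let Q3 := Nat.add (Nat.mul a.a3 t) (Nat.mul a.b3 s)
  ⟨p, q, r, Nat.div (Nat.sub P0 Q0) 68719476736, Nat.div (Nat.sub Q0 P0) 68719476736,
    Nat.div (Nat.sub P1 Q1) 68719476736, Nat.div (Nat.sub Q1 P1) 68719476736,
    Nat.div (Nat.sub P2 Q2) 68719476736, Nat.div (Nat.sub Q2 P2) 68719476736,
    Nat.div (Nat.sub P3 Q3) 68719476736, Nat.div (Nat.sub Q3 P3) 68719476736⟩

def mul (a b : F) : F :=
  let P := Nat.add (Nat.mul a.p b.p) (Nat.mul a.q b.q)
  let Q := Nat.add (Nat.mul a.p b.q) (Nat.mul a.q b.p)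
  lin a.p a.q b.p b.q b a (Nat.div (Nat.sub P Q) 68719476736) (Nat.div (Nat.sub Q P) 68719476736)
    (Nat.add (Nat.div (Nat.add (Nat.add (Nat.mul (Nat.add a.p a.q) b.r) (Nat.mul (Nat.add b.p b.q) a.r)) (Nat.mul a.tot b.tot)) 68719476736) 6)

lemma toA_mul (a b : F) : (a.mul b).toA = a.toA.mul b.toA := rfl

def nf (a : F) : F := ⟨Nat.sub a.p a.q, Nat.sub a.q a.p, a.r, a.a0, a.b0, a.a1, a.b1, a.a2, a.b2, a.a3, a.b3⟩

lemma toA_nf (a : F) : a.nf.toA = a.toA.nf := rfl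

def sq (a : F) : F :=
  let t := a.tot
  let pq := Nat.add a.p a.q
  scl (Nat.mul 2 a.p) (Nat.mul 2 a.q) a
    (Nat.div (Nat.add (Nat.mul 2 (Nat.mul pq pq)) (Nat.mul t t)) 137438953472) 0
    (Nat.add (Nat.div (Nat.add (Nat.mul (Nat.mul 4 pq) a.r) (Nat.mul t t)) 137438953472) 6)

lemma toA_sq (a : F) : a.sq.toA = a.toA.sq := rfl

def sqn (a : F) : F := a.nf.sq

lemma toA_sqn (a : F) : a.sqn.toA = a.toA.sqn := rfl

def app (a : F) (F1 F2 e0 S1 S2 e1 k2 : ℕ) : F :=
  scl S1 S2 a F1 F2 (Nat.add (Nat.add (Nat.add e0 (Nat.div (Nat.add (Nat.mul (Nat.add S1 S2) a.r) (Nat.mul e1 a.tot)) 68719476736)) k2) 5)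

lemma toA_app (a : F) (F1 F2 e0 S1 S2 e1 k2 : ℕ) :
    (a.app F1 F2 e0 S1 S2 e1 k2).toA = a.toA.app F1 F2 e0 S1 S2 e1 k2 := rfl

def cst (n : ℤ) (d : ℕ) : F := ⟨(A.cst n d).p, (A.cst n d).q, 1, 0, 0, 0, 0, 0, 0, 0, 0⟩

lemma cst_encl (n : ℤ) (d : ℕ) (ε : ℕ → ℝ) : (cst n d).toA.Encl ε ((n : ℝ) / d) := by
  have h := A.Encl_cst n d ε
  have hr : (A.cst n d).r = 1 := by rcases n with k | k <;> rfl
  have hg : (A.cst n d).g = G.nil := by rcases n with k | k <;> rfl
  unfold A.Encl at *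
  rw [hr, hg] at h
  change |(n : ℝ) / d * DR - (((A.cst n d).p : ℝ) - (A.cst n d).q + (G.c 0 0 (G.c 0 0 (G.c 0 0
    (G.c 0 0 G.nil)))).ev ε)| ≤ ((1 : ℕ) : ℝ)
  simp only [G.ev, Nat.cast_zero, sub_zero, zero_mul, add_zero] at h ⊢
  exact h

def pi : F := ⟨215888603272, 0, 2, 0, 0, 0, 0, 0, 0, 0, 0⟩

lemma pi_encl (ε : ℕ → ℝ) : (pi).toA.Encl ε Real.pi := by
  have h := A.Encl_pi ε
  unfold A.Encl at *
  change |Real.pi * DR - (((215888603272 : ℕ) : ℝ) - ((0 : ℕ) : ℝ) + (G.nil).ev ε)| ≤ ((2 : ℕ) : ℝ) at h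
  change |Real.pi * DR - (((215888603272 : ℕ) : ℝ) - ((0 : ℕ) : ℝ) + (G.c 0 0 (G.c 0 0 (G.c 0 0
    (G.c 0 0 G.nil)))).ev ε)| ≤ ((2 : ℕ) : ℝ)
  simp only [G.ev, Nat.cast_zero, sub_zero, zero_mul, add_zero] at h ⊢
  exact h

def exp (a : F) : Option F :=
  let n := a.nf
  let m := Nat.add n.p n.q
  let T := n.tot
  let s := ex4 m
  cond (Nat.ble m 1099511627776) (cond (Nat.ble 1 s.a) (cond (Nat.ble T 68719476736)
    (cond (Nat.beq n.q 0)
      (some (n.app s.a 0 (Nat.sub s.b s.a) s.a 0 (Nat.sub s.b s.a) (k2e s.b T)))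
      (some (n.app s.c 0 (Nat.sub s.d s.c) s.c 0 (Nat.sub s.d s.c) (k2e s.d T)))) none) none) none

def hyp (b : Bool) (a : F) : Option F :=
  let n := a.nf
  let m := Nat.add n.p n.q
  let T := n.tot
  let s := ex4 m
  let h := A.chsh s
  let k := k2e (Nat.add h.a h.b) T
  cond (Nat.ble m 1099511627776) (cond (Nat.ble 1 s.a) (cond (Nat.ble T 68719476736)
    (cond (Nat.beq n.q 0)
      (cond b (some (n.app h.a 0 h.b h.c 0 h.d k)) (some (n.app h.c 0 h.d h.a 0 h.b k)))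
      (cond b (some (n.app h.a 0 h.b 0 h.c h.d k)) (some (n.app 0 h.c h.d h.a 0 h.b k))))
      none) none) none

def log (a : F) : Option F :=
  let n := a.nf
  let T := n.tot
  let l := logM n.p
  cond (Nat.ble (Nat.add T 1) n.p) (cond (Nat.ble n.p 1267650600228229401496703205376)
    (some (n.app l.1 l.2 6 (Nat.div 4722366482869645213696 n.p) 0 1
      (Nat.add (Nat.div (Nat.mul 68719476736 (Nat.mul T T)) (Nat.mul (Nat.mul 2 n.p) (Nat.sub n.p T))) 1))) none) none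

def inv0 (n : F) : Option F :=
  let T := n.tot
  cond (Nat.ble (Nat.add T 1) n.p)
    (some (n.app (Nat.div 4722366482869645213696 n.p) 0 1 0 (Nat.div 324518553658426726783156020576256 (Nat.mul n.p n.p)) 1
      (Nat.add (Nat.div (Nat.mul 4722366482869645213696 (Nat.mul T T)) (Nat.mul (Nat.mul n.p n.p) (Nat.sub n.p T))) 1))) none

def inv (a : F) : Option F :=
  let n := a.nf
  cond (Nat.beq n.q 0) n.inv0 (match n.neg.inv0 with
    | some b => some b.neg
    | none => none)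

def cosPi (a : F) : F :=
  let n := a.nf
  let s := scS n.p n.q
  let T := n.tot
  n.app s.cp s.cq 4 (piN s.sq) (piN s.sp) 20 (Nat.add (Nat.div (Nat.mul 5 (Nat.mul T T)) 68719476736) 1)

def sinPi (a : F) : F :=
  let n := a.nf
  let s := scS n.p n.q
  let T := n.tot
  n.app s.sp s.sq 4 (piN s.cp) (piN s.cq) 20 (Nat.add (Nat.div (Nat.mul 5 (Nat.mul T T)) 68719476736) 1)

lemma toA_cosPi (a : F) : a.cosPi.toA = a.toA.cosPi := rfl
lemma toA_sinPi (a : F) : a.sinPi.toA = a.toA.sinPi := rfl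

def atan (a : F) : Option F :=
  let n := a.nf
  let m := Nat.add n.p n.q
  let T := n.tot
  let d := Nat.div 324518553658426726783156020576256 (Nat.add 4722366482869645213696 (Nat.mul m m))
  let k := Nat.add (Nat.div (Nat.mul T T) 137438953472) 1
  match atN m with
  | none => none
  | some r => cond (Nat.beq n.q 0) (some (n.app r.1 r.2 13 d 0 1 k)) (some (n.app r.2 r.1 13 d 0 1 k))

def lsF (Xp Xq Xt Tp Tq : ℕ) : Option LS :=
  let s4 := scS Xp Xq
  let m := piN (Nat.add Tp Tq)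
  let h := A.chsh (ex4 m)
  cnd (Nat.ble (Nat.add Tp Tq) 1152921504606846976)
    (cnd (Nat.ble m 1099511627776)
      (cnd (Nat.ble 1 (expLo m))
        (cnd (Nat.ble (Nat.add 9 (Nat.mul 4 Xt)) s4.sp)
          (some ⟨s4.sp, s4.cp, s4.cq, h.c, h.d, h.a, h.b, m⟩) none) none) none) none

def lnKF (Xt Tt : ℕ) (l : LS) : ℕ :=
  let T2 := Nat.add Tt 1
  let L1 := Nat.sub l.s (Nat.add 4 (Nat.mul 4 Xt))
  let Lu := Nat.sub l.m (Nat.mul 4 T2)
  Nat.add (Nat.div (Nat.mul 343597383680 (Nat.add (Nat.mul Xt Xt) (Nat.mul T2 T2))) (Nat.add (Nat.mul L1 L1) (Nat.mul Lu Lu))) 1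

def app2 (X T : F) (r2 T2 F1 F2 e0 S1p S1q e1 S2p S2q e2 k2 : ℕ) : F :=
  lin S1p S1q S2p S2q X T F1 F2 (Nat.add (Nat.add (Nat.add e0 (Nat.div (Nat.add (Nat.add (Nat.add (Nat.mul (Nat.add S1p S1q) X.r) (Nat.mul e1 X.tot)) (Nat.mul (Nat.add S2p S2q) r2)) (Nat.mul e2 T2)) 68719476736)) k2) 5)

lemma toA_app2 (X T : F) (r2 T2 F1 F2 e0 S1p S1q e1 S2p S2q e2 k2 : ℕ) :
    (app2 X T r2 T2 F1 F2 e0 S1p S1q e1 S2p S2q e2 k2).toA =
      A.app2 X.toA T.toA r2 T2 F1 F2 e0 S1p S1q e1 S2p S2q e2 k2 := rfl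

def lnA (a b : F) : Option F :=
  let X := a.nf
  let T := b.nf
  let Xt := X.tot
  let Tt := T.tot
  match lsF X.p X.q Xt T.p T.q with
  | none => none
  | some l =>
    let v := l.vA
    let u := l.vU
    let w := l.vW
    cond l.ok (cond (Nat.beq T.q 0)
      (some (app2 X T (Nat.add T.r 1) (Nat.add Tt 1) v.p v.q v.e u.p u.q u.e w.p w.q w.e (lnKF Xt Tt l)))
      (some (app2 X T (Nat.add T.r 1) (Nat.add Tt 1) v.p v.q v.e u.p u.q u.e w.q w.p w.e (lnKF Xt Tt l)))) none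

def lnB (a b : F) : Option F :=
  let X := a.nf
  let T := b.nf
  let Xt := X.tot
  let Tt := T.tot
  match lsF X.p X.q Xt T.p T.q with
  | none => none
  | some l =>
    let u := l.vU
    let w := l.vW
    cond l.ok (match l.vB with
      | none => none
      | some v => cond (Nat.beq T.q 0)
        (some (app2 X T (Nat.add T.r 1) (Nat.add Tt 1) v.p v.q v.e w.q w.p w.e u.p u.q u.e (lnKF Xt Tt l)))
        (some (app2 X T (Nat.add T.r 1) (Nat.add Tt 1) v.q v.p v.e w.p w.q w.e u.p u.q u.e (lnKF Xt Tt l)))) none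

/-! ### compatibility -/

lemma map_cond (b : Bool) (x y : Option F) : (cond b x y).map toA = cond b (x.map toA) (y.map toA) := by
  cases b <;> rfl

lemma toA_exp (a : F) : a.exp.map toA = a.toA.exp := by
  unfold exp A.exp
  simp only [map_cond]
  rfl

lemma toA_hyp (b : Bool) (a : F) : (a.hyp b).map toA = a.toA.hyp b := by
  unfold hyp A.hyp
  simp only [map_cond]
  rfl

lemma toA_log (a : F) : a.log.map toA = a.toA.log := by
  unfold log A.log
  simp only [map_cond]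
  rfl

lemma toA_inv0 (a : F) : a.inv0.map toA = a.toA.inv0 := by
  unfold inv0 A.inv0
  simp only [map_cond]
  rfl

lemma toA_inv (a : F) : a.inv.map toA = a.toA.inv := by
  unfold inv A.inv
  simp only [map_cond]
  have h1 := toA_inv0 a.nf
  have h2 := toA_inv0 a.nf.neg
  change cond (Nat.beq a.nf.q 0) _ _ = cond (Nat.beq a.nf.q 0) a.nf.toA.inv0
    (match a.nf.neg.toA.inv0 with
    | some b => some b.neg
    | none => none)
  rw [← h1, ← h2]
  rcases a.nf.neg.inv0 with _ | b <;> rfl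

lemma toA_atan (a : F) : a.atan.map toA = a.toA.atan := by
  unfold atan A.atan
  change Option.map toA (match atN (Nat.add a.nf.p a.nf.q) with
    | none => none
    | some r => _) = (match atN (Nat.add a.nf.p a.nf.q) with
    | none => none
    | some r => _)
  rcases atN (Nat.add a.nf.p a.nf.q) with _ | r
  · rfl
  · simp only [map_cond]
    rfl

lemma toA_lnA (a b : F) : (lnA a b).map toA = A.lnA a.toA b.toA := by
  unfold lnA A.lnA
  change Option.map toA (match lsF a.nf.p a.nf.q a.nf.tot b.nf.p b.nf.q with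
    | none => none
    | some l => _) = (match lsF a.nf.p a.nf.q a.nf.tot b.nf.p b.nf.q with
    | none => none
    | some l => _)
  rcases lsF a.nf.p a.nf.q a.nf.tot b.nf.p b.nf.q with _ | l
  · rfl
  · simp only [map_cond]
    rfl

lemma toA_lnB (a b : F) : (lnB a b).map toA = A.lnB a.toA b.toA := by
  unfold lnB A.lnB
  change Option.map toA (match lsF a.nf.p a.nf.q a.nf.tot b.nf.p b.nf.q with
    | none => none
    | some l => _) = (match lsF a.nf.p a.nf.q a.nf.tot b.nf.p b.nf.q with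
    | none => none
    | some l => _)
  rcases lsF a.nf.p a.nf.q a.nf.tot b.nf.p b.nf.q with _ | l
  · rfl
  · simp only [map_cond]
    rcases h : l.vB with _ | v
    · simp only [h]
      rfl
    · simp only [h, map_cond]
      rfl

end F

/-! ### evaluation -/

def fz : F := ⟨0, 0, 0, 0, 0, 0, 0, 0, 0, 0, 0⟩

/-- look-up by the recursors -/
noncomputable def lkF (xs : List F) : ℕ → F :=
  List.rec (motive := fun _ => ℕ → F) (fun _ => fz)
    (fun x _ ih i => Nat.rec (motive := fun _ => F) x (fun j _ => ih j) i) xs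

lemma lkF_nil (i : ℕ) : lkF [] i = fz := rfl
lemma lkF_zero (x : F) (t : List F) : lkF (x :: t) 0 = x := rfl
lemma lkF_succ (x : F) (t : List F) (i : ℕ) : lkF (x :: t) (i + 1) = lkF t i := rfl

def o2 (f : F → F → F) (x y : Option F) : Option F :=
  Option.rec (motive := fun _ => Option F) none (fun a =>
    Option.rec (motive := fun _ => Option F) none (fun b => some (f a b)) y) x

def o3 (f : F → F → Option F) (x y : Option F) : Option F :=
  Option.rec (motive := fun _ => Option F) none (fun a =>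
    Option.rec (motive := fun _ => Option F) none (fun b => f a b) y) x

def o1 (f : F → F) (x : Option F) : Option F :=
  Option.rec (motive := fun _ => Option F) none (fun a => some (f a)) x

def o0 (f : F → Option F) (x : Option F) : Option F :=
  Option.rec (motive := fun _ => Option F) none (fun a => f a) x

/-- evaluation by the recursor -/
noncomputable def E.evR (e : E) : List F → Option F :=
  E.rec (motive := fun _ => List F → Option F)
    (fun i xs => some (lkF xs i))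
    (fun n d _ => some (F.cst n d))
    (fun _ => some F.pi)
    (fun _ _ a b xs => o2 F.add (a xs) (b xs))
    (fun _ _ a b xs => o2 F.sub (a xs) (b xs))
    (fun _ _ a b xs => o2 F.mul (a xs) (b xs))
    (fun _ a xs => o1 F.neg (a xs))
    (fun _ a xs => o0 F.inv (a xs))
    (fun _ a xs => o1 F.sqn (a xs))
    (fun _ a xs => o1 F.cosPi (a xs))
    (fun _ a xs => o1 F.sinPi (a xs))
    (fun _ a xs => o0 F.exp (a xs))
    (fun _ a xs => o0 F.log (a xs))
    (fun _ a xs => o0 (F.hyp true) (a xs))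
    (fun _ a xs => o0 (F.hyp false) (a xs))
    (fun _ a xs => o0 F.atan (a xs))
    (fun _ _ a b xs => o3 F.lnA (a xs) (b xs))
    (fun _ _ a b xs => o3 F.lnB (a xs) (b xs))
    (fun _ _ a b xs => o0 (fun c => b (xs ++ [c])) (a xs)) e

lemma o2_some {f : F → F → F} {x y : Option F} {c : F} (h : o2 f x y = some c) :
    ∃ a b, x = some a ∧ y = some b ∧ c = f a b := by
  rcases x with _ | a
  · exact absurd h (by simp [o2])
  · rcases y with _ | b
    · exact absurd h (by simp [o2])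
    · exact ⟨a, b, rfl, rfl, (Option.some.inj h).symm⟩

lemma o3_some {f : F → F → Option F} {x y : Option F} {c : F} (h : o3 f x y = some c) :
    ∃ a b, x = some a ∧ y = some b ∧ f a b = some c := by
  rcases x with _ | a
  · exact absurd h (by simp [o3])
  · rcases y with _ | b
    · exact absurd h (by simp [o3])
    · exact ⟨a, b, rfl, rfl, h⟩

lemma o1_some {f : F → F} {x : Option F} {c : F} (h : o1 f x = some c) :
    ∃ a, x = some a ∧ c = f a := by
  rcases x with _ | a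
  · exact absurd h (by simp [o1])
  · exact ⟨a, rfl, (Option.some.inj h).symm⟩

lemma o0_some {f : F → Option F} {x : Option F} {c : F} (h : o0 f x = some c) :
    ∃ a, x = some a ∧ f a = some c := by
  rcases x with _ | a
  · exact absurd h (by simp [o0])
  · exact ⟨a, rfl, h⟩

/-- enclosure -/
def F.Encl (f : F) (ε : ℕ → ℝ) (x : ℝ) : Prop := f.toA.Encl ε x

lemma F.Encl.add {a b : F} {ε : ℕ → ℝ} {x y : ℝ} (hx : a.Encl ε x) (hy : b.Encl ε y) :
    (a.add b).Encl ε (x + y) := by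
  unfold F.Encl at *
  rw [F.toA_add]
  exact A.Encl.add hx hy

lemma F.Encl.sub {a b : F} {ε : ℕ → ℝ} {x y : ℝ} (hx : a.Encl ε x) (hy : b.Encl ε y) :
    (a.sub b).Encl ε (x - y) := by
  unfold F.Encl at *
  rw [F.toA_sub]
  exact A.Encl.sub hx hy

lemma F.Encl.mul {a b : F} {ε : ℕ → ℝ} {x y : ℝ} (hε : ∀ i, |ε i| ≤ 1) (hx : a.Encl ε x)
    (hy : b.Encl ε y) : (a.mul b).Encl ε (x * y) := by
  unfold F.Encl at *
  rw [F.toA_mul]
  exact A.Encl.mul hε hx hy

lemma F.Encl.neg {a : F} {ε : ℕ → ℝ} {x : ℝ} (hx : a.Encl ε x) : (a.neg).Encl ε (-x) := by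
  unfold F.Encl at *
  rw [F.toA_neg]
  exact A.Encl.neg hx

lemma F.Encl.sqn {a : F} {ε : ℕ → ℝ} {x : ℝ} (hε : ∀ i, |ε i| ≤ 1) (hx : a.Encl ε x) :
    (a.sqn).Encl ε (x ^ 2) := by
  unfold F.Encl at *
  rw [F.toA_sqn]
  exact (A.Encl.nf hx).sq hε (A.nf_normal _)

lemma F.Encl.cosPi {a : F} {ε : ℕ → ℝ} {x : ℝ} (hε : ∀ i, |ε i| ≤ 1) (hx : a.Encl ε x) :
    (a.cosPi).Encl ε (Real.cos (Real.pi * x)) := by
  unfold F.Encl at *
  rw [F.toA_cosPi]
  exact A.Encl.cosPi hε hx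

lemma F.Encl.sinPi {a : F} {ε : ℕ → ℝ} {x : ℝ} (hε : ∀ i, |ε i| ≤ 1) (hx : a.Encl ε x) :
    (a.sinPi).Encl ε (Real.sin (Real.pi * x)) := by
  unfold F.Encl at *
  rw [F.toA_sinPi]
  exact A.Encl.sinPi hε hx

lemma map_some_inv {x : Option F} {y : Option A} {c : F} (h : x.map F.toA = y) (hx : x = some c) :
    y = some c.toA := by
  rw [← h, hx]; rfl

lemma fz_encl (ε : ℕ → ℝ) : fz.Encl ε 0 := by
  unfold F.Encl fz F.toA A.Encl
  simp [G.ev]

lemma lkF_encl {ε : ℕ → ℝ} : ∀ {fs : List F} {xs : List ℝ},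
    List.Forall₂ (fun f x => F.Encl f ε x) fs xs → ∀ i, (lkF fs i).Encl ε (lkR xs i)
  | _, _, List.Forall₂.nil, i => by
    rw [lkF_nil]
    exact fz_encl ε
  | _, _, List.Forall₂.cons h t, 0 => h
  | _, _, List.Forall₂.cons h t, i + 1 => lkF_encl t i

theorem E.evR_sound {ε : ℕ → ℝ} (hε : ∀ i, |ε i| ≤ 1) (e : E) : ∀ {fs : List F} {xs : List ℝ}
    {c : F}, List.Forall₂ (fun f x => F.Encl f ε x) fs xs → e.evR fs = some c →
      c.Encl ε (e.val xs) := by
  induction e with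
  | var i =>
    intro fs xs c h he
    have := Option.some.inj he
    rw [← this]; exact lkF_encl h i
  | q n d =>
    intro fs xs c h he
    have := Option.some.inj he
    rw [← this]; exact F.cst_encl n d ε
  | pi =>
    intro fs xs c h he
    have := Option.some.inj he
    rw [← this]; exact F.pi_encl ε
  | add a b iha ihb =>
    intro fs xs c h he
    obtain ⟨u, v, hu, hv, rfl⟩ := o2_some he
    exact F.Encl.add (iha h hu) (ihb h hv)
  | sub a b iha ihb =>
    intro fs xs c h he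
    obtain ⟨u, v, hu, hv, rfl⟩ := o2_some he
    exact F.Encl.sub (iha h hu) (ihb h hv)
  | mul a b iha ihb =>
    intro fs xs c h he
    obtain ⟨u, v, hu, hv, rfl⟩ := o2_some he
    exact F.Encl.mul hε (iha h hu) (ihb h hv)
  | neg a iha =>
    intro fs xs c h he
    obtain ⟨u, hu, rfl⟩ := o1_some he
    exact F.Encl.neg (iha h hu)
  | inv a iha =>
    intro fs xs c h he
    obtain ⟨u, hu, hc⟩ := o0_some he
    exact A.Encl.inv hε (iha h hu) (map_some_inv (F.toA_inv u) hc)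
  | sq a iha =>
    intro fs xs c h he
    obtain ⟨u, hu, rfl⟩ := o1_some he
    exact F.Encl.sqn hε (iha h hu)
  | cosPi a iha =>
    intro fs xs c h he
    obtain ⟨u, hu, rfl⟩ := o1_some he
    exact F.Encl.cosPi hε (iha h hu)
  | sinPi a iha =>
    intro fs xs c h he
    obtain ⟨u, hu, rfl⟩ := o1_some he
    exact F.Encl.sinPi hε (iha h hu)
  | exp a iha =>
    intro fs xs c h he
    obtain ⟨u, hu, hc⟩ := o0_some he
    exact A.Encl.exp hε (iha h hu) (map_some_inv (F.toA_exp u) hc)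
  | log a iha =>
    intro fs xs c h he
    obtain ⟨u, hu, hc⟩ := o0_some he
    exact A.Encl.log hε (iha h hu) (map_some_inv (F.toA_log u) hc)
  | cosh a iha =>
    intro fs xs c h he
    obtain ⟨u, hu, hc⟩ := o0_some he
    exact A.Encl.hyp hε (iha h hu) (map_some_inv (F.toA_hyp true u) hc)
  | sinh a iha =>
    intro fs xs c h he
    obtain ⟨u, hu, hc⟩ := o0_some he
    exact A.Encl.hyp hε (iha h hu) (map_some_inv (F.toA_hyp false u) hc)
  | atan a iha =>
    intro fs xs c h he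
    obtain ⟨u, hu, hc⟩ := o0_some he
    exact A.Encl.atan hε (iha h hu) (map_some_inv (F.toA_atan u) hc)
  | lnA a b iha ihb =>
    intro fs xs c h he
    obtain ⟨u, v, hu, hv, hc⟩ := o3_some he
    exact A.Encl.lnA hε (iha h hu) (ihb h hv) (map_some_inv (F.toA_lnA u v) hc)
  | lnB a b iha ihb =>
    intro fs xs c h he
    obtain ⟨u, v, hu, hv, hc⟩ := o3_some he
    exact A.Encl.lnB hε (iha h hu) (ihb h hv) (map_some_inv (F.toA_lnB u v) hc)
  | lt a b iha ihb =>
    intro fs xs c h he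
    obtain ⟨u, hu, hc⟩ := o0_some he
    have h1 := iha h hu
    exact ihb (List.rel_append h (List.Forall₂.cons h1 List.Forall₂.nil)) hc

end Pool.Agent.Work.NumI
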