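import Mathlib
import Pool.Agent.Work.NumI.Fast

/-!
# Verified numerics for the kernel, part 9: certificate trees

`runQ test o0 o1 o2 o3 fuel a0 b0 ... a3 b3 code` checks a box of four variables: the variable
number `i` times `2^36` plus the offset `oi` is in `[ai, bi]`.  The tree of bisections is the
number `code`, read in digits of base `128` from the right: `0, ..., 3` bisects the variable of
this number (then come the left and the right half), `k + 4` is a leaf with the test `k`.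
Every leaf is evaluated once.  `okT` is the Boolean version (all digits used).
-/

namespace Pool.Agent.Work.NumI

/-- force the evaluation of a natural number -/
def fN {α : Type} (n : ℕ) (k : ℕ → α) : α :=
  Nat.rec (motive := fun _ => α) (k Nat.zero) (fun m _ => k (Nat.succ m)) n

lemma fN_eq {α : Type} (n : ℕ) (k : ℕ → α) : fN n k = k n := by
  cases n <;> rfl

/-- the range of variable `0` -/
def F.v0 (o a b : ℕ) : F :=
  let m := Nat.div (Nat.add a b) 2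
  ⟨Nat.sub m o, Nat.sub o m, 0, Nat.sub b m, 0, 0, 0, 0, 0, 0, 0⟩
def F.v1 (o a b : ℕ) : F :=
  let m := Nat.div (Nat.add a b) 2
  ⟨Nat.sub m o, Nat.sub o m, 0, 0, 0, Nat.sub b m, 0, 0, 0, 0, 0⟩
def F.v2 (o a b : ℕ) : F :=
  let m := Nat.div (Nat.add a b) 2
  ⟨Nat.sub m o, Nat.sub o m, 0, 0, 0, 0, 0, Nat.sub b m, 0, 0, 0⟩
def F.v3 (o a b : ℕ) : F :=
  let m := Nat.div (Nat.add a b) 2
  ⟨Nat.sub m o, Nat.sub o m, 0, 0, 0, 0, 0, 0, 0, Nat.sub b m, 0⟩

/-- membership -/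
def Rg (o a b : ℕ) (x : ℝ) : Prop := (a : ℝ) ≤ x * DR + o ∧ x * DR + o ≤ b

lemma Rg.noise {o a b : ℕ} {x : ℝ} (h : Rg o a b x) : ∃ e : ℝ, |e| ≤ 1 ∧
    x * DR - ((((a + b) / 2 - o : ℕ) : ℝ) - ((o - (a + b) / 2 : ℕ) : ℝ)) =
      ((b - (a + b) / 2 : ℕ) : ℝ) * e := by
  obtain ⟨h1, h2⟩ := h
  have hab : a ≤ b := by
    have : (a : ℝ) ≤ b := by linarith only [h1, h2]
    exact_mod_cast this
  set m := (a + b) / 2 with hm
  have hmb : m ≤ b := by omega
  have hma : a ≤ m := by omega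
  have hmm : 2 * m ≤ a + b := by omega
  have c1 : ((b - m : ℕ) : ℝ) = b - m := Nat.cast_sub hmb
  have c2 : 2 * (m : ℝ) ≤ a + b := by exact_mod_cast hmm
  have c3 : (a : ℝ) ≤ m := by exact_mod_cast hma
  have k := sub_sub_cast m o
  rw [k]
  rcases Nat.eq_zero_or_pos (b - m) with h0 | h0
  · refine ⟨0, by simp, ?_⟩
    rw [h0] at c1
    push_cast at c1
    rw [mul_zero]
    linarith only [h1, c2, c1, h2]
  · have h0' : (0 : ℝ) < ((b - m : ℕ) : ℝ) := by exact_mod_cast h0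
    refine ⟨(x * DR - ((m : ℝ) - o)) / ((b - m : ℕ) : ℝ), ?_, ?_⟩
    · rw [abs_div, abs_of_pos h0', div_le_one h0', c1, abs_le]
      constructor <;> linarith only [h1, c2, h2]
    · rw [mul_div_cancel₀ _ h0'.ne']

/-- continue after the left half -/
def sq2 (x : Option ℕ) (k : ℕ → Option ℕ) : Option ℕ :=
  Option.rec (motive := fun _ => Option ℕ) none (fun c => k c) x

lemma sq2_some {x : Option ℕ} {k : ℕ → Option ℕ} {c : ℕ} (h : sq2 x k = some c) :
    ∃ a, x = some a ∧ k a = some c := by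
  rcases x with _ | a
  · exact absurd h (by simp [sq2])
  · exact ⟨a, rfl, h⟩

noncomputable def runQ (test : ℕ → F → F → F → F → Bool) (o0 o1 o2 o3 : ℕ) (n : ℕ) :
    ℕ → ℕ → ℕ → ℕ → ℕ → ℕ → ℕ → ℕ → ℕ → Option ℕ :=
  Nat.rec (motive := fun _ => ℕ → ℕ → ℕ → ℕ → ℕ → ℕ → ℕ → ℕ → ℕ → Option ℕ)
    (fun _ _ _ _ _ _ _ _ _ => none)
    (fun _ ih a0 b0 a1 b1 a2 b2 a3 b3 c =>
      fN (Nat.land c 127) fun d => fN (Nat.shiftRight c 7) fun c' =>
      cond (Nat.ble 4 d)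
        (cond (test (Nat.sub d 4) (F.v0 o0 a0 b0) (F.v1 o1 a1 b1) (F.v2 o2 a2 b2) (F.v3 o3 a3 b3))
          (some c') none)
        (cond (Nat.beq d 0)
          (fN (Nat.div (Nat.add a0 b0) 2) fun m =>
            sq2 (ih a0 m a1 b1 a2 b2 a3 b3 c') fun c'' => ih m b0 a1 b1 a2 b2 a3 b3 c'')
        (cond (Nat.beq d 1)
          (fN (Nat.div (Nat.add a1 b1) 2) fun m =>
            sq2 (ih a0 b0 a1 m a2 b2 a3 b3 c') fun c'' => ih a0 b0 m b1 a2 b2 a3 b3 c'')
        (cond (Nat.beq d 2)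
          (fN (Nat.div (Nat.add a2 b2) 2) fun m =>
            sq2 (ih a0 b0 a1 b1 a2 m a3 b3 c') fun c'' => ih a0 b0 a1 b1 m b2 a3 b3 c'')
          (fN (Nat.div (Nat.add a3 b3) 2) fun m =>
            sq2 (ih a0 b0 a1 b1 a2 b2 a3 m c') fun c'' => ih a0 b0 a1 b1 a2 b2 m b3 c''))))) n

lemma runQ_succ (test : ℕ → F → F → F → F → Bool) (o0 o1 o2 o3 n a0 b0 a1 b1 a2 b2 a3 b3 c : ℕ) :
    runQ test o0 o1 o2 o3 (n + 1) a0 b0 a1 b1 a2 b2 a3 b3 c =
      fN (Nat.land c 127) fun d => fN (Nat.shiftRight c 7) fun c' =>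
      cond (Nat.ble 4 d)
        (cond (test (Nat.sub d 4) (F.v0 o0 a0 b0) (F.v1 o1 a1 b1) (F.v2 o2 a2 b2) (F.v3 o3 a3 b3))
          (some c') none)
        (cond (Nat.beq d 0)
          (fN (Nat.div (Nat.add a0 b0) 2) fun m =>
            sq2 (runQ test o0 o1 o2 o3 n a0 m a1 b1 a2 b2 a3 b3 c') fun c'' => runQ test o0 o1 o2 o3 n m b0 a1 b1 a2 b2 a3 b3 c'')
        (cond (Nat.beq d 1)
          (fN (Nat.div (Nat.add a1 b1) 2) fun m =>
            sq2 (runQ test o0 o1 o2 o3 n a0 b0 a1 m a2 b2 a3 b3 c') fun c'' => runQ test o0 o1 o2 o3 n a0 b0 m b1 a2 b2 a3 b3 c'')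
        (cond (Nat.beq d 2)
          (fN (Nat.div (Nat.add a2 b2) 2) fun m =>
            sq2 (runQ test o0 o1 o2 o3 n a0 b0 a1 b1 a2 m a3 b3 c') fun c'' => runQ test o0 o1 o2 o3 n a0 b0 a1 b1 m b2 a3 b3 c'')
          (fN (Nat.div (Nat.add a3 b3) 2) fun m =>
            sq2 (runQ test o0 o1 o2 o3 n a0 b0 a1 b1 a2 b2 a3 m c') fun c'' => runQ test o0 o1 o2 o3 n a0 b0 a1 b1 a2 b2 m b3 c'')))) := rfl

lemma Rg.split {o a b : ℕ} {x : ℝ} (h : Rg o a b x) (m : ℕ) : Rg o a m x ∨ Rg o m b x := by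
  rcases le_total (x * DR + o) (m : ℝ) with h1 | h1
  · left; exact ⟨h.1, h1⟩
  · right; exact ⟨h1, h.2⟩

/-- what a test has to satisfy -/
def TestOk (test : ℕ → F → F → F → F → Bool) (P : ℝ → ℝ → ℝ → ℝ → Prop) : Prop :=
  ∀ (k : ℕ) (X Y Z W : F) (ε : ℕ → ℝ) (x y z w : ℝ), (∀ i, |ε i| ≤ 1) → X.Encl ε x → Y.Encl ε y →
    Z.Encl ε z → W.Encl ε w → test k X Y Z W = true → P x y z w

theorem runQ_sound {test : ℕ → F → F → F → F → Bool} {P : ℝ → ℝ → ℝ → ℝ → Prop}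
    (ht : TestOk test P) {o0 o1 o2 o3 : ℕ} {x y z w : ℝ} : ∀ (n : ℕ) {a0 b0 a1 b1 a2 b2 a3 b3 c c' : ℕ},
    runQ test o0 o1 o2 o3 n a0 b0 a1 b1 a2 b2 a3 b3 c = some c' → Rg o0 a0 b0 x → Rg o1 a1 b1 y →
    Rg o2 a2 b2 z → Rg o3 a3 b3 w → P x y z w := by
  intro n
  induction n with
  | zero =>
    intro a0 b0 a1 b1 a2 b2 a3 b3 c c' h
    exact absurd h (by simp [runQ])
  | succ n ih =>
    intro a0 b0 a1 b1 a2 b2 a3 b3 c c' h hx hy hz hw
    rw [runQ_succ, fN_eq, fN_eq] at h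
    set d := Nat.land c 127 with hd
    rcases h4 : Nat.ble 4 d with _ | _
    · rw [h4, cond_false] at h
      rcases h0 : Nat.beq d 0 with _ | _
      · rw [h0, cond_false] at h
        rcases h1 : Nat.beq d 1 with _ | _
        · rw [h1, cond_false] at h
          rcases h2 : Nat.beq d 2 with _ | _
          · rw [h2, cond_false, fN_eq] at h
            obtain ⟨e, he, he'⟩ := sq2_some h
            rcases hw.split (Nat.div (Nat.add a3 b3) 2) with hs | hs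
            · exact ih he hx hy hz hs
            · exact ih he' hx hy hz hs
          · rw [h2, cond_true, fN_eq] at h
            obtain ⟨e, he, he'⟩ := sq2_some h
            rcases hz.split (Nat.div (Nat.add a2 b2) 2) with hs | hs
            · exact ih he hx hy hs hw
            · exact ih he' hx hy hs hw
        · rw [h1, cond_true, fN_eq] at h
          obtain ⟨e, he, he'⟩ := sq2_some h
          rcases hy.split (Nat.div (Nat.add a1 b1) 2) with hs | hs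
          · exact ih he hx hs hz hw
          · exact ih he' hx hs hz hw
      · rw [h0, cond_true, fN_eq] at h
        obtain ⟨e, he, he'⟩ := sq2_some h
        rcases hx.split (Nat.div (Nat.add a0 b0) 2) with hs | hs
        · exact ih he hs hy hz hw
        · exact ih he' hs hy hz hw
    · rw [h4, cond_true] at h
      obtain ⟨e0, he0, h0⟩ := hx.noise
      obtain ⟨e1, he1, h1⟩ := hy.noise
      obtain ⟨e2, he2, h2⟩ := hz.noise
      obtain ⟨e3, he3, h3⟩ := hw.noise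
      let ε : ℕ → ℝ := fun i => if i = 0 then e0 else if i = 1 then e1 else if i = 2 then e2 else
        if i = 3 then e3 else 0
      have hε : ∀ i, |ε i| ≤ 1 := by
        intro i
        simp only [ε]
        split_ifs <;> first | assumption | simp
      have ε0 : ε 0 = e0 := rfl
      have ε1 : ε 1 = e1 := rfl
      have ε2 : ε 2 = e2 := rfl
      have ε3 : ε 3 = e3 := rfl
      rcases ht' : test (Nat.sub d 4) (F.v0 o0 a0 b0) (F.v1 o1 a1 b1) (F.v2 o2 a2 b2)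
          (F.v3 o3 a3 b3) with _ | _
      · rw [ht', cond_false] at h
        exact absurd h (by simp)
      · refine ht _ _ _ _ _ ε x y z w hε ?_ ?_ ?_ ?_ ht'
        · unfold F.Encl F.toA A.Encl F.v0
          simp only [G.ev, Nat.cast_zero, sub_zero, zero_mul, add_zero, zero_add, ε0]
          change |x * DR - ((((a0 + b0) / 2 - o0 : ℕ) : ℝ) - ((o0 - (a0 + b0) / 2 : ℕ) : ℝ) +
            ((b0 - (a0 + b0) / 2 : ℕ) : ℝ) * e0)| ≤ 0
          rw [abs_nonpos_iff]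
          linarith only [h0]
        · unfold F.Encl F.toA A.Encl F.v1
          simp only [G.ev, Nat.cast_zero, sub_zero, zero_mul, add_zero, zero_add, ε1]
          change |y * DR - ((((a1 + b1) / 2 - o1 : ℕ) : ℝ) - ((o1 - (a1 + b1) / 2 : ℕ) : ℝ) +
            ((b1 - (a1 + b1) / 2 : ℕ) : ℝ) * e1)| ≤ 0
          rw [abs_nonpos_iff]
          linarith only [h1]
        · unfold F.Encl F.toA A.Encl F.v2
          simp only [G.ev, Nat.cast_zero, sub_zero, zero_mul, add_zero, zero_add, ε2]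
          change |z * DR - ((((a2 + b2) / 2 - o2 : ℕ) : ℝ) - ((o2 - (a2 + b2) / 2 : ℕ) : ℝ) +
            ((b2 - (a2 + b2) / 2 : ℕ) : ℝ) * e2)| ≤ 0
          rw [abs_nonpos_iff]
          linarith only [h2]
        · unfold F.Encl F.toA A.Encl F.v3
          simp only [G.ev, Nat.cast_zero, sub_zero, zero_mul, add_zero, zero_add, ε3]
          change |w * DR - ((((a3 + b3) / 2 - o3 : ℕ) : ℝ) - ((o3 - (a3 + b3) / 2 : ℕ) : ℝ) +
            ((b3 - (a3 + b3) / 2 : ℕ) : ℝ) * e3)| ≤ 0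
          rw [abs_nonpos_iff]
          linarith only [h3]

/-- Boolean version -/
noncomputable def okT (test : ℕ → F → F → F → F → Bool) (o0 o1 o2 o3 fuel a0 b0 a1 b1 a2 b2 a3 b3 c : ℕ) :
    Bool :=
  Option.rec (motive := fun _ => Bool) false (fun c => Nat.beq c 0)
    (runQ test o0 o1 o2 o3 fuel a0 b0 a1 b1 a2 b2 a3 b3 c)

theorem okT_sound {test : ℕ → F → F → F → F → Bool} {P : ℝ → ℝ → ℝ → ℝ → Prop}
    (ht : TestOk test P) {o0 o1 o2 o3 fuel a0 b0 a1 b1 a2 b2 a3 b3 c : ℕ}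
    (h : okT test o0 o1 o2 o3 fuel a0 b0 a1 b1 a2 b2 a3 b3 c = true) {x y z w : ℝ}
    (hx : Rg o0 a0 b0 x) (hy : Rg o1 a1 b1 y) (hz : Rg o2 a2 b2 z) (hw : Rg o3 a3 b3 w) :
    P x y z w := by
  unfold okT at h
  rcases h1 : runQ test o0 o1 o2 o3 fuel a0 b0 a1 b1 a2 b2 a3 b3 c with _ | c'
  · rw [h1] at h
    exact absurd h (by simp)
  · exact runQ_sound ht fuel h1 hx hy hz hw

/-- a sufficient condition for `Rg`: `a / N ≤ x ≤ b / N` -/
lemma Rg.of {o a b : ℕ} {l u : ℝ} {x : ℝ} (h1 : l ≤ x) (h2 : x ≤ u) (ha : (a : ℝ) ≤ l * DR + o)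
    (hb : u * DR + o ≤ b) : Rg o a b x := by
  have hD := DR_pos
  constructor
  · have := mul_le_mul_of_nonneg_right h1 hD.le
    linarith only [ha, this]
  · have := mul_le_mul_of_nonneg_right h2 hD.le
    linarith only [hb, this]

/-- the check of the box `[(li - oi) / N, (hi - oi) / N]` -/
noncomputable def okB (N : ℕ) (test : ℕ → F → F → F → F → Bool)
    (o0 o1 o2 o3 fuel l0 h0 l1 h1 l2 h2 l3 h3 c : ℕ) : Bool :=
  let O (o : ℕ) := Nat.div (Nat.add (Nat.mul o 68719476736) (Nat.sub N 1)) N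
  let A (l : ℕ) := Nat.div (Nat.mul l 68719476736) N
  let B (h : ℕ) := Nat.add (Nat.div (Nat.mul h 68719476736) N) 2
  fN (O o0) fun o0 => fN (O o1) fun o1 => fN (O o2) fun o2 => fN (O o3) fun o3 =>
  fN (A l0) fun a0 => fN (B h0) fun b0 => fN (A l1) fun a1 => fN (B h1) fun b1 =>
  fN (A l2) fun a2 => fN (B h2) fun b2 => fN (A l3) fun a3 => fN (B h3) fun b3 =>
  okT test o0 o1 o2 o3 fuel a0 b0 a1 b1 a2 b2 a3 b3 c

lemma Rg.dec {N l h o : ℕ} (hN : 0 < N) {x : ℝ} (h1 : ((l : ℝ) - o) / N ≤ x)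
    (h2 : x ≤ ((h : ℝ) - o) / N) :
    Rg (Nat.div (Nat.add (Nat.mul o 68719476736) (Nat.sub N 1)) N) (Nat.div (Nat.mul l 68719476736) N)
      (Nat.add (Nat.div (Nat.mul h 68719476736) N) 2) x := by
  have hD := DR_pos
  have hNr : (0 : ℝ) < N := by exact_mod_cast hN
  have a1 := ndiv_le (l * 68719476736) N
  have a2 := lt_ndiv (h * 68719476736) hN
  have a3 := ndiv_le (o * 68719476736 + (N - 1)) N
  have a4 := lt_ndiv (o * 68719476736 + (N - 1)) hN
  have hsub : ((N - 1 : ℕ) : ℝ) = (N : ℝ) - 1 := by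
    rw [Nat.cast_sub (by omega)]; simp
  rw [Nat.cast_mul, DN_cast] at a1 a2
  rw [Nat.cast_add, Nat.cast_mul, DN_cast, hsub] at a3 a4
  have e1 : ((l : ℝ) - o) / N * DR ≤ x * DR := mul_le_mul_of_nonneg_right h1 hD.le
  have e2 : x * DR ≤ ((h : ℝ) - o) / N * DR := mul_le_mul_of_nonneg_right h2 hD.le
  have e3 : ((l : ℝ) - o) / N * DR = l * DR / N - o * DR / N := by ring
  have e4 : ((h : ℝ) - o) / N * DR = h * DR / N - o * DR / N := by ring
  have e5 : ((o : ℝ) * DR + (N - 1)) / N = o * DR / N + 1 - 1 / N := by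
    field_simp
    ring
  have e6 : 0 < 1 / (N : ℝ) := by positivity
  rw [e5] at a3 a4
  rw [e3] at e1
  rw [e4] at e2
  change ((l * 68719476736 / N : ℕ) : ℝ) ≤ x * DR + ((o * 68719476736 + (N - 1)) / N : ℕ) ∧
    x * DR + ((o * 68719476736 + (N - 1)) / N : ℕ) ≤ ((h * 68719476736 / N + 2 : ℕ) : ℝ)
  have a5 : (o : ℝ) * DR / N ≤ (((o * 68719476736 + (N - 1)) / N : ℕ) : ℝ) := by
    have hdm := Nat.div_add_mod (o * 68719476736 + (N - 1)) N
    have hml := Nat.mod_lt (o * 68719476736 + (N - 1)) hN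
    have k : o * 68719476736 ≤ (o * 68719476736 + (N - 1)) / N * N := by
      rw [Nat.mul_comm N] at hdm
      omega
    have k' : (o : ℝ) * DR ≤ (((o * 68719476736 + (N - 1)) / N : ℕ) : ℝ) * N := by
      have := (Nat.cast_le (α := ℝ)).mpr k
      rw [Nat.cast_mul, DN_cast, Nat.cast_mul] at this
      exact this
    rwa [div_le_iff₀ hNr]
  constructor
  · linarith only [a1, e1, a5]
  · push_cast
    push_cast at a2
    linarith only [a2, a3, e2, e6]

theorem okB_sound {N : ℕ} (hN : 0 < N) {test : ℕ → F → F → F → F → Bool}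
    {P : ℝ → ℝ → ℝ → ℝ → Prop} (ht : TestOk test P) {o0 o1 o2 o3 fuel l0 h0 l1 h1 l2 h2 l3 h3 c : ℕ}
    (h : okB N test o0 o1 o2 o3 fuel l0 h0 l1 h1 l2 h2 l3 h3 c = true) {x y z w : ℝ}
    (hx : ((l0 : ℝ) - o0) / N ≤ x) (hx' : x ≤ ((h0 : ℝ) - o0) / N)
    (hy : ((l1 : ℝ) - o1) / N ≤ y) (hy' : y ≤ ((h1 : ℝ) - o1) / N)
    (hz : ((l2 : ℝ) - o2) / N ≤ z) (hz' : z ≤ ((h2 : ℝ) - o2) / N)
    (hw : ((l3 : ℝ) - o3) / N ≤ w) (hw' : w ≤ ((h3 : ℝ) - o3) / N) : P x y z w := by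
  unfold okB at h
  simp only [fN_eq] at h
  exact okT_sound ht h (Rg.dec hN hx hx') (Rg.dec hN hy hy') (Rg.dec hN hz hz') (Rg.dec hN hw hw')

/-- the case without offsets, `N = 10000` -/
theorem okB_sound0 {test : ℕ → F → F → F → F → Bool}
    {P : ℝ → ℝ → ℝ → ℝ → Prop} (ht : TestOk test P) {fuel l0 h0 l1 h1 l2 h2 l3 h3 c : ℕ}
    (h : okB 10000 test 0 0 0 0 fuel l0 h0 l1 h1 l2 h2 l3 h3 c = true) {x y z w : ℝ}
    (hx : (l0 : ℝ) / 10000 ≤ x) (hx' : x ≤ (h0 : ℝ) / 10000)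
    (hy : (l1 : ℝ) / 10000 ≤ y) (hy' : y ≤ (h1 : ℝ) / 10000)
    (hz : (l2 : ℝ) / 10000 ≤ z) (hz' : z ≤ (h2 : ℝ) / 10000)
    (hw : (l3 : ℝ) / 10000 ≤ w) (hw' : w ≤ (h3 : ℝ) / 10000) : P x y z w := by
  have e : ((10000 : ℕ) : ℝ) = 10000 := by norm_num
  refine okB_sound (by norm_num) ht h ?_ ?_ ?_ ?_ ?_ ?_ ?_ ?_ <;>
    rw [Nat.cast_zero, sub_zero, e] <;> assumption

/-- positivity -/
def posF (a : F) : Bool := Nat.ble (Nat.add (Nat.add a.q a.tot) 1) a.p

lemma posF_spec {a : F} {ε : ℕ → ℝ} {x : ℝ} (hε : ∀ i, |ε i| ≤ 1) (h : a.Encl ε x)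
    (hp : posF a = true) : 0 < x :=
  posA_spec hε h hp

def posO' (x : Option F) : Bool := Option.rec (motive := fun _ => Bool) false (fun a => posF a) x

/-- the value of an expression is positive if the test succeeds -/
theorem posO'_spec {e : E} {X Y Z W : F} {ε : ℕ → ℝ} {x y z w : ℝ} (hε : ∀ i, |ε i| ≤ 1)
    (hX : X.Encl ε x) (hY : Y.Encl ε y) (hZ : Z.Encl ε z) (hW : W.Encl ε w)
    (hp : posO' (e.evR [X, Y, Z, W]) = true) : 0 < e.val [x, y, z, w] := by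
  rcases h1 : e.evR [X, Y, Z, W] with _ | c
  · rw [h1] at hp
    exact absurd hp (by simp [posO'])
  · rw [h1] at hp
    refine posF_spec hε (E.evR_sound hε e ?_ h1) hp
    exact List.Forall₂.cons hX (List.Forall₂.cons hY (List.Forall₂.cons hZ
      (List.Forall₂.cons hW List.Forall₂.nil)))

end Pool.Agent.Work.NumI
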