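import Mathlib
import Pool.Agent.Work.NumI.Fast

/-!
# Verified numerics for the kernel, part 10: cheap constants and multiples
-/

namespace Pool.Agent.Work.NumI

namespace F

/-- the constant `n / d` -/
def rat (n d : ℕ) : F := ⟨Nat.div (Nat.mul n 68719476736) d, 0, 1, 0, 0, 0, 0, 0, 0, 0, 0⟩

lemma Encl_iff {f : F} {ε : ℕ → ℝ} {x : ℝ} : f.Encl ε x ↔ |x * DR - ((f.p : ℝ) - f.q +
    (((f.a0 : ℝ) - f.b0) * ε 0 + (((f.a1 : ℝ) - f.b1) * ε 1 + (((f.a2 : ℝ) - f.b2) * ε 2 +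
      ((f.a3 : ℝ) - f.b3) * ε 3))))| ≤ f.r := by
  unfold Encl A.Encl toA
  simp only [G.ev, add_zero]

lemma Encl.rat (n d : ℕ) (ε : ℕ → ℝ) : (F.rat n d).Encl ε ((n : ℝ) / d) := by
  rw [Encl_iff]
  have := A.cst_aux n d
  unfold F.rat
  simp only [Nat.cast_zero, sub_zero, zero_mul, add_zero]
  change |(n : ℝ) / d * DR - ((n * 68719476736 / d : ℕ) : ℝ)| ≤ ((1 : ℕ) : ℝ)
  simpa using this

/-- the multiple `n / d` -/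
def mulq (n d : ℕ) (a : F) : F :=
  ⟨Nat.div (Nat.mul a.p n) d, Nat.div (Nat.mul a.q n) d, Nat.add (Nat.div (Nat.mul a.r n) d) 6,
    Nat.div (Nat.mul a.a0 n) d, Nat.div (Nat.mul a.b0 n) d, Nat.div (Nat.mul a.a1 n) d,
    Nat.div (Nat.mul a.b1 n) d, Nat.div (Nat.mul a.a2 n) d, Nat.div (Nat.mul a.b2 n) d,
    Nat.div (Nat.mul a.a3 n) d, Nat.div (Nat.mul a.b3 n) d⟩

lemma dq_aux (a b n : ℕ) {d : ℕ} (hd : 0 < d) :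
    |(((a * n / d : ℕ) : ℝ) - ((b * n / d : ℕ) : ℝ)) - ((a : ℝ) - b) * (n / d)| ≤ 1 := by
  have h1 := ndiv_le (a * n) d
  have h2 := lt_ndiv (a * n) hd
  have h3 := ndiv_le (b * n) d
  have h4 := lt_ndiv (b * n) hd
  push_cast at h1 h2 h3 h4
  have e : ((a : ℝ) - b) * (n / d) = a * n / d - b * n / d := by ring
  rw [e, abs_le]
  constructor <;> linarith

lemma Encl.mulq {n d : ℕ} (hd : 0 < d) {a : F} {ε : ℕ → ℝ} {x : ℝ} (hε : ∀ i, |ε i| ≤ 1)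
    (h : a.Encl ε x) : (F.mulq n d a).Encl ε ((n : ℝ) / d * x) := by
  rw [Encl_iff] at h ⊢
  have h0 := dq_aux a.p a.q n hd
  have g0 := dq_aux a.a0 a.b0 n hd
  have g1 := dq_aux a.a1 a.b1 n hd
  have g2 := dq_aux a.a2 a.b2 n hd
  have g3 := dq_aux a.a3 a.b3 n hd
  have hr := lt_ndiv (a.r * n) hd
  push_cast at hr
  unfold F.mulq
  change |(n : ℝ) / d * x * DR - (((a.p * n / d : ℕ) : ℝ) - ((a.q * n / d : ℕ) : ℝ) +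
    ((((a.a0 * n / d : ℕ) : ℝ) - ((a.b0 * n / d : ℕ) : ℝ)) * ε 0 +
    ((((a.a1 * n / d : ℕ) : ℝ) - ((a.b1 * n / d : ℕ) : ℝ)) * ε 1 +
    ((((a.a2 * n / d : ℕ) : ℝ) - ((a.b2 * n / d : ℕ) : ℝ)) * ε 2 +
    (((a.a3 * n / d : ℕ) : ℝ) - ((a.b3 * n / d : ℕ) : ℝ)) * ε 3))))| ≤
    ((a.r * n / d + 6 : ℕ) : ℝ)
  push_cast
  set P := ((a.p * n / d : ℕ) : ℝ) - ((a.q * n / d : ℕ) : ℝ)
  set G0 := ((a.a0 * n / d : ℕ) : ℝ) - ((a.b0 * n / d : ℕ) : ℝ)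
  set G1 := ((a.a1 * n / d : ℕ) : ℝ) - ((a.b1 * n / d : ℕ) : ℝ)
  set G2 := ((a.a2 * n / d : ℕ) : ℝ) - ((a.b2 * n / d : ℕ) : ℝ)
  set G3 := ((a.a3 * n / d : ℕ) : ℝ) - ((a.b3 * n / d : ℕ) : ℝ)
  set R := ((a.r * n / d : ℕ) : ℝ)
  set c : ℝ := (n : ℝ) / d with hc
  have hc0 : 0 ≤ c := by positivity
  have e : c * x * DR - (P + (G0 * ε 0 + (G1 * ε 1 + (G2 * ε 2 + G3 * ε 3)))) =
      c * (x * DR - ((a.p : ℝ) - a.q + (((a.a0 : ℝ) - a.b0) * ε 0 + (((a.a1 : ℝ) - a.b1) * ε 1 +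
        (((a.a2 : ℝ) - a.b2) * ε 2 + ((a.a3 : ℝ) - a.b3) * ε 3))))) -
      ((P - ((a.p : ℝ) - a.q) * c) + (G0 - ((a.a0 : ℝ) - a.b0) * c) * ε 0 +
        (G1 - ((a.a1 : ℝ) - a.b1) * c) * ε 1 + (G2 - ((a.a2 : ℝ) - a.b2) * c) * ε 2 +
        (G3 - ((a.a3 : ℝ) - a.b3) * c) * ε 3) := by ring
  rw [e]
  have m : ∀ (t : ℝ) (i : ℕ), |t| ≤ 1 → |t * ε i| ≤ 1 := fun t i ht => by
    rw [abs_mul]
    exact mul_le_one₀ ht (abs_nonneg _) (hε i)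
  have k0 := m _ 0 g0
  have k1 := m _ 1 g1
  have k2 := m _ 2 g2
  have k3 := m _ 3 g3
  have hm : |c * (x * DR - ((a.p : ℝ) - a.q + (((a.a0 : ℝ) - a.b0) * ε 0 + (((a.a1 : ℝ) - a.b1) * ε 1 +
        (((a.a2 : ℝ) - a.b2) * ε 2 + ((a.a3 : ℝ) - a.b3) * ε 3)))))| ≤ c * a.r := by
    rw [abs_mul, abs_of_nonneg hc0]
    exact mul_le_mul_of_nonneg_left h hc0
  have hcr : c * a.r ≤ R + 1 := by
    have : (a.r : ℝ) * n / d = c * a.r := by rw [hc]; ring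
    linarith
  rw [abs_le] at *
  constructor <;> linarith [k0.1, k0.2, k1.1, k1.2, k2.1, k2.2, k3.1, k3.2, hm.1, hm.2, h0.1, h0.2]

lemma Encl.pi (ε : ℕ → ℝ) : (F.pi).Encl ε Real.pi := pi_encl ε

lemma Encl.lnA {a b c : F} {ε : ℕ → ℝ} {x t : ℝ} (hε : ∀ i, |ε i| ≤ 1) (hx : a.Encl ε x)
    (ht : b.Encl ε t) (h : F.lnA a b = some c) : c.Encl ε (NumI.lnA x t) :=
  A.Encl.lnA hε hx ht (map_some_inv (F.toA_lnA a b) h)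

lemma Encl.lnB {a b c : F} {ε : ℕ → ℝ} {x t : ℝ} (hε : ∀ i, |ε i| ≤ 1) (hx : a.Encl ε x)
    (ht : b.Encl ε t) (h : F.lnB a b = some c) : c.Encl ε (NumI.lnB x t) :=
  A.Encl.lnB hε hx ht (map_some_inv (F.toA_lnB a b) h)

lemma Encl.log {a c : F} {ε : ℕ → ℝ} {x : ℝ} (hε : ∀ i, |ε i| ≤ 1) (hx : a.Encl ε x)
    (h : F.log a = some c) : c.Encl ε (Real.log x) :=
  A.Encl.log hε hx (map_some_inv (F.toA_log a) h)

lemma Encl.exp {a c : F} {ε : ℕ → ℝ} {x : ℝ} (hε : ∀ i, |ε i| ≤ 1) (hx : a.Encl ε x)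
    (h : F.exp a = some c) : c.Encl ε (Real.exp x) :=
  A.Encl.exp hε hx (map_some_inv (F.toA_exp a) h)

lemma Encl.inv {a c : F} {ε : ℕ → ℝ} {x : ℝ} (hε : ∀ i, |ε i| ≤ 1) (hx : a.Encl ε x)
    (h : F.inv a = some c) : c.Encl ε x⁻¹ :=
  A.Encl.inv hε hx (map_some_inv (F.toA_inv a) h)

lemma Encl.atan {a c : F} {ε : ℕ → ℝ} {x : ℝ} (hε : ∀ i, |ε i| ≤ 1) (hx : a.Encl ε x)
    (h : F.atan a = some c) : c.Encl ε (Real.arctan x) :=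
  A.Encl.atan hε hx (map_some_inv (F.toA_atan a) h)

lemma Encl.cosh {a c : F} {ε : ℕ → ℝ} {x : ℝ} (hε : ∀ i, |ε i| ≤ 1) (hx : a.Encl ε x)
    (h : F.hyp true a = some c) : c.Encl ε (Real.cosh x) :=
  A.Encl.hyp hε hx (map_some_inv (F.toA_hyp true a) h)

lemma Encl.sinh {a c : F} {ε : ℕ → ℝ} {x : ℝ} (hε : ∀ i, |ε i| ≤ 1) (hx : a.Encl ε x)
    (h : F.hyp false a = some c) : c.Encl ε (Real.sinh x) :=
  A.Encl.hyp hε hx (map_some_inv (F.toA_hyp false a) h)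

end F

end Pool.Agent.Work.NumI
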