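import Pool.Agent.Work.NumI.Tree

/-!
# Verified numerics for the kernel, part 10: certificates in pieces

A certificate tree of `NumI.Tree` can be checked in pieces, each by a theorem of its own: `runE`
is the check of a subtree (`c` is the code at the root of the subtree, `c'` the rest after it),
`runE_split0, ..., runE_split3` put the two halves of a bisection together and `okB_of` gives the
full check.
-/

namespace Pool.Agent.Work.NumI

/-- the check of a subtree: the run succeeds and leaves the code `c'` -/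
noncomputable def runE (test : ℕ → F → F → F → F → Bool)
    (o0 o1 o2 o3 fuel a0 b0 a1 b1 a2 b2 a3 b3 c c' : ℕ) : Bool :=
  Option.rec (motive := fun _ => Bool) false (fun x => Nat.beq x c')
    (runQ test o0 o1 o2 o3 fuel a0 b0 a1 b1 a2 b2 a3 b3 c)

theorem runE_iff {test : ℕ → F → F → F → F → Bool}
    {o0 o1 o2 o3 fuel a0 b0 a1 b1 a2 b2 a3 b3 c c' : ℕ} :
    runE test o0 o1 o2 o3 fuel a0 b0 a1 b1 a2 b2 a3 b3 c c' = true ↔
      runQ test o0 o1 o2 o3 fuel a0 b0 a1 b1 a2 b2 a3 b3 c = some c' := by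
  unfold runE
  rcases runQ test o0 o1 o2 o3 fuel a0 b0 a1 b1 a2 b2 a3 b3 c with _ | x
  · simp
  · change Nat.beq x c' = true ↔ some x = some c'
    rw [Nat.beq_eq]
    simp

variable {test : ℕ → F → F → F → F → Bool} {o0 o1 o2 o3 n a0 b0 a1 b1 a2 b2 a3 b3 c c1 c2 c3 m : ℕ}

theorem runE_split0 (hd : Nat.land c 127 = 0) (hc : Nat.shiftRight c 7 = c1)
    (hm : Nat.div (Nat.add a0 b0) 2 = m)
    (h1 : runE test o0 o1 o2 o3 n a0 m a1 b1 a2 b2 a3 b3 c1 c2 = true)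
    (h2 : runE test o0 o1 o2 o3 n m b0 a1 b1 a2 b2 a3 b3 c2 c3 = true) :
    runE test o0 o1 o2 o3 (n + 1) a0 b0 a1 b1 a2 b2 a3 b3 c c3 = true := by
  rw [runE_iff] at h1 h2 ⊢
  rw [runQ_succ, fN_eq, fN_eq, hd, hc]
  change fN (Nat.div (Nat.add a0 b0) 2) (fun m =>
            sq2 (runQ test o0 o1 o2 o3 n a0 m a1 b1 a2 b2 a3 b3 c1) fun c'' =>
              runQ test o0 o1 o2 o3 n m b0 a1 b1 a2 b2 a3 b3 c'') = some c3
  rw [fN_eq, hm, h1]
  exact h2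

theorem runE_split1 (hd : Nat.land c 127 = 1) (hc : Nat.shiftRight c 7 = c1)
    (hm : Nat.div (Nat.add a1 b1) 2 = m)
    (h1 : runE test o0 o1 o2 o3 n a0 b0 a1 m a2 b2 a3 b3 c1 c2 = true)
    (h2 : runE test o0 o1 o2 o3 n a0 b0 m b1 a2 b2 a3 b3 c2 c3 = true) :
    runE test o0 o1 o2 o3 (n + 1) a0 b0 a1 b1 a2 b2 a3 b3 c c3 = true := by
  rw [runE_iff] at h1 h2 ⊢
  rw [runQ_succ, fN_eq, fN_eq, hd, hc]
  change fN (Nat.div (Nat.add a1 b1) 2) (fun m =>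
            sq2 (runQ test o0 o1 o2 o3 n a0 b0 a1 m a2 b2 a3 b3 c1) fun c'' =>
              runQ test o0 o1 o2 o3 n a0 b0 m b1 a2 b2 a3 b3 c'') = some c3
  rw [fN_eq, hm, h1]
  exact h2

theorem runE_split2 (hd : Nat.land c 127 = 2) (hc : Nat.shiftRight c 7 = c1)
    (hm : Nat.div (Nat.add a2 b2) 2 = m)
    (h1 : runE test o0 o1 o2 o3 n a0 b0 a1 b1 a2 m a3 b3 c1 c2 = true)
    (h2 : runE test o0 o1 o2 o3 n a0 b0 a1 b1 m b2 a3 b3 c2 c3 = true) :
    runE test o0 o1 o2 o3 (n + 1) a0 b0 a1 b1 a2 b2 a3 b3 c c3 = true := by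
  rw [runE_iff] at h1 h2 ⊢
  rw [runQ_succ, fN_eq, fN_eq, hd, hc]
  change fN (Nat.div (Nat.add a2 b2) 2) (fun m =>
            sq2 (runQ test o0 o1 o2 o3 n a0 b0 a1 b1 a2 m a3 b3 c1) fun c'' =>
              runQ test o0 o1 o2 o3 n a0 b0 a1 b1 m b2 a3 b3 c'') = some c3
  rw [fN_eq, hm, h1]
  exact h2

theorem runE_split3 (hd : Nat.land c 127 = 3) (hc : Nat.shiftRight c 7 = c1)
    (hm : Nat.div (Nat.add a3 b3) 2 = m)
    (h1 : runE test o0 o1 o2 o3 n a0 b0 a1 b1 a2 b2 a3 m c1 c2 = true)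
    (h2 : runE test o0 o1 o2 o3 n a0 b0 a1 b1 a2 b2 m b3 c2 c3 = true) :
    runE test o0 o1 o2 o3 (n + 1) a0 b0 a1 b1 a2 b2 a3 b3 c c3 = true := by
  rw [runE_iff] at h1 h2 ⊢
  rw [runQ_succ, fN_eq, fN_eq, hd, hc]
  change fN (Nat.div (Nat.add a3 b3) 2) (fun m =>
            sq2 (runQ test o0 o1 o2 o3 n a0 b0 a1 b1 a2 b2 a3 m c1) fun c'' =>
              runQ test o0 o1 o2 o3 n a0 b0 a1 b1 a2 b2 m b3 c'') = some c3
  rw [fN_eq, hm, h1]
  exact h2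

/-- the full check from the pieces -/
theorem okB_of {N p0 p1 p2 p3 l0 h0 l1 h1 l2 h2 l3 h3 : ℕ}
    (e0 : Nat.div (Nat.add (Nat.mul p0 68719476736) (Nat.sub N 1)) N = o0)
    (e1 : Nat.div (Nat.add (Nat.mul p1 68719476736) (Nat.sub N 1)) N = o1)
    (e2 : Nat.div (Nat.add (Nat.mul p2 68719476736) (Nat.sub N 1)) N = o2)
    (e3 : Nat.div (Nat.add (Nat.mul p3 68719476736) (Nat.sub N 1)) N = o3)
    (ha0 : Nat.div (Nat.mul l0 68719476736) N = a0)
    (hb0 : Nat.add (Nat.div (Nat.mul h0 68719476736) N) 2 = b0)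
    (ha1 : Nat.div (Nat.mul l1 68719476736) N = a1)
    (hb1 : Nat.add (Nat.div (Nat.mul h1 68719476736) N) 2 = b1)
    (ha2 : Nat.div (Nat.mul l2 68719476736) N = a2)
    (hb2 : Nat.add (Nat.div (Nat.mul h2 68719476736) N) 2 = b2)
    (ha3 : Nat.div (Nat.mul l3 68719476736) N = a3)
    (hb3 : Nat.add (Nat.div (Nat.mul h3 68719476736) N) 2 = b3)
    (h : runE test o0 o1 o2 o3 n a0 b0 a1 b1 a2 b2 a3 b3 c 0 = true) :
    okB N test p0 p1 p2 p3 n l0 h0 l1 h1 l2 h2 l3 h3 c = true := by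
  rw [runE_iff] at h
  unfold okB
  simp only [fN_eq]
  rw [e0, e1, e2, e3, ha0, hb0, ha1, hb1, ha2, hb2, ha3, hb3]
  unfold okT
  rw [h]
  rfl

end Pool.Agent.Work.NumI
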