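import Mathlib
import Pool.Agent.Work.NumI.Expr

/-!
# How to use the checker

1. Write the expression, e.g. `E.sub (E.sinPi (E.var 0)) (E.q 1 2)`; variables are numbered from 0.
   A shared subexpression: `E.lt a b`; inside `b` the value of `a` is the next free variable
   (`E.var n` if there are `n` variables so far).
2. Search with compiled code: `#eval cnt [e] fuel box` gives the number of boxes (>= 1000000: fuel
   exhausted).  `V.of N lo hi k` is the range `[lo / N, hi / N]`, `k` (default 4) a weight: a larger
   `k` makes the checker prefer to bisect this variable.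
3. Prove `chk [e] fuel box = true` by `decide +kernel`, apply `chk1`, ..., `chk4` or `chk_box`, and
   simplify with `E.val`.
-/

namespace Pool.Agent.Work.NumI

/-- number of boxes (for `#eval` only) -/
def cnt (es : List E) : ℕ → List V → ℕ
  | 0, _ => 1000000
  | n + 1, vs =>
    if tryE (mkEnv 0 vs) es then 1 else
      let i := best vs (grad1 (mkEnv 0 vs) es) 0 0 0
      cnt es n (setL i vs) + cnt es n (setR i vs)

/-- the first box on which the search fails, in units `1 / 2^36` (for `#eval` only) -/
def bad (es : List E) : ℕ → List V → Option (List (ℤ × ℤ))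
  | 0, vs => some (vs.map fun v => ((v.p : ℤ) - v.q + v.a, (v.p : ℤ) - v.q + v.b))
  | n + 1, vs =>
    if tryE (mkEnv 0 vs) es then none else
      let i := best vs (grad1 (mkEnv 0 vs) es) 0 0 0
      match bad es n (setL i vs) with
      | some r => some r
      | none => bad es n (setR i vs)

section
open E

/-- `1/2 log (4 (sin^2 (π x) + sinh^2 (π t)))`, variables `x = var 0`, `t = var 1` -/
def exA : E := mul (q 1 2) (log (mul (q 4 1) (add (sq (sinPi (var 0))) (sq (sinh (mul pi (var 1)))))))

example (x t : ℝ) (hx : 1 / 10 ≤ x) (hx' : x ≤ 1 / 2) (ht : 0 ≤ t) (ht' : t ≤ 1 / 5) :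
    -(49 / 100) < 1 / 2 * Real.log (4 * (Real.sin (Real.pi * x) ^ 2 + Real.sinh (Real.pi * t) ^ 2)) := by
  have h : chk [add exA (q 49 100)] 30 [V.of 400 40 200, V.of 400 0 80] = true := by decide +kernel
  have hp := pos_of_chk (chk2 h (by norm_num) (x := x) (y := t) (by norm_num; linarith)
    (by norm_num; linarith) (by norm_num; linarith) (by norm_num; linarith))
  simp only [exA, val, lkR_zero, lkR_one] at hp
  norm_num at hp
  linarith

end

end Pool.Agent.Work.NumI
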