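import Mathlib
import Pool.Agent.Work.NumI.LnSin
import Pool.Agent.Work.NumI.Atan
import Pool.Agent.Work.NumI.Log

/-!
# Verified numerics: third order remainder of `log |2 sin π(x + i t)|`
-/

namespace Pool.Agent.Work.NumI

lemma lnA_lineM {x t a b τ : ℝ} (hM : 0 < MM (x + τ * a) (t + τ * b)) :
    HasDerivAt (fun τ => lnA (x + τ * a) (t + τ * b))
      (Real.pi * (a * PP (x + τ * a) (t + τ * b) + b * QQ (x + τ * a) (t + τ * b))) τ := by
  have h1 := hasDerivAt_line Real.hasDerivAt_sin x a τ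
  have h2 := hasDerivAt_line Real.hasDerivAt_sinh t b τ
  have h3 := ((h1.pow 2).add (h2.pow 2)).const_mul 4
  have h4 := (h3.log (by
    have : 4 * MM (x + τ * a) (t + τ * b) ≠ 0 := by positivity
    exact this)).div_const 2
  refine h4.congr_deriv ?_
  change _ / (4 * MM (x + τ * a) (t + τ * b)) / 2 = _
  unfold PP QQ
  field_simp
  ring

lemma ct_eqM {x t : ℝ} (hM : 0 < MM x t) :
    ct x t = (PP x t : ℂ) - (QQ x t : ℂ) * Complex.I := by
  have hsin : Complex.sin (Real.pi * x + Real.pi * t * Complex.I) ≠ 0 := by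
    intro h0
    have := sin_normSq x t
    rw [h0] at this
    simp at this
    linarith
  unfold ct
  rw [div_eq_iff hsin]
  rw [cos_re_im, sin_re_im]
  have e1 := Real.sin_sq_add_cos_sq (Real.pi * x)
  have e2 := Real.cosh_sq (Real.pi * t)
  unfold PP QQ
  have hMM : MM x t = Real.sin (Real.pi * x) ^ 2 + Real.sinh (Real.pi * t) ^ 2 := rfl
  set s := Real.sin (Real.pi * x)
  set c := Real.cos (Real.pi * x)
  set sh := Real.sinh (Real.pi * t)
  set ch := Real.cosh (Real.pi * t)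
  set M := MM x t
  have hM0 : M ≠ 0 := hM.ne'
  have r1 : c * ch = s * c / M * (s * ch) + sh * ch / M * (c * sh) := by
    field_simp
    rw [hMM]
  have r2 : -(s * sh) = s * c / M * (c * sh) - sh * ch / M * (s * ch) := by
    field_simp
    have hc2 : c ^ 2 = 1 - s ^ 2 := by linarith
    rw [hMM, hc2, e2]
    ring
  have r1' : ((c * ch : ℝ) : ℂ) = ((s * c / M * (s * ch) + sh * ch / M * (c * sh) : ℝ) : ℂ) := by
    rw [r1]
  have r2' : ((-(s * sh) : ℝ) : ℂ) = ((s * c / M * (c * sh) - sh * ch / M * (s * ch) : ℝ) : ℂ) := by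
    rw [r2]
  have e3 : ((c * ch : ℝ) : ℂ) - ((s * sh : ℝ) : ℂ) * Complex.I =
      ((c * ch : ℝ) : ℂ) + ((-(s * sh) : ℝ) : ℂ) * Complex.I := by push_cast; ring
  rw [e3, r1', r2']
  push_cast
  have hI : Complex.I ^ 2 = -1 := Complex.I_sq
  ring_nf
  rw [hI]
  ring

lemma ct_diffM {x t a b L2 : ℝ} (hL : 0 < L2)
    (hM : ∀ τ ∈ Set.Icc (0 : ℝ) 1, L2 ≤ MM (x + τ * a) (t + τ * b)) :
    ∀ τ ∈ Set.Icc (0 : ℝ) 1, ‖ct (x + τ * a) (t + τ * b) - ct x t‖ ≤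
      ‖((Real.pi * a : ℝ) : ℂ) + ((Real.pi * b : ℝ) : ℂ) * Complex.I‖ / L2 * τ := by
  have hsin : ∀ τ ∈ Set.Icc (0 : ℝ) 1,
      Complex.sin (Real.pi * ((x + τ * a : ℝ) : ℂ) + Real.pi * ((t + τ * b : ℝ) : ℂ) * Complex.I) ≠ 0 := by
    intro τ hτ h0
    have := sin_normSq (x + τ * a) (t + τ * b)
    rw [h0] at this
    simp at this
    have := hM τ hτ
    linarith
  set w : ℂ := ((Real.pi * a : ℝ) : ℂ) + ((Real.pi * b : ℝ) : ℂ) * Complex.I with hw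
  have hd : ∀ τ ∈ Set.Icc (0 : ℝ) 1, HasDerivAt (fun τ : ℝ => ct (x + τ * a) (t + τ * b))
      (-w / Complex.sin (Real.pi * ((x + τ * a : ℝ) : ℂ) + Real.pi * ((t + τ * b : ℝ) : ℂ) * Complex.I) ^ 2)
      τ := by
    intro τ hτ
    have hz : HasDerivAt (fun τ : ℝ => (Real.pi * ((x + τ * a : ℝ) : ℂ) +
        Real.pi * ((t + τ * b : ℝ) : ℂ) * Complex.I)) w τ := by
      have h1 : HasDerivAt (fun τ : ℝ => (τ : ℂ)) 1 τ := Complex.ofRealCLM.hasDerivAt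
      have h2 := ((h1.mul_const (a : ℂ)).const_add (x : ℂ)).const_mul (Real.pi : ℂ)
      have h3 := (((h1.mul_const (b : ℂ)).const_add (t : ℂ)).const_mul (Real.pi : ℂ)).mul_const Complex.I
      have h4 := h2.add h3
      refine (h4.congr_deriv ?_).congr_of_eventuallyEq ?_
      · rw [hw]; push_cast; ring
      · refine Filter.Eventually.of_forall fun τ => ?_
        simp only [Pi.add_apply]
        push_cast; ring
    have hc := (Complex.hasDerivAt_cos _).comp τ hz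
    have hs' := (Complex.hasDerivAt_sin _).comp τ hz
    have hq := hc.div hs' (hsin τ hτ)
    refine hq.congr_deriv ?_
    have := hsin τ hτ
    simp only [Function.comp]
    rw [div_left_inj' (pow_ne_zero 2 this)]
    have h1 := Complex.sin_sq_add_cos_sq (Real.pi * ((x + τ * a : ℝ) : ℂ) +
        Real.pi * ((t + τ * b : ℝ) : ℂ) * Complex.I)
    linear_combination (-w) * h1
  intro τ hτ
  have key := norm_image_sub_le_of_norm_deriv_le_segment' (a := 0) (b := 1)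
    (f := fun τ : ℝ => ct (x + τ * a) (t + τ * b)) (C := ‖w‖ / L2)
    (fun τ hτ => (hd τ hτ).hasDerivWithinAt) (fun τ hτ => by
      have hτ' : τ ∈ Set.Icc (0 : ℝ) 1 := ⟨hτ.1, hτ.2.le⟩
      rw [norm_div, norm_neg, norm_pow]
      have h1 := sin_normSq (x + τ * a) (t + τ * b)
      rw [h1]
      have := hM τ hτ'
      gcongr) τ hτ
  simpa using key

/-- remainder of second order of `cot` on a segment -/
lemma ct_second {x t a b L2 : ℝ} (hL : 0 < L2)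
    (hM : ∀ τ ∈ Set.Icc (0 : ℝ) 1, L2 ≤ MM (x + τ * a) (t + τ * b)) {w : ℂ}
    (hw : w = ((Real.pi * a : ℝ) : ℂ) + ((Real.pi * b : ℝ) : ℂ) * Complex.I) :
    ∀ τ ∈ Set.Icc (0 : ℝ) 1,
      ‖ct (x + τ * a) (t + τ * b) - ct x t + τ * (w * (1 + ct x t ^ 2))‖ ≤
        ‖w‖ ^ 2 / L2 * ‖ct x t‖ * τ ^ 2 + ‖w‖ ^ 3 / L2 ^ 2 / 3 * τ ^ 3 := by
  have hsin : ∀ τ ∈ Set.Icc (0 : ℝ) 1,
      Complex.sin (Real.pi * ((x + τ * a : ℝ) : ℂ) + Real.pi * ((t + τ * b : ℝ) : ℂ) * Complex.I) ≠ 0 := by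
    intro τ hτ h0
    have := sin_normSq (x + τ * a) (t + τ * b)
    rw [h0] at this
    simp at this
    have := hM τ hτ
    linarith
  have hct := ct_diffM hL hM
  rw [← hw] at hct
  have hd : ∀ τ ∈ Set.Icc (0 : ℝ) 1, HasDerivAt (fun τ : ℝ => ct (x + τ * a) (t + τ * b))
      (-(w * (1 + ct (x + τ * a) (t + τ * b) ^ 2))) τ := by
    intro τ hτ
    have hz : HasDerivAt (fun τ : ℝ => (Real.pi * ((x + τ * a : ℝ) : ℂ) +
        Real.pi * ((t + τ * b : ℝ) : ℂ) * Complex.I)) w τ := by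
      have h1 : HasDerivAt (fun τ : ℝ => (τ : ℂ)) 1 τ := Complex.ofRealCLM.hasDerivAt
      have h2 := ((h1.mul_const (a : ℂ)).const_add (x : ℂ)).const_mul (Real.pi : ℂ)
      have h3 := (((h1.mul_const (b : ℂ)).const_add (t : ℂ)).const_mul (Real.pi : ℂ)).mul_const Complex.I
      have h4 := h2.add h3
      refine (h4.congr_deriv ?_).congr_of_eventuallyEq ?_
      · rw [hw]; push_cast; ring
      · refine Filter.Eventually.of_forall fun τ => ?_
        simp only [Pi.add_apply]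
        push_cast; ring
    have hc := (Complex.hasDerivAt_cos _).comp τ hz
    have hs' := (Complex.hasDerivAt_sin _).comp τ hz
    have hq := hc.div hs' (hsin τ hτ)
    refine hq.congr_deriv ?_
    have := hsin τ hτ
    simp only [Function.comp]
    unfold ct
    set z : ℂ := Real.pi * ((x + τ * a : ℝ) : ℂ) + Real.pi * ((t + τ * b : ℝ) : ℂ) * Complex.I
    field_simp
    ring
  have key := image_norm_le_of_norm_deriv_right_le_deriv_boundary
    (f := fun τ : ℝ => ct (x + τ * a) (t + τ * b) - ct x t + (τ : ℂ) * (w * (1 + ct x t ^ 2)))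
    (f' := fun τ : ℝ => -(w * (1 + ct (x + τ * a) (t + τ * b) ^ 2)) + 1 * (w * (1 + ct x t ^ 2)))
    (a := 0) (b := 1)
    (B := fun τ => ‖w‖ ^ 2 / L2 * ‖ct x t‖ * τ ^ 2 + ‖w‖ ^ 3 / L2 ^ 2 / 3 * τ ^ 3)
    (B' := fun τ => 2 * (‖w‖ ^ 2 / L2 * ‖ct x t‖) * τ + ‖w‖ ^ 3 / L2 ^ 2 * τ ^ 2)
  have hd' : ∀ τ ∈ Set.Icc (0 : ℝ) 1, HasDerivAt
      (fun τ : ℝ => ct (x + τ * a) (t + τ * b) - ct x t + (τ : ℂ) * (w * (1 + ct x t ^ 2)))
      (-(w * (1 + ct (x + τ * a) (t + τ * b) ^ 2)) + 1 * (w * (1 + ct x t ^ 2))) τ := by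
    intro τ hτ
    have h1 : HasDerivAt (fun τ : ℝ => (τ : ℂ)) 1 τ := Complex.ofRealCLM.hasDerivAt
    exact ((hd τ hτ).sub_const _).add (h1.mul_const _)
  have h2 := key (fun τ hτ => (hd' τ hτ).continuousAt.continuousWithinAt)
    (fun τ hτ => (hd' τ ⟨hτ.1, hτ.2.le⟩).hasDerivWithinAt) (by simp)
    (fun τ => by
      have := ((hasDerivAt_pow 2 τ).const_mul (‖w‖ ^ 2 / L2 * ‖ct x t‖)).add
        ((hasDerivAt_pow 3 τ).const_mul (‖w‖ ^ 3 / L2 ^ 2 / 3))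
      refine this.congr_deriv ?_
      push_cast
      ring)
    (fun τ hτ => by
      have hτ' : τ ∈ Set.Icc (0 : ℝ) 1 := ⟨hτ.1, hτ.2.le⟩
      have h3 := hct τ hτ'
      have e1 : -(w * (1 + ct (x + τ * a) (t + τ * b) ^ 2)) + 1 * (w * (1 + ct x t ^ 2)) =
        -(w * ((ct (x + τ * a) (t + τ * b) - ct x t) *
          ((ct (x + τ * a) (t + τ * b) - ct x t) + 2 * ct x t))) := by ring
      rw [e1, norm_neg, norm_mul, norm_mul]
      have h4 : ‖(ct (x + τ * a) (t + τ * b) - ct x t) + 2 * ct x t‖ ≤ ‖w‖ / L2 * τ + 2 * ‖ct x t‖ := by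
        refine (norm_add_le _ _).trans ?_
        have : ‖(2 : ℂ) * ct x t‖ = 2 * ‖ct x t‖ := by rw [norm_mul]; simp
        rw [this]
        linarith
      have h5 : 0 ≤ ‖w‖ / L2 * τ := mul_nonneg (div_nonneg (norm_nonneg _) hL.le) hτ.1
      calc ‖w‖ * (‖ct (x + τ * a) (t + τ * b) - ct x t‖ *
            ‖(ct (x + τ * a) (t + τ * b) - ct x t) + 2 * ct x t‖)
          ≤ ‖w‖ * ((‖w‖ / L2 * τ) * (‖w‖ / L2 * τ + 2 * ‖ct x t‖)) := by gcongr
        _ = 2 * (‖w‖ ^ 2 / L2 * ‖ct x t‖) * τ + ‖w‖ ^ 3 / L2 ^ 2 * τ ^ 2 := by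
            field_simp
            ring)
  intro τ hτ
  exact h2 hτ

/-- remainder of third order of `lnA` -/
lemma lnA_third {x t a b L2 : ℝ} (hL : 0 < L2)
    (hM : ∀ τ ∈ Set.Icc (0 : ℝ) 1, L2 ≤ MM (x + τ * a) (t + τ * b)) :
    |lnA (x + a) (t + b) - lnA x t - Real.pi * (a * PP x t + b * QQ x t) +
      Real.pi ^ 2 / 2 * ((a ^ 2 - b ^ 2) * (1 + PP x t ^ 2 - QQ x t ^ 2) +
        4 * (a * b) * (PP x t * QQ x t))| ≤
      Real.pi ^ 2 * (a ^ 2 + b ^ 2) / L2 * (Real.pi * (|a| + |b|) * (|PP x t| + |QQ x t|)) / 3 +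
        (Real.pi ^ 2 * (a ^ 2 + b ^ 2) / L2) ^ 2 / 12 := by
  set w : ℂ := ((Real.pi * a : ℝ) : ℂ) + ((Real.pi * b : ℝ) : ℂ) * Complex.I with hw
  have hct := ct_second hL hM hw
  have hpi := Real.pi_pos
  have hw2 : ‖w‖ ^ 2 = Real.pi ^ 2 * (a ^ 2 + b ^ 2) := by
    rw [hw, ← Complex.normSq_eq_norm_sq, Complex.normSq_add_mul_I]; ring
  have hw1 : ‖w‖ ≤ Real.pi * (|a| + |b|) := by
    rw [hw]
    refine (norm_add_le _ _).trans ?_
    rw [norm_mul, Complex.norm_I, mul_one, Complex.norm_real, Complex.norm_real, Real.norm_eq_abs,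
      Real.norm_eq_abs, abs_mul, abs_mul, abs_of_pos hpi]
    linarith
  have h0 : (0 : ℝ) ∈ Set.Icc (0 : ℝ) 1 := ⟨le_rfl, zero_le_one⟩
  have hm0 : 0 < MM x t := hL.trans_le (by simpa using hM 0 h0)
  have hm : ∀ τ ∈ Set.Icc (0 : ℝ) 1, 0 < MM (x + τ * a) (t + τ * b) := fun τ hτ =>
    hL.trans_le (hM τ hτ)
  have hc1 : ‖ct x t‖ ≤ |PP x t| + |QQ x t| := by
    rw [ct_eqM hm0]
    refine (norm_sub_le _ _).trans ?_
    rw [norm_mul, Complex.norm_I, mul_one, Complex.norm_real, Complex.norm_real, Real.norm_eq_abs,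
      Real.norm_eq_abs]
  set c1 : ℝ := Real.pi * (a * PP x t + b * QQ x t) with hc1'
  set c2 : ℝ := Real.pi ^ 2 * ((a ^ 2 - b ^ 2) * (1 + PP x t ^ 2 - QQ x t ^ 2) +
        4 * (a * b) * (PP x t * QQ x t)) with hc2'
  have hform : ∀ τ ∈ Set.Icc (0 : ℝ) 1,
      (w * (ct (x + τ * a) (t + τ * b) - ct x t + τ * (w * (1 + ct x t ^ 2)))).re =
      Real.pi * (a * PP (x + τ * a) (t + τ * b) + b * QQ (x + τ * a) (t + τ * b)) - c1 + τ * c2 := by
    intro τ hτ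
    rw [ct_eqM (hm τ hτ), ct_eqM hm0, hw, hc1', hc2']
    simp only [Complex.mul_re, Complex.add_re, Complex.sub_re, Complex.ofReal_re, Complex.ofReal_im,
      Complex.I_re, Complex.I_im, Complex.add_im, Complex.sub_im, Complex.mul_im, Complex.one_re,
      Complex.one_im, pow_two]
    ring
  have key := image_norm_le_of_norm_deriv_right_le_deriv_boundary
    (f := fun τ => lnA (x + τ * a) (t + τ * b) - lnA x t - τ * c1 + τ ^ 2 / 2 * c2)
    (f' := fun τ => Real.pi * (a * PP (x + τ * a) (t + τ * b) + b * QQ (x + τ * a) (t + τ * b)) -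
      c1 + τ * c2)
    (a := 0) (b := 1)
    (B := fun τ => ‖w‖ ^ 2 / L2 * (‖w‖ * ‖ct x t‖) * τ ^ 3 / 3 + (‖w‖ ^ 2 / L2) ^ 2 / 12 * τ ^ 4)
    (B' := fun τ => ‖w‖ ^ 2 / L2 * (‖w‖ * ‖ct x t‖) * τ ^ 2 + (‖w‖ ^ 2 / L2) ^ 2 / 3 * τ ^ 3)
  have hd : ∀ τ ∈ Set.Icc (0 : ℝ) 1, HasDerivAt
      (fun τ => lnA (x + τ * a) (t + τ * b) - lnA x t - τ * c1 + τ ^ 2 / 2 * c2)
      (Real.pi * (a * PP (x + τ * a) (t + τ * b) + b * QQ (x + τ * a) (t + τ * b)) -
        c1 + τ * c2) τ := fun τ hτ => by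
    have := (((lnA_lineM (t := t) (b := b) (hm τ hτ)).sub_const (lnA x t)).sub
      ((hasDerivAt_id τ).mul_const c1)).add (((hasDerivAt_pow 2 τ).div_const 2).mul_const c2)
    refine this.congr_deriv ?_
    push_cast
    ring
  have h2 := key (fun τ hτ => (hd τ hτ).continuousAt.continuousWithinAt)
    (fun τ hτ => (hd τ ⟨hτ.1, hτ.2.le⟩).hasDerivWithinAt) (by simp)
    (fun τ => by
      have := (((hasDerivAt_pow 3 τ).const_mul (‖w‖ ^ 2 / L2 * (‖w‖ * ‖ct x t‖))).div_const 3).add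
        ((hasDerivAt_pow 4 τ).const_mul ((‖w‖ ^ 2 / L2) ^ 2 / 12))
      refine this.congr_deriv ?_
      push_cast
      ring)
    (fun τ hτ => by
      have hτ' : τ ∈ Set.Icc (0 : ℝ) 1 := ⟨hτ.1, hτ.2.le⟩
      have h3 := hct τ hτ'
      rw [← hform τ hτ', Real.norm_eq_abs]
      refine (Complex.abs_re_le_norm _).trans ?_
      rw [norm_mul]
      calc ‖w‖ * ‖ct (x + τ * a) (t + τ * b) - ct x t + τ * (w * (1 + ct x t ^ 2))‖
          ≤ ‖w‖ * (‖w‖ ^ 2 / L2 * ‖ct x t‖ * τ ^ 2 + ‖w‖ ^ 3 / L2 ^ 2 / 3 * τ ^ 3) := by gcongr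
        _ = _ := by
          field_simp)
    (Set.right_mem_Icc.2 zero_le_one)
  have h4 : |lnA (x + a) (t + b) - lnA x t - c1 + c2 / 2| ≤
      ‖w‖ ^ 2 / L2 * (‖w‖ * ‖ct x t‖) / 3 + (‖w‖ ^ 2 / L2) ^ 2 / 12 := by
    have := h2
    simp only [one_mul, one_pow, mul_one, Real.norm_eq_abs] at this
    rw [show (1 : ℝ) / 2 * c2 = c2 / 2 by ring] at this
    exact this
  have e3 : Real.pi ^ 2 / 2 * ((a ^ 2 - b ^ 2) * (1 + PP x t ^ 2 - QQ x t ^ 2) +
        4 * (a * b) * (PP x t * QQ x t)) = c2 / 2 := by rw [hc2']; ring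
  rw [e3]
  refine h4.trans ?_
  rw [hw2]
  have h5 : ‖w‖ * ‖ct x t‖ ≤ Real.pi * (|a| + |b|) * (|PP x t| + |QQ x t|) := by gcongr
  have h6 : 0 ≤ Real.pi ^ 2 * (a ^ 2 + b ^ 2) / L2 := by positivity
  have h7 := mul_le_mul_of_nonneg_left h5 h6
  linarith

end Pool.Agent.Work.NumI
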