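import Mathlib
import Pool.Agent.Work.NumI.LnThird
import Pool.Agent.Work.NumI.Expr

/-!
# Verified numerics: signed fixed point numbers with an error, third order expansion of `lnA` at a
point
-/

namespace Pool.Agent.Work.NumI

/-- the number `(p - q) / D` with error `r / D` -/
structure S where
  p : ℕ
  q : ℕ
  r : ℕ

namespace S

def Enc (s : S) (v : ℝ) : Prop := |v * DR - ((s.p : ℝ) - s.q)| ≤ s.r

def add (a b : S) : S :=
  ⟨Nat.sub (Nat.add a.p b.p) (Nat.add a.q b.q), Nat.sub (Nat.add a.q b.q) (Nat.add a.p b.p),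
    Nat.add a.r b.r⟩

def neg (a : S) : S := ⟨a.q, a.p, a.r⟩

def sub (a b : S) : S :=
  ⟨Nat.sub (Nat.add a.p b.q) (Nat.add a.q b.p), Nat.sub (Nat.add a.q b.p) (Nat.add a.p b.q),
    Nat.add a.r b.r⟩

def mul (a b : S) : S :=
  let P := Nat.add (Nat.mul a.p b.p) (Nat.mul a.q b.q)
  let Q := Nat.add (Nat.mul a.p b.q) (Nat.mul a.q b.p)
  ⟨Nat.div (Nat.sub P Q) 68719476736, Nat.div (Nat.sub Q P) 68719476736,
    Nat.add (Nat.div (Nat.add (Nat.mul (Nat.add a.p a.q) b.r)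
      (Nat.mul (Nat.add (Nat.add b.p b.q) b.r) a.r)) 68719476736) 2⟩

/-- multiplication with the integer `m - n` -/
def zsm (m n : ℕ) (a : S) : S :=
  ⟨Nat.add (Nat.mul m a.p) (Nat.mul n a.q), Nat.add (Nat.mul m a.q) (Nat.mul n a.p),
    Nat.mul (Nat.add m n) a.r⟩

def half (a : S) : S := ⟨Nat.div a.p 2, Nat.div a.q 2, Nat.add (Nat.div a.r 2) 1⟩

def one : S := ⟨68719476736, 0, 0⟩
def zero : S := ⟨0, 0, 0⟩

/-- upper bounds of the absolute value, of the positive part, of the negative part -/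
def ab (a : S) : ℕ := Nat.add (Nat.add a.p a.q) a.r
def ps (a : S) : ℕ := Nat.sub (Nat.add a.p a.r) a.q
def ng (a : S) : ℕ := Nat.sub (Nat.add a.q a.r) a.p

def inv (n : S) : Option S :=
  cond (Nat.ble (Nat.add (Nat.add n.q n.r) 1) n.p) (cond (Nat.beq n.q 0)
    (some ⟨Nat.div 4722366482869645213696 n.p, 0,
      Nat.add (Nat.div (Nat.mul 4722366482869645213696 n.r) (Nat.mul n.p (Nat.sub n.p n.r))) 2⟩) none) none

def log (n : S) : Option S :=
  cond (Nat.ble (Nat.add (Nat.add n.q n.r) 1) n.p) (cond (Nat.beq n.q 0)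
    (cond (Nat.ble n.p 1267650600228229401496703205376)
    (some ⟨(logM n.p).1, (logM n.p).2,
      Nat.add (Nat.div (Nat.mul 68719476736 n.r) (Nat.sub n.p n.r)) 7⟩) none) none) none

variable {a b c : S} {u v : ℝ}

theorem Enc.add (h1 : a.Enc u) (h2 : b.Enc v) : (a.add b).Enc (u + v) := by
  unfold Enc at *
  have k := sub_sub_cast (a.p + b.p) (a.q + b.q)
  change |(u + v) * DR - (((a.p + b.p - (a.q + b.q) : ℕ) : ℝ) - ((a.q + b.q - (a.p + b.p) : ℕ) : ℝ))| ≤
    ((a.r + b.r : ℕ) : ℝ)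
  rw [k]
  push_cast
  rw [abs_le] at *
  constructor <;> linarith [h1.1, h1.2, h2.1, h2.2]

theorem Enc.neg (h1 : a.Enc u) : (a.neg).Enc (-u) := by
  unfold Enc at *
  change |(-u) * DR - ((a.q : ℝ) - a.p)| ≤ a.r
  rw [abs_le] at *
  constructor <;> linarith [h1.1, h1.2]

theorem Enc.sub (h1 : a.Enc u) (h2 : b.Enc v) : (a.sub b).Enc (u - v) := by
  unfold Enc at *
  have k := sub_sub_cast (a.p + b.q) (a.q + b.p)
  change |(u - v) * DR - (((a.p + b.q - (a.q + b.p) : ℕ) : ℝ) - ((a.q + b.p - (a.p + b.q) : ℕ) : ℝ))| ≤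
    ((a.r + b.r : ℕ) : ℝ)
  rw [k]
  push_cast
  rw [abs_le] at *
  constructor <;> linarith [h1.1, h1.2, h2.1, h2.2]

theorem Enc.mul (h1 : a.Enc u) (h2 : b.Enc v) : (a.mul b).Enc (u * v) := by
  have hD := DR_pos
  unfold Enc at *
  have k := sdiv_err (a.p * b.p + a.q * b.q) (a.p * b.q + a.q * b.p) (b := 68719476736) (by norm_num)
  rw [DN_cast] at k
  have kr := lt_ndiv ((a.p + a.q) * b.r + (b.p + b.q + b.r) * a.r) (b := 68719476736) (by norm_num)
  rw [DN_cast] at kr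
  change |u * v * DR - ((((a.p * b.p + a.q * b.q - (a.p * b.q + a.q * b.p)) / 68719476736 : ℕ) : ℝ) -
    (((a.p * b.q + a.q * b.p - (a.p * b.p + a.q * b.q)) / 68719476736 : ℕ) : ℝ))| ≤
    ((((a.p + a.q) * b.r + (b.p + b.q + b.r) * a.r) / 68719476736 + 2 : ℕ) : ℝ)
  push_cast at k kr ⊢
  set X := (((a.p * b.p + a.q * b.q - (a.p * b.q + a.q * b.p)) / 68719476736 : ℕ) : ℝ)
  set Y := (((a.p * b.q + a.q * b.p - (a.p * b.p + a.q * b.q)) / 68719476736 : ℕ) : ℝ)
  set R := ((((a.p + a.q) * b.r + (b.p + b.q + b.r) * a.r) / 68719476736 : ℕ) : ℝ)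
  set c1 : ℝ := (a.p : ℝ) - a.q with hc1
  set c2 : ℝ := (b.p : ℝ) - b.q with hc2
  have a1 : |c1| ≤ (a.p : ℝ) + a.q := A.abs_pq _ _
  have a2 : |c2| ≤ (b.p : ℝ) + b.q := A.abs_pq _ _
  set d1 := u * DR - c1 with hd1
  set d2 := v * DR - c2 with hd2
  have e1 : u * DR = c1 + d1 := by rw [hd1]; ring
  have e2 : v * DR = c2 + d2 := by rw [hd2]; ring
  have e3 : u * v * DR * DR = (c1 + d1) * (c2 + d2) := by rw [← e1, ← e2]; ring
  have e4 : |u * v * DR * DR - c1 * c2| ≤ ((a.p : ℝ) + a.q) * b.r + ((b.p : ℝ) + b.q + b.r) * a.r := by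
    have : u * v * DR * DR - c1 * c2 = c1 * d2 + (c2 * d1 + d1 * d2) := by rw [e3]; ring
    rw [this]
    refine (abs_add_le _ _).trans ?_
    refine add_le_add ?_ ((abs_add_le _ _).trans ?_)
    · rw [abs_mul]; gcongr
    · rw [abs_mul, abs_mul]
      have p1 : |c2| * |d1| ≤ ((b.p : ℝ) + b.q) * a.r := by gcongr
      have p2 : |d1| * |d2| ≤ (a.r : ℝ) * b.r := by gcongr
      nlinarith
  have e5 : c1 * c2 = (a.p * b.p + a.q * b.q : ℝ) - (a.p * b.q + a.q * b.p) := by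
    rw [hc1, hc2]; ring
  rw [e5] at e4
  have k2 := abs_le.1 k
  have e6 := abs_le.1 e4
  have f1 : u * v * DR * DR - (X - Y) * DR ≤ (R + 2) * DR := by
    have := mul_le_mul_of_nonneg_right k2.2 hD.le
    have := mul_le_mul_of_nonneg_right kr.le hD.le
    have g1 : ((a.p : ℝ) * b.p + a.q * b.q - (a.p * b.q + a.q * b.p)) / DR * DR =
      (a.p : ℝ) * b.p + a.q * b.q - (a.p * b.q + a.q * b.p) := by field_simp
    have g2 : (((a.p : ℝ) + a.q) * b.r + ((b.p : ℝ) + b.q + b.r) * a.r) / DR * DR =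
      ((a.p : ℝ) + a.q) * b.r + ((b.p : ℝ) + b.q + b.r) * a.r := by field_simp
    nlinarith
  have f2 : -((R + 2) * DR) ≤ u * v * DR * DR - (X - Y) * DR := by
    have := mul_le_mul_of_nonneg_right k2.1 hD.le
    have := mul_le_mul_of_nonneg_right kr.le hD.le
    have g1 : ((a.p : ℝ) * b.p + a.q * b.q - (a.p * b.q + a.q * b.p)) / DR * DR =
      (a.p : ℝ) * b.p + a.q * b.q - (a.p * b.q + a.q * b.p) := by field_simp
    have g2 : (((a.p : ℝ) + a.q) * b.r + ((b.p : ℝ) + b.q + b.r) * a.r) / DR * DR =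
      ((a.p : ℝ) + a.q) * b.r + ((b.p : ℝ) + b.q + b.r) * a.r := by field_simp
    nlinarith
  rw [abs_le]
  constructor
  · have : -(R + 2) * DR ≤ (u * v * DR - (X - Y)) * DR := by linarith
    exact le_of_mul_le_mul_right this hD
  · have : (u * v * DR - (X - Y)) * DR ≤ (R + 2) * DR := by linarith
    exact le_of_mul_le_mul_right this hD

theorem Enc.zsm (m n : ℕ) (h1 : a.Enc u) : (a.zsm m n).Enc (((m : ℝ) - n) * u) := by
  unfold Enc at *
  change |((m : ℝ) - n) * u * DR - (((m * a.p + n * a.q : ℕ) : ℝ) - ((m * a.q + n * a.p : ℕ) : ℝ))| ≤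
    (((m + n) * a.r : ℕ) : ℝ)
  push_cast
  have e : ((m : ℝ) - n) * u * DR - ((m : ℝ) * a.p + n * a.q - (m * a.q + n * a.p)) =
      ((m : ℝ) - n) * (u * DR - ((a.p : ℝ) - a.q)) := by ring
  rw [e, abs_mul]
  have := A.abs_pq m n
  gcongr

theorem Enc.half (h1 : a.Enc u) : (a.half).Enc (u / 2) := by
  unfold Enc at *
  change |u / 2 * DR - (((a.p / 2 : ℕ) : ℝ) - ((a.q / 2 : ℕ) : ℝ))| ≤ ((a.r / 2 + 1 : ℕ) : ℝ)
  have k1 : (2 : ℝ) * ((a.p / 2 : ℕ) : ℝ) ≤ a.p ∧ (a.p : ℝ) ≤ 2 * ((a.p / 2 : ℕ) : ℝ) + 1 := by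
    constructor
    · have : 2 * (a.p / 2) ≤ a.p := by omega
      exact_mod_cast this
    · have : a.p ≤ 2 * (a.p / 2) + 1 := by omega
      exact_mod_cast this
  have k2 : (2 : ℝ) * ((a.q / 2 : ℕ) : ℝ) ≤ a.q ∧ (a.q : ℝ) ≤ 2 * ((a.q / 2 : ℕ) : ℝ) + 1 := by
    constructor
    · have : 2 * (a.q / 2) ≤ a.q := by omega
      exact_mod_cast this
    · have : a.q ≤ 2 * (a.q / 2) + 1 := by omega
      exact_mod_cast this
  have k3 : (a.r : ℝ) ≤ 2 * ((a.r / 2 : ℕ) : ℝ) + 1 := by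
    have : a.r ≤ 2 * (a.r / 2) + 1 := by omega
    exact_mod_cast this
  push_cast
  rw [abs_le] at *
  constructor <;> linarith [h1.1, h1.2, k1.1, k1.2, k2.1, k2.2]

theorem Enc.one : one.Enc 1 := by
  unfold Enc S.one DR
  norm_num

theorem Enc.zero : zero.Enc 0 := by
  unfold Enc S.zero
  norm_num

theorem Enc.ab (h1 : a.Enc u) : |u| * DR ≤ a.ab := by
  have hD := DR_pos
  unfold Enc at h1
  have e : (a.ab : ℝ) = (a.p : ℝ) + a.q + a.r := by
    change ((a.p + a.q + a.r : ℕ) : ℝ) = _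
    push_cast; ring
  rw [e, show |u| * DR = |u * DR| by rw [abs_mul, abs_of_pos hD]]
  have h2 := A.abs_pq a.p a.q
  have h3 : u * DR = (u * DR - ((a.p : ℝ) - a.q)) + ((a.p : ℝ) - a.q) := by ring
  rw [h3]
  exact (abs_add_le _ _).trans (by linarith)

theorem Enc.ps (h1 : a.Enc u) : u * DR ≤ a.ps := by
  unfold Enc at h1
  have h2 : ((a.p + a.r : ℕ) : ℝ) - a.q ≤ ((a.p + a.r - a.q : ℕ) : ℝ) := by
    rcases le_total a.q (a.p + a.r) with hh | hh
    · rw [Nat.cast_sub hh]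
    · rw [Nat.sub_eq_zero_of_le hh]
      have : ((a.p + a.r : ℕ) : ℝ) ≤ a.q := by exact_mod_cast hh
      push_cast at this ⊢; linarith
  change u * DR ≤ ((a.p + a.r - a.q : ℕ) : ℝ)
  refine le_trans ?_ h2
  push_cast
  linarith [(abs_le.1 h1).2]

theorem Enc.ng (h1 : a.Enc u) : -u * DR ≤ a.ng := by
  have := h1.neg.ps
  exact this

theorem Enc.inv (h1 : a.Enc u) (h : a.inv = some b) : b.Enc (u⁻¹) ∧ 0 < u := by
  have hD := DR_pos
  unfold S.inv at h
  rcases g1 : Nat.ble (Nat.add (Nat.add a.q a.r) 1) a.p with _ | _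
  · rw [g1] at h; exact absurd h (by simp)
  rw [g1, cond_true] at h
  rcases g2 : Nat.beq a.q 0 with _ | _
  · rw [g2] at h; exact absurd h (by simp)
  rw [g2, cond_true] at h
  have h := Option.some.inj h
  have q0 : a.q = 0 := Nat.eq_of_beq_eq_true g2
  have hrp : a.r < a.p := by
    have := Nat.le_of_ble_eq_true g1
    rw [q0] at this
    change 0 + a.r + 1 ≤ a.p at this
    omega
  have hp0 : 0 < a.p := by omega
  have hp : (0 : ℝ) < a.p := by exact_mod_cast hp0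
  have hpr : (a.r : ℝ) < a.p := by exact_mod_cast hrp
  unfold Enc at h1
  rw [q0, Nat.cast_zero, sub_zero] at h1
  obtain ⟨l1, l2⟩ := abs_le.1 h1
  have hu : 0 < u * DR := by linarith
  have hu0 : 0 < u := (mul_pos_iff_of_pos_right hD).1 hu
  refine ⟨?_, hu0⟩
  rw [← h]
  unfold Enc
  change |u⁻¹ * DR - (((4722366482869645213696 / a.p : ℕ) : ℝ) - ((0 : ℕ) : ℝ))| ≤
    ((4722366482869645213696 * a.r / (a.p * (a.p - a.r)) + 2 : ℕ) : ℝ)
  have hDD : ((4722366482869645213696 : ℕ) : ℝ) = DR * DR := by unfold DR; norm_num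
  have k1 := ndiv_le 4722366482869645213696 a.p
  have k2 := lt_ndiv 4722366482869645213696 hp0
  have k3 := lt_ndiv (4722366482869645213696 * a.r) (b := a.p * (a.p - a.r))
    (Nat.mul_pos hp0 (by omega))
  rw [hDD] at k1 k2
  rw [Nat.cast_mul, hDD, Nat.cast_mul, Nat.cast_sub hrp.le] at k3
  push_cast
  rw [sub_zero]
  have e1 : u⁻¹ * DR - DR * DR / a.p = DR * DR * (a.p - u * DR) / (a.p * (u * DR)) := by
    field_simp
  have hd : 0 < (a.p : ℝ) - a.r := by linarith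
  have e2 : |u⁻¹ * DR - DR * DR / a.p| ≤ DR * DR * a.r / (a.p * (a.p - a.r)) := by
    rw [e1, abs_div, abs_mul, abs_of_pos (by positivity : 0 < DR * DR),
      abs_of_pos (by positivity : 0 < (a.p : ℝ) * (u * DR))]
    have e3 : |(a.p : ℝ) - u * DR| ≤ a.r := by rw [abs_sub_comm]; exact h1
    have e4 : (a.p : ℝ) - a.r ≤ u * DR := by linarith
    gcongr
  have e5 := abs_le.1 e2
  rw [abs_le]
  constructor <;> linarith [e5.1, e5.2]

theorem Enc.log (h1 : a.Enc u) (h : a.log = some b) : b.Enc (Real.log u) ∧ 0 < u := by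
  have hD := DR_pos
  unfold S.log at h
  rcases g1 : Nat.ble (Nat.add (Nat.add a.q a.r) 1) a.p with _ | _
  · rw [g1] at h; exact absurd h (by simp)
  rw [g1, cond_true] at h
  rcases g2 : Nat.beq a.q 0 with _ | _
  · rw [g2] at h; exact absurd h (by simp)
  rw [g2, cond_true] at h
  rcases g3 : Nat.ble a.p 1267650600228229401496703205376 with _ | _
  · rw [g3] at h; exact absurd h (by simp)
  rw [g3, cond_true] at h
  have h := Option.some.inj h
  have q0 : a.q = 0 := Nat.eq_of_beq_eq_true g2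
  have hrp : a.r < a.p := by
    have := Nat.le_of_ble_eq_true g1
    rw [q0] at this
    change 0 + a.r + 1 ≤ a.p at this
    omega
  have hp0 : 0 < a.p := by omega
  have hp : (0 : ℝ) < a.p := by exact_mod_cast hp0
  have hpr : (a.r : ℝ) < a.p := by exact_mod_cast hrp
  have hp200 : a.p < 2 ^ 200 := by
    have := Nat.le_of_ble_eq_true g3
    omega
  have hl := logM_spec hp0 hp200
  unfold Enc at h1
  rw [q0, Nat.cast_zero, sub_zero] at h1
  obtain ⟨l1, l2⟩ := abs_le.1 h1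
  have hu : 0 < u * DR := by linarith
  have hu0 : 0 < u := (mul_pos_iff_of_pos_right hD).1 hu
  refine ⟨?_, hu0⟩
  rw [← h]
  unfold Enc
  change |Real.log u * DR - (((logM a.p).1 : ℝ) - ((logM a.p).2 : ℝ))| ≤
    ((68719476736 * a.r / (a.p - a.r) + 7 : ℕ) : ℝ)
  have k3 := lt_ndiv (68719476736 * a.r) (b := a.p - a.r) (by omega)
  rw [Nat.cast_mul, DN_cast, Nat.cast_sub hrp.le] at k3
  have hd : 0 < (a.p : ℝ) - a.r := by linarith
  have e1 : Real.log u = Real.log ((a.p : ℝ) / DR) + Real.log (u * DR / a.p) := by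
    rw [← Real.log_mul (by positivity) (by positivity)]
    congr 1
    field_simp
  have e2 : |Real.log (u * DR / a.p)| ≤ a.r / (a.p - a.r) := by
    rw [abs_le]
    constructor
    · have := Real.one_sub_inv_le_log_of_pos (x := u * DR / a.p) (by positivity)
      refine le_trans ?_ this
      rw [inv_div]
      have e4 : (a.p : ℝ) - a.r ≤ u * DR := by linarith
      have e5 : (a.p : ℝ) / (u * DR) ≤ a.p / (a.p - a.r) := by gcongr
      have e6 : (a.p : ℝ) / (a.p - a.r) = 1 + a.r / (a.p - a.r) := by field_simp; ring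
      linarith
    · have := Real.log_le_sub_one_of_pos (x := u * DR / a.p) (by positivity)
      refine this.trans ?_
      have e4 : u * DR / a.p ≤ (a.p + a.r) / a.p := by gcongr; linarith
      have e5 : ((a.p : ℝ) + a.r) / a.p = 1 + a.r / a.p := by field_simp
      have e6 : (a.r : ℝ) / a.p ≤ a.r / (a.p - a.r) := by gcongr; linarith [Nat.cast_nonneg (α := ℝ) a.r]
      linarith
  have e3 : Real.log u * DR - (((logM a.p).1 : ℝ) - ((logM a.p).2 : ℝ)) =
      (Real.log ((a.p : ℝ) / DR) * DR - (((logM a.p).1 : ℝ) - ((logM a.p).2 : ℝ))) +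
      Real.log (u * DR / a.p) * DR := by rw [e1]; ring
  rw [e3]
  refine (abs_add_le _ _).trans ?_
  rw [abs_mul, abs_of_pos hD]
  have e4 : |Real.log (u * DR / a.p)| * DR ≤ a.r / (a.p - a.r) * DR := by gcongr
  have e7 : (a.r : ℝ) / (a.p - a.r) * DR = DR * a.r / (a.p - a.r) := by ring
  push_cast
  linarith

end S

end Pool.Agent.Work.NumI
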