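import Mathlib
import Pool.Agent.Work.NumI.SOps

/-!
# Verified numerics: second order expansion of `lnA` at a point, with kernel data
-/

namespace Pool.Agent.Work.NumI

/-! ### the expansion on a box -/

theorem two_MM (u t : ℝ) :
    2 * MM u t = Real.cosh (2 * Real.pi * t) - Real.cos (2 * Real.pi * u) := by
  unfold MM
  rw [show 2 * Real.pi * t = 2 * (Real.pi * t) by ring, Real.cosh_two_mul, Real.cosh_sq,
    show 2 * Real.pi * u = 2 * (Real.pi * u) by ring, Real.cos_two_mul, Real.cos_sq']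
  ring

theorem PP_two (u t : ℝ) (h : 0 < MM u t) :
    PP u t = Real.sin (2 * Real.pi * u) * (2 * MM u t)⁻¹ := by
  unfold PP
  rw [show 2 * Real.pi * u = 2 * (Real.pi * u) by ring, Real.sin_two_mul]
  field_simp

theorem QQ_two (u t : ℝ) (h : 0 < MM u t) :
    QQ u t = Real.sinh (2 * Real.pi * t) * (2 * MM u t)⁻¹ := by
  unfold QQ
  rw [show 2 * Real.pi * t = 2 * (Real.pi * t) by ring, Real.sinh_two_mul]
  field_simp

theorem cosh_tangent (y h : ℝ) : Real.cosh y - |Real.sinh y| * |h| ≤ Real.cosh (y + h) := by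
  have h1 : Real.cosh y + Real.sinh y * h ≤ Real.cosh (y + h) := by
    rw [Real.cosh_add]
    have a1 : |Real.sinh y| ≤ Real.cosh y := by
      rw [abs_le]
      have := Real.exp_pos y
      have := Real.exp_pos (-y)
      rw [Real.cosh_eq, Real.sinh_eq]
      constructor <;> linarith
    have a2 : |Real.sinh h - h| ≤ Real.cosh h - 1 := by
      have b1 := Real.add_one_le_exp h
      have b2 := Real.add_one_le_exp (-h)
      rw [abs_le, Real.cosh_eq, Real.sinh_eq]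
      constructor <;> linarith
    have a3 : |Real.sinh y * (Real.sinh h - h)| ≤ Real.cosh y * (Real.cosh h - 1) := by
      rw [abs_mul]
      exact mul_le_mul a1 a2 (abs_nonneg _) (Real.cosh_pos y).le
    have a4 := (abs_le.1 a3).1
    nlinarith
  have h2 : -(|Real.sinh y| * |h|) ≤ Real.sinh y * h := by
    rw [← abs_mul]
    exact neg_abs_le _
  linarith

theorem cos_tangent (y h : ℝ) : Real.cos (y + h) ≤ Real.cos y + |Real.sin y| * |h| + h ^ 2 / 2 := by
  rw [Real.cos_add]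
  have a1 := Real.one_sub_sq_div_two_le_cos (x := h)
  have a2 := Real.cos_le_one h
  have a3 := Real.cos_le_one y
  have a3' := Real.neg_one_le_cos y
  have a4 : |Real.sin y * Real.sin h| ≤ |Real.sin y| * |h| := by
    rw [abs_mul]
    exact mul_le_mul_of_nonneg_left Real.abs_sin_le_abs (abs_nonneg _)
  have a5 := (abs_le.1 a4).1
  nlinarith

theorem MM_box {u t a b X T : ℝ} (ha : |a| ≤ X) (hb : |b| ≤ T) :
    2 * MM u t - 2 * Real.pi * (|Real.sinh (2 * Real.pi * t)| * T + |Real.sin (2 * Real.pi * u)| * X) -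
      2 * Real.pi ^ 2 * X ^ 2 ≤ 2 * MM (u + a) (t + b) := by
  have hpi := Real.pi_pos
  rw [two_MM, two_MM]
  have h1 := cosh_tangent (2 * Real.pi * t) (2 * Real.pi * b)
  have h2 := cos_tangent (2 * Real.pi * u) (2 * Real.pi * a)
  rw [show 2 * Real.pi * (t + b) = 2 * Real.pi * t + 2 * Real.pi * b by ring,
    show 2 * Real.pi * (u + a) = 2 * Real.pi * u + 2 * Real.pi * a by ring]
  rw [abs_mul (2 * Real.pi), abs_of_pos (by positivity : 0 < 2 * Real.pi)] at h1 h2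
  have h3 : |Real.sinh (2 * Real.pi * t)| * (2 * Real.pi * |b|) ≤
      |Real.sinh (2 * Real.pi * t)| * (2 * Real.pi * T) := by gcongr
  have h4 : |Real.sin (2 * Real.pi * u)| * (2 * Real.pi * |a|) ≤
      |Real.sin (2 * Real.pi * u)| * (2 * Real.pi * X) := by gcongr
  have h5 : a ^ 2 ≤ X ^ 2 := by rw [← sq_abs a]; gcongr
  nlinarith [mul_le_mul_of_nonneg_left h5 (by positivity : 0 ≤ 2 * Real.pi ^ 2)]

/-- expansion of second order on a box with a lower bound `Nm` of `2 MM` -/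
theorem lnA_box {u t a b X T Nm : ℝ} (hN : 0 < Nm) (ha : |a| ≤ X) (hb : |b| ≤ T)
    (hm : Nm ≤ 2 * MM u t - 2 * Real.pi * (|Real.sinh (2 * Real.pi * t)| * T +
      |Real.sin (2 * Real.pi * u)| * X) - 2 * Real.pi ^ 2 * X ^ 2) :
    |lnA (u + a) (t + b) - lnA u t - Real.pi * (a * PP u t + b * QQ u t) +
      Real.pi ^ 2 / 2 * ((a ^ 2 - b ^ 2) * (1 + (PP u t ^ 2 - QQ u t ^ 2)) +
        4 * (a * b) * (PP u t * QQ u t))| ≤
      2 * Real.pi ^ 2 * (X ^ 2 + T ^ 2) / Nm * (Real.pi * (X + T) * (|PP u t| + |QQ u t|)) / 3 +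
        (2 * Real.pi ^ 2 * (X ^ 2 + T ^ 2) / Nm) ^ 2 / 12 := by
  have hpi := Real.pi_pos
  have hX : 0 ≤ X := (abs_nonneg _).trans ha
  have hT : 0 ≤ T := (abs_nonneg _).trans hb
  have hM : ∀ τ ∈ Set.Icc (0 : ℝ) 1, Nm / 2 ≤ MM (u + τ * a) (t + τ * b) := by
    intro τ hτ
    have h1 : |τ * a| ≤ X := by
      rw [abs_mul, abs_of_nonneg hτ.1]
      calc τ * |a| ≤ 1 * |a| := mul_le_mul_of_nonneg_right hτ.2 (abs_nonneg _)
        _ ≤ X := by linarith
    have h2 : |τ * b| ≤ T := by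
      rw [abs_mul, abs_of_nonneg hτ.1]
      calc τ * |b| ≤ 1 * |b| := mul_le_mul_of_nonneg_right hτ.2 (abs_nonneg _)
        _ ≤ T := by linarith
    have := MM_box (u := u) (t := t) h1 h2
    linarith
  have key := lnA_third (x := u) (t := t) (a := a) (b := b) (L2 := Nm / 2) (by positivity) hM
  have e1 : 1 + (PP u t ^ 2 - QQ u t ^ 2) = 1 + PP u t ^ 2 - QQ u t ^ 2 := by ring
  rw [e1]
  refine key.trans ?_
  have a2 : a ^ 2 ≤ X ^ 2 := by rw [← sq_abs a]; gcongr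
  have b2 : b ^ 2 ≤ T ^ 2 := by rw [← sq_abs b]; gcongr
  have k1 : Real.pi ^ 2 * (a ^ 2 + b ^ 2) / (Nm / 2) ≤ 2 * Real.pi ^ 2 * (X ^ 2 + T ^ 2) / Nm := by
    rw [show Real.pi ^ 2 * (a ^ 2 + b ^ 2) / (Nm / 2) = 2 * Real.pi ^ 2 * (a ^ 2 + b ^ 2) / Nm by
      field_simp]
    gcongr
  have k0 : 0 ≤ Real.pi ^ 2 * (a ^ 2 + b ^ 2) / (Nm / 2) := by positivity
  gcongr

/-! ### kernel data -/

namespace S

variable {c s Ch Sh : S} {X T : ℕ}

/-- lower bound of `2 MM` on the box -/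
def nmin (N s Sh : S) (X T : ℕ) : ℕ :=
  Nat.sub N.p (Nat.add (Nat.add N.q N.r) (Nat.add (Nat.div (Nat.add (Nat.mul 62832
    (Nat.add (Nat.mul (ab Sh) T) (Nat.mul (ab s) X))) (Nat.mul 197400 (Nat.mul X X)))
    687194767360000) 1))

/-- second order number -/
def kap (X T m : ℕ) : ℕ :=
  Nat.add (Nat.div (Nat.mul 19740 (Nat.add (Nat.mul X X) (Nat.mul T T))) (Nat.mul 1000 m)) 1

/-- remainder of third order -/
def rem (P Q : S) (X T κ : ℕ) : ℕ :=
  Nat.add (Nat.div (Nat.mul κ (Nat.add (Nat.mul 12 (Nat.add (Nat.div (Nat.mul (Nat.add X T)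
    (Nat.mul (Nat.add (ab P) (ab Q)) 10472)) 687194767360000) 1)) κ)) 824633720832) 1

/-- continue with the value of an option -/
def bO (x : Option S) (k : S → Bool) : Bool :=
  Option.rec (motive := fun _ => Bool) false (fun a => k a) x

lemma bO_some {x : Option S} {k : S → Bool} (h : bO x k = true) : ∃ a, x = some a ∧ k a = true := by
  rcases x with _ | a
  · exact absurd h (by simp [bO])
  · exact ⟨a, rfl, h⟩

/-- data at a point: `c = cos 2πu`, `s = sin 2πu`, `Ch = cosh 2πt`, `Sh = sinh 2πt` -/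
def ptS (c s Ch Sh : S) (X T : ℕ) (k : S → S → S → S → S → ℕ → Bool) : Bool :=
  let N := sub Ch c
  bO (inv N) fun iv =>
    let P := mul s iv
    let Q := mul Sh iv
    let m := nmin N s Sh X T
    cond (Nat.ble 1 m) (k N P Q (add one (sub (mul P P) (mul Q Q))) (mul P Q)
      (rem P Q X T (kap X T m))) false

/-- the meaning of the data at a point -/
structure PtG (u t : ℝ) (X T : ℕ) (N P Q E F : S) (R : ℕ) : Prop where
  pos : 0 < MM u t
  N : N.Enc (2 * MM u t)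
  P : P.Enc (PP u t)
  Q : Q.Enc (QQ u t)
  E : E.Enc (1 + (PP u t ^ 2 - QQ u t ^ 2))
  F : F.Enc (PP u t * QQ u t)
  R : ∀ a b : ℝ, |a| ≤ (X : ℝ) / DR → |b| ≤ (T : ℝ) / DR →
    |lnA (u + a) (t + b) - lnA u t - Real.pi * (a * PP u t + b * QQ u t) +
      Real.pi ^ 2 / 2 * ((a ^ 2 - b ^ 2) * (1 + (PP u t ^ 2 - QQ u t ^ 2)) +
        4 * (a * b) * (PP u t * QQ u t))| ≤ (R : ℝ) / DR

theorem nmin_spec {u t : ℝ} {N : S} (hN : N.Enc (2 * MM u t))
    (hs : s.Enc (Real.sin (2 * Real.pi * u))) (hS : Sh.Enc (Real.sinh (2 * Real.pi * t)))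
    (h : 1 ≤ nmin N s Sh X T) : ((nmin N s Sh X T : ℕ) : ℝ) / DR ≤ 2 * MM u t -
      2 * Real.pi * (|Real.sinh (2 * Real.pi * t)| * ((T : ℝ) / DR) +
      |Real.sin (2 * Real.pi * u)| * ((X : ℝ) / DR)) - 2 * Real.pi ^ 2 * ((X : ℝ) / DR) ^ 2 := by
  have hD := DR_pos
  have hpi := Real.pi_pos
  have hpi1 : Real.pi ≤ 3.1416 := Real.pi_lt_d4.le
  have a1 := hs.ab
  have a2 := hS.ab
  unfold Enc at hN
  have hN' := (abs_le.1 hN).1
  set W : ℕ := (62832 * (Sh.ab * T + s.ab * X) + 197400 * (X * X)) / 687194767360000 with hW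
  have kW := lt_ndiv (62832 * (Sh.ab * T + s.ab * X) + 197400 * (X * X)) (b := 687194767360000)
    (by norm_num)
  rw [← hW] at kW
  have e0 : nmin N s Sh X T = N.p - (N.q + N.r + (W + 1)) := rfl
  have hle : N.q + N.r + (W + 1) ≤ N.p := by
    rw [e0] at h; omega
  have e1 : ((nmin N s Sh X T : ℕ) : ℝ) = (N.p : ℝ) - (N.q + N.r + (W + 1)) := by
    rw [e0, Nat.cast_sub hle]; push_cast; ring
  have e2 : ((687194767360000 : ℕ) : ℝ) = 10000 * DR := by unfold DR; norm_num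
  rw [e2] at kW
  push_cast at kW
  rw [div_lt_iff₀ (by positivity)] at kW
  set x : ℝ := (X : ℝ) with hx
  set y : ℝ := (T : ℝ) with hy
  have hx0 : 0 ≤ x := Nat.cast_nonneg _
  have hy0 : 0 ≤ y := Nat.cast_nonneg _
  set A := |Real.sinh (2 * Real.pi * t)|
  set B := |Real.sin (2 * Real.pi * u)|
  have b1 : 2 * Real.pi * (A * (y / DR) + B * (x / DR)) * DR ≤
      6.2832 * (Sh.ab * y + s.ab * x) / DR := by
    have c1 : A * y ≤ Sh.ab * y / DR := by
      rw [le_div_iff₀ hD]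
      calc A * y * DR = A * DR * y := by ring
        _ ≤ _ := by gcongr
    have c2 : B * x ≤ s.ab * x / DR := by
      rw [le_div_iff₀ hD]
      calc B * x * DR = B * DR * x := by ring
        _ ≤ _ := by gcongr
    have c3 : 2 * Real.pi * (A * (y / DR) + B * (x / DR)) * DR = 2 * Real.pi * (A * y + B * x) := by
      field_simp
    rw [c3]
    have c4 : 0 ≤ A * y + B * x := by positivity
    calc 2 * Real.pi * (A * y + B * x) ≤ 6.2832 * (A * y + B * x) := by nlinarith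
      _ ≤ 6.2832 * (Sh.ab * y / DR + s.ab * x / DR) := by gcongr
      _ = _ := by ring
  have b2 : 2 * Real.pi ^ 2 * (x / DR) ^ 2 * DR ≤ 19.74 * (x * x) / DR := by
    have c3 : 2 * Real.pi ^ 2 * (x / DR) ^ 2 * DR = 2 * Real.pi ^ 2 * (x * x) / DR := by
      field_simp
    rw [c3]
    have c5 : 2 * Real.pi ^ 2 ≤ 19.74 := by nlinarith
    gcongr
  have b3 : 6.2832 * (Sh.ab * y + s.ab * x) / DR + 19.74 * (x * x) / DR ≤ W + 1 := by
    have c6 : 6.2832 * (Sh.ab * y + s.ab * x) / DR + 19.74 * (x * x) / DR =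
        (62832 * (Sh.ab * y + s.ab * x) + 197400 * (x * x)) / (10000 * DR) := by
      field_simp
      ring
    rw [c6, div_le_iff₀ (by positivity)]
    linarith
  rw [div_le_iff₀ hD, e1]
  nlinarith

theorem kap_spec {m : ℕ} (hm : 1 ≤ m) : 2 * Real.pi ^ 2 * (((X : ℝ) / DR) ^ 2 + ((T : ℝ) / DR) ^ 2) /
    ((m : ℝ) / DR) ≤ ((kap X T m : ℕ) : ℝ) / DR := by
  have hD := DR_pos
  have hpi := Real.pi_pos
  have hpi1 : Real.pi ≤ 3.1416 := Real.pi_lt_d4.le
  have hm0 : (0 : ℝ) < m := by exact_mod_cast hm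
  have k := lt_ndiv (19740 * (X * X + T * T)) (b := 1000 * m) (by omega)
  push_cast at k
  change _ ≤ ((19740 * (X * X + T * T) / (1000 * m) + 1 : ℕ) : ℝ) / DR
  push_cast
  rw [le_div_iff₀ hD]
  refine le_trans ?_ k.le
  have e : 2 * Real.pi ^ 2 * (((X : ℝ) / DR) ^ 2 + ((T : ℝ) / DR) ^ 2) / ((m : ℝ) / DR) * DR =
      2 * Real.pi ^ 2 * ((X : ℝ) * X + T * T) / m := by
    field_simp
  rw [e]
  have c5 : 2 * Real.pi ^ 2 ≤ 19.74 := by nlinarith
  calc 2 * Real.pi ^ 2 * ((X : ℝ) * X + T * T) / m ≤ 19.74 * ((X : ℝ) * X + T * T) / m := by gcongr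
    _ = _ := by field_simp; ring

theorem rem_spec {P Q : S} {p q κ : ℝ} {k : ℕ} (hP : P.Enc p) (hQ : Q.Enc q) (h0 : 0 ≤ κ)
    (hκ : κ ≤ (k : ℝ) / DR) :
    κ * (Real.pi * ((X : ℝ) / DR + (T : ℝ) / DR) * (|p| + |q|)) / 3 + κ ^ 2 / 12 ≤
      ((rem P Q X T k : ℕ) : ℝ) / DR := by
  have hD := DR_pos
  have hpi := Real.pi_pos
  have hpi1 : Real.pi ≤ 3.1416 := Real.pi_lt_d4.le
  have a1 := hP.ab
  have a2 := hQ.ab
  set w : ℕ := (X + T) * ((P.ab + Q.ab) * 10472) / 687194767360000 with hw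
  have kw := lt_ndiv ((X + T) * ((P.ab + Q.ab) * 10472)) (b := 687194767360000) (by norm_num)
  rw [← hw] at kw
  have kr := lt_ndiv (k * (12 * (w + 1) + k)) (b := 824633720832) (by norm_num)
  have e2 : ((687194767360000 : ℕ) : ℝ) = 10000 * DR := by unfold DR; norm_num
  have e3 : ((824633720832 : ℕ) : ℝ) = 12 * DR := by unfold DR; norm_num
  rw [e2] at kw
  rw [e3] at kr
  push_cast at kw kr
  have e0 : ((rem P Q X T k : ℕ) : ℝ) = ((k * (12 * (w + 1) + k) / 824633720832 : ℕ) : ℝ) + 1 := by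
    change ((k * (12 * (w + 1) + k) / 824633720832 + 1 : ℕ) : ℝ) = _
    push_cast; ring
  rw [e0, le_div_iff₀ hD]
  refine le_trans ?_ kr.le
  have hk0 : (0 : ℝ) ≤ k := Nat.cast_nonneg _
  have hX0 : (0 : ℝ) ≤ X := Nat.cast_nonneg _
  have hT0 : (0 : ℝ) ≤ T := Nat.cast_nonneg _
  have b1 : Real.pi * ((X : ℝ) / DR + (T : ℝ) / DR) * (|p| + |q|) / 3 * DR ≤ w + 1 := by
    refine le_trans ?_ kw.le
    have c1 : |p| + |q| ≤ ((P.ab : ℝ) + Q.ab) / DR := by
      rw [le_div_iff₀ hD]; linarith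
    have c2 : Real.pi / 3 ≤ 1.0472 := by linarith
    calc Real.pi * ((X : ℝ) / DR + (T : ℝ) / DR) * (|p| + |q|) / 3 * DR
        = (Real.pi / 3) * ((X + T) * (|p| + |q|)) := by field_simp
      _ ≤ 1.0472 * ((X + T) * (((P.ab : ℝ) + Q.ab) / DR)) := by gcongr
      _ = _ := by field_simp; ring
  have hw0 : (0 : ℝ) ≤ w := Nat.cast_nonneg _
  have b0 : 0 ≤ Real.pi * ((X : ℝ) / DR + (T : ℝ) / DR) * (|p| + |q|) / 3 * DR := by positivity
  calc (κ * (Real.pi * ((X : ℝ) / DR + (T : ℝ) / DR) * (|p| + |q|)) / 3 + κ ^ 2 / 12) * DR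
      = κ * (Real.pi * ((X : ℝ) / DR + (T : ℝ) / DR) * (|p| + |q|) / 3 * DR) + κ ^ 2 / 12 * DR := by
        ring
    _ ≤ ((k : ℝ) / DR) * (w + 1) + ((k : ℝ) / DR) ^ 2 / 12 * DR := by gcongr
    _ = _ := by field_simp

theorem ptS_spec {u t : ℝ} {k : S → S → S → S → S → ℕ → Bool}
    (hc : c.Enc (Real.cos (2 * Real.pi * u)))
    (hs : s.Enc (Real.sin (2 * Real.pi * u))) (hC : Ch.Enc (Real.cosh (2 * Real.pi * t)))
    (hS : Sh.Enc (Real.sinh (2 * Real.pi * t))) (h : ptS c s Ch Sh X T k = true) :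
    ∃ N P Q E F R, PtG u t X T N P Q E F R ∧ k N P Q E F R = true := by
  have hD := DR_pos
  unfold ptS at h
  obtain ⟨iv, h1, h⟩ := bO_some h
  have hN : (sub Ch c).Enc (2 * MM u t) := by
    rw [two_MM]; exact hC.sub hc
  obtain ⟨hi, hpos⟩ := hN.inv h1
  have hpos' : 0 < MM u t := by linarith
  have hP : (mul s iv).Enc (PP u t) := by
    rw [PP_two u t hpos']; exact hs.mul hi
  have hQ : (mul Sh iv).Enc (QQ u t) := by
    rw [QQ_two u t hpos']; exact hS.mul hi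
  dsimp only at h
  rcases g1 : Nat.ble 1 (nmin (sub Ch c) s Sh X T) with _ | _
  · rw [g1] at h; exact absurd h (by simp)
  rw [g1, cond_true] at h
  have hm := Nat.le_of_ble_eq_true g1
  refine ⟨_, _, _, _, _, _, ⟨hpos', hN, hP, hQ, ?_, hP.mul hQ, ?_⟩, h⟩
  · rw [pow_two, pow_two]
    exact Enc.one.add ((hP.mul hP).sub (hQ.mul hQ))
  · intro a b ha hb
    have hm' : (0 : ℝ) < (nmin (sub Ch c) s Sh X T : ℕ) := by exact_mod_cast hm
    have k1 := lnA_box (u := u) (t := t) (Nm := ((nmin (sub Ch c) s Sh X T : ℕ) : ℝ) / DR)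
      (by positivity) ha hb (nmin_spec hN hs hS hm)
    exact k1.trans (rem_spec hP hQ (by positivity) (kap_spec hm))

end S

end Pool.Agent.Work.NumI
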