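import Mathlib
import Pool.Agent.Work.NumI.SPoint

/-!
# Verified numerics: differences of `lnA` in six variables, real part

`Sf cP cQ cR cg T ρ x y = cP lnA (x + y, T + ρ) + cQ lnA (y - x, ρ - T) + cR lnA (x, T) + cg gh x`;
a lower bound of `Sf (x, y) - Sf (xs, ys)` on a box by the expansion of second order at the centre.
-/

namespace Pool.Agent.Work.NumI

/-- the gauge -/
noncomputable def gA (x : ℝ) : ℝ := lnA (x / 2) 0 - lnA (x / 2 + 1 / 2) 0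

noncomputable def Sf (cP cQ cR cg T ρ x y : ℝ) : ℝ :=
  cP * lnA (x + y) (T + ρ) + cQ * lnA (y - x) (ρ - T) + cR * lnA x T + cg * gA x

/-- quadratic form -/
def qf (hxx A3 A2 B2 fxt fm fp dT dr dx dy : ℝ) : ℝ :=
  hxx * dx ^ 2 + A2 * dy ^ 2 + 2 * B2 * (dx * dy) - A3 * dT ^ 2 - A2 * dr ^ 2 - 2 * B2 * (dT * dr) +
    2 * fxt * (dx * dT) + 2 * fm * (dx * dr + dy * dT) + 2 * fp * (dy * dr)

theorem abs_mul_le_of {c e R C : ℝ} (h : |e| ≤ R) (hc : |c| ≤ C) : |c * e| ≤ C * R := by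
  rw [abs_mul]
  exact mul_le_mul hc h (abs_nonneg _) ((abs_nonneg _).trans hc)

theorem mul_bd {c d r : ℝ} (hd : |d| ≤ r) : c * d ≤ |c| * r :=
  (le_abs_self _).trans (by rw [abs_mul]; exact mul_le_mul_of_nonneg_left hd (abs_nonneg _))

theorem mul_bd2 {c d e r s : ℝ} (hd : |d| ≤ r) (he : |e| ≤ s) : c * (d * e) ≤ |c| * (r * s) :=
  mul_bd (by rw [abs_mul]; exact mul_le_mul hd he (abs_nonneg _) ((abs_nonneg _).trans hd))

theorem mul_sq {c d r m : ℝ} (hd : |d| ≤ r) (hc : c ≤ m) (hm : 0 ≤ m) : c * d ^ 2 ≤ m * r ^ 2 := by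
  have h1 : d ^ 2 ≤ r ^ 2 := by rw [← sq_abs d]; gcongr
  have h2 := sq_nonneg d
  nlinarith

/-- bound of the quadratic forms -/
theorem qf_sub_le {hxx A3 A2 B2 fxt fm fp hxx' A3' A2' B2' fxt' fm' fp' dT dr dx dy dx' dy'
    rT rr rx ry rx' ry' m1 m2 m3 m4 m5 m6 : ℝ} (hT : |dT| ≤ rT) (hr : |dr| ≤ rr) (hx : |dx| ≤ rx)
    (hy : |dy| ≤ ry) (hx' : |dx'| ≤ rx') (hy' : |dy'| ≤ ry')
    (h1 : hxx ≤ m1) (h1' : 0 ≤ m1) (h2 : A2 ≤ m2) (h2' : 0 ≤ m2)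
    (h3 : -hxx' ≤ m3) (h3' : 0 ≤ m3) (h4 : -A2' ≤ m4) (h4' : 0 ≤ m4)
    (h5 : A3' - A3 ≤ m5) (h5' : 0 ≤ m5) (h6 : A2' - A2 ≤ m6) (h6' : 0 ≤ m6) :
    qf hxx A3 A2 B2 fxt fm fp dT dr dx dy - qf hxx' A3' A2' B2' fxt' fm' fp' dT dr dx' dy' ≤
      m1 * rx ^ 2 + m2 * ry ^ 2 + m3 * rx' ^ 2 + m4 * ry' ^ 2 + m5 * rT ^ 2 + m6 * rr ^ 2 +
      2 * (|B2| * (rx * ry) + |B2'| * (rx' * ry') + |B2' - B2| * (rT * rr) +
        |fxt| * (rx * rT) + |fm| * (rx * rr) + |fm| * (ry * rT) + |fp| * (ry * rr) +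
        |fxt'| * (rx' * rT) + |fm'| * (rx' * rr) + |fm'| * (ry' * rT) + |fp'| * (ry' * rr)) := by
  unfold qf
  have a1 := mul_sq hx h1 h1'
  have a2 := mul_sq hy h2 h2'
  have a3 := mul_sq hx' h3 h3'
  have a4 := mul_sq hy' h4 h4'
  have a5 := mul_sq hT h5 h5'
  have a6 := mul_sq hr h6 h6'
  have b1 := mul_bd2 (c := B2) hx hy
  have b2 := mul_bd2 (c := -B2') hx' hy'
  have b3 := mul_bd2 (c := B2' - B2) hT hr
  have b4 := mul_bd2 (c := fxt) hx hT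
  have b5 := mul_bd2 (c := fm) hx hr
  have b6 := mul_bd2 (c := fm) hy hT
  have b7 := mul_bd2 (c := fp) hy hr
  have b8 := mul_bd2 (c := -fxt') hx' hT
  have b9 := mul_bd2 (c := -fm') hx' hr
  have b10 := mul_bd2 (c := -fm') hy' hT
  have b11 := mul_bd2 (c := -fp') hy' hr
  rw [abs_neg] at b2 b8 b9 b10 b11
  linarith

/-- the data of a side: expansion of `Sf` at the centre -/
structure SdG (cP cQ cR cg T ρ x y : ℝ) (rt rr X Y : ℝ)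
    (gx gy gt gr hxx A3 A2 B2 fxt fm fp R : ℝ) : Prop where
  R : ∀ dT dr dx dy : ℝ, |dT| ≤ rt → |dr| ≤ rr → |dx| ≤ X → |dy| ≤ Y →
    |Sf cP cQ cR cg (T + dT) (ρ + dr) (x + dx) (y + dy) - Sf cP cQ cR cg T ρ x y -
      Real.pi * (gx * dx + gy * dy + gt * dT + gr * dr) +
      Real.pi ^ 2 / 2 * qf hxx A3 A2 B2 fxt fm fp dT dr dx dy| ≤ R

/-- the difference of two sides -/
theorem sides_sub {cP cQ cR cg T ρ x y x' y' rT rr rx ry rx' ry'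
    gx gy gt gr hxx A3 A2 B2 fxt fm fp R gx' gy' gt' gr' hxx' A3' A2' B2' fxt' fm' fp' R' : ℝ}
    (S : SdG cP cQ cR cg T ρ x y rT rr rx ry gx gy gt gr hxx A3 A2 B2 fxt fm fp R)
    (S' : SdG cP cQ cR cg T ρ x' y' rT rr rx' ry' gx' gy' gt' gr' hxx' A3' A2' B2' fxt' fm' fp' R')
    {dT dr dx dy dx' dy' m1 m2 m3 m4 m5 m6 : ℝ}
    (hT : |dT| ≤ rT) (hr : |dr| ≤ rr) (hx : |dx| ≤ rx)
    (hy : |dy| ≤ ry) (hx' : |dx'| ≤ rx') (hy' : |dy'| ≤ ry')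
    (h1 : hxx ≤ m1) (h1' : 0 ≤ m1) (h2 : A2 ≤ m2) (h2' : 0 ≤ m2)
    (h3 : -hxx' ≤ m3) (h3' : 0 ≤ m3) (h4 : -A2' ≤ m4) (h4' : 0 ≤ m4)
    (h5 : A3' - A3 ≤ m5) (h5' : 0 ≤ m5) (h6 : A2' - A2 ≤ m6) (h6' : 0 ≤ m6) :
    (Sf cP cQ cR cg T ρ x y - Sf cP cQ cR cg T ρ x' y') -
      (Real.pi * (|gx| * rx + |gy| * ry + |gx'| * rx' + |gy'| * ry' + |gt - gt'| * rT +
        |gr - gr'| * rr) +
      Real.pi ^ 2 / 2 * (m1 * rx ^ 2 + m2 * ry ^ 2 + m3 * rx' ^ 2 + m4 * ry' ^ 2 + m5 * rT ^ 2 +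
        m6 * rr ^ 2 +
      2 * (|B2| * (rx * ry) + |B2'| * (rx' * ry') + |B2' - B2| * (rT * rr) +
        |fxt| * (rx * rT) + |fm| * (rx * rr) + |fm| * (ry * rT) + |fp| * (ry * rr) +
        |fxt'| * (rx' * rT) + |fm'| * (rx' * rr) + |fm'| * (ry' * rT) + |fp'| * (ry' * rr))) +
      R + R') ≤
    Sf cP cQ cR cg (T + dT) (ρ + dr) (x + dx) (y + dy) -
      Sf cP cQ cR cg (T + dT) (ρ + dr) (x' + dx') (y' + dy') := by
  have hpi := Real.pi_pos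
  have k1 := (abs_le.1 (S.R dT dr dx dy hT hr hx hy)).1
  have k2 := (abs_le.1 (S'.R dT dr dx' dy' hT hr hx' hy')).2
  have kq := qf_sub_le (B2 := B2) (fxt := fxt) (fm := fm) (fp := fp) (B2' := B2') (fxt' := fxt')
    (fm' := fm') (fp' := fp') hT hr hx hy hx' hy' h1 h1' h2 h2' h3 h3' h4 h4' h5 h5' h6 h6'
  have kq' := mul_le_mul_of_nonneg_left kq (by positivity : 0 ≤ Real.pi ^ 2 / 2)
  have b1 := mul_bd (c := -gx) hx
  have b2 := mul_bd (c := -gy) hy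
  have b3 := mul_bd (c := gx') hx'
  have b4 := mul_bd (c := gy') hy'
  have b5 := mul_bd (c := -(gt - gt')) hT
  have b6 := mul_bd (c := -(gr - gr')) hr
  rw [abs_neg] at b1 b2 b5 b6
  have b : -(|gx| * rx + |gy| * ry + |gx'| * rx' + |gy'| * ry' + |gt - gt'| * rT +
        |gr - gr'| * rr) ≤
      (gx * dx + gy * dy + gt * dT + gr * dr) - (gx' * dx' + gy' * dy' + gt' * dT + gr' * dr) := by
    linarith
  have b' := mul_le_mul_of_nonneg_left b hpi.le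
  linarith

/-- the gauge part: `1 / π` of the slope of `gA`, `-1 / π ^ 2` of the second derivative -/
structure GG (cg x X : ℝ) (g h R : ℝ) : Prop where
  R : ∀ dx : ℝ, |dx| ≤ X → |cg * (gA (x + dx) - gA x - Real.pi * (g * dx) +
    Real.pi ^ 2 / 2 * (h * dx ^ 2))| ≤ R

/-- data of a side from the data of the points -/
theorem sd_of {cP cQ cR cg T ρ x y g h RG KP KQ KR : ℝ} {X Y rt rr : ℕ}
    {N1 p1 q1 e1 f1 N2 p2 q2 e2 f2 N3 p3 q3 e3 f3 : S} {R1 R2 R3 : ℕ}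
    (hP : S.PtG (x + y) (T + ρ) (Nat.add X Y) (Nat.add rt rr) N1 p1 q1 e1 f1 R1)
    (hQ : S.PtG (y - x) (ρ - T) (Nat.add X Y) (Nat.add rt rr) N2 p2 q2 e2 f2 R2)
    (hR : S.PtG x T X rt N3 p3 q3 e3 f3 R3) (hG : GG cg x ((X : ℝ) / DR) g h RG)
    (k1 : |cP| ≤ KP) (k2 : |cQ| ≤ KQ) (k3 : |cR| ≤ KR) {P1 Q1 P2 Q2 P3 Q3 : ℝ}
    (eP1 : PP (x + y) (T + ρ) = P1) (eQ1 : QQ (x + y) (T + ρ) = Q1)
    (eP2 : PP (y - x) (ρ - T) = P2) (eQ2 : QQ (y - x) (ρ - T) = Q2)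
    (eP3 : PP x T = P3) (eQ3 : QQ x T = Q3) :
    SdG cP cQ cR cg T ρ x y ((rt : ℝ) / DR) ((rr : ℝ) / DR) ((X : ℝ) / DR) ((Y : ℝ) / DR)
      (cP * P1 - cQ * P2 + cR * P3 + cg * g) (cP * P1 + cQ * P2)
      (cP * Q1 - cQ * Q2 + cR * Q3) (cP * Q1 + cQ * Q2)
      (cP * (1 + (P1 ^ 2 - Q1 ^ 2)) + cQ * (1 + (P2 ^ 2 - Q2 ^ 2)) + cR * (1 + (P3 ^ 2 - Q3 ^ 2)) +
        cg * h)
      (cP * (1 + (P1 ^ 2 - Q1 ^ 2)) + cQ * (1 + (P2 ^ 2 - Q2 ^ 2)) + cR * (1 + (P3 ^ 2 - Q3 ^ 2)))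
      (cP * (1 + (P1 ^ 2 - Q1 ^ 2)) + cQ * (1 + (P2 ^ 2 - Q2 ^ 2)))
      (cP * (1 + (P1 ^ 2 - Q1 ^ 2)) - cQ * (1 + (P2 ^ 2 - Q2 ^ 2)))
      (2 * (cP * (P1 * Q1) + cQ * (P2 * Q2) + cR * (P3 * Q3)))
      (2 * (cP * (P1 * Q1) - cQ * (P2 * Q2))) (2 * (cP * (P1 * Q1) + cQ * (P2 * Q2)))
      (KP * ((R1 : ℝ) / DR) + KQ * ((R2 : ℝ) / DR) + KR * ((R3 : ℝ) / DR) + RG) := by
  have hD := DR_pos
  refine ⟨fun dT dr dx dy hT hr hx hy => ?_⟩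
  have a1 : |dx + dy| ≤ ((Nat.add X Y : ℕ) : ℝ) / DR := by
    refine (abs_add_le _ _).trans ?_
    have : ((Nat.add X Y : ℕ) : ℝ) / DR = (X : ℝ) / DR + (Y : ℝ) / DR := by
      change ((X + Y : ℕ) : ℝ) / DR = _
      push_cast; ring
    rw [this]; linarith
  have a2 : |dT + dr| ≤ ((Nat.add rt rr : ℕ) : ℝ) / DR := by
    refine (abs_add_le _ _).trans ?_
    have : ((Nat.add rt rr : ℕ) : ℝ) / DR = (rt : ℝ) / DR + (rr : ℝ) / DR := by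
      change ((rt + rr : ℕ) : ℝ) / DR = _
      push_cast; ring
    rw [this]; linarith
  have a3 : |dy - dx| ≤ ((Nat.add X Y : ℕ) : ℝ) / DR := by
    refine (abs_sub _ _).trans ?_
    have : ((Nat.add X Y : ℕ) : ℝ) / DR = (X : ℝ) / DR + (Y : ℝ) / DR := by
      change ((X + Y : ℕ) : ℝ) / DR = _
      push_cast; ring
    rw [this]; linarith
  have a4 : |dr - dT| ≤ ((Nat.add rt rr : ℕ) : ℝ) / DR := by
    refine (abs_sub _ _).trans ?_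
    have : ((Nat.add rt rr : ℕ) : ℝ) / DR = (rt : ℝ) / DR + (rr : ℝ) / DR := by
      change ((rt + rr : ℕ) : ℝ) / DR = _
      push_cast; ring
    rw [this]; linarith
  have b1 := hP.R (dx + dy) (dT + dr) a1 a2
  have b2 := hQ.R (dy - dx) (dr - dT) a3 a4
  have b3 := hR.R dx dT hx hT
  have b4 := hG.R dx hx
  rw [eP1, eQ1, show x + y + (dx + dy) = x + dx + (y + dy) by ring,
    show T + ρ + (dT + dr) = T + dT + (ρ + dr) by ring] at b1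
  rw [eP2, eQ2, show y - x + (dy - dx) = y + dy - (x + dx) by ring,
    show ρ - T + (dr - dT) = ρ + dr - (T + dT) by ring] at b2
  rw [eP3, eQ3] at b3
  have c1 := abs_mul_le_of b1 k1
  have c2 := abs_mul_le_of b2 k2
  have c3 := abs_mul_le_of b3 k3
  rw [abs_le] at c1 c2 c3 b4 ⊢
  unfold Sf qf
  constructor
  · linarith [c1.1, c2.1, c3.1, b4.1]
  · linarith [c1.2, c2.2, c3.2, b4.2]

/-- the gauge from the two points -/
theorem gg_of {x cg KG : ℝ} {X X2 : ℕ} {N1 p1 q1 e1 f1 N2 p2 q2 e2 f2 : S} {R1 R2 : ℕ}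
    (h1 : S.PtG (x / 2) 0 X2 0 N1 p1 q1 e1 f1 R1)
    (h2 : S.PtG (x / 2 + 1 / 2) 0 X2 0 N2 p2 q2 e2 f2 R2)
    (hX : X ≤ 2 * X2) (k4 : |cg| ≤ KG) :
    GG cg x ((X : ℝ) / DR) ((PP (x / 2) 0 - PP (x / 2 + 1 / 2) 0) / 2)
      ((1 + (PP (x / 2) 0 ^ 2 - QQ (x / 2) 0 ^ 2) -
        (1 + (PP (x / 2 + 1 / 2) 0 ^ 2 - QQ (x / 2 + 1 / 2) 0 ^ 2))) / 2 / 2)
      (KG * ((R1 : ℝ) / DR + (R2 : ℝ) / DR)) := by
  have hD := DR_pos
  refine ⟨fun dx hx => abs_mul_le_of ?_ k4⟩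
  have a1 : |dx / 2| ≤ (X2 : ℝ) / DR := by
    rw [abs_div, abs_of_pos (by norm_num : (0 : ℝ) < 2)]
    have : (X : ℝ) ≤ 2 * X2 := by exact_mod_cast hX
    have h3 : (X : ℝ) / DR ≤ 2 * X2 / DR := by gcongr
    have h4 : 2 * (X2 : ℝ) / DR = 2 * ((X2 : ℝ) / DR) := by ring
    linarith
  have a2 : |(0 : ℝ)| ≤ ((0 : ℕ) : ℝ) / DR := by simp
  have b1 := h1.R (dx / 2) 0 a1 a2
  have b2 := h2.R (dx / 2) 0 a1 a2
  rw [show x / 2 + dx / 2 = (x + dx) / 2 by ring, add_zero] at b1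
  rw [show x / 2 + 1 / 2 + dx / 2 = (x + dx) / 2 + 1 / 2 by ring, add_zero] at b2
  rw [abs_le] at b1 b2 ⊢
  unfold gA
  constructor
  · linarith [b1.1, b2.2]
  · linarith [b1.2, b2.1]

theorem gg_zero {x X : ℝ} : GG 0 x X 0 0 0 := ⟨fun dx _ => by simp⟩

namespace S

/-! ### kernel part -/

/-- `cos 2πx`, `sin 2πx`, `cos πx`, `sin πx` -/
def cS (x : ℕ) : S := ⟨(scN (Nat.mul 2 x)).cp, (scN (Nat.mul 2 x)).cq, 4⟩
def sS (x : ℕ) : S := ⟨(scN (Nat.mul 2 x)).sp, (scN (Nat.mul 2 x)).sq, 4⟩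
def cH (x : ℕ) : S := ⟨(scN x).cp, (scN x).cq, 4⟩
def sH (x : ℕ) : S := ⟨(scN x).sp, (scN x).sq, 4⟩

theorem cS_enc (x : ℕ) : (cS x).Enc (Real.cos (2 * Real.pi * ((x : ℝ) / DR))) := by
  have h := (scN_good (Nat.mul 2 x)).1
  have e : Real.pi * ((Nat.mul 2 x : ℕ) : ℝ) / DR = 2 * Real.pi * ((x : ℝ) / DR) := by
    change Real.pi * ((2 * x : ℕ) : ℝ) / DR = _
    push_cast; ring
  rw [e] at h
  exact h

theorem sS_enc (x : ℕ) : (sS x).Enc (Real.sin (2 * Real.pi * ((x : ℝ) / DR))) := by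
  have h := (scN_good (Nat.mul 2 x)).2.1
  have e : Real.pi * ((Nat.mul 2 x : ℕ) : ℝ) / DR = 2 * Real.pi * ((x : ℝ) / DR) := by
    change Real.pi * ((2 * x : ℕ) : ℝ) / DR = _
    push_cast; ring
  rw [e] at h
  exact h

theorem cH_enc (x : ℕ) : (cH x).Enc (Real.cos (2 * Real.pi * ((x : ℝ) / DR / 2))) := by
  have h := (scN_good x).1
  have e : Real.pi * (x : ℝ) / DR = 2 * Real.pi * ((x : ℝ) / DR / 2) := by ring
  rw [e] at h
  exact h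

theorem sH_enc (x : ℕ) : (sH x).Enc (Real.sin (2 * Real.pi * ((x : ℝ) / DR / 2))) := by
  have h := (scN_good x).2.1
  have e : Real.pi * (x : ℝ) / DR = 2 * Real.pi * ((x : ℝ) / DR / 2) := by ring
  rw [e] at h
  exact h

/-- `cosh 2πT`, `sinh 2πT` -/
def chC (T : ℕ) (k : S → S → Bool) : Bool :=
  cond (Nat.ble (Nat.mul 2 T) 1152921504606846976)
    (cond (Nat.ble (piN (Nat.mul 2 T)) 68719476736)
      (cond (Nat.ble 1 (expLo (piN (Nat.mul 2 T))))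
        (k ⟨(A.chsh (ex4 (piN (Nat.mul 2 T)))).a, 0, Nat.add (A.chsh (ex4 (piN (Nat.mul 2 T)))).b 5⟩
          ⟨(A.chsh (ex4 (piN (Nat.mul 2 T)))).c, 0, Nat.add (A.chsh (ex4 (piN (Nat.mul 2 T)))).d 5⟩)
        false) false) false

theorem cond_ff {b c : Bool} (h : cond b c false = true) : b = true ∧ c = true := by
  rcases b with _ | _
  · rw [cond_false] at h
    exact absurd h Bool.false_ne_true
  · rw [cond_true] at h
    exact ⟨rfl, h⟩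

theorem chC_spec {T : ℕ} {k : S → S → Bool} (h : chC T k = true) : ∃ a b : S,
    a.Enc (Real.cosh (2 * Real.pi * ((T : ℝ) / DR))) ∧
    b.Enc (Real.sinh (2 * Real.pi * ((T : ℝ) / DR))) ∧ k a b = true := by
  have hD := DR_pos
  unfold chC at h
  obtain ⟨g1, h⟩ := cond_ff h
  obtain ⟨g2, h⟩ := cond_ff h
  obtain ⟨g3, h⟩ := cond_ff h
  refine ⟨_, _, ?_, ?_, h⟩
  all_goals
    have k1 := Nat.le_of_ble_eq_true g1
    have k2 := Nat.le_of_ble_eq_true g2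
    have k3 := Nat.le_of_ble_eq_true g3
    have hp := piN_err' k1
    set m := piN (Nat.mul 2 T) with hm
    have hmD : (m : ℝ) ≤ DR := by
      have : ((m : ℕ) : ℝ) ≤ ((68719476736 : ℕ) : ℝ) := by exact_mod_cast k2
      rwa [DN_cast] at this
    have hm16 : (m : ℝ) ≤ 16 * DR := by linarith
    have hgood := ex4_good hm16 (by omega : 0 < expLo m)
    have hm0 : 0 ≤ (m : ℝ) / DR := by positivity
    obtain ⟨c1, c2, -⟩ := A.chsh_good hm0 hgood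
    set δ : ℝ := 2 * Real.pi * T - m with hδ
    have hδ2 : |δ| ≤ 2 := by
      have e : ((Nat.mul 2 T : ℕ) : ℝ) = 2 * T := by
        change ((2 * T : ℕ) : ℝ) = _
        push_cast; ring
      rw [e] at hp
      rw [hδ]
      convert hp using 2
      ring
    have hDb : (1000000 : ℝ) ≤ DR := by unfold DR; norm_num
    have hδD : |δ / DR| ≤ 2 / 1000000 := by
      rw [abs_div, abs_of_pos hD]
      exact div_le_div₀ (by norm_num) hδ2 (by norm_num) hDb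
    obtain ⟨r1, r2⟩ := A.cosh_remainder (c := (m : ℝ)) (δ := δ) (hδD.trans (by norm_num))
    have e1 : ((m : ℝ) + δ) / DR = 2 * Real.pi * ((T : ℝ) / DR) := by rw [hδ]; ring
    rw [e1] at r1 r2
    have hm1 : (m : ℝ) / DR ≤ 1 := by rw [div_le_one hD]; exact hmD
    have hcosh : Real.cosh ((m : ℝ) / DR) ≤ 16 / 10 := by
      have h1 : Real.cosh ((m : ℝ) / DR) ≤ Real.cosh 1 := by
        rw [Real.cosh_le_cosh, abs_of_nonneg hm0, abs_one]; exact hm1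
      refine h1.trans ?_
      rw [Real.cosh_eq]
      have h2 := Real.exp_one_lt_d9
      have h3 : Real.exp (-1) ≤ 4 / 10 := by
        rw [Real.exp_neg]
        have := Real.exp_one_gt_d9
        rw [inv_le_comm₀ (Real.exp_pos 1) (by norm_num)]
        norm_num
        linarith
      linarith
    have hsinh : |Real.sinh ((m : ℝ) / DR)| ≤ Real.cosh ((m : ℝ) / DR) := by
      rw [abs_le]
      have := Real.exp_pos ((m : ℝ) / DR)
      have := Real.exp_pos (-((m : ℝ) / DR))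
      rw [Real.cosh_eq, Real.sinh_eq]
      constructor <;> linarith
    have hch0 := Real.cosh_pos ((m : ℝ) / DR)
    have hq : Real.cosh ((m : ℝ) / DR) * DR * ((δ / DR) ^ 2 / 2 + |δ / DR| ^ 3 * (2 / 9)) ≤ 1 := by
      have u1 : (δ / DR) ^ 2 / 2 + |δ / DR| ^ 3 * (2 / 9) ≤ (δ / DR) ^ 2 := by
        have : |δ / DR| ^ 3 = (δ / DR) ^ 2 * |δ / DR| := by
          rw [← sq_abs (δ / DR)]; ring
        rw [this]
        have := sq_nonneg (δ / DR)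
        nlinarith
      have u2 : (δ / DR) ^ 2 * DR ≤ 4 / 1000000 := by
        have : (δ / DR) ^ 2 * DR = δ ^ 2 / DR := by field_simp
        rw [this]
        have u3 : δ ^ 2 ≤ 4 := by
          rw [← sq_abs]
          nlinarith [abs_nonneg δ]
        exact div_le_div₀ (by norm_num) u3 (by norm_num) hDb
      have u4 : 0 ≤ (δ / DR) ^ 2 * DR := by positivity
      calc _ ≤ Real.cosh ((m : ℝ) / DR) * DR * (δ / DR) ^ 2 := by gcongr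
        _ = Real.cosh ((m : ℝ) / DR) * ((δ / DR) ^ 2 * DR) := by ring
        _ ≤ 16 / 10 * (4 / 1000000) := by gcongr
        _ ≤ 1 := by norm_num
    have r1' := r1.trans hq
    have r2' := r2.trans hq
    have v1 : |Real.sinh ((m : ℝ) / DR) * δ| ≤ 16 / 10 * 2 := by
      rw [abs_mul]; exact mul_le_mul (hsinh.trans hcosh) hδ2 (abs_nonneg _) (by norm_num)
    have v2 : |Real.cosh ((m : ℝ) / DR) * δ| ≤ 16 / 10 * 2 := by
      rw [abs_mul, abs_of_pos hch0]; exact mul_le_mul hcosh hδ2 (abs_nonneg _) (by norm_num)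
    rw [abs_le] at r1' r2' v1 v2 c1 c2
  · change |_ * DR - (((A.chsh (ex4 m)).a : ℝ) - ((0 : ℕ) : ℝ))| ≤ (((A.chsh (ex4 m)).b + 5 : ℕ) : ℝ)
    push_cast
    rw [abs_le]
    constructor <;> linarith [r1'.1, r1'.2, v1.1, v1.2, c1.1, c1.2]
  · change |_ * DR - (((A.chsh (ex4 m)).c : ℝ) - ((0 : ℕ) : ℝ))| ≤ (((A.chsh (ex4 m)).d + 5 : ℕ) : ℝ)
    push_cast
    rw [abs_le]
    constructor <;> linarith [r2'.1, r2'.2, v2.1, v2.2, c2.1, c2.2]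

end S

end Pool.Agent.Work.NumI
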