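import Mathlib
import Pool.Agent.Work.NumI.SLeaf

/-!
# Verified numerics: differences of `lnA` in six variables, kernel part
-/

namespace Pool.Agent.Work.NumI

namespace S

/-- the gauge, coefficient `m - n` -/
def gau (m n x X : ℕ) (k : S → S → S → S → ℕ → Bool) : Bool :=
  cond (Nat.beq (Nat.add m n) 0) (k one one zero zero 0)
    (ptS (cH x) (sH x) one zero (Nat.div (Nat.add X 1) 2) 0 fun N1 P1 _ E1 _ R1 =>
      ptS (neg (cH x)) (neg (sH x)) one zero (Nat.div (Nat.add X 1) 2) 0 fun N2 P2 _ E2 _ R2 =>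
        k N1 N2 (half (sub P1 P2)) (half (half (sub E1 E2))) (Nat.mul (Nat.add m n) (Nat.add R1 R2)))

/-- one side -/
def side (mP nP mQ nQ mR nR mg ng x y X Y rt rr : ℕ) (chT shT CP SP CQ SQ : S)
    (k : S → S → S → S → S → S → S → S → S → S → S → S → S → S → S → S → ℕ → Bool) : Bool :=
  let a := mul (cS x) (cS y)
  let b := mul (sS x) (sS y)
  let c := mul (sS x) (cS y)
  let d := mul (cS x) (sS y)
  ptS (sub a b) (add c d) CP SP (Nat.add X Y) (Nat.add rt rr) fun N1 P1 Q1 E1 F1 R1 =>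
  ptS (add a b) (sub d c) CQ SQ (Nat.add X Y) (Nat.add rt rr) fun N2 P2 Q2 E2 F2 R2 =>
  ptS (cS x) (sS x) chT shT X rt fun N3 P3 Q3 E3 F3 R3 =>
  gau mg ng x X fun M1 M2 g h RG =>
    let p1 := zsm mP nP P1
    let p2 := zsm mQ nQ P2
    let p3 := zsm mR nR P3
    let q1 := zsm mP nP Q1
    let q2 := zsm mQ nQ Q2
    let q3 := zsm mR nR Q3
    let e1 := zsm mP nP E1
    let e2 := zsm mQ nQ E2
    let e3 := zsm mR nR E3
    let f1 := zsm mP nP F1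
    let f2 := zsm mQ nQ F2
    let f3 := zsm mR nR F3
    k N1 N2 N3 M1 M2 (add (add (sub p1 p2) p3) (zsm mg ng g)) (add p1 p2) (add (sub q1 q2) q3)
      (add q1 q2) (add (add (add e1 e2) e3) (zsm mg ng h)) (add (add e1 e2) e3) (add e1 e2)
      (sub e1 e2) (zsm 2 0 (add (add f1 f2) f3)) (zsm 2 0 (sub f1 f2)) (zsm 2 0 (add f1 f2))
      (Nat.add (Nat.add (Nat.add (Nat.mul (Nat.add mP nP) R1) (Nat.mul (Nat.add mQ nQ) R2))
        (Nat.mul (Nat.add mR nR) R3)) RG)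

/-- the meaning of the data of a side -/
structure SdS (cP cQ cR cg T ρ x y : ℝ) (rt rr X Y : ℕ) (N1 N2 N3 M1 M2 gx gy gt gr hxx A3 A2 B2
    fxt fm fp : S) (R : ℕ) (vx vy vt vr vh v3 v2 vb wt wm wp : ℝ) : Prop where
  p1 : 0 < MM (x + y) (T + ρ)
  p2 : 0 < MM (y - x) (ρ - T)
  p3 : 0 < MM x T
  N1 : N1.Enc (2 * MM (x + y) (T + ρ))
  N2 : N2.Enc (2 * MM (y - x) (ρ - T))
  N3 : N3.Enc (2 * MM x T)
  M : cg = 0 ∨ (0 < MM (x / 2) 0 ∧ 0 < MM (x / 2 + 1 / 2) 0 ∧ M1.Enc (2 * MM (x / 2) 0) ∧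
    M2.Enc (2 * MM (x / 2 + 1 / 2) 0))
  gx : gx.Enc vx
  gy : gy.Enc vy
  gt : gt.Enc vt
  gr : gr.Enc vr
  hxx : hxx.Enc vh
  A3 : A3.Enc v3
  A2 : A2.Enc v2
  B2 : B2.Enc vb
  fxt : fxt.Enc wt
  fm : fm.Enc wm
  fp : fp.Enc wp
  D : SdG cP cQ cR cg T ρ x y ((rt : ℝ) / DR) ((rr : ℝ) / DR) ((X : ℝ) / DR) ((Y : ℝ) / DR)
    vx vy vt vr vh v3 v2 vb wt wm wp ((R : ℝ) / DR)

theorem abs_nsub (m n : ℕ) : |(m : ℝ) - n| ≤ ((Nat.add m n : ℕ) : ℝ) := by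
  change |(m : ℝ) - n| ≤ ((m + n : ℕ) : ℝ)
  push_cast
  exact A.abs_pq m n

theorem gau_spec {m n x X : ℕ} {k : S → S → S → S → ℕ → Bool} (h : gau m n x X k = true) :
    ∃ (M1 M2 g h : S) (R : ℕ) (vg vh : ℝ), (((m : ℝ) - n = 0) ∨ (0 < MM ((x : ℝ) / DR / 2) 0 ∧
      0 < MM ((x : ℝ) / DR / 2 + 1 / 2) 0 ∧ M1.Enc (2 * MM ((x : ℝ) / DR / 2) 0) ∧
      M2.Enc (2 * MM ((x : ℝ) / DR / 2 + 1 / 2) 0))) ∧ g.Enc vg ∧ h.Enc vh ∧
      GG ((m : ℝ) - n) ((x : ℝ) / DR) ((X : ℝ) / DR) vg vh ((R : ℝ) / DR) ∧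
      k M1 M2 g h R = true := by
  have hD := DR_pos
  unfold gau at h
  rcases g0 : Nat.beq (Nat.add m n) 0 with _ | _
  swap
  · rw [g0, cond_true] at h
    have hmn : m + n = 0 := Nat.eq_of_beq_eq_true g0
    have hm : m = 0 := by omega
    have hn : n = 0 := by omega
    refine ⟨_, _, _, _, _, 0, 0, Or.inl (by rw [hm, hn]; simp), Enc.zero, Enc.zero, ?_, h⟩
    rw [hm, hn]
    simpa using gg_zero (x := (x : ℝ) / DR) (X := (X : ℝ) / DR)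
  · rw [g0, cond_false] at h
    have hC : one.Enc (Real.cosh (2 * Real.pi * 0)) := by simpa using Enc.one
    have hS : zero.Enc (Real.sinh (2 * Real.pi * 0)) := by simpa using Enc.zero
    obtain ⟨N1, P1, Q1, E1, F1, R1, s1, h⟩ := ptS_spec (cH_enc x) (sH_enc x) hC hS h
    have e0 : 2 * Real.pi * ((x : ℝ) / DR / 2 + 1 / 2) = 2 * Real.pi * ((x : ℝ) / DR / 2) + Real.pi := by
      ring
    have hc : (neg (cH x)).Enc (Real.cos (2 * Real.pi * ((x : ℝ) / DR / 2 + 1 / 2))) := by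
      rw [e0, Real.cos_add_pi]; exact (cH_enc x).neg
    have hs : (neg (sH x)).Enc (Real.sin (2 * Real.pi * ((x : ℝ) / DR / 2 + 1 / 2))) := by
      rw [e0, Real.sin_add_pi]; exact (sH_enc x).neg
    obtain ⟨N2, P2, Q2, E2, F2, R2, s2, h⟩ := ptS_spec hc hs hC hS h
    refine ⟨_, _, _, _, _, _, _, Or.inr ⟨s1.pos, s2.pos, s1.N, s2.N⟩, (s1.P.sub s2.P).half,
      (s1.E.sub s2.E).half.half, ?_, h⟩
    have hX : X ≤ 2 * Nat.div (Nat.add X 1) 2 := by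
      change X ≤ 2 * ((X + 1) / 2)
      omega
    have := gg_of s1 s2 hX (abs_nsub m n)
    have e : (((Nat.mul (Nat.add m n) (Nat.add R1 R2) : ℕ) : ℝ)) / DR =
        ((Nat.add m n : ℕ) : ℝ) * ((R1 : ℝ) / DR + (R2 : ℝ) / DR) := by
      change (((m + n) * (R1 + R2) : ℕ) : ℝ) / DR = ((m + n : ℕ) : ℝ) * _
      push_cast; ring
    rw [e]
    exact this

theorem side_spec {mP nP mQ nQ mR nR mg ng x y X Y rt rr : ℕ} {chT shT CP SP CQ SQ : S}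
    {k : S → S → S → S → S → S → S → S → S → S → S → S → S → S → S → S → ℕ → Bool} {T ρ : ℝ}
    (hcT : chT.Enc (Real.cosh (2 * Real.pi * T))) (hsT : shT.Enc (Real.sinh (2 * Real.pi * T)))
    (hCP : CP.Enc (Real.cosh (2 * Real.pi * (T + ρ)))) (hSP : SP.Enc (Real.sinh (2 * Real.pi * (T + ρ))))
    (hCQ : CQ.Enc (Real.cosh (2 * Real.pi * (ρ - T)))) (hSQ : SQ.Enc (Real.sinh (2 * Real.pi * (ρ - T))))
    (h : side mP nP mQ nQ mR nR mg ng x y X Y rt rr chT shT CP SP CQ SQ k = true) :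
    ∃ N1 N2 N3 M1 M2 gx gy gt gr hxx A3 A2 B2 fxt fm fp R vx vy vt vr vh v3 v2 vb wt wm wp,
      SdS ((mP : ℝ) - nP) ((mQ : ℝ) - nQ) ((mR : ℝ) - nR) ((mg : ℝ) - ng) T ρ ((x : ℝ) / DR)
        ((y : ℝ) / DR) rt rr X Y N1 N2 N3 M1 M2 gx gy gt gr hxx A3 A2 B2 fxt fm fp R
        vx vy vt vr vh v3 v2 vb wt wm wp ∧
      k N1 N2 N3 M1 M2 gx gy gt gr hxx A3 A2 B2 fxt fm fp R = true := by
  have hD := DR_pos
  unfold side at h
  dsimp only at h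
  have cx := cS_enc x
  have cy := cS_enc y
  have sx := sS_enc x
  have sy := sS_enc y
  have u1 : (sub (mul (cS x) (cS y)) (mul (sS x) (sS y))).Enc
      (Real.cos (2 * Real.pi * ((x : ℝ) / DR + (y : ℝ) / DR))) := by
    rw [show 2 * Real.pi * ((x : ℝ) / DR + (y : ℝ) / DR) = 2 * Real.pi * ((x : ℝ) / DR) +
      2 * Real.pi * ((y : ℝ) / DR) by ring, Real.cos_add]
    exact (cx.mul cy).sub (sx.mul sy)
  have u2 : (add (mul (sS x) (cS y)) (mul (cS x) (sS y))).Enc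
      (Real.sin (2 * Real.pi * ((x : ℝ) / DR + (y : ℝ) / DR))) := by
    rw [show 2 * Real.pi * ((x : ℝ) / DR + (y : ℝ) / DR) = 2 * Real.pi * ((x : ℝ) / DR) +
      2 * Real.pi * ((y : ℝ) / DR) by ring, Real.sin_add]
    exact (sx.mul cy).add (cx.mul sy)
  have u3 : (add (mul (cS x) (cS y)) (mul (sS x) (sS y))).Enc
      (Real.cos (2 * Real.pi * ((y : ℝ) / DR - (x : ℝ) / DR))) := by
    rw [show 2 * Real.pi * ((y : ℝ) / DR - (x : ℝ) / DR) = 2 * Real.pi * ((y : ℝ) / DR) -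
      2 * Real.pi * ((x : ℝ) / DR) by ring, Real.cos_sub]
    have := (cx.mul cy).add (sx.mul sy)
    rwa [mul_comm (Real.cos (2 * Real.pi * ((x : ℝ) / DR))),
      mul_comm (Real.sin (2 * Real.pi * ((x : ℝ) / DR)))] at this
  have u4 : (sub (mul (cS x) (sS y)) (mul (sS x) (cS y))).Enc
      (Real.sin (2 * Real.pi * ((y : ℝ) / DR - (x : ℝ) / DR))) := by
    rw [show 2 * Real.pi * ((y : ℝ) / DR - (x : ℝ) / DR) = 2 * Real.pi * ((y : ℝ) / DR) -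
      2 * Real.pi * ((x : ℝ) / DR) by ring, Real.sin_sub]
    have := (cx.mul sy).sub (sx.mul cy)
    rwa [mul_comm (Real.cos (2 * Real.pi * ((x : ℝ) / DR))),
      mul_comm (Real.sin (2 * Real.pi * ((x : ℝ) / DR)))] at this
  obtain ⟨N1, P1, Q1, E1, F1, R1, s1, h⟩ := ptS_spec u1 u2 hCP hSP h
  obtain ⟨N2, P2, Q2, E2, F2, R2, s2, h⟩ := ptS_spec u3 u4 hCQ hSQ h
  obtain ⟨N3, P3, Q3, E3, F3, R3, s3, h⟩ := ptS_spec cx sx hcT hsT h
  obtain ⟨M1, M2, g, hh, RG, vg, vh, hM, hg, hhh, hG, h⟩ := gau_spec h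
  have hd := sd_of (cP := (mP : ℝ) - nP) (cQ := (mQ : ℝ) - nQ) (cR := (mR : ℝ) - nR) s1 s2 s3 hG
    (abs_nsub mP nP) (abs_nsub mQ nQ) (abs_nsub mR nR) rfl rfl rfl rfl rfl rfl
  have e : ((Nat.add (Nat.add (Nat.add (Nat.mul (Nat.add mP nP) R1) (Nat.mul (Nat.add mQ nQ) R2))
      (Nat.mul (Nat.add mR nR) R3)) RG : ℕ) : ℝ) / DR = ((Nat.add mP nP : ℕ) : ℝ) * ((R1 : ℝ) / DR) +
      ((Nat.add mQ nQ : ℕ) : ℝ) * ((R2 : ℝ) / DR) + ((Nat.add mR nR : ℕ) : ℝ) * ((R3 : ℝ) / DR) +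
      (RG : ℝ) / DR := by
    change (((mP + nP) * R1 + (mQ + nQ) * R2 + (mR + nR) * R3 + RG : ℕ) : ℝ) / DR =
      ((mP + nP : ℕ) : ℝ) * _ + ((mQ + nQ : ℕ) : ℝ) * _ + ((mR + nR : ℕ) : ℝ) * _ + _
    push_cast; ring
  rw [← e] at hd
  have e2 : (((2 : ℕ) : ℝ) - ((0 : ℕ) : ℝ)) = 2 := by norm_num
  have w1 := (((s1.F.zsm mP nP).add (s2.F.zsm mQ nQ)).add (s3.F.zsm mR nR)).zsm 2 0
  have w2 := ((s1.F.zsm mP nP).sub (s2.F.zsm mQ nQ)).zsm 2 0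
  have w3 := ((s1.F.zsm mP nP).add (s2.F.zsm mQ nQ)).zsm 2 0
  rw [e2] at w1 w2 w3
  exact ⟨_, _, _, _, _, _, _, _, _, _, _, _, _, _, _, _, _, _, _, _, _, _, _, _, _, _, _, _,
    ⟨s1.pos, s2.pos, s3.pos, s1.N, s2.N, s3.N, hM,
      (((s1.P.zsm mP nP).sub (s2.P.zsm mQ nQ)).add (s3.P.zsm mR nR)).add (hg.zsm mg ng),
      (s1.P.zsm mP nP).add (s2.P.zsm mQ nQ),
      ((s1.Q.zsm mP nP).sub (s2.Q.zsm mQ nQ)).add (s3.Q.zsm mR nR),
      (s1.Q.zsm mP nP).add (s2.Q.zsm mQ nQ),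
      (((s1.E.zsm mP nP).add (s2.E.zsm mQ nQ)).add (s3.E.zsm mR nR)).add (hhh.zsm mg ng),
      ((s1.E.zsm mP nP).add (s2.E.zsm mQ nQ)).add (s3.E.zsm mR nR),
      (s1.E.zsm mP nP).add (s2.E.zsm mQ nQ),
      (s1.E.zsm mP nP).sub (s2.E.zsm mQ nQ), w1, w2, w3, hd⟩, h⟩

/-! ### the leaf -/

theorem lnA_log2 {u t : ℝ} (h : 0 < MM u t) : lnA u t = (Real.log 2 + Real.log (2 * MM u t)) / 2 := by
  have f1 : 4 * (Real.sin (Real.pi * u) ^ 2 + Real.sinh (Real.pi * t) ^ 2) = 2 * (2 * MM u t) := by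
    unfold MM; ring
  unfold lnA
  rw [f1, Real.log_mul (by norm_num) (by positivity)]

/-- logarithm of a quotient -/
def lgQ (N N' : S) (k : S → Bool) : Bool := bO (inv N') fun i => bO (log (mul N i)) k

theorem lgQ_spec {N N' : S} {u t u' t' : ℝ} {k : S → Bool} (h1 : N.Enc (2 * MM u t))
    (h2 : N'.Enc (2 * MM u' t')) (p1 : 0 < MM u t) (p2 : 0 < MM u' t') (h : lgQ N N' k = true) :
    ∃ l : S, l.Enc (2 * (lnA u t - lnA u' t')) ∧ k l = true := by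
  unfold lgQ at h
  obtain ⟨i, hi, h⟩ := bO_some h
  obtain ⟨l, hl, h⟩ := bO_some h
  refine ⟨l, ?_, h⟩
  have := ((h1.mul (h2.inv hi).1).log hl).1
  have e : Real.log (2 * MM u t * (2 * MM u' t')⁻¹) = 2 * (lnA u t - lnA u' t') := by
    rw [Real.log_mul (by positivity) (by positivity), Real.log_inv, lnA_log2 p1, lnA_log2 p2]
    ring
  rwa [e] at this

/-- the gauge part of the value -/
def lgG (m n : ℕ) (M1 M2 M1' M2' : S) (k : S → Bool) : Bool :=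
  cond (Nat.beq (Nat.add m n) 0) (k zero)
    (bO (inv (mul M1' M2)) fun i => bO (log (mul (mul M1 M2') i)) fun l => k (zsm m n l))

theorem lgG_spec {m n : ℕ} {M1 M2 M1' M2' : S} {x x' : ℝ} {k : S → Bool}
    (hM : ((m : ℝ) - n) = 0 ∨ (0 < MM (x / 2) 0 ∧ 0 < MM (x / 2 + 1 / 2) 0 ∧
      M1.Enc (2 * MM (x / 2) 0) ∧ M2.Enc (2 * MM (x / 2 + 1 / 2) 0)))
    (hM' : ((m : ℝ) - n) = 0 ∨ (0 < MM (x' / 2) 0 ∧ 0 < MM (x' / 2 + 1 / 2) 0 ∧
      M1'.Enc (2 * MM (x' / 2) 0) ∧ M2'.Enc (2 * MM (x' / 2 + 1 / 2) 0)))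
    (h : lgG m n M1 M2 M1' M2' k = true) :
    ∃ l : S, l.Enc (((m : ℝ) - n) * (2 * (gA x - gA x'))) ∧ k l = true := by
  unfold lgG at h
  rcases g0 : Nat.beq (Nat.add m n) 0 with _ | _
  swap
  · rw [g0, cond_true] at h
    have hmn : m + n = 0 := Nat.eq_of_beq_eq_true g0
    have hm : m = 0 := by omega
    have hn : n = 0 := by omega
    refine ⟨_, ?_, h⟩
    rw [hm, hn]
    simpa using Enc.zero
  · rw [g0, cond_false] at h
    obtain ⟨i, hi, h⟩ := bO_some h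
    obtain ⟨l, hl, h⟩ := bO_some h
    refine ⟨_, ?_, h⟩
    rcases hM with h0 | ⟨p1, p2, m1, m2⟩
    · rw [h0, zero_mul]
      -- the value is not used
      rcases hM' with _ | _
      all_goals
        have e : (m : ℝ) = n := by linarith
        have e' : m = n := by exact_mod_cast e
        have hl0 : (zsm m n l).Enc 0 := by
          rw [e']
          unfold Enc zsm
          change |0 * DR - (((n * l.p + n * l.q : ℕ) : ℝ) - ((n * l.q + n * l.p : ℕ) : ℝ))| ≤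
            (((n + n) * l.r : ℕ) : ℝ)
          push_cast
          rw [show (0 : ℝ) * DR - ((n : ℝ) * l.p + n * l.q - (n * l.q + n * l.p)) = 0 by ring, abs_zero]
          positivity
        exact hl0
    rcases hM' with h0 | ⟨p1', p2', m1', m2'⟩
    · rw [h0, zero_mul]
      have e : (m : ℝ) = n := by linarith
      have e' : m = n := by exact_mod_cast e
      rw [e']
      unfold Enc zsm
      change |0 * DR - (((n * l.p + n * l.q : ℕ) : ℝ) - ((n * l.q + n * l.p : ℕ) : ℝ))| ≤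
        (((n + n) * l.r : ℕ) : ℝ)
      push_cast
      rw [show (0 : ℝ) * DR - ((n : ℝ) * l.p + n * l.q - (n * l.q + n * l.p)) = 0 by ring, abs_zero]
      positivity
    · have hv := (((m1.mul m2').mul ((m1'.mul m2).inv hi).1).log hl).1
      have e : Real.log (2 * MM (x / 2) 0 * (2 * MM (x' / 2 + 1 / 2) 0) *
          (2 * MM (x' / 2) 0 * (2 * MM (x / 2 + 1 / 2) 0))⁻¹) = 2 * (gA x - gA x') := by
        unfold gA
        rw [Real.log_mul (by positivity) (by positivity), Real.log_inv,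
          Real.log_mul (x := 2 * MM (x / 2) 0) (by positivity) (by positivity),
          Real.log_mul (x := 2 * MM (x' / 2) 0) (by positivity) (by positivity),
          lnA_log2 p1, lnA_log2 p2, lnA_log2 p1', lnA_log2 p2']
        ring
      rw [e] at hv
      exact hv.zsm m n

/-- first order loss, scale `D ^ 2` -/
def lossG (gx gy gt gr gx' gy' gt' gr' : S) (rt rr X Y X' Y' : ℕ) : ℕ :=
  Nat.add (Nat.add (Nat.add (Nat.mul (ab gx) X) (Nat.mul (ab gy) Y))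
    (Nat.add (Nat.mul (ab gx') X') (Nat.mul (ab gy') Y')))
    (Nat.add (Nat.mul (ab (sub gt gt')) rt) (Nat.mul (ab (sub gr gr')) rr))

/-- second order loss, scale `D ^ 3` -/
def lossW (hxx A3 A2 B2 fxt fm fp hxx' A3' A2' B2' fxt' fm' fp' : S) (rt rr X Y X' Y' : ℕ) : ℕ :=
  Nat.add (Nat.add (Nat.add (Nat.add (Nat.mul (ps hxx) (Nat.mul X X)) (Nat.mul (ps A2) (Nat.mul Y Y)))
    (Nat.add (Nat.mul (ng hxx') (Nat.mul X' X')) (Nat.mul (ng A2') (Nat.mul Y' Y'))))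
    (Nat.add (Nat.mul (ps (sub A3' A3)) (Nat.mul rt rt)) (Nat.mul (ps (sub A2' A2)) (Nat.mul rr rr))))
    (Nat.mul 2 (Nat.add (Nat.add (Nat.add (Nat.mul (ab B2) (Nat.mul X Y)) (Nat.mul (ab B2') (Nat.mul X' Y')))
      (Nat.mul (ab (sub B2' B2)) (Nat.mul rt rr)))
      (Nat.add
        (Nat.add (Nat.add (Nat.mul (ab fxt) (Nat.mul X rt)) (Nat.mul (ab fm) (Nat.add (Nat.mul X rr)
          (Nat.mul Y rt)))) (Nat.mul (ab fp) (Nat.mul Y rr)))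
        (Nat.add (Nat.add (Nat.mul (ab fxt') (Nat.mul X' rt)) (Nat.mul (ab fm') (Nat.add (Nat.mul X' rr)
          (Nat.mul Y' rt)))) (Nat.mul (ab fp') (Nat.mul Y' rr))))))

def loss (G W R R' : ℕ) : ℕ :=
  Nat.add (Nat.add (Nat.add (Nat.div (Nat.mul 31416 G) 687194767360000) 1)
    (Nat.add (Nat.div (Nat.mul 49349 W) 47223664828696452136960000) 1)) (Nat.add R R')

/-- `Sf (x, y) - Sf (x', y') > - (c0p - c0q) / D` -/
def leaf (mP nP mQ nQ mR nR mg ng c0p c0q t off ρ x' y' x y rt rr X' Y' X Y : ℕ) : Bool :=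
  chC (Nat.add (Nat.sub t off) (Nat.sub off t)) fun chT sh0 =>
  chC ρ fun chR shR =>
    let shT := cond (Nat.ble off t) sh0 (neg sh0)
    let a := mul chT chR
    let b := mul shT shR
    let c := mul shT chR
    let d := mul chT shR
    side mP nP mQ nQ mR nR mg ng x y X Y rt rr chT shT (add a b) (add c d) (sub a b) (sub d c)
      fun N1 N2 N3 M1 M2 gx gy gt gr hxx A3 A2 B2 fxt fm fp R =>
    side mP nP mQ nQ mR nR mg ng x' y' X' Y' rt rr chT shT (add a b) (add c d) (sub a b) (sub d c)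
      fun N1' N2' N3' M1' M2' gx' gy' gt' gr' hxx' A3' A2' B2' fxt' fm' fp' R' =>
    lgQ N1 N1' fun l1 => lgQ N2 N2' fun l2 => lgQ N3 N3' fun l3 =>
    lgG mg ng M1 M2 M1' M2' fun l4 =>
      let V := add (add (zsm mP nP l1) (zsm mQ nQ l2)) (add (zsm mR nR l3) l4)
      let L := loss (lossG gx gy gt gr gx' gy' gt' gr' rt rr X Y X' Y')
        (lossW hxx A3 A2 B2 fxt fm fp hxx' A3' A2' B2' fxt' fm' fp' rt rr X Y X' Y') R R'
      Nat.ble (Nat.add (Nat.add V.q V.r) (Nat.add (Nat.mul 2 (Nat.add c0q L)) 1))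
        (Nat.add V.p (Nat.mul 2 c0p))

theorem lossG_cast (gx gy gt gr gx' gy' gt' gr' : S) (rt rr X Y X' Y' : ℕ) :
    ((lossG gx gy gt gr gx' gy' gt' gr' rt rr X Y X' Y' : ℕ) : ℝ) =
      (gx.ab : ℝ) * X + gy.ab * Y + (gx'.ab * X' + gy'.ab * Y') +
      ((sub gt gt').ab * rt + (sub gr gr').ab * rr) := by
  change ((gx.ab * X + gy.ab * Y + (gx'.ab * X' + gy'.ab * Y') +
      ((sub gt gt').ab * rt + (sub gr gr').ab * rr) : ℕ) : ℝ) = _
  push_cast; ring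

theorem lossW_cast (hxx A3 A2 B2 fxt fm fp hxx' A3' A2' B2' fxt' fm' fp' : S)
    (rt rr X Y X' Y' : ℕ) :
    ((lossW hxx A3 A2 B2 fxt fm fp hxx' A3' A2' B2' fxt' fm' fp' rt rr X Y X' Y' : ℕ) : ℝ) =
      (hxx.ps : ℝ) * (X * X) + A2.ps * (Y * Y) + (hxx'.ng * (X' * X') + A2'.ng * (Y' * Y')) +
      ((sub A3' A3).ps * (rt * rt) + (sub A2' A2).ps * (rr * rr)) +
      2 * (B2.ab * (X * Y) + B2'.ab * (X' * Y') + (sub B2' B2).ab * (rt * rr) +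
        (fxt.ab * (X * rt) + fm.ab * (X * rr + Y * rt) + fp.ab * (Y * rr) +
        (fxt'.ab * (X' * rt) + fm'.ab * (X' * rr + Y' * rt) + fp'.ab * (Y' * rr)))) := by
  change ((hxx.ps * (X * X) + A2.ps * (Y * Y) + (hxx'.ng * (X' * X') + A2'.ng * (Y' * Y')) +
      ((sub A3' A3).ps * (rt * rt) + (sub A2' A2).ps * (rr * rr)) +
      2 * (B2.ab * (X * Y) + B2'.ab * (X' * Y') + (sub B2' B2).ab * (rt * rr) +
        (fxt.ab * (X * rt) + fm.ab * (X * rr + Y * rt) + fp.ab * (Y * rr) +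
        (fxt'.ab * (X' * rt) + fm'.ab * (X' * rr + Y' * rt) + fp'.ab * (Y' * rr)))) : ℕ) : ℝ) = _
  push_cast; ring

theorem loss_spec {G W R R' : ℕ} {g w : ℝ} (hg0 : 0 ≤ g) (hw0 : 0 ≤ w)
    (hg : g * DR ^ 2 ≤ G) (hw : w * DR ^ 3 ≤ W) :
    (Real.pi * g + Real.pi ^ 2 / 2 * w + (R : ℝ) / DR + (R' : ℝ) / DR) * DR ≤ (loss G W R R' : ℕ) := by
  have hD := DR_pos
  have hpi := Real.pi_pos
  have hpi1 : Real.pi ≤ 3.1416 := Real.pi_lt_d4.le
  have hpi2 : Real.pi ≤ 3.14159265358979323847 := Real.pi_lt_d20.le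
  have e1 : ((687194767360000 : ℕ) : ℝ) = 10000 * DR := by unfold DR; norm_num
  have e2 : ((47223664828696452136960000 : ℕ) : ℝ) = 10000 * DR ^ 2 := by unfold DR; norm_num
  have k1 := lt_ndiv (31416 * G) (b := 687194767360000) (by norm_num)
  have k2 := lt_ndiv (49349 * W) (b := 47223664828696452136960000) (by norm_num)
  rw [e1] at k1
  rw [e2] at k2
  have e3 : ((loss G W R R' : ℕ) : ℝ) = ((31416 * G / 687194767360000 : ℕ) : ℝ) + 1 +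
      (((49349 * W / 47223664828696452136960000 : ℕ) : ℝ) + 1) + (R + R') := by
    change ((31416 * G / 687194767360000 + 1 + (49349 * W / 47223664828696452136960000 + 1) +
      (R + R') : ℕ) : ℝ) = _
    push_cast; ring
  rw [e3]
  push_cast at k1 k2
  have a1 : Real.pi * g * DR ≤ 31416 * G / (10000 * DR) := by
    rw [le_div_iff₀ (by positivity)]
    have h1 : Real.pi * g * DR * (10000 * DR) = 10000 * Real.pi * (g * DR ^ 2) := by ring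
    rw [h1]
    have h2 : 0 ≤ g * DR ^ 2 := by positivity
    have h3 : 10000 * Real.pi * (g * DR ^ 2) ≤ 31416 * (g * DR ^ 2) := by nlinarith
    linarith
  have a2 : Real.pi ^ 2 / 2 * w * DR ≤ 49349 * W / (10000 * DR ^ 2) := by
    rw [le_div_iff₀ (by positivity)]
    have h1 : Real.pi ^ 2 / 2 * w * DR * (10000 * DR ^ 2) = 5000 * Real.pi ^ 2 * (w * DR ^ 3) := by ring
    rw [h1]
    have h2 : 0 ≤ w * DR ^ 3 := by positivity
    have h4 : 5000 * Real.pi ^ 2 ≤ 49349 := by nlinarith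
    have h3 : 5000 * Real.pi ^ 2 * (w * DR ^ 3) ≤ 49349 * (w * DR ^ 3) :=
      mul_le_mul_of_nonneg_right h4 h2
    linarith
  have a3 : (Real.pi * g + Real.pi ^ 2 / 2 * w + (R : ℝ) / DR + (R' : ℝ) / DR) * DR =
      Real.pi * g * DR + Real.pi ^ 2 / 2 * w * DR + R + R' := by field_simp
  rw [a3]
  linarith

theorem abs_le_div {v c : ℝ} {r : ℕ} (h : |v * DR - c| ≤ r) : |v - c / DR| ≤ (r : ℝ) / DR := by
  have hD := DR_pos
  have e : v - c / DR = (v * DR - c) / DR := by field_simp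
  rw [e, abs_div, abs_of_pos hD]
  gcongr

theorem leaf_spec {mP nP mQ nQ mR nR mg ng c0p c0q t off ρn x' y' x y rt rr X' Y' X Y : ℕ}
    (h : leaf mP nP mQ nQ mR nR mg ng c0p c0q t off ρn x' y' x y rt rr X' Y' X Y = true)
    {T ρ vx' vy' vx vy : ℝ} (hT : |T * DR - ((t : ℝ) - off)| ≤ rt) (hρ : |ρ * DR - ρn| ≤ rr)
    (hx' : |vx' * DR - x'| ≤ X') (hy' : |vy' * DR - y'| ≤ Y')
    (hx : |vx * DR - x| ≤ X) (hy : |vy * DR - y| ≤ Y) :
    -(((c0p : ℝ) - c0q) / DR) <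
      Sf ((mP : ℝ) - nP) ((mQ : ℝ) - nQ) ((mR : ℝ) - nR) ((mg : ℝ) - ng) T ρ vx vy -
      Sf ((mP : ℝ) - nP) ((mQ : ℝ) - nQ) ((mR : ℝ) - nR) ((mg : ℝ) - ng) T ρ vx' vy' := by
  have hD := DR_pos
  unfold leaf at h
  obtain ⟨chT, sh0, hcT, hs0, h⟩ := chC_spec h
  obtain ⟨chR, shR, hcR, hsR, h⟩ := chC_spec h
  dsimp only at h
  set T0 : ℝ := ((t : ℝ) - off) / DR with hT0
  set ρ0 : ℝ := (ρn : ℝ) / DR with hρ0
  -- the sign of `T`
  have hTT : chT.Enc (Real.cosh (2 * Real.pi * T0)) ∧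
      (cond (Nat.ble off t) sh0 (neg sh0)).Enc (Real.sinh (2 * Real.pi * T0)) := by
    rcases g : Nat.ble off t with _ | _
    · rw [cond_false]
      have hlt : t < off := by
        by_contra hc
        have : Nat.ble off t = true := Nat.ble_eq_true_of_le (by omega)
        rw [g] at this
        exact absurd this (by simp)
      have e : ((Nat.add (Nat.sub t off) (Nat.sub off t) : ℕ) : ℝ) / DR = -T0 := by
        have : Nat.add (Nat.sub t off) (Nat.sub off t) = off - t := by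
          change (t - off) + (off - t) = off - t
          omega
        rw [this, Nat.cast_sub hlt.le, hT0]; ring
      rw [e] at hcT hs0
      rw [show 2 * Real.pi * -T0 = -(2 * Real.pi * T0) by ring] at hcT hs0
      rw [Real.cosh_neg] at hcT
      rw [Real.sinh_neg] at hs0
      refine ⟨hcT, ?_⟩
      have := hs0.neg
      rwa [neg_neg] at this
    · rw [cond_true]
      have hle : off ≤ t := Nat.le_of_ble_eq_true g
      have e : ((Nat.add (Nat.sub t off) (Nat.sub off t) : ℕ) : ℝ) / DR = T0 := by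
        have : Nat.add (Nat.sub t off) (Nat.sub off t) = t - off := by
          change (t - off) + (off - t) = t - off
          omega
        rw [this, Nat.cast_sub hle, hT0]
      rw [e] at hcT hs0
      exact ⟨hcT, hs0⟩
  obtain ⟨hcT, hsT⟩ := hTT
  set shT := cond (Nat.ble off t) sh0 (neg sh0) with hshT
  have hCP : (add (mul chT chR) (mul shT shR)).Enc (Real.cosh (2 * Real.pi * (T0 + ρ0))) := by
    rw [show 2 * Real.pi * (T0 + ρ0) = 2 * Real.pi * T0 + 2 * Real.pi * ρ0 by ring, Real.cosh_add]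
    exact (hcT.mul hcR).add (hsT.mul hsR)
  have hSP : (add (mul shT chR) (mul chT shR)).Enc (Real.sinh (2 * Real.pi * (T0 + ρ0))) := by
    rw [show 2 * Real.pi * (T0 + ρ0) = 2 * Real.pi * T0 + 2 * Real.pi * ρ0 by ring, Real.sinh_add]
    exact (hsT.mul hcR).add (hcT.mul hsR)
  have hCQ : (sub (mul chT chR) (mul shT shR)).Enc (Real.cosh (2 * Real.pi * (ρ0 - T0))) := by
    rw [show 2 * Real.pi * (ρ0 - T0) = 2 * Real.pi * ρ0 - 2 * Real.pi * T0 by ring, Real.cosh_sub]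
    have := (hcT.mul hcR).sub (hsT.mul hsR)
    rwa [mul_comm (Real.cosh (2 * Real.pi * T0)), mul_comm (Real.sinh (2 * Real.pi * T0))] at this
  have hSQ : (sub (mul chT shR) (mul shT chR)).Enc (Real.sinh (2 * Real.pi * (ρ0 - T0))) := by
    rw [show 2 * Real.pi * (ρ0 - T0) = 2 * Real.pi * ρ0 - 2 * Real.pi * T0 by ring, Real.sinh_sub]
    have := (hcT.mul hsR).sub (hsT.mul hcR)
    rwa [mul_comm (Real.cosh (2 * Real.pi * T0)), mul_comm (Real.sinh (2 * Real.pi * T0))] at this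
  obtain ⟨N1, N2, N3, M1, M2, gx, gy, gt, gr, hxx, A3, A2, B2, fxt, fm, fp, R, ux, uy, ut, ur, uh, u3,
    u2, ub, zt, zm, zp, S1, h⟩ := side_spec hcT hsT hCP hSP hCQ hSQ h
  obtain ⟨N1', N2', N3', M1', M2', gx', gy', gt', gr', hxx', A3', A2', B2', fxt', fm', fp', R', ux', uy',
    ut', ur', uh', u3', u2', ub', zt', zm', zp', S2, h⟩ := side_spec hcT hsT hCP hSP hCQ hSQ h
  obtain ⟨l1, hl1, h⟩ := lgQ_spec S1.N1 S2.N1 S1.p1 S2.p1 h
  obtain ⟨l2, hl2, h⟩ := lgQ_spec S1.N2 S2.N2 S1.p2 S2.p2 h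
  obtain ⟨l3, hl3, h⟩ := lgQ_spec S1.N3 S2.N3 S1.p3 S2.p3 h
  obtain ⟨l4, hl4, h⟩ := lgG_spec S1.M S2.M h
  have hfin := Nat.le_of_ble_eq_true h
  clear h
  -- the value
  have hV := ((hl1.zsm mP nP).add (hl2.zsm mQ nQ)).add ((hl3.zsm mR nR).add hl4)
  set V := add (add (zsm mP nP l1) (zsm mQ nQ l2)) (add (zsm mR nR l3) l4) with hVd
  set G := lossG gx gy gt gr gx' gy' gt' gr' rt rr X Y X' Y' with hG
  set W := lossW hxx A3 A2 B2 fxt fm fp hxx' A3' A2' B2' fxt' fm' fp' rt rr X Y X' Y' with hW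
  -- nonnegative bounds
  have ps0 : ∀ a : S, (0 : ℝ) ≤ (a.ps : ℝ) := fun a => Nat.cast_nonneg _
  have ng0 : ∀ a : S, (0 : ℝ) ≤ (a.ng : ℝ) := fun a => Nat.cast_nonneg _
  have le_ps : ∀ {a : S} {v : ℝ}, a.Enc v → v ≤ (a.ps : ℝ) / DR := fun ha => by
    rw [le_div_iff₀ hD]; exact ha.ps
  have le_ng : ∀ {a : S} {v : ℝ}, a.Enc v → -v ≤ (a.ng : ℝ) / DR := fun ha => by
    rw [le_div_iff₀ hD]; exact ha.ng
  have le_ab : ∀ {a : S} {v : ℝ}, a.Enc v → |v| ≤ (a.ab : ℝ) / DR := fun ha => by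
    rw [le_div_iff₀ hD]; exact ha.ab
  have key := sides_sub S1.D S2.D
    (dT := T - T0) (dr := ρ - ρ0) (dx := vx - (x : ℝ) / DR) (dy := vy - (y : ℝ) / DR)
    (dx' := vx' - (x' : ℝ) / DR) (dy' := vy' - (y' : ℝ) / DR)
    (abs_le_div hT) (abs_le_div hρ) (abs_le_div hx) (abs_le_div hy) (abs_le_div hx') (abs_le_div hy')
    (le_ps S1.hxx) (div_nonneg (ps0 _) hD.le) (le_ps S1.A2) (div_nonneg (ps0 _) hD.le)
    (le_ng S2.hxx) (div_nonneg (ng0 _) hD.le) (le_ng S2.A2) (div_nonneg (ng0 _) hD.le)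
    (le_ps (S2.A3.sub S1.A3)) (div_nonneg (ps0 _) hD.le)
    (le_ps (S2.A2.sub S1.A2)) (div_nonneg (ps0 _) hD.le)
  rw [show T0 + (T - T0) = T by ring, show ρ0 + (ρ - ρ0) = ρ by ring,
    show (x : ℝ) / DR + (vx - (x : ℝ) / DR) = vx by ring,
    show (y : ℝ) / DR + (vy - (y : ℝ) / DR) = vy by ring,
    show (x' : ℝ) / DR + (vx' - (x' : ℝ) / DR) = vx' by ring,
    show (y' : ℝ) / DR + (vy' - (y' : ℝ) / DR) = vy' by ring] at key
  -- the losses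
  have q1 := le_ab S1.gx
  have q2 := le_ab S1.gy
  have q3 := le_ab S2.gx
  have q4 := le_ab S2.gy
  have q5 := le_ab (S1.gt.sub S2.gt)
  have q6 := le_ab (S1.gr.sub S2.gr)
  have q7 := le_ab S1.B2
  have q8 := le_ab S2.B2
  have q9 := le_ab (S2.B2.sub S1.B2)
  have q10 := le_ab S1.fxt
  have q11 := le_ab S1.fm
  have q12 := le_ab S1.fp
  have q13 := le_ab S2.fxt
  have q14 := le_ab S2.fm
  have q15 := le_ab S2.fp
  set g : ℝ := |ux| * ((X : ℝ) / DR) + |uy| * ((Y : ℝ) / DR) + |ux'| * ((X' : ℝ) / DR) +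
    |uy'| * ((Y' : ℝ) / DR) + |ut - ut'| * ((rt : ℝ) / DR) + |ur - ur'| * ((rr : ℝ) / DR) with hg
  set wv : ℝ := (hxx.ps : ℝ) / DR * ((X : ℝ) / DR) ^ 2 + (A2.ps : ℝ) / DR * ((Y : ℝ) / DR) ^ 2 +
    (hxx'.ng : ℝ) / DR * ((X' : ℝ) / DR) ^ 2 + (A2'.ng : ℝ) / DR * ((Y' : ℝ) / DR) ^ 2 +
    ((sub A3' A3).ps : ℝ) / DR * ((rt : ℝ) / DR) ^ 2 + ((sub A2' A2).ps : ℝ) / DR * ((rr : ℝ) / DR) ^ 2 +
    2 * (|ub| * (((X : ℝ) / DR) * ((Y : ℝ) / DR)) + |ub'| * (((X' : ℝ) / DR) * ((Y' : ℝ) / DR)) +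
      |ub' - ub| * (((rt : ℝ) / DR) * ((rr : ℝ) / DR)) +
      |zt| * (((X : ℝ) / DR) * ((rt : ℝ) / DR)) + |zm| * (((X : ℝ) / DR) * ((rr : ℝ) / DR)) +
      |zm| * (((Y : ℝ) / DR) * ((rt : ℝ) / DR)) + |zp| * (((Y : ℝ) / DR) * ((rr : ℝ) / DR)) +
      |zt'| * (((X' : ℝ) / DR) * ((rt : ℝ) / DR)) + |zm'| * (((X' : ℝ) / DR) * ((rr : ℝ) / DR)) +
      |zm'| * (((Y' : ℝ) / DR) * ((rt : ℝ) / DR)) + |zp'| * (((Y' : ℝ) / DR) * ((rr : ℝ) / DR)))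
    with hwv
  have hg0 : 0 ≤ g := by rw [hg]; positivity
  have hw0 : 0 ≤ wv := by rw [hwv]; positivity
  have hg1 : g * DR ^ 2 ≤ (G : ℕ) := by
    rw [hG, lossG_cast]
    have e : (gx.ab : ℝ) * X + gy.ab * Y + (gx'.ab * X' + gy'.ab * Y') +
      ((sub gt gt').ab * rt + (sub gr gr').ab * rr) =
      ((gx.ab : ℝ) / DR * ((X : ℝ) / DR) + (gy.ab : ℝ) / DR * ((Y : ℝ) / DR) +
        (gx'.ab : ℝ) / DR * ((X' : ℝ) / DR) + (gy'.ab : ℝ) / DR * ((Y' : ℝ) / DR) +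
        ((sub gt gt').ab : ℝ) / DR * ((rt : ℝ) / DR) +
        ((sub gr gr').ab : ℝ) / DR * ((rr : ℝ) / DR)) * DR ^ 2 := by
      field_simp
      ring
    rw [e, hg]
    gcongr
  have hw1 : wv * DR ^ 3 ≤ (W : ℕ) := by
    rw [hW, lossW_cast]
    have e : (hxx.ps : ℝ) * (X * X) + A2.ps * (Y * Y) + (hxx'.ng * (X' * X') + A2'.ng * (Y' * Y')) +
      ((sub A3' A3).ps * (rt * rt) + (sub A2' A2).ps * (rr * rr)) +
      2 * (B2.ab * (X * Y) + B2'.ab * (X' * Y') + (sub B2' B2).ab * (rt * rr) +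
        (fxt.ab * (X * rt) + fm.ab * (X * rr + Y * rt) + fp.ab * (Y * rr) +
        (fxt'.ab * (X' * rt) + fm'.ab * (X' * rr + Y' * rt) + fp'.ab * (Y' * rr)))) =
      ((hxx.ps : ℝ) / DR * ((X : ℝ) / DR) ^ 2 + (A2.ps : ℝ) / DR * ((Y : ℝ) / DR) ^ 2 +
    (hxx'.ng : ℝ) / DR * ((X' : ℝ) / DR) ^ 2 + (A2'.ng : ℝ) / DR * ((Y' : ℝ) / DR) ^ 2 +
    ((sub A3' A3).ps : ℝ) / DR * ((rt : ℝ) / DR) ^ 2 + ((sub A2' A2).ps : ℝ) / DR * ((rr : ℝ) / DR) ^ 2 +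
    2 * ((B2.ab : ℝ) / DR * (((X : ℝ) / DR) * ((Y : ℝ) / DR)) +
      (B2'.ab : ℝ) / DR * (((X' : ℝ) / DR) * ((Y' : ℝ) / DR)) +
      ((sub B2' B2).ab : ℝ) / DR * (((rt : ℝ) / DR) * ((rr : ℝ) / DR)) +
      (fxt.ab : ℝ) / DR * (((X : ℝ) / DR) * ((rt : ℝ) / DR)) +
      (fm.ab : ℝ) / DR * (((X : ℝ) / DR) * ((rr : ℝ) / DR)) +
      (fm.ab : ℝ) / DR * (((Y : ℝ) / DR) * ((rt : ℝ) / DR)) +
      (fp.ab : ℝ) / DR * (((Y : ℝ) / DR) * ((rr : ℝ) / DR)) +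
      (fxt'.ab : ℝ) / DR * (((X' : ℝ) / DR) * ((rt : ℝ) / DR)) +
      (fm'.ab : ℝ) / DR * (((X' : ℝ) / DR) * ((rr : ℝ) / DR)) +
      (fm'.ab : ℝ) / DR * (((Y' : ℝ) / DR) * ((rt : ℝ) / DR)) +
      (fp'.ab : ℝ) / DR * (((Y' : ℝ) / DR) * ((rr : ℝ) / DR)))) * DR ^ 3 := by
      field_simp
      ring
    rw [e, hwv]
    gcongr
  have hL := loss_spec (R := R) (R' := R') hg0 hw0 hg1 hw1
  set L := loss G W R R' with hLd
  -- the final inequality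
  have hfin' : ((V.q : ℝ) + V.r) + (2 * (c0q + L) + 1) ≤ V.p + 2 * c0p := by
    have : (V.q + V.r) + (2 * (c0q + L) + 1) ≤ V.p + 2 * c0p := hfin
    exact_mod_cast this
  unfold Enc at hV
  have hV1 := (abs_le.1 hV).1
  have eS : (((mP : ℝ) - nP) * (2 * (lnA ((x : ℝ) / DR + (y : ℝ) / DR) (T0 + ρ0) -
      lnA ((x' : ℝ) / DR + (y' : ℝ) / DR) (T0 + ρ0))) +
      ((mQ : ℝ) - nQ) * (2 * (lnA ((y : ℝ) / DR - (x : ℝ) / DR) (ρ0 - T0) -
      lnA ((y' : ℝ) / DR - (x' : ℝ) / DR) (ρ0 - T0))) +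
      (((mR : ℝ) - nR) * (2 * (lnA ((x : ℝ) / DR) T0 - lnA ((x' : ℝ) / DR) T0)) +
      ((mg : ℝ) - ng) * (2 * (gA ((x : ℝ) / DR) - gA ((x' : ℝ) / DR))))) =
      2 * (Sf ((mP : ℝ) - nP) ((mQ : ℝ) - nQ) ((mR : ℝ) - nR) ((mg : ℝ) - ng) T0 ρ0
        ((x : ℝ) / DR) ((y : ℝ) / DR) -
      Sf ((mP : ℝ) - nP) ((mQ : ℝ) - nQ) ((mR : ℝ) - nR) ((mg : ℝ) - ng) T0 ρ0
        ((x' : ℝ) / DR) ((y' : ℝ) / DR)) := by
    unfold Sf
    ring
  rw [eS] at hV1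
  have key2 := mul_le_mul_of_nonneg_right key hD.le
  have e5 : -(((c0p : ℝ) - c0q) / DR) * DR = -((c0p : ℝ) - c0q) := by field_simp
  have goal2 : -(((c0p : ℝ) - c0q) / DR) * DR <
      (Sf ((mP : ℝ) - nP) ((mQ : ℝ) - nQ) ((mR : ℝ) - nR) ((mg : ℝ) - ng) T ρ vx vy -
      Sf ((mP : ℝ) - nP) ((mQ : ℝ) - nQ) ((mR : ℝ) - nR) ((mg : ℝ) - ng) T ρ vx' vy') * DR := by
    rw [e5]
    refine lt_of_lt_of_le ?_ key2
    linarith
  exact lt_of_mul_lt_mul_right goal2 hD.le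

end S

end Pool.Agent.Work.NumI
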